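import Pool.Agent.H416.LG.Cl

set_option autoImplicit false

/-!
# Classes of good elements
-/

namespace Pool.Agent.H416.LG

open Finset
open Pool.Agent.H416 (RC LocRC OnCircle OnCAT0 OnNegType OnWalls)

universe u v w x y z

variable {G : Type w} [Group G]

/-- Change of the universe of the field. -/
theorem gl_up {C : Type w} [Group C] {F : Type x} [Field F] {n : ℕ} (ρ : C →* GL (Fin n) F) (g : C)
    (hρ : ∀ k : ℕ, 0 < k → ρ g ^ k ≠ 1) : ∃ ρ' : C →* GL (Fin n) (ULift.{z} F),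
      ∀ k : ℕ, 0 < k → ρ' g ^ k ≠ 1 := by
  let f : F →+* ULift.{z} F := (ULift.ringEquiv.symm : F ≃+* ULift.{z} F).toRingHom
  refine ⟨(Matrix.GeneralLinearGroup.map f).comp ρ, fun k hk h => hρ k hk ?_⟩
  rw [MonoidHom.comp_apply, ← map_pow] at h
  apply Units.ext
  ext i j
  have h1 := congrArg (fun x : GL (Fin n) (ULift.{z} F) => (x : Matrix (Fin n) (Fin n) (ULift.{z} F)) i j) h
  have h2 : f ((ρ g ^ k : GL (Fin n) F) i j) = (1 : Matrix (Fin n) (Fin n) (ULift.{z} F)) i j := h1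
  have h3 : (1 : Matrix (Fin n) (Fin n) (ULift.{z} F)) i j = f ((1 : Matrix (Fin n) (Fin n) F) i j) := by
    rw [Matrix.one_apply, Matrix.one_apply]
    split_ifs
    · exact (map_one f).symm
    · exact (map_zero f).symm
  rw [h3] at h2
  exact f.injective h2

theorem OnLinear.up {g : G} (h : OnLinear.{w, x} G g) : OnLinear.{w, max x z} G g := by
  intro H hH hg
  obtain ⟨F, _, n, ρ, hρ⟩ := h H hH hg
  obtain ⟨ρ', h'⟩ := gl_up.{w, x, z} ρ _ hρ
  exact ⟨ULift.{z} F, inferInstance, n, ρ', h'⟩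

theorem LinC.up {g : G} (h : LinC.{w, x} G g) : LinC.{w, max x z} G g := by
  obtain ⟨F, _, n, ρ, hρ⟩ := h
  obtain ⟨ρ', h'⟩ := gl_up.{w, x, z} ρ _ hρ
  exact ⟨ULift.{z} F, inferInstance, n, ρ', h'⟩

theorem Good.up {g : G} (h : Good.{w, 0} G g) : Good.{w, z} G g :=
  ⟨h.1, fun H hH hg => (h.2 H hH hg).imp (fun h => LinC.up.{w, 0, z} h) id⟩

theorem Good.of_rc' {g : G} (h : LocRC g) : Good.{w, z} G g := (Good.of_rc h).up

/-- Groups of automorphisms of finitely generated groups which are residually torsion-free nilpotent. -/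
theorem OnLinear.of_aut {Γ : Type y} [Group Γ] (hΓ : Group.FG Γ)
    (hsep : ∀ x : Γ, x ≠ 1 → ∃ c : ℕ, MonoidAlgebra.of ℚ Γ x - 1 ∉ augI Γ ^ c)
    (ψ : G →* MulAut Γ) {g : G} (hg : ∀ n : ℕ, 0 < n → ψ g ^ n ≠ 1) : OnLinear.{w, z} G g := by
  obtain ⟨m, ρ, hρ⟩ := Pool.Agent.H263.LG7.LG7_holds Γ hΓ hsep (ψ g) hg
  apply OnLinear.up.{w, 0, z}
  intro H _ hgH
  exact ⟨ℚ, inferInstance, m, (ρ.comp ψ).comp H.subtype, hρ⟩

/-- Groups of automorphisms of free groups of finite rank. -/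
theorem OnLinear.of_autFree {α : Type y} [Finite α] (ψ : G →* MulAut (FreeGroup α)) {g : G}
    (hg : ∀ n : ℕ, 0 < n → ψ g ^ n ≠ 1) : OnLinear.{w, z} G g := by
  refine OnLinear.of_aut ?_ (fun x hx => Pool.Agent.H397.LG14.LG14_holds α x hx) ψ hg
  haveI := Fintype.ofFinite α
  classical
  exact ⟨⟨Finset.univ.image FreeGroup.of, by
    rw [Finset.coe_image, Finset.coe_univ, Set.image_univ]
    exact FreeGroup.closure_range_of α⟩⟩

/-- Groups of automorphisms of Noetherian local algebras. -/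
theorem OnLinear.of_local {F : Type x} [Field F] [CharZero F] {R : Type x} [CommRing R]
    [IsNoetherianRing R] [IsLocalRing R] [Algebra F R] [Module.Finite F (IsLocalRing.ResidueField R)]
    (φ : G →* (R ≃ₐ[F] R)) {g : G} (hg : ∀ k : ℕ, 0 < k → φ g ^ k ≠ 1) :
    OnLinear.{w, max x z} G g :=
  OnLinear.up.{w, x, z} (Pool.Agent.H284.LG18.LG18_holds G φ g hg)

/-- Locally residually torsion-free nilpotent groups. -/
theorem OnLinear.of_res {g : G} (h : ∃ c : ℕ, MonoidAlgebra.of ℚ G g - 1 ∉ augI G ^ c) :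
    OnLinear.{w, z} G g :=
  OnLinear.up.{w, 0, z} (Pool.Agent.H286.LG17.LG17_holds G g h)

/-- Groups with a subgroup of finite index. -/
theorem OnLinear.of_index (H : Subgroup G) [H.FiniteIndex] {g : G} {k : ℕ} (hk : g ^ k ∈ H)
    (h : OnLinear.{w, z} H ⟨g ^ k, hk⟩) : OnLinear.{w, z} G g :=
  Pool.Agent.H772.LG15.LG15_holds G H g k hk h

end Pool.Agent.H416.LG
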