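import Pool.Agent.H416.LG.Fin
import Pool.Agent.H139.LG_LG13

set_option autoImplicit false

/-!
# The components of odd cycles at elements with local data
-/

namespace Pool.Agent.H416.LG

open Finset MonoidAlgebra
open Pool.Agent.V11187.DG (eT dg Cyc eT_zero eT_add eT_single eT_sum compT compT_eT dh dh_coeff Sg
  au au_dh T_auE Dm Dm_apply Hm)
open Pool.Agent.H416.QE (eT_comp torsion_of Hm_leib Hm_one Hm_mul Hm_deg Hm_sq)
open Pool.Agent.H416.HC (wordI finT sum_rest)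

universe u v w x y z

theorem odd_of_van {G : Type w} [Group G] {g : G} (hg : Van.{v, w} G g) :
    S_Odd.{v, w} G g :=
  Pool.Agent.H139.LG13.LG13_holds G g (even_of_van Pool.Agent.H878.LG10.LG10_holds hg)

variable {K : Type u} [CommRing K] {Ω : Type v} [Ring Ω] [Algebra K Ω] {G : Type w} [Group G]
  {M : Type x} [AddCommGroup M] [Module K M] {𝒜 : ℕ → Submodule K Ω} [GradedAlgebra 𝒜]
  {N : ℕ} {δ : Ω →ₗ[K] Ω} {T : Ω →ₗ[K] M} {A : Type y} [Ring A]

/-- The matrix `v δu (δv δu) ^ n` over `Ω[G]`. -/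
noncomputable def wordU (δ : Ω →ₗ[K] Ω) (σ : A →+* MonoidAlgebra Ω G) (n : ℕ) {d : ℕ}
    (u v : Matrix (Fin d) (Fin d) A) : Matrix (Fin d) (Fin d) (MonoidAlgebra Ω G) :=
  v.map σ * (u.map σ).map (dh G δ) *
    ((v.map σ).map (dh G δ) * (u.map σ).map (dh G δ)) ^ n

theorem sgn_word {R : Type*} [Ring R] (Q : R) (n : ℕ) :
    Q ^ (2 * n + 1) = (-1) ^ n * (Q * (-(Q * Q)) ^ n) := by
  have hcm : (-1 : R) ^ n * Q = Q * (-1) ^ n := ((Commute.neg_one_left Q).pow_left n).eq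
  have h1 : (-1 : R) ^ n * (-1) ^ n = 1 := by
    rw [← pow_add, ← two_mul, pow_mul, neg_one_sq, one_pow]
  rw [neg_pow (Q * Q) n, ← mul_assoc, ← mul_assoc, hcm, mul_assoc Q, h1, mul_one, ← pow_two,
    ← pow_mul, pow_succ']

theorem pow_odd_word (hc : Cyc N 𝒜 δ T) {σ : A →+* MonoidAlgebra Ω G}
    (hσ : ∀ a, σ a ∈ Sg 𝒜 G 0) {d : ℕ}
    (u v : Matrix (Fin d) (Fin d) A) (hvu : v * u = 1) (huv : u * v = 1) (n : ℕ) :
    (v.map σ * (u.map σ).map (dh G δ)) ^ (2 * n + 1) = (-1) ^ n * wordU δ σ n u v := by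
  have hm : ∀ a : Matrix (Fin d) (Fin d) A, a.map σ ∈ Hm 𝒜 G d 0 := fun a i j => hσ _
  have h1 : v.map σ * u.map σ = 1 := by
    rw [← Matrix.map_mul, hvu]
    exact Matrix.map_one σ (map_zero σ) (map_one σ)
  have h1' : u.map σ * v.map σ = 1 := by
    rw [← Matrix.map_mul, huv]
    exact Matrix.map_one σ (map_zero σ) (map_one σ)
  have hone : Dm δ G d 1 = 0 := by
    have h := Hm_leib hc 0 (1 : Matrix (Fin d) (Fin d) (MonoidAlgebra Ω G)) 1 Hm_one
    rw [one_mul, mul_one, pow_zero, one_smul, one_mul] at h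
    exact left_eq_add.1 h
  have h2 : Dm δ G d (v.map σ) = -(v.map σ * Dm δ G d (u.map σ) * v.map σ) := by
    have h := Hm_leib hc 0 (v.map σ) (u.map σ) (hm v)
    rw [h1, hone, pow_zero, one_smul] at h
    have h3 : Dm δ G d (v.map σ) * u.map σ = -(v.map σ * Dm δ G d (u.map σ)) :=
      eq_neg_of_add_eq_zero_left h.symm
    calc Dm δ G d (v.map σ) = Dm δ G d (v.map σ) * (u.map σ * v.map σ) := by rw [h1', mul_one]
      _ = Dm δ G d (v.map σ) * u.map σ * v.map σ := by rw [mul_assoc]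
      _ = _ := by rw [h3, neg_mul]
  have hD : ∀ X : Matrix (Fin d) (Fin d) (MonoidAlgebra Ω G), X.map (dh G δ) = Dm δ G d X :=
    fun X => rfl
  unfold wordU
  rw [hD, hD, h2]
  have h3 : -(v.map σ * Dm δ G d (u.map σ) * v.map σ) * Dm δ G d (u.map σ) =
      -((v.map σ * Dm δ G d (u.map σ)) * (v.map σ * Dm δ G d (u.map σ))) := by
    rw [neg_mul, mul_assoc (v.map σ * Dm δ G d (u.map σ))]
  rw [h3]
  exact sgn_word _ n

/-- The components of odd cycles on invertible matrices are torsion elements. -/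
theorem odd_tor {g : G} (hg : Van.{v, w} G g) (hc : Cyc N 𝒜 δ T) (hN : Odd N)
    {σ : A →+* MonoidAlgebra Ω G} (hσ : ∀ a, σ a ∈ Sg 𝒜 G 0) {d : ℕ}
    (u v : Matrix (Fin d) (Fin d) A) (huv : u * v = 1) (hvu : v * u = 1) (n : ℕ) :
    ∃ k : ℤ, k ≠ 0 ∧ k • compT T (wordU δ σ n u v) g = 0 := by
  refine torsion_of _ fun f => ?_
  obtain ⟨ε, hε, -, hodd⟩ := Pool.Agent.H881.LG11.LG11_holds N 𝒜 δ T hc f d
  have h1 : ∀ a b : Matrix (Fin d) (Fin d) A, a * b = 1 → a.map σ * b.map σ = 1 := by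
    intro a b hab
    rw [← Matrix.map_mul, hab]
    exact Matrix.map_one σ (map_zero σ) (map_one σ)
  have hev : ∀ a : Matrix (Fin d) (Fin d) A, ∀ h, ε ((mg (a.map σ)).coeff h) =
      (mg (a.map σ)).coeff h := by
    intro a h
    apply hε
    intro i j
    rw [mg_coeff]
    exact hσ _ h
  have h := odd_of_van hg ε _ _ (hodd hN) (mg (v.map σ)) (mg (u.map σ))
    (by rw [← mg_mul, h1 v u hvu, mg_one]) (by rw [← mg_mul, h1 u v huv, mg_one])
    (hev v) (hev u) n
  rw [← mg_dh, ← mg_mul, ← mg_pow, eT_mg, pow_odd_word hc hσ u v hvu huv n] at h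
  rcases neg_one_pow_eq_or (Matrix (Fin d) (Fin d) (MonoidAlgebra Ω G)) n with h2 | h2
  · rw [h2, one_mul] at h
    exact h
  · rw [h2, neg_one_mul] at h
    have h3 : compT T (-wordU δ σ n u v) g = -compT T (wordU δ σ n u v) g := by
      have h4 : compT T (-wordU δ σ n u v) g + compT T (wordU δ σ n u v) g = 0 := by
        rw [compT_eT, compT_eT, ← Finset.sum_add_distrib]
        refine Finset.sum_eq_zero fun i _ => ?_
        rw [← eT_add, Matrix.neg_apply, neg_add_cancel, eT_zero]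
      exact eq_neg_of_add_eq_zero_left h4
    rw [h3, map_neg, neg_eq_zero] at h
    exact h

/-- The values of odd cycles on invertible matrices. -/
theorem odd_val (hG : ∀ g : G, ¬ IsOfFinOrder g → Van.{v, w} G g)
    (hM : ∀ (k : ℤ) (m : M), k ≠ 0 → k • m = 0 → m = 0) (hc : Cyc N 𝒜 δ T) (hN : Odd N)
    {σ : A →+* MonoidAlgebra Ω G} (hσ : ∀ a, σ a ∈ Sg 𝒜 G 0) {d : ℕ}
    (u v : Matrix (Fin d) (Fin d) A) (huv : u * v = 1) (hvu : v * u = 1) (n : ℕ) :
    T (v.map ((au Ω G).comp σ) * (u.map ((au Ω G).comp σ)).map δ *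
      ((v.map ((au Ω G).comp σ)).map δ * (u.map ((au Ω G).comp σ)).map δ) ^ n).trace =
      finT T (wordU δ σ n u v) := by
  have h := sum_rest (T := T) (G := G) {()} (fun _ => 1) (fun _ : Unit => wordU δ σ n u v) (by
    intro g hg
    rw [Finset.sum_singleton, one_smul]
    obtain ⟨k, hk, hk1⟩ := odd_tor (hG g hg) hc hN hσ u v huv hvu n
    exact hM k _ hk hk1)
  rw [Finset.sum_singleton, Finset.sum_singleton, one_smul, one_smul] at h
  rw [← h]
  have h2 : ∀ X : Matrix (Fin d) (Fin d) (MonoidAlgebra Ω G),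
      (X.map (dh G δ)).map (au Ω G) = (X.map (au Ω G)).map δ := by
    intro X
    ext1 i j
    exact au_dh δ (X i j)
  have h3 : (wordU δ σ n u v).map (au Ω G) =
      v.map ((au Ω G).comp σ) * (u.map ((au Ω G).comp σ)).map δ *
      ((v.map ((au Ω G).comp σ)).map δ * (u.map ((au Ω G).comp σ)).map δ) ^ n := by
    unfold wordU
    rw [Matrix.map_mul, Matrix.map_mul]
    have h4 : ∀ (X : Matrix (Fin d) (Fin d) (MonoidAlgebra Ω G)) (k : ℕ),
        (X ^ k).map (au Ω G) = (X.map (au Ω G)) ^ k := fun X k =>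
      map_pow ((au Ω G).mapMatrix) X k
    rw [h4, Matrix.map_mul, h2, h2]
    rfl
  rw [← h3, Matrix.trace, map_sum]
  refine Finset.sum_congr rfl fun i _ => ?_
  exact T_auE _

end Pool.Agent.H416.LG
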