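import Pool.Agent.H416.LG.Tasks

/-!
# Project LG (helper416), task LG7 (helper263): automorphisms of infinite order of residually torsion-free
# nilpotent groups have infinite order in a finite dimensional representation
-/

set_option autoImplicit false

namespace Pool.Agent.H263.LG7

open Pool.Agent.H416.LG

universe u

variable {Γ : Type u} [Group Γ]

/-- the augmentation -/
noncomputable def eps (Γ : Type u) [Group Γ] : MonoidAlgebra ℚ Γ →ₐ[ℚ] ℚ :=
  MonoidAlgebra.lift ℚ ℚ Γ (1 : Γ →* ℚ)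

theorem mem_augI (a : MonoidAlgebra ℚ Γ) : a ∈ augI Γ ↔ eps Γ a = 0 := Iff.rfl

theorem eps_of (x : Γ) : eps Γ (MonoidAlgebra.of ℚ Γ x) = 1 := by
  unfold eps
  rw [MonoidAlgebra.lift_of]
  rfl

theorem sub_one_mem (x : Γ) : MonoidAlgebra.of ℚ Γ x - 1 ∈ augI Γ := by
  rw [mem_augI, map_sub, eps_of, map_one, sub_self]

/-- the action on the group algebra -/
noncomputable def hat (φ : MulAut Γ) : MonoidAlgebra ℚ Γ →ₐ[ℚ] MonoidAlgebra ℚ Γ :=
  MonoidAlgebra.lift ℚ (MonoidAlgebra ℚ Γ) Γ ((MonoidAlgebra.of ℚ Γ).comp φ.toMonoidHom)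

theorem hat_of (φ : MulAut Γ) (x : Γ) :
    hat φ (MonoidAlgebra.of ℚ Γ x) = MonoidAlgebra.of ℚ Γ (φ x) := by
  unfold hat
  rw [MonoidAlgebra.lift_of]
  rfl

theorem algHom_eq {B : Type*} [Semiring B] [Algebra ℚ B] {f g : MonoidAlgebra ℚ Γ →ₐ[ℚ] B}
    (h : ∀ x : Γ, f (MonoidAlgebra.of ℚ Γ x) = g (MonoidAlgebra.of ℚ Γ x)) : f = g := by
  apply AlgHom.ext
  intro a
  induction a using MonoidAlgebra.induction_on with
  | of x => exact h x
  | add a b ha hb => rw [map_add, map_add, ha, hb]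
  | smul r a ha => rw [map_smul, map_smul, ha]

theorem hat_mul (φ ψ : MulAut Γ) (a : MonoidAlgebra ℚ Γ) : hat (φ * ψ) a = hat φ (hat ψ a) := by
  have h : hat (φ * ψ) = (hat φ).comp (hat ψ) := by
    apply algHom_eq
    intro x
    rw [AlgHom.comp_apply, hat_of, hat_of, hat_of]
    rfl
  rw [h]
  rfl

theorem hat_one (a : MonoidAlgebra ℚ Γ) : hat (1 : MulAut Γ) a = a := by
  have h : hat (1 : MulAut Γ) = AlgHom.id ℚ _ := by
    apply algHom_eq
    intro x
    rw [hat_of]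
    rfl
  rw [h]
  rfl

theorem eps_hat (φ : MulAut Γ) (a : MonoidAlgebra ℚ Γ) : eps Γ (hat φ a) = eps Γ a := by
  have h : (eps Γ).comp (hat φ) = eps Γ := by
    apply algHom_eq
    intro x
    rw [AlgHom.comp_apply, hat_of, eps_of, eps_of]
  exact congrArg (fun f : MonoidAlgebra ℚ Γ →ₐ[ℚ] ℚ => f a) h

theorem hat_augI (φ : MulAut Γ) {a : MonoidAlgebra ℚ Γ} (h : a ∈ augI Γ) : hat φ a ∈ augI Γ := by
  rw [mem_augI] at h ⊢
  rw [eps_hat, h]

theorem mem_pow_zero (a : MonoidAlgebra ℚ Γ) : a ∈ augI Γ ^ 0 := by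
  rw [Submodule.pow_zero]
  show a ∈ LinearMap.range (LinearMap.toSpanSingleton _ _ (1 : MonoidAlgebra ℚ Γ))
  exact ⟨a, by rw [LinearMap.toSpanSingleton_apply, smul_eq_mul, mul_one]⟩

theorem pow_succ_le (c : ℕ) : augI Γ ^ (c + 1) ≤ augI Γ ^ c := by
  induction c with
  | zero => exact fun a _ => mem_pow_zero a
  | succ c ih =>
    rw [Submodule.pow_succ (n := c + 1), Submodule.pow_succ (n := c)]
    exact Submodule.mul_le.2 fun a ha b hb => Submodule.mul_mem_mul (ih ha) hb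

theorem pow_le {c d : ℕ} (h : c ≤ d) : augI Γ ^ d ≤ augI Γ ^ c := by
  induction d, h using Nat.le_induction with
  | base => exact le_rfl
  | succ d _ ih => exact (pow_succ_le d).trans ih

theorem hat_pow (φ : MulAut Γ) (c : ℕ) : ∀ a ∈ augI Γ ^ c, hat φ a ∈ augI Γ ^ c := by
  induction c with
  | zero => exact fun a _ => mem_pow_zero _
  | succ c ih =>
    intro a ha
    rw [Submodule.pow_succ] at ha ⊢
    induction ha using Submodule.mul_induction_on' with
    | mem_mul_mem b hb d hd =>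
      rw [map_mul]
      exact Submodule.mul_mem_mul (ih b hb) (hat_augI φ hd)
    | add x _ y _ hx hy =>
      rw [map_add]
      exact Submodule.add_mem _ hx hy

/-! ### Finite dimension -/

theorem dec_of {S : Finset Γ} (hS : Subgroup.closure (S : Set Γ) = ⊤) (g : Γ) :
    ∃ f : Γ → MonoidAlgebra ℚ Γ,
      MonoidAlgebra.of ℚ Γ g = 1 + ∑ x ∈ S, f x * (MonoidAlgebra.of ℚ Γ x - 1) := by
  classical
  have hg : g ∈ Subgroup.closure (S : Set Γ) := by rw [hS]; trivial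
  induction hg using Subgroup.closure_induction with
  | mem g hg =>
    refine ⟨fun x => if x = g then 1 else 0, ?_⟩
    have h1 : ∑ x ∈ S, (if x = g then (1 : MonoidAlgebra ℚ Γ) else 0) *
        (MonoidAlgebra.of ℚ Γ x - 1) = MonoidAlgebra.of ℚ Γ g - 1 := by
      rw [Finset.sum_eq_single g]
      · rw [if_pos rfl, one_mul]
      · intro x _ hx
        rw [if_neg hx, zero_mul]
      · intro h
        exact absurd hg h
    rw [h1]
    abel
  | one =>
    refine ⟨fun _ => 0, ?_⟩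
    rw [map_one]
    simp
  | mul g h _ _ ihg ihh =>
    obtain ⟨f, hf⟩ := ihg
    obtain ⟨f', hf'⟩ := ihh
    refine ⟨fun x => MonoidAlgebra.of ℚ Γ g * f' x + f x, ?_⟩
    have h1 : ∑ x ∈ S, (MonoidAlgebra.of ℚ Γ g * f' x + f x) * (MonoidAlgebra.of ℚ Γ x - 1) =
        MonoidAlgebra.of ℚ Γ g * ∑ x ∈ S, f' x * (MonoidAlgebra.of ℚ Γ x - 1) +
          ∑ x ∈ S, f x * (MonoidAlgebra.of ℚ Γ x - 1) := by
      rw [Finset.mul_sum, ← Finset.sum_add_distrib]
      refine Finset.sum_congr rfl fun x _ => ?_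
      rw [add_mul, mul_assoc]
    rw [h1, map_mul]
    have h2 : ∑ x ∈ S, f x * (MonoidAlgebra.of ℚ Γ x - 1) = MonoidAlgebra.of ℚ Γ g - 1 := by
      rw [hf]
      abel
    have h3 : ∑ x ∈ S, f' x * (MonoidAlgebra.of ℚ Γ x - 1) = MonoidAlgebra.of ℚ Γ h - 1 := by
      rw [hf']
      abel
    rw [h2, h3, mul_sub, mul_one]
    abel
  | inv g _ ihg =>
    obtain ⟨f, hf⟩ := ihg
    refine ⟨fun x => -(MonoidAlgebra.of ℚ Γ g⁻¹ * f x), ?_⟩
    have h1 : ∑ x ∈ S, -(MonoidAlgebra.of ℚ Γ g⁻¹ * f x) * (MonoidAlgebra.of ℚ Γ x - 1) =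
        -(MonoidAlgebra.of ℚ Γ g⁻¹ * ∑ x ∈ S, f x * (MonoidAlgebra.of ℚ Γ x - 1)) := by
      rw [Finset.mul_sum, ← Finset.sum_neg_distrib]
      refine Finset.sum_congr rfl fun x _ => ?_
      rw [neg_mul, mul_assoc]
    have h2 : ∑ x ∈ S, f x * (MonoidAlgebra.of ℚ Γ x - 1) = MonoidAlgebra.of ℚ Γ g - 1 := by
      rw [hf]
      abel
    rw [h1, h2, mul_sub, ← map_mul, inv_mul_cancel, map_one, mul_one]
    abel

theorem dec {S : Finset Γ} (hS : Subgroup.closure (S : Set Γ) = ⊤) (a : MonoidAlgebra ℚ Γ) :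
    ∃ (q : ℚ) (f : Γ → MonoidAlgebra ℚ Γ),
      a = q • (1 : MonoidAlgebra ℚ Γ) + ∑ x ∈ S, f x * (MonoidAlgebra.of ℚ Γ x - 1) := by
  induction a using MonoidAlgebra.induction_on with
  | of g =>
    obtain ⟨f, hf⟩ := dec_of hS g
    exact ⟨1, f, by rw [one_smul]; exact hf⟩
  | add a b ha hb =>
    obtain ⟨q, f, h1⟩ := ha
    obtain ⟨q', f', h2⟩ := hb
    refine ⟨q + q', fun x => f x + f' x, ?_⟩
    have h3 : ∑ x ∈ S, (f x + f' x) * (MonoidAlgebra.of ℚ Γ x - 1) =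
        ∑ x ∈ S, f x * (MonoidAlgebra.of ℚ Γ x - 1) +
          ∑ x ∈ S, f' x * (MonoidAlgebra.of ℚ Γ x - 1) := by
      rw [← Finset.sum_add_distrib]
      exact Finset.sum_congr rfl fun x _ => add_mul _ _ _
    rw [h3, add_smul, h1, h2]
    abel
  | smul r a ha =>
    obtain ⟨q, f, h1⟩ := ha
    refine ⟨r * q, fun x => r • f x, ?_⟩
    have h3 : ∑ x ∈ S, (r • f x) * (MonoidAlgebra.of ℚ Γ x - 1) =
        r • ∑ x ∈ S, f x * (MonoidAlgebra.of ℚ Γ x - 1) := by
      rw [Finset.smul_sum]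
      exact Finset.sum_congr rfl fun x _ => smul_mul_assoc _ _ _
    rw [h3, mul_smul, h1, smul_add]

theorem exists_V {S : Finset Γ} (hS : Subgroup.closure (S : Set Γ) = ⊤) (c : ℕ) :
    ∃ V : Submodule ℚ (MonoidAlgebra ℚ Γ), V.FG ∧ ∀ a, ∃ v ∈ V, a - v ∈ augI Γ ^ c := by
  induction c with
  | zero => exact ⟨⊥, Submodule.fg_bot, fun a => ⟨0, Submodule.zero_mem _, mem_pow_zero _⟩⟩
  | succ c ih =>
    obtain ⟨V, hV, h⟩ := ih
    refine ⟨Submodule.span ℚ {1} ⊔ ⨆ x ∈ S, V.map (LinearMap.mulRight ℚ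
      (MonoidAlgebra.of ℚ Γ x - 1)), ?_, fun a => ?_⟩
    · apply Submodule.FG.sup
      · exact Submodule.fg_span (Set.finite_singleton _)
      · exact Submodule.fg_biSup S _ fun x _ => hV.map _
    · obtain ⟨q, f, hf⟩ := dec hS a
      choose v hv hv' using h
      refine ⟨q • (1 : MonoidAlgebra ℚ Γ) + ∑ x ∈ S, v (f x) * (MonoidAlgebra.of ℚ Γ x - 1),
        ?_, ?_⟩
      · apply Submodule.add_mem
        · apply Submodule.mem_sup_left
          exact Submodule.smul_mem _ _ (Submodule.mem_span_singleton_self _)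
        · apply Submodule.mem_sup_right
          apply Submodule.sum_mem
          intro x hx
          apply Submodule.mem_iSup_of_mem x
          apply Submodule.mem_iSup_of_mem hx
          exact ⟨v (f x), hv _, rfl⟩
      · have e : a - (q • (1 : MonoidAlgebra ℚ Γ) +
            ∑ x ∈ S, v (f x) * (MonoidAlgebra.of ℚ Γ x - 1)) =
            ∑ x ∈ S, (f x - v (f x)) * (MonoidAlgebra.of ℚ Γ x - 1) := by
          have h4 : ∑ x ∈ S, (f x - v (f x)) * (MonoidAlgebra.of ℚ Γ x - 1) =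
              ∑ x ∈ S, f x * (MonoidAlgebra.of ℚ Γ x - 1) -
                ∑ x ∈ S, v (f x) * (MonoidAlgebra.of ℚ Γ x - 1) := by
            rw [← Finset.sum_sub_distrib]
            exact Finset.sum_congr rfl fun x _ => sub_mul _ _ _
          rw [h4]
          nth_rewrite 1 [hf]
          abel
        rw [e, Submodule.pow_succ]
        apply Submodule.sum_mem
        intro x _
        exact Submodule.mul_mem_mul (hv' _) (sub_one_mem x)

/-- the quotient -/
noncomputable abbrev PP (Γ : Type u) [Group Γ] (c : ℕ) : Submodule ℚ (MonoidAlgebra ℚ Γ) :=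
  (augI Γ ^ c).restrictScalars ℚ

theorem fin_quot {S : Finset Γ} (hS : Subgroup.closure (S : Set Γ) = ⊤) (c : ℕ) :
    Module.Finite ℚ (MonoidAlgebra ℚ Γ ⧸ PP Γ c) := by
  obtain ⟨V, hV, h⟩ := exists_V hS c
  have : Module.Finite ℚ V := Module.Finite.iff_fg.2 hV
  refine Module.Finite.of_surjective ((PP Γ c).mkQ.comp V.subtype) ?_
  intro w
  obtain ⟨a, rfl⟩ := Submodule.mkQ_surjective _ w
  obtain ⟨v, hv, hav⟩ := h a
  refine ⟨⟨v, hv⟩, ?_⟩
  rw [LinearMap.comp_apply]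
  symm
  rw [← sub_eq_zero, ← map_sub]
  show (PP Γ c).mkQ (a - v) = 0
  rw [Submodule.mkQ_apply, Submodule.Quotient.mk_eq_zero]
  exact hav

/-- the representation on the quotient -/
noncomputable def rr (Γ : Type u) [Group Γ] (c : ℕ) :
    MulAut Γ →* Module.End ℚ (MonoidAlgebra ℚ Γ ⧸ PP Γ c) where
  toFun φ := (PP Γ c).mapQ (PP Γ c) (hat φ).toLinearMap (fun a ha => hat_pow φ c a ha)
  map_one' := by
    apply LinearMap.ext
    intro w
    obtain ⟨a, rfl⟩ := Submodule.mkQ_surjective _ w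
    show (PP Γ c).mkQ (hat 1 a) = (PP Γ c).mkQ a
    rw [hat_one]
  map_mul' φ ψ := by
    apply LinearMap.ext
    intro w
    obtain ⟨a, rfl⟩ := Submodule.mkQ_surjective _ w
    show (PP Γ c).mkQ (hat (φ * ψ) a) = (PP Γ c).mkQ (hat φ (hat ψ a))
    rw [hat_mul]

theorem rr_mk (c : ℕ) (φ : MulAut Γ) (a : MonoidAlgebra ℚ Γ) :
    rr Γ c φ ((PP Γ c).mkQ a) = (PP Γ c).mkQ (hat φ a) := rfl

/-- from finite order of all representations to the ideals -/
theorem from_rep {S : Finset Γ} (hS : Subgroup.closure (S : Set Γ) = ⊤) {φ : MulAut Γ}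
    (h : ∀ (m : ℕ) (ρ : MulAut Γ →* GL (Fin m) ℚ), ∃ n : ℕ, 0 < n ∧ ρ φ ^ n = 1) (c : ℕ) :
    ∃ n : ℕ, 0 < n ∧ ∀ a, hat (φ ^ n) a - a ∈ augI Γ ^ c := by
  have := fin_quot hS c
  have : Module.Free ℚ (MonoidAlgebra ℚ Γ ⧸ PP Γ c) := Module.Free.of_divisionRing ℚ _
  let b := Module.finBasis ℚ (MonoidAlgebra ℚ Γ ⧸ PP Γ c)
  let e := LinearMap.toMatrixAlgEquiv b
  let ρ : MulAut Γ →* GL (Fin (Module.finrank ℚ (MonoidAlgebra ℚ Γ ⧸ PP Γ c))) ℚ :=
    (Units.map (e : Module.End ℚ (MonoidAlgebra ℚ Γ ⧸ PP Γ c) →* _)).comp (rr Γ c).toHomUnits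
  obtain ⟨n, hn, h1⟩ := h _ ρ
  refine ⟨n, hn, fun a => ?_⟩
  rw [← map_pow] at h1
  have h2 : e (rr Γ c (φ ^ n)) = 1 := congrArg Units.val h1
  have h3 : rr Γ c (φ ^ n) = 1 := by
    apply e.injective
    rw [h2, map_one]
  have h4 : rr Γ c (φ ^ n) ((PP Γ c).mkQ a) = (PP Γ c).mkQ a := by
    rw [h3]
    rfl
  rw [rr_mk, ← sub_eq_zero, ← map_sub, Submodule.mkQ_apply, Submodule.Quotient.mk_eq_zero] at h4
  exact h4

/-! ### The unipotent part -/

theorem step2 {ψ : MulAut Γ} (h2 : ∀ a, hat ψ a - a ∈ augI Γ ^ 2) (k : ℕ) :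
    ∀ a ∈ augI Γ ^ k, hat ψ a - a ∈ augI Γ ^ (k + 1) := by
  induction k with
  | zero => exact fun a _ => pow_le (by norm_num) (h2 a)
  | succ k ih =>
    intro a ha
    rw [Submodule.pow_succ] at ha
    induction ha using Submodule.mul_induction_on' with
    | mem_mul_mem b hb d hd =>
      have e : hat ψ (b * d) - b * d = (hat ψ b - b) * hat ψ d + b * (hat ψ d - d) := by
        rw [map_mul, sub_mul, mul_sub]
        abel
      rw [e]
      apply Submodule.add_mem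
      · rw [Submodule.pow_succ (n := k + 1)]
        exact Submodule.mul_mem_mul (ih b hb) (hat_augI ψ hd)
      · have h3 := h2 d
        rw [Submodule.pow_succ (n := 1), Submodule.pow_one] at h3
        rw [Submodule.pow_succ (n := k + 1), Submodule.pow_succ (n := k)]
        obtain ⟨w, hw⟩ : ∃ w, w = hat ψ d - d := ⟨_, rfl⟩
        rw [← hw] at h3 ⊢
        clear hw
        induction h3 using Submodule.mul_induction_on' with
        | mem_mul_mem x hx y hy =>
          rw [← mul_assoc]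
          exact Submodule.mul_mem_mul (Submodule.mul_mem_mul hb hx) hy
        | add x _ y _ hx hy =>
          rw [mul_add]
          exact Submodule.add_mem _ hx hy
    | add x _ y _ hx hy =>
      have e : hat ψ (x + y) - (x + y) = (hat ψ x - x) + (hat ψ y - y) := by
        rw [map_add]
        abel
      rw [e]
      exact Submodule.add_mem _ hx hy

theorem iter_mem {ψ : MulAut Γ} {k : ℕ} (h : ∀ a ∈ augI Γ ^ k, hat ψ a - a ∈ augI Γ ^ (k + 1))
    (i : ℕ) : ∀ a ∈ augI Γ ^ k, hat (ψ ^ i) a - a ∈ augI Γ ^ (k + 1) := by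
  induction i with
  | zero =>
    intro a _
    rw [pow_zero, hat_one, sub_self]
    exact Submodule.zero_mem _
  | succ i ih =>
    intro a ha
    have e : hat (ψ ^ (i + 1)) a - a = (hat (ψ ^ i) (hat ψ a) - hat ψ a) + (hat ψ a - a) := by
      rw [pow_succ, hat_mul]
      abel
    rw [e]
    exact Submodule.add_mem _ (ih _ (hat_pow ψ k a ha)) (h a ha)

theorem sum_iter (ψ : MulAut Γ) (n : ℕ) (a : MonoidAlgebra ℚ Γ) :
    hat (ψ ^ n) a - a = ∑ i ∈ Finset.range n, hat (ψ ^ i) (hat ψ a - a) := by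
  induction n with
  | zero => rw [pow_zero, hat_one, sub_self, Finset.sum_range_zero]
  | succ n ih =>
    rw [Finset.sum_range_succ, ← ih, pow_succ, hat_mul, map_sub]
    abel

theorem smul_mem' {I : Ideal (MonoidAlgebra ℚ Γ)} (q : ℚ) {a : MonoidAlgebra ℚ Γ} (h : a ∈ I) :
    q • a ∈ I := by
  have e : q • a = (q • (1 : MonoidAlgebra ℚ Γ)) * a := by
    rw [smul_mul_assoc, one_mul]
  rw [e]
  exact I.mul_mem_left _ h

theorem unip {ψ : MulAut Γ} (h2 : ∀ a, hat ψ a - a ∈ augI Γ ^ 2) {c n : ℕ} (hn : 0 < n)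
    (hc : ∀ a, hat (ψ ^ n) a - a ∈ augI Γ ^ c) (k : ℕ) (hk : k ≤ c) :
    ∀ a, hat ψ a - a ∈ augI Γ ^ k := by
  induction k with
  | zero => exact fun a => mem_pow_zero _
  | succ k ih =>
    intro a
    have hN := ih (by omega) a
    obtain ⟨N, hNdef⟩ : ∃ N, N = hat ψ a - a := ⟨_, rfl⟩
    rw [← hNdef] at hN ⊢
    have h3 := hc a
    rw [sum_iter, ← hNdef] at h3
    have h4 : ∑ i ∈ Finset.range n, (hat (ψ ^ i) N - N) ∈ augI Γ ^ (k + 1) :=
      Submodule.sum_mem _ fun i _ => iter_mem (step2 h2 k) i N hN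
    have h5 : ∑ i ∈ Finset.range n, hat (ψ ^ i) N ∈ augI Γ ^ (k + 1) := pow_le hk h3
    have h6 : (n : ℚ) • N = ∑ i ∈ Finset.range n, hat (ψ ^ i) N -
        ∑ i ∈ Finset.range n, (hat (ψ ^ i) N - N) := by
      rw [Finset.sum_sub_distrib, Finset.sum_const, Finset.card_range, Nat.cast_smul_eq_nsmul]
      abel
    have h7 : (n : ℚ) • N ∈ augI Γ ^ (k + 1) := by
      rw [h6]
      exact Submodule.sub_mem _ h5 h4
    have h8 := smul_mem' ((n : ℚ)⁻¹) h7
    rwa [smul_smul, inv_mul_cancel₀ (by positivity), one_smul] at h8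

theorem LG7_holds : S_LG7.{u} := by
  intro Γ _ hFG hres φ hφ
  by_contra hcon
  push Not at hcon
  obtain ⟨S, hS⟩ := hFG.out
  have H := from_rep hS hcon
  obtain ⟨m, hm, h2⟩ := H 2
  apply hφ m hm
  apply MulEquiv.ext
  intro x
  rw [MulAut.one_apply]
  by_contra hx
  have hx' : x⁻¹ * (φ ^ m) x ≠ 1 := by
    intro h
    apply hx
    rw [inv_mul_eq_one] at h
    exact h.symm
  obtain ⟨c, hc⟩ := hres _ hx'
  apply hc
  obtain ⟨n, hn, h3⟩ := H c
  have h4 : ∀ a, hat ((φ ^ m) ^ n) a - a ∈ augI Γ ^ c := by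
    intro a
    rw [← pow_mul, mul_comm, pow_mul]
    have h5 : ∀ i : ℕ, ∀ a, hat ((φ ^ n) ^ i) a - a ∈ augI Γ ^ c := by
      intro i
      induction i with
      | zero =>
        intro a
        rw [pow_zero, hat_one, sub_self]
        exact Submodule.zero_mem _
      | succ i ih =>
        intro a
        have e : hat ((φ ^ n) ^ (i + 1)) a - a =
            (hat ((φ ^ n) ^ i) (hat (φ ^ n) a) - hat (φ ^ n) a) + (hat (φ ^ n) a - a) := by
          rw [pow_succ, hat_mul]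
          abel
        rw [e]
        exact Submodule.add_mem _ (ih _) (h3 a)
    exact h5 m a
  have h5 := unip h2 hn h4 c le_rfl (MonoidAlgebra.of ℚ Γ x)
  rw [hat_of] at h5
  have h6 := (augI Γ ^ c).mul_mem_left (MonoidAlgebra.of ℚ Γ x⁻¹) h5
  rw [mul_sub, ← map_mul, ← map_mul, inv_mul_cancel, map_one] at h6
  exact h6

end Pool.Agent.H263.LG7
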