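import Pool.Agent.H416.LG.Tasks2
import Pool.Agent.H416.LG.P7

/-!
# Project LG (helper416), task LG14 (helper397): Magnus, the powers of the augmentation ideal of the
# rational group algebra of a free group separate the elements from one
-/

set_option autoImplicit false

namespace Pool.Agent.H397.LG14

open Pool.Agent.H416.LG Pool.Agent.H263.LG7 Monoid

universe u

variable {α : Type u}

/-- finitely supported functions on lists -/
abbrev V (α : Type u) : Type u := List α →₀ ℚ

open Classical in
/-- creation of a letter, if it is different from the first letter -/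
noncomputable def N (a : α) : Module.End ℚ (V α) :=
  Finsupp.lsum ℚ (fun l : List α =>
    if l.head? = some a then (0 : ℚ →ₗ[ℚ] V α) else Finsupp.lsingle (a :: l))

theorem N_ne (a : α) (l : List α) (r : ℚ) (h : l.head? ≠ some a) :
    N a (Finsupp.single l r) = Finsupp.single (a :: l) r := by
  unfold N
  rw [Finsupp.lsum_single, if_neg h, Finsupp.lsingle_apply]

theorem N_eq (a : α) (l : List α) (r : ℚ) (h : l.head? = some a) :
    N a (Finsupp.single l r) = 0 := by
  unfold N
  rw [Finsupp.lsum_single, if_pos h, LinearMap.zero_apply]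

theorem N_sq (a : α) : N a * N a = 0 := by
  apply Finsupp.lhom_ext
  intro l r
  rw [Module.End.mul_apply, LinearMap.zero_apply]
  by_cases h : l.head? = some a
  · rw [N_eq a l r h, map_zero]
  · rw [N_ne a l r h]
    exact N_eq a _ r rfl

/-- `1 + n N` as a unit -/
noncomputable def U (a : α) (n : ℤ) : (Module.End ℚ (V α))ˣ where
  val := 1 + (n : ℚ) • N a
  inv := 1 - (n : ℚ) • N a
  val_inv := by
    have h : (n : ℚ) • N a * ((n : ℚ) • N a) = 0 := by
      rw [smul_mul_smul_comm, N_sq, smul_zero]
    rw [mul_sub, add_mul, add_mul, one_mul, mul_one, one_mul, h]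
    abel
  inv_val := by
    have h : (n : ℚ) • N a * ((n : ℚ) • N a) = 0 := by
      rw [smul_mul_smul_comm, N_sq, smul_zero]
    rw [mul_add, sub_mul, sub_mul, one_mul, mul_one, one_mul, h]
    abel

theorem U_val (a : α) (n : ℤ) : (U a n : Module.End ℚ (V α)) = 1 + (n : ℚ) • N a := rfl

theorem U_add (a : α) (m n : ℤ) : U a m * U a n = U a (m + n) := by
  apply Units.ext
  rw [Units.val_mul, U_val, U_val, U_val]
  have h : (m : ℚ) • N a * ((n : ℚ) • N a) = 0 := by
    rw [smul_mul_smul_comm, N_sq, smul_zero]
  rw [mul_add, add_mul, add_mul, one_mul, mul_one, one_mul, h, Int.cast_add, add_smul]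
  abel

theorem U_zero (a : α) : U a 0 = 1 := by
  apply Units.ext
  rw [U_val, Int.cast_zero, zero_smul, add_zero, Units.val_one]

theorem U_neg (a : α) (n : ℤ) : (U a n)⁻¹ = U a (-n) := by
  rw [inv_eq_iff_mul_eq_one, U_add, add_neg_cancel, U_zero]

theorem U_zpow (a : α) (n : ℤ) : U a 1 ^ n = U a n := by
  induction n using Int.induction_on with
  | zero => rw [zpow_zero, U_zero]
  | succ n ih => rw [zpow_add_one, ih, U_add]
  | pred n ih => rw [zpow_sub_one, ih, U_neg, U_add, sub_eq_add_neg]

/-- long lists -/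
def Fil (α : Type u) (d : ℕ) : Submodule ℚ (V α) := Finsupp.supported ℚ ℚ {l | d ≤ l.length}

/-- short lists -/
def Low (α : Type u) (d : ℕ) : Submodule ℚ (V α) := Finsupp.supported ℚ ℚ {l | l.length < d}

theorem maps (T : Module.End ℚ (V α)) (s t : Set (List α))
    (h : ∀ l ∈ s, T (Finsupp.single l 1) ∈ Finsupp.supported ℚ ℚ t) (f : V α)
    (hf : f ∈ Finsupp.supported ℚ ℚ s) : T f ∈ Finsupp.supported ℚ ℚ t := by
  rw [Finsupp.supported_eq_span_single] at hf
  induction hf using Submodule.span_induction with
  | mem x hx =>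
    obtain ⟨l, hl, rfl⟩ := hx
    exact h l hl
  | zero => rw [map_zero]; exact Submodule.zero_mem _
  | add x y _ _ hx hy => rw [map_add]; exact Submodule.add_mem _ hx hy
  | smul r x _ hx => rw [map_smul]; exact Submodule.smul_mem _ r hx

theorem N_Fil (a : α) (d : ℕ) (f : V α) (hf : f ∈ Fil α d) : N a f ∈ Fil α (d + 1) := by
  apply maps (N a) _ _ _ f hf
  intro l hl
  by_cases h : l.head? = some a
  · rw [N_eq a l 1 h]
    exact Submodule.zero_mem _
  · rw [N_ne a l 1 h]
    apply Finsupp.single_mem_supported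
    show d + 1 ≤ (a :: l).length
    rw [List.length_cons]
    exact Nat.succ_le_succ hl

theorem N_Low (a : α) (d : ℕ) (f : V α) (hf : f ∈ Low α d) : N a f ∈ Low α (d + 1) := by
  apply maps (N a) _ _ _ f hf
  intro l hl
  by_cases h : l.head? = some a
  · rw [N_eq a l 1 h]
    exact Submodule.zero_mem _
  · rw [N_ne a l 1 h]
    apply Finsupp.single_mem_supported
    show (a :: l).length < d + 1
    rw [List.length_cons]
    exact Nat.succ_lt_succ hl

theorem Fil_succ (d : ℕ) : Fil α (d + 1) ≤ Fil α d :=
  Finsupp.supported_mono fun _ hl => (Nat.le_succ d).trans hl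

theorem Low_mono {d e : ℕ} (h : d ≤ e) : Low α d ≤ Low α e :=
  Finsupp.supported_mono fun _ hl => lt_of_lt_of_le hl h

/-- the representation of the free group -/
noncomputable def rho (α : Type u) : FreeGroup α →* (Module.End ℚ (V α))ˣ :=
  FreeGroup.lift fun a => U a 1

/-- the representation of the free product -/
noncomputable def rho' (α : Type u) :
    CoprodI (fun _ : α => FreeGroup Unit) →* (Module.End ℚ (V α))ˣ :=
  CoprodI.lift fun i => FreeGroup.lift fun _ => U i 1

theorem rho_eq (g : FreeGroup α) : rho α g = rho' α (freeGroupEquivCoprodI g) := by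
  have h : rho α = (rho' α).comp (freeGroupEquivCoprodI : FreeGroup α ≃* _).toMonoidHom := by
    ext i : 1
    simp [rho, rho']
  exact congrArg (fun f : FreeGroup α →* (Module.End ℚ (V α))ˣ => f g) h

theorem step (g : FreeGroup α) :
    ∀ (d : ℕ) (f : V α), f ∈ Fil α d → (rho α g : Module.End ℚ (V α)) f - f ∈ Fil α (d + 1) := by
  induction g using FreeGroup.induction_on with
  | C1 =>
    intro d f _
    rw [map_one, Units.val_one, Module.End.one_apply, sub_self]
    exact Submodule.zero_mem _
  | of a =>
    intro d f hf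
    have h : rho α (FreeGroup.of a) = U a 1 := FreeGroup.lift_apply_of
    rw [h, U_val, LinearMap.add_apply, Module.End.one_apply, add_sub_cancel_left,
      LinearMap.smul_apply]
    exact Submodule.smul_mem _ _ (N_Fil a d f hf)
  | inv_of a _ =>
    intro d f hf
    have h : rho α (FreeGroup.of a)⁻¹ = U a (-1) := by
      rw [map_inv]
      have h1 : rho α (FreeGroup.of a) = U a 1 := FreeGroup.lift_apply_of
      rw [h1, U_neg]
    rw [h, U_val, LinearMap.add_apply, Module.End.one_apply, add_sub_cancel_left,
      LinearMap.smul_apply]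
    exact Submodule.smul_mem _ _ (N_Fil a d f hf)
  | mul g h hg hh =>
    intro d f hf
    rw [map_mul, Units.val_mul, Module.End.mul_apply]
    have h1 := hh d f hf
    have h2 : (rho α h : Module.End ℚ (V α)) f ∈ Fil α d := by
      have h3 := Submodule.add_mem _ (Fil_succ d h1) hf
      rwa [sub_add_cancel] at h3
    have h4 := Submodule.add_mem _ (hg d _ h2) h1
    rwa [sub_add_sub_cancel] at h4

/-- the representation of the group algebra -/
noncomputable def hrho (α : Type u) : MonoidAlgebra ℚ (FreeGroup α) →ₐ[ℚ] Module.End ℚ (V α) :=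
  MonoidAlgebra.lift ℚ (Module.End ℚ (V α)) (FreeGroup α)
    ((Units.coeHom (Module.End ℚ (V α))).comp (rho α))

theorem hrho_of (g : FreeGroup α) :
    hrho α (MonoidAlgebra.of ℚ (FreeGroup α) g) = (rho α g : Module.End ℚ (V α)) := by
  unfold hrho
  rw [MonoidAlgebra.lift_of]
  rfl

theorem step' (a : MonoidAlgebra ℚ (FreeGroup α)) (d : ℕ) (f : V α) (hf : f ∈ Fil α d) :
    hrho α a f - eps (FreeGroup α) a • f ∈ Fil α (d + 1) := by
  induction a using MonoidAlgebra.induction_on with
  | of x =>
    rw [hrho_of, eps_of, one_smul]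
    exact step x d f hf
  | add a b ha hb =>
    rw [map_add, map_add, LinearMap.add_apply, add_smul, add_sub_add_comm]
    exact Submodule.add_mem _ ha hb
  | smul r a ha =>
    rw [map_smul, map_smul, LinearMap.smul_apply, smul_eq_mul, mul_smul, ← smul_sub]
    exact Submodule.smul_mem _ _ ha

theorem aug (a : MonoidAlgebra ℚ (FreeGroup α)) (ha : a ∈ augI (FreeGroup α)) (d : ℕ) (f : V α)
    (hf : f ∈ Fil α d) : hrho α a f ∈ Fil α (d + 1) := by
  have h := step' a d f hf
  rw [mem_augI] at ha
  rwa [ha, zero_smul, sub_zero] at h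

theorem aug_pow (c : ℕ) : ∀ (a : MonoidAlgebra ℚ (FreeGroup α)), a ∈ augI (FreeGroup α) ^ c →
    ∀ (d : ℕ) (f : V α), f ∈ Fil α d → hrho α a f ∈ Fil α (d + c) := by
  induction c with
  | zero =>
    intro a _ d f hf
    have h := step' a d f hf
    have h1 := Submodule.add_mem _ (Fil_succ d h) (Submodule.smul_mem _ (eps (FreeGroup α) a) hf)
    rwa [sub_add_cancel] at h1
  | succ c ih =>
    intro a ha
    rw [Submodule.pow_succ] at ha
    induction ha using Submodule.mul_induction_on' with
    | mem_mul_mem b hb e he =>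
      intro d f hf
      rw [map_mul, Module.End.mul_apply]
      have h := ih b hb (d + 1) _ (aug e he d f hf)
      have h1 : d + 1 + c = d + (c + 1) := by omega
      rwa [h1] at h
    | add x _ y _ hx hy =>
      intro d f hf
      rw [map_add, LinearMap.add_apply]
      exact Submodule.add_mem _ (hx d f hf) (hy d f hf)

theorem unit_eq (x : FreeGroup Unit) (hx : x ≠ 1) :
    ∃ n : ℤ, n ≠ 0 ∧ x = FreeGroup.of () ^ n := by
  obtain ⟨n, rfl⟩ := FreeGroup.freeGroupUnitEquivInt.symm.surjective x
  refine ⟨n, ?_, rfl⟩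
  rintro rfl
  exact hx rfl

theorem lead {i j : α} (w : CoprodI.NeWord (fun _ : α => FreeGroup Unit) i j) :
    ∃ (r : ℚ) (L : List α), r ≠ 0 ∧ L.head? = some i ∧
      (∀ l : List α, l.head? ≠ some j →
        (rho' α w.prod : Module.End ℚ (V α)) (Finsupp.single l 1) - Finsupp.single (L ++ l) r ∈
          Low α (L.length + l.length)) ∧
      (∀ (d : ℕ) (f : V α), f ∈ Low α d →
        (rho' α w.prod : Module.End ℚ (V α)) f ∈ Low α (d + L.length)) := by
  induction w with
  | @singleton i x hx =>
    obtain ⟨n, hn, rfl⟩ := unit_eq x hx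
    have h : rho' α (CoprodI.NeWord.singleton (FreeGroup.of () ^ n) hx :
        CoprodI.NeWord (fun _ : α => FreeGroup Unit) i i).prod = U i n := by
      rw [CoprodI.NeWord.prod_singleton]
      unfold rho'
      rw [CoprodI.lift_of, map_zpow, FreeGroup.lift_apply_of, U_zpow]
    refine ⟨n, [i], by exact_mod_cast hn, rfl, ?_, ?_⟩
    · intro l hl
      rw [h, U_val, LinearMap.add_apply, Module.End.one_apply, LinearMap.smul_apply,
        N_ne i l 1 hl, Finsupp.smul_single, smul_eq_mul, mul_one]
      show Finsupp.single l 1 + Finsupp.single (i :: l) (n : ℚ) - Finsupp.single (i :: l) (n : ℚ) ∈ _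
      rw [add_sub_cancel_right]
      apply Finsupp.single_mem_supported
      show l.length < [i].length + l.length
      simp
    · intro d f hf
      rw [h, U_val, LinearMap.add_apply, Module.End.one_apply, LinearMap.smul_apply]
      exact Submodule.add_mem _ (Low_mono (Nat.le_succ d) hf)
        (Submodule.smul_mem _ _ (N_Low i d f hf))
  | @append i j k l w₁ hne w₂ ih₁ ih₂ =>
    obtain ⟨r₁, L₁, hr₁, hL₁, h₁, g₁⟩ := ih₁
    obtain ⟨r₂, L₂, hr₂, hL₂, h₂, g₂⟩ := ih₂
    have hhead : ∀ q : List α, (L₂ ++ q).head? = some k := by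
      intro q
      cases L₂ with
      | nil => simp at hL₂
      | cons a t => simpa using hL₂
    refine ⟨r₂ * r₁, L₁ ++ L₂, mul_ne_zero hr₂ hr₁, ?_, ?_, ?_⟩
    · cases L₁ with
      | nil => simp at hL₁
      | cons a t => simpa using hL₁
    · intro q hq
      rw [CoprodI.NeWord.append_prod, map_mul, Units.val_mul, Module.End.mul_apply]
      have e₂ := h₂ q hq
      have e₁ := h₁ (L₂ ++ q) (by rw [hhead q]; intro h; exact hne (Option.some.inj h).symm)
      have e₃ := g₁ _ _ e₂
      rw [map_sub] at e₃
      have e₄ := Submodule.smul_mem _ r₂ e₁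
      rw [smul_sub, ← map_smul, Finsupp.smul_single, Finsupp.smul_single, smul_eq_mul, smul_eq_mul,
        mul_one] at e₄
      rw [List.append_assoc]
      have d₁ : L₂.length + q.length + L₁.length = (L₁ ++ L₂).length + q.length := by
        rw [List.length_append]; omega
      have d₂ : L₁.length + (L₂ ++ q).length = (L₁ ++ L₂).length + q.length := by
        rw [List.length_append, List.length_append]; omega
      rw [d₁] at e₃
      rw [d₂] at e₄
      have e₅ := Submodule.add_mem _ e₃ e₄
      rwa [sub_add_sub_cancel] at e₅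
    · intro d f hf
      rw [CoprodI.NeWord.append_prod, map_mul, Units.val_mul, Module.End.mul_apply]
      have e := g₁ _ _ (g₂ d f hf)
      have d₁ : d + L₂.length + L₁.length = d + (L₁ ++ L₂).length := by
        rw [List.length_append]; omega
      rwa [d₁] at e

theorem LG14_holds : S_LG14.{u} := by
  intro α x hx
  have hy : (freeGroupEquivCoprodI x : CoprodI fun _ : α => FreeGroup Unit) ≠ 1 := by
    intro h
    apply hx
    rw [← map_one (freeGroupEquivCoprodI : FreeGroup α ≃* _)] at h
    exact freeGroupEquivCoprodI.injective h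
  classical
  obtain ⟨w, hw⟩ : ∃ w : CoprodI.Word (fun _ : α => FreeGroup Unit),
      w.prod = freeGroupEquivCoprodI x :=
    ⟨CoprodI.Word.equiv (freeGroupEquivCoprodI x), CoprodI.Word.equiv.symm_apply_apply _⟩
  have hwe : w ≠ CoprodI.Word.empty := by
    rintro rfl
    exact hy (by rw [← hw, CoprodI.Word.prod_empty])
  obtain ⟨i, j, w', rfl⟩ := CoprodI.NeWord.of_word w hwe
  obtain ⟨r, L, hr, hL, h₁, -⟩ := lead w'
  refine ⟨L.length + 1, fun hmem => hr ?_⟩
  have hLne : L ≠ [] := by
    rintro rfl
    simp at hL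
  have e₁ := h₁ [] (by simp)
  have e₀ : (Finsupp.single [] 1 : V α) ∈ Fil α 0 := by
    apply Finsupp.single_mem_supported
    exact Nat.zero_le _
  have e₂ := aug_pow _ _ hmem 0 _ e₀
  rw [map_sub, map_one, hrho_of, rho_eq, ← hw, LinearMap.sub_apply, Module.End.one_apply] at e₂
  have q₁ : ((rho' α w'.toWord.prod : Module.End ℚ (V α)) (Finsupp.single [] 1) -
      Finsupp.single (L ++ []) r : V α) L = 0 := by
    by_contra hne
    have := (Finsupp.mem_supported ℚ _).1 e₁ (Finsupp.mem_support_iff.2 hne)
    simp at this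
  have q₂ : ((rho' α w'.toWord.prod : Module.End ℚ (V α)) (Finsupp.single [] 1) -
      Finsupp.single [] 1 : V α) L = 0 := by
    by_contra hne
    have := (Finsupp.mem_supported ℚ _).1 e₂ (Finsupp.mem_support_iff.2 hne)
    simp at this
  rw [List.append_nil, Finsupp.sub_apply, Finsupp.single_eq_same, sub_eq_zero] at q₁
  rw [Finsupp.sub_apply, Finsupp.single_eq_of_ne hLne, sub_zero] at q₂
  rw [← q₁, q₂]

end Pool.Agent.H397.LG14
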