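import Mathlib

set_option autoImplicit false

/-!
# Subtasks of project LG (helper416): traces of projective modules over group rings of linear groups,
# with arbitrary coefficients
-/

namespace Pool.Agent.H416.LG

universe u v w

/-! ## LG1 -/

/-- **LG1.** Alternating sum over all permutations of `2 k` vectors of a space of dimension
`< 2 k` of a product of values of a bilinear form.

Proof. `w ↦ ∏ l, B (w (2 l)) (w (2 l + 1))` is a multilinear map of `w : Fin (k * 2) → E` (define it by
hand: each variable occurs in exactly one factor, once; or as a composition). The sum is the value at `v` of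
its `MultilinearMap.alternatization` (up to `σ ↦ σ⁻¹`, no change is needed), which is an `AlternatingMap`;
`v` is linearly dependent since `finrank F E < k * 2` (`LinearIndependent.fintype_card_le_finrank`), so the
value is `0` by `AlternatingMap.map_linearDependent`. -/
def S_LG1 : Prop :=
  ∀ {F : Type u} {E : Type v} [Field F] [AddCommGroup E] [Module F E] [FiniteDimensional F E]
    (B : E →ₗ[F] E →ₗ[F] F) (k : ℕ), Module.finrank F E < k * 2 → ∀ v : Fin (k * 2) → E,
    ∑ σ : Equiv.Perm (Fin (k * 2)), (Equiv.Perm.sign σ : ℤ) •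
      ∏ l : Fin k, B (v (σ (finProdFinEquiv (l, 0)))) (v (σ (finProdFinEquiv (l, 1)))) = 0

/-! ## LG2 -/

/-- `J i j = 1` if `i < j`, `-1` if `j < i`, `0` if `i = j`. -/
def J {m : ℕ} (i j : Fin m) : ℤ := if i < j then 1 else if j < i then -1 else 0

/-- **LG2.** The Pfaffian of the matrix `J` is not zero.

Proof (one of several). Consider over `ℚ` the bilinear form `B(x, y) = ∑ i j, J i j x_i y_j` on
`ℚ ^ (2 k)` and the alternating map `f(v) = ∑ σ, sgn σ ∏ l, B (v (σ (2 l))) (v (σ (2 l + 1)))`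
(alternatization of a multilinear map as in LG1). The sum in question is `f` of the standard basis. If it
were `0`, then `f = 0` (`Module.Basis.ext_alternating` or `AlternatingMap.eq_smul_basis_det`). But let
`ψ (2 a + b) = δ (2 a + b) + ∑_{i < 2 a} (-1) ^ i δ i` (`b = 0, 1`). Then
`B (ψ (2 a)) (ψ (2 a + 1)) = 1`, and `B (ψ i) (ψ j) = 0` if `i, j` are in different pairs
`{2 a, 2 a + 1}`. So a term of `f(ψ)` is `0` unless `σ` permutes the pairs, i.e. `σ` is the composition of
`τ × id` (sign `(sgn τ) ^ 2 = 1`, `Equiv.Perm.sign_prodCongrLeft`) with flips inside the pairs, and then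
`sgn σ = ∏ l, B (..) (..)` is `(-1) ^ (number of flips)` (`Equiv.Perm.sign_prodCongrRight`), so all these
terms are `1`, and `f(ψ) > 0` because of `σ = 1`. Instead of the basis `ψ` one can also cancel directly:
for the smallest `a` such that `2 a, 2 a + 1` are not in one pair of `σ` (all smaller pairs being
pairs of `σ`), the transposition `(2 a, 2 a + 1) * σ` changes the sign and not the product
(`Finset.sum_involution`). The value of the sum is `2 ^ k * k!`. -/
def S_LG2 : Prop :=
  ∀ k : ℕ, ∑ σ : Equiv.Perm (Fin (k * 2)), (Equiv.Perm.sign σ : ℤ) *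
      ∏ l : Fin k, J (σ (finProdFinEquiv (l, 0))) (σ (finProdFinEquiv (l, 1))) ≠ 0

/-! ## LG3 -/

/-- **LG3.** An element which has infinite order in a representation over an algebraically closed
field: either some eigenvalue has infinite order, or the characteristic is zero and there is
a Jordan block of size two or more.

Proof. `V` is the sum of the generalised eigenspaces (`Module.End.iSup_maxGenEigenspace_eq_top`), and
there are finitely many eigenvalues, all nonzero. Suppose that each eigenvalue `l` has `l ^ n = 1` for one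
common `n > 0` (product of the orders). Characteristic zero: if `(a - l)² v = 0` implies
`(a - l) v = 0` for all `l ≠ 0`, then the generalised eigenspaces are eigenspaces, so `a ^ n = 1`.
Characteristic `p > 0`: on the generalised eigenspace for `l` we have `(a - l) ^ (p ^ k) = 0` if
`p ^ k ≥ finrank F V`, so `a ^ (p ^ k) = l ^ (p ^ k)` (Frobenius, `sub_pow_char_pow_of_commute`) there,
and `a ^ (n * p ^ k) = 1`. -/
def S_LG3 : Prop :=
  ∀ {F : Type u} {V : Type v} [Field F] [IsAlgClosed F] [AddCommGroup V] [Module F V]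
    [FiniteDimensional F V] (a : V →ₗ[F] V), Function.Injective a →
    (∀ n : ℕ, 0 < n → a ^ n ≠ 1) →
    (∃ l : F, (∀ n : ℕ, 0 < n → l ^ n ≠ 1) ∧ ∃ v : V, v ≠ 0 ∧ a v = l • v) ∨
    (CharZero F ∧ ∃ l : F, l ≠ 0 ∧ ∃ v : V, (a - l • (1 : V →ₗ[F] V)) v ≠ 0 ∧
      (a - l • (1 : V →ₗ[F] V)) ((a - l • (1 : V →ₗ[F] V)) v) = 0)

/-! ## LG4 -/

/-- **LG4.** A rational character of the centraliser of `g`.

Proof. The centraliser of `g` acts on the eigenspace `W = {v | ρ g v = l v} ≠ 0`; the determinant on `W` is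
a homomorphism `χ` from the centraliser to `Fˣ` with `χ g = l ^ finrank W`, which has infinite order. Now
compose with a homomorphism `Additive Fˣ →+ ℚ` which maps `χ g` to `1`; it exists since `ℚ` is divisible
(`Pool.Agent.H416.RCT.exists_rat` in `Pool/Agent/H416/RC.lean` on origin/main is exactly this; see
`RCT.exists_ratHom` and `RCT.of_centralizer` there for the conclusion). -/
def S_LG4 : Prop :=
  ∀ {F : Type u} {V : Type v} {G : Type w} [Field F] [AddCommGroup V] [Module F V]
    [FiniteDimensional F V] [Group G] (ρ : G →* (V →ₗ[F] V)) (g : G) (l : F),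
    (∀ n : ℕ, 0 < n → l ^ n ≠ 1) → (∃ v : V, v ≠ 0 ∧ ρ g v = l • v) →
    ∃ f : G → ℚ, (∀ a b : G, a * g = g * a → b * g = g * b → f (a * b) = f a + f b) ∧ f g = 1

/-! ## LG5 -/

/-- Data for an element `g` of a group: a function `r` with values in a finite dimensional space with a
bilinear form `B`. -/
def Datum (F : Type u) [Field F] (G : Type w) [Group G] (g : G) : Prop :=
  ∃ (E : Type u) (_ : AddCommGroup E) (_ : Module F E) (_ : FiniteDimensional F E)
    (B : E →ₗ[F] E →ₗ[F] F) (r : G → E) (κ : F), κ ≠ 0 ∧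
    (∀ u v : G, B (r u) (r v) = -B (r v) (r u)) ∧
    (∀ z u v : G, z * g = g * z → B (r (z * u)) (r (z * v)) = B (r u) (r v)) ∧
    (∀ u v : G, B (r u) (r (g * v)) = B (r u) (r v) + κ)

/-- **LG5.** The data given by a Jordan block.

Proof. Let `h = ρ g`, `N = h - l`, `V' = ker (N * N)`, `W = N (V') ≠ 0`. Choose `s : W → V'` linear with
`N (s w) = w`, extend it by `0` on a complement of `W` to `R : V → V` with range in `V'`. So
`N N R = 0` and `N R w = w` for `w ∈ W`; hence `N R` is a projection onto `W`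
(`LinearMap.IsProj.trace`: its trace is `finrank W ≠ 0`), and `N R N v = N v` for `v ∈ V'`.
Choose representatives of the cosets `C \ G`, `C` = centraliser of `g`, to get `c : G → G` with
`c (z u) = z c u` for `z ∈ C` and `c u ∈ C`. Put `E = V →ₗ V`, `B (X, Y) = tr (N (X Y - Y X))`,
`r u = ρ (c u) R ρ (c u)⁻¹`, `κ = 2 l⁻¹ tr (N R)`. `B` is invariant under conjugation by `ρ z`, `z ∈ C`, since
`ρ z` commutes with `N`. Let `X = r u`, `Y = r v`; both have range in `V'` (`N N X = 0 = N N Y`), `N R N = N` on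
`V'` holds with `X, Y` instead of `R`, and `tr (N X) = tr (N Y) = tr (N R)`. Then
`r (g v) = h Y h⁻¹`, and
`tr (N X h Y h⁻¹) = tr (h⁻¹ N X h Y) = l⁻¹ tr (N X h Y)` (since `h N X = l N X + N N X = l N X`)
`= tr (N X Y) + l⁻¹ tr (N X N Y) = tr (N X Y) + l⁻¹ tr (N Y)`,
`tr (N h Y h⁻¹ X) = l tr (N Y h⁻¹ X)` (since `N h Y = h N Y = l N Y`),
`h⁻¹ X = l⁻¹ X - l⁻² N X`, so it is `tr (N Y X) - l⁻¹ tr (N Y N X) = tr (N Y X) - l⁻¹ tr (N X)`.
The difference is `B (X, Y) + κ`. (`ρ` has values in the monoid `V →ₗ V`; `ρ g⁻¹` is the inverse of `ρ g`.) -/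
def S_LG5 : Prop :=
  ∀ {F : Type u} {V : Type u} {G : Type w} [Field F] [CharZero F] [AddCommGroup V] [Module F V]
    [FiniteDimensional F V] [Group G] (ρ : G →* (V →ₗ[F] V)) (g : G) (l : F), l ≠ 0 →
    (∃ v : V, (ρ g - l • (1 : V →ₗ[F] V)) v ≠ 0 ∧
      (ρ g - l • (1 : V →ₗ[F] V)) ((ρ g - l • (1 : V →ₗ[F] V)) v) = 0) → Datum F G g

/-! ## LG6 -/

/-- **LG6.** The data given by a character of the centraliser.

Proof. Choose `c : G → G` with `c u` in the centraliser `C` of `g` and `c (z u) = z c u` for `z ∈ C`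
(coset representatives of `C \ G`). `E = ℚ × ℚ` (or `Fin 2 → ℚ`), `B (x, y) = x_1 y_2 - x_2 y_1`,
`r u = (1, f (c u))`, `κ = 1`. -/
def S_LG6 : Prop :=
  ∀ {G : Type w} [Group G] (g : G) (f : G → ℚ),
    (∀ a b : G, a * g = g * a → b * g = g * b → f (a * b) = f a + f b) → f g = 1 → Datum ℚ G g

/-! ## LG7 -/

/-- The augmentation ideal of the rational group algebra, as the kernel of the augmentation. -/
noncomputable def augI (Γ : Type u) [Group Γ] : Ideal (MonoidAlgebra ℚ Γ) :=
  RingHom.ker (MonoidAlgebra.lift ℚ ℚ Γ (1 : Γ →* ℚ) : MonoidAlgebra ℚ Γ →ₐ[ℚ] ℚ)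

/-- **LG7.** The automorphism group of a finitely generated group `Γ` such that the powers of the
augmentation ideal of `ℚ[Γ]` separate the elements of `Γ` from `1`: an automorphism of infinite order
has infinite order in a finite dimensional rational representation of `MulAut Γ`.

Proof. `I = augI Γ`. `MulAut Γ` acts on `ℚ[Γ]` by algebra automorphisms preserving `I ^ c`
(`MonoidAlgebra.mapDomain...`), so on the quotient `A_c = ℚ[Γ] / I ^ c`, which is finite dimensional:
`I` is generated as a left ideal by the finitely many `x - 1`, `x` a generator (or its inverse), so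
`ℚ[Γ] = ℚ + ∑ ℚ[Γ] (x - 1)`, and by induction `ℚ[Γ]` is spanned modulo `I ^ c` by the products of less than `c`
elements `x - 1`. Suppose that `φ` has finite order on all `A_c`. Let `φ ^ m = 1` on `A_2`, `m > 0`. Then
`ψ = φ ^ m` acts as the identity on `I / I ^ 2`, hence `ψ a - a ∈ I ^ (k + 1)` for `a ∈ I ^ k` (products), so
`ψ - 1` is nilpotent on `A_c`; as `ψ` has finite order on `A_c` and the characteristic is zero, `ψ = 1` on
`A_c` (a unipotent matrix of finite order over `ℚ` is `1`). So `ψ x - x ∈ I ^ c` for all `c` and `x ∈ Γ`,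
`(ψ x) x⁻¹ - 1 ∈ I ^ c` for all `c`, so `ψ x = x` for all `x`, and `φ ^ m = 1`, a contradiction. Choose a basis
of `A_c` to get matrices. -/
def S_LG7 : Prop :=
  ∀ (Γ : Type u) [Group Γ], Group.FG Γ →
    (∀ x : Γ, x ≠ 1 → ∃ c : ℕ, MonoidAlgebra.of ℚ Γ x - 1 ∉ augI Γ ^ c) →
    ∀ φ : MulAut Γ, (∀ n : ℕ, 0 < n → φ ^ n ≠ 1) →
    ∃ (m : ℕ) (ρ : MulAut Γ →* GL (Fin m) ℚ), ∀ n : ℕ, 0 < n → ρ φ ^ n ≠ 1

/-! ## LG8 -/

/-- **LG8.** Convolution of the central binomial coefficients.

Proof. In `ℚ⟦X⟧` let `β = ∑ C(2 n, n) X ^ n`; `(n + 1) C(2 n + 2, n + 1) = 2 (2 n + 1) C(2 n, n)`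
(`Nat.succ_mul_centralBinom_succ`) says `(1 - 4 X) β' = 2 β`, so `((1 - 4 X) β ^ 2)' = 0` and
`(1 - 4 X) β ^ 2 = 1`; compare coefficients. Or any other proof. -/
def S_LG8 : Prop :=
  ∀ n : ℕ, ∑ i ∈ Finset.range (n + 1), Nat.centralBinom i * Nat.centralBinom (n - i) = 4 ^ n

/-! ## LG9 -/

/-- **LG9.** Induced representations of finite degree.

Proof. Induced representation (by hand with coset representatives `t i` of `G / H`, `i` in a finite type:
`g * t i = t (g • i) * h(g, i)` with `h(g, i) ∈ H`, a cocycle; block matrices with index type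
`(G ⧸ H) × Fin m`, entry `((j, a), (i, b)) ↦ if j = g • i then ρ (h (g, i)) a b else 0`; or the space of
functions `f : G → (Fin m → F)` with `f (x h) = ρ (h)⁻¹ f (x)`). If `ρ' g ^ n = 1`, then
`ρ' (g ^ (k n)) = 1`, and the block of the coset of `1` gives `ρ (g ^ k) ^ n = 1`, a contradiction. -/
def S_LG9 : Prop :=
  ∀ {F : Type u} {G : Type v} [Field F] [Group G] (H : Subgroup G) [H.FiniteIndex] (m : ℕ)
    (ρ : H →* GL (Fin m) F) (g : G) (k : ℕ) (hk : g ^ k ∈ H),
    (∀ n : ℕ, 0 < n → ρ ⟨g ^ k, hk⟩ ^ n ≠ 1) →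
    ∃ (m' : ℕ) (ρ' : G →* GL (Fin m') F), ∀ n : ℕ, 0 < n → ρ' g ^ n ≠ 1

end Pool.Agent.H416.LG
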