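import Mathlib
import Pool.Agent.H416.LG.Tasks

/-!
# LG9: induced representations of finite degree (helper627)
-/

set_option autoImplicit false

namespace Pool.Agent.H627.LG9

universe u v

section

variable {F : Type u} {G : Type v} [Field F] [Group G] (H : Subgroup G) {m : ℕ}
  (ρ : H →* GL (Fin m) F)

/-- the space of the induced representation -/
def VV : Submodule F (G → Fin m → F) where
  carrier := {f | ∀ (x : G) (h : H), f (x * h) = (ρ h⁻¹).val.mulVec (f x)}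
  add_mem' := by
    intro a b ha hb x h
    rw [Pi.add_apply, Pi.add_apply, ha x h, hb x h, Matrix.mulVec_add]
  zero_mem' := by
    intro x h
    rw [Pi.zero_apply, Pi.zero_apply, Matrix.mulVec_zero]
  smul_mem' := by
    intro c a ha x h
    rw [Pi.smul_apply, Pi.smul_apply, ha x h, Matrix.mulVec_smul]

/-- the operators -/
def AA (g : G) : VV H ρ →ₗ[F] VV H ρ where
  toFun f := ⟨fun x => f.1 (g⁻¹ * x), fun x h => by
    change f.1 (g⁻¹ * (x * h)) = (ρ h⁻¹).val.mulVec (f.1 (g⁻¹ * x))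
    rw [← mul_assoc]
    exact f.2 (g⁻¹ * x) h⟩
  map_add' _ _ := rfl
  map_smul' _ _ := rfl

theorem AA_apply (g : G) (f : VV H ρ) (x : G) : (AA H ρ g f).1 x = f.1 (g⁻¹ * x) := rfl

/-- the representation -/
def RR : G →* (VV H ρ →ₗ[F] VV H ρ) where
  toFun := AA H ρ
  map_one' := by
    refine LinearMap.ext fun f => Subtype.ext (funext fun x => ?_)
    rw [AA_apply, inv_one, one_mul]
    rfl
  map_mul' := by
    intro a b
    refine LinearMap.ext fun f => Subtype.ext (funext fun x => ?_)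
    rw [Module.End.mul_apply, AA_apply, AA_apply, AA_apply, mul_inv_rev, mul_assoc]

theorem finV [H.FiniteIndex] : FiniteDimensional F (VV H ρ) := by
  let L : VV H ρ →ₗ[F] ((G ⧸ H) → Fin m → F) :=
    { toFun := fun f q => f.1 q.out
      map_add' := fun _ _ => rfl
      map_smul' := fun _ _ => rfl }
  refine FiniteDimensional.of_injective L ?_
  rw [← LinearMap.ker_eq_bot, LinearMap.ker_eq_bot']
  intro f hf
  refine Subtype.ext (funext fun x => ?_)
  obtain ⟨h, hh⟩ := QuotientGroup.mk_out_eq_mul H x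
  have h1 : f.1 ((x : G ⧸ H)).out = 0 := congrFun hf (x : G ⧸ H)
  have h2 : x = ((x : G ⧸ H)).out * (h⁻¹ : H) := by
    rw [hh]
    simp
  have h3 := f.2 ((x : G ⧸ H)).out h⁻¹
  rw [← h2, h1, Matrix.mulVec_zero] at h3
  exact h3

open Classical in
/-- the function supported on `H` -/
noncomputable def dl (v : Fin m → F) : VV H ρ :=
  ⟨fun x => if hx : x ∈ H then (ρ (⟨x, hx⟩ : H)⁻¹).val.mulVec v else 0, by
    intro x h
    change (if hx : x * h ∈ H then (ρ (⟨x * h, hx⟩ : H)⁻¹).val.mulVec v else 0) =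
      (ρ h⁻¹).val.mulVec (if hx : x ∈ H then (ρ (⟨x, hx⟩ : H)⁻¹).val.mulVec v else 0)
    by_cases hx : x ∈ H
    · have hxh : x * h ∈ H := H.mul_mem hx h.2
      rw [dif_pos hx, dif_pos hxh, Matrix.mulVec_mulVec]
      congr 1
      have h1 : (⟨x * h, hxh⟩ : H)⁻¹ = h⁻¹ * (⟨x, hx⟩ : H)⁻¹ := by
        rw [← mul_inv_rev]
        rfl
      rw [h1, map_mul]
      rfl
    · have hxh : x * h ∉ H := fun h0 => hx ((H.mul_mem_cancel_right h.2).1 h0)
      rw [dif_neg hx, dif_neg hxh, Matrix.mulVec_zero]⟩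

theorem RR_one {h : H} (hh : RR H ρ (h : G) = 1) : ρ h = 1 := by
  refine Units.ext ?_
  rw [Units.val_one]
  refine Matrix.toLin'.injective (LinearMap.ext fun v => ?_)
  rw [Matrix.toLin'_apply, Matrix.toLin'_apply, Matrix.one_mulVec]
  have h1 : (RR H ρ (h : G) (dl H ρ v)).1 1 = (dl H ρ v).1 1 := by
    rw [hh, Module.End.one_apply]
  have h2 : (RR H ρ (h : G) (dl H ρ v)).1 1 = (dl H ρ v).1 ((h : G)⁻¹ * 1) := rfl
  have hm : ((h : G)⁻¹ * 1) ∈ H := by
    rw [mul_one]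
    exact H.inv_mem h.2
  have h3 : (dl H ρ v).1 ((h : G)⁻¹ * 1) = (ρ (⟨(h : G)⁻¹ * 1, hm⟩ : H)⁻¹).val.mulVec v :=
    dif_pos hm
  have h4 : (dl H ρ v).1 1 = (ρ (⟨(1 : G), H.one_mem⟩ : H)⁻¹).val.mulVec v :=
    dif_pos H.one_mem
  have h5 : (⟨(h : G)⁻¹ * 1, hm⟩ : H)⁻¹ = h := by
    refine Subtype.ext ?_
    rw [Subgroup.coe_inv]
    simp
  have h6 : (⟨(1 : G), H.one_mem⟩ : H)⁻¹ = 1 := by
    refine Subtype.ext ?_
    rw [Subgroup.coe_inv]
    simp
  rw [h2, h3, h4, h5, h6, map_one, Units.val_one, Matrix.one_mulVec] at h1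
  exact h1

end

theorem LG9_holds {F : Type u} {G : Type v} [Field F] [Group G] (H : Subgroup G) [H.FiniteIndex]
    (m : ℕ) (ρ : H →* GL (Fin m) F) (g : G) (k : ℕ) (hk : g ^ k ∈ H)
    (hn : ∀ n : ℕ, 0 < n → ρ ⟨g ^ k, hk⟩ ^ n ≠ 1) :
    ∃ (m' : ℕ) (ρ' : G →* GL (Fin m') F), ∀ n : ℕ, 0 < n → ρ' g ^ n ≠ 1 := by
  have := finV H ρ
  let b := Module.finBasis F (VV H ρ)
  let φ : (VV H ρ →ₗ[F] VV H ρ) →* Matrix (Fin (Module.finrank F (VV H ρ)))
      (Fin (Module.finrank F (VV H ρ))) F :=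
    ((LinearMap.toMatrixAlgEquiv b : (VV H ρ →ₗ[F] VV H ρ) ≃ₐ[F] _) :
      (VV H ρ →ₗ[F] VV H ρ) →* _)
  have hφ : Function.Injective φ := (LinearMap.toMatrixAlgEquiv b).injective
  refine ⟨Module.finrank F (VV H ρ), (φ.comp (RR H ρ)).toHomUnits, fun n hn0 h1 => ?_⟩
  have h2 : φ (RR H ρ g) ^ n = 1 := congrArg Units.val h1
  rw [← map_pow, ← map_pow] at h2
  have h3 : RR H ρ (g ^ n) = 1 := hφ (h2.trans (map_one φ).symm)
  refine hn n hn0 ?_
  rw [← map_pow]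
  refine RR_one H ρ ?_
  have h4 : (((⟨g ^ k, hk⟩ : H) ^ n : H) : G) = (g ^ n) ^ k := by
    rw [Subgroup.coe_pow, ← pow_mul, ← pow_mul, mul_comm]
  rw [h4, map_pow, h3, one_pow]

theorem S_LG9_holds : Pool.Agent.H416.LG.S_LG9.{u, v} := by
  intro F G _ _ H _ m ρ g k hk hn
  exact LG9_holds H m ρ g k hk hn

end Pool.Agent.H627.LG9
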