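import Pool.Agent.H416.LG.Loc

set_option autoImplicit false

/-!
# Further subtasks of project LG (helper416)
-/

namespace Pool.Agent.H416.LG

universe u v w z

/-- **LG14.** The powers of the augmentation ideal of the rational group algebra of a free group
separate the elements from `1` (Magnus).

Proof. For a reduced word `x = a_1 ^ n_1 ⋯ a_k ^ n_k`, `k ≥ 1`, `n_i ≠ 0`, `a_i ≠ a_(i+1)`: represent
the free group by matrices of size `k + 1` over `ℚ` (or by units of an algebra of non-commutative polynomials
truncated above degree `k`): the generator `a` goes to `1 + N_a`, where `N_a` is the sum of the elementary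
matrices `E_{i, i+1}` over the `i` with `a_i = a`. As `a_i ≠ a_(i+1)` we have `N_a N_a = 0`, so `a ^ n` goes
to `1 + n N_a`, and the entry `(1, k + 1)` of the image of `x` is `n_1 ⋯ n_k ≠ 0`. The algebra
homomorphism `ℚ[F] → M_{k+1}(ℚ)` sends the augmentation ideal to the strictly upper triangular matrices, so it
kills the power `k + 1` of it, but `x - 1` goes to a matrix with nonzero entry `(1, k + 1)`. (It suffices to
use the letters of the reduced word one by one if adjacent equal letters are grouped; or do an induction on
words.) Search the library index for Magnus first. -/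
def S_LG14 : Prop :=
  ∀ (α : Type u) (x : FreeGroup α), x ≠ 1 →
    ∃ c : ℕ, MonoidAlgebra.of ℚ (FreeGroup α) x - 1 ∉ augI (FreeGroup α) ^ c

/-- **LG15.** Passing to groups of finite index above.

Proof. Let `K ≤ G` be finitely generated with `g ∈ K`. `K ∩ H` has finite index in `K`, so it is finitely
generated (Schreier, in Mathlib), and it gives a finitely generated subgroup of `H` which contains `g ^ k`. Hence
a representation of `K ∩ H` in which `g ^ k` has infinite order; now LG9
(`Pool.Agent.H627.LG9.LG9_holds`, file helper627_LG_LG9.lean, also Pool/Agent/H416/LG/P9.lean). -/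
def S_LG15 : Prop :=
  ∀ (G : Type w) [Group G] (H : Subgroup G) [H.FiniteIndex] (g : G) (k : ℕ) (hk : g ^ k ∈ H),
    OnLinear.{w, z} H ⟨g ^ k, hk⟩ → OnLinear.{w, z} G g

/-- **LG17.** Residually torsion-free nilpotent groups, locally.

Proof. `H` acts by left multiplication on `A = ℚ[H] / I ^ c`, `I` the augmentation ideal, which is finite
dimensional since `H` is finitely generated (see the proof of LG7, `Pool.Agent.H263.LG7.LG7_holds`, file
helper263_LG_LG7.lean). The operator `L` of `x` satisfies `(L - 1) ^ c = 0` (multiplication by
`(x - 1) ^ c ∈ I ^ c`), and `L ≠ 1` since `x - 1 ∉ I ^ c`. A unipotent operator of finite order over `ℚ` is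
`1`, so `L` has infinite order; choose a basis. Apply this to the finitely generated subgroups `H` of `G`
which contain `g`; the hypothesis passes to them: `I_H ^ c ⊆ I_G ^ c` under `ℚ[H] → ℚ[G]`. -/
def S_LG17 : Prop :=
  ∀ (G : Type w) [Group G] (g : G),
    (∃ c : ℕ, MonoidAlgebra.of ℚ G g - 1 ∉ augI G ^ c) → OnLinear.{w, 0} G g

end Pool.Agent.H416.LG
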