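import Mathlib
import Pool.Agent.H416.LG.Tasks2
import Pool.Agent.H416.LG.P9

/-!
# LG15: passing to groups of finite index above (helper772)
-/

set_option autoImplicit false

namespace Pool.Agent.H772.LG15

open Pool.Agent.H416.LG

universe w z

/-- the inclusion of `K ∩ H` into `H` -/
def inc {G : Type w} [Group G] (H K : Subgroup G) : H.subgroupOf K →* H where
  toFun x := ⟨((x : K) : G), Subgroup.mem_subgroupOf.1 x.2⟩
  map_one' := rfl
  map_mul' _ _ := rfl

theorem LG15_holds : S_LG15.{w, z} := by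
  intro G _ H _ g k hk hL K hK hg
  have hKfg : Group.FG K := (Group.fg_iff_subgroup_fg K).2 hK
  have hfi : (H.subgroupOf K).FiniteIndex := inferInstance
  have hfg : Group.FG (H.subgroupOf K) := Subgroup.fg_of_index_ne_zero (H.subgroupOf K)
  have hgk : (⟨g, hg⟩ : K) ^ k ∈ H.subgroupOf K := by
    rw [Subgroup.mem_subgroupOf]
    exact hk
  have hJ : (inc H K).range.FG := (Group.fg_iff_subgroup_fg _).1 (Group.fg_range (inc H K))
  have hmem : (⟨g ^ k, hk⟩ : H) ∈ (inc H K).range := ⟨⟨(⟨g, hg⟩ : K) ^ k, hgk⟩, rfl⟩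
  obtain ⟨F, hF, n, ρ, hρ⟩ := hL (inc H K).range hJ hmem
  obtain ⟨m', ρ', h'⟩ := Pool.Agent.H627.LG9.LG9_holds (H.subgroupOf K) n
    (ρ.comp (inc H K).rangeRestrict) (⟨g, hg⟩ : K) k hgk (fun m hm => hρ m hm)
  exact ⟨F, hF, m', ρ', h'⟩

end Pool.Agent.H772.LG15
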