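import Pool.Agent.H416.LG.Tasks2
import Pool.Agent.H416.LG.P7

/-!
# Project LG (helper416), task LG17: left multiplication on the quotients of the rational group algebra by
# the powers of the augmentation ideal
-/

set_option autoImplicit false

namespace Pool.Agent.H286.LG17

open Pool.Agent.H416.LG Pool.Agent.H263.LG7

universe u w

variable {Γ : Type u} [Group Γ]

/-- left multiplication by `x - 1` raises the power -/
theorem left_mem (x : Γ) (k : ℕ) :
    ∀ a ∈ augI Γ ^ k, (MonoidAlgebra.of ℚ Γ x - 1) * a ∈ augI Γ ^ (k + 1) := by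
  induction k with
  | zero =>
    intro a _
    rw [zero_add, Submodule.pow_one, mem_augI, map_mul, map_sub, eps_of, map_one, sub_self, zero_mul]
  | succ k ih =>
    intro a ha
    rw [Submodule.pow_succ] at ha
    rw [Submodule.pow_succ (n := k + 1)]
    induction ha using Submodule.mul_induction_on' with
    | mem_mul_mem b hb d hd =>
      rw [← mul_assoc]
      exact Submodule.mul_mem_mul (ih b hb) hd
    | add x _ y _ hx hy =>
      rw [mul_add]
      exact Submodule.add_mem _ hx hy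

theorem sum_iter' (x : Γ) (n : ℕ) (a : MonoidAlgebra ℚ Γ) :
    MonoidAlgebra.of ℚ Γ (x ^ n) * a - a =
      ∑ i ∈ Finset.range n, MonoidAlgebra.of ℚ Γ (x ^ i) * (MonoidAlgebra.of ℚ Γ x * a - a) := by
  induction n with
  | zero => rw [pow_zero, map_one, one_mul, sub_self, Finset.sum_range_zero]
  | succ n ih =>
    rw [Finset.sum_range_succ, ← ih, pow_succ, map_mul, mul_sub, ← mul_assoc]
    abel

/-- the unipotent argument -/
theorem unip' {x : Γ} {c n : ℕ} (hn : 0 < n)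
    (hc : ∀ a, MonoidAlgebra.of ℚ Γ (x ^ n) * a - a ∈ augI Γ ^ c) (k : ℕ) (hk : k ≤ c) :
    ∀ a, MonoidAlgebra.of ℚ Γ x * a - a ∈ augI Γ ^ k := by
  induction k with
  | zero => exact fun a => mem_pow_zero _
  | succ k ih =>
    intro a
    have hN := ih (by omega) a
    obtain ⟨N, hNdef⟩ : ∃ N, N = MonoidAlgebra.of ℚ Γ x * a - a := ⟨_, rfl⟩
    have h3 := hc a
    rw [sum_iter'] at h3
    rw [← hNdef] at hN h3 ⊢
    have h4 : ∑ i ∈ Finset.range n, (MonoidAlgebra.of ℚ Γ (x ^ i) * N - N) ∈ augI Γ ^ (k + 1) :=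
      Submodule.sum_mem _ fun i _ => by
        have h5 := left_mem (x ^ i) k N hN
        rwa [sub_mul, one_mul] at h5
    have h5 : ∑ i ∈ Finset.range n, MonoidAlgebra.of ℚ Γ (x ^ i) * N ∈ augI Γ ^ (k + 1) := pow_le hk h3
    have h6 : (n : ℚ) • N = ∑ i ∈ Finset.range n, MonoidAlgebra.of ℚ Γ (x ^ i) * N -
        ∑ i ∈ Finset.range n, (MonoidAlgebra.of ℚ Γ (x ^ i) * N - N) := by
      rw [Finset.sum_sub_distrib, Finset.sum_const, Finset.card_range, Nat.cast_smul_eq_nsmul]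
      abel
    have h7 : (n : ℚ) • N ∈ augI Γ ^ (k + 1) := by
      rw [h6]
      exact Submodule.sub_mem _ h5 h4
    have h8 := smul_mem' ((n : ℚ)⁻¹) h7
    rwa [smul_smul, inv_mul_cancel₀ (by positivity), one_smul] at h8

/-- the left regular representation on the quotient -/
noncomputable def ll (Γ : Type u) [Group Γ] (c : ℕ) :
    Γ →* Module.End ℚ (MonoidAlgebra ℚ Γ ⧸ PP Γ c) where
  toFun x := (PP Γ c).mapQ (PP Γ c) (LinearMap.mulLeft ℚ (MonoidAlgebra.of ℚ Γ x))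
    (fun _ ha => (augI Γ ^ c).mul_mem_left (MonoidAlgebra.of ℚ Γ x) ha)
  map_one' := by
    apply LinearMap.ext
    intro w
    obtain ⟨a, rfl⟩ := Submodule.mkQ_surjective _ w
    show (PP Γ c).mkQ (MonoidAlgebra.of ℚ Γ 1 * a) = (PP Γ c).mkQ a
    rw [map_one, one_mul]
  map_mul' x y := by
    apply LinearMap.ext
    intro w
    obtain ⟨a, rfl⟩ := Submodule.mkQ_surjective _ w
    show (PP Γ c).mkQ (MonoidAlgebra.of ℚ Γ (x * y) * a) =
      (PP Γ c).mkQ (MonoidAlgebra.of ℚ Γ x * (MonoidAlgebra.of ℚ Γ y * a))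
    rw [(MonoidAlgebra.of ℚ Γ).map_mul, mul_assoc]

theorem ll_mk (c : ℕ) (x : Γ) (a : MonoidAlgebra ℚ Γ) :
    ll Γ c x ((PP Γ c).mkQ a) = (PP Γ c).mkQ (MonoidAlgebra.of ℚ Γ x * a) := rfl

/-- the representation -/
theorem exists_rep {S : Finset Γ} (hS : Subgroup.closure (S : Set Γ) = ⊤) {x : Γ} {c : ℕ}
    (hx : MonoidAlgebra.of ℚ Γ x - 1 ∉ augI Γ ^ c) :
    ∃ (m : ℕ) (ρ : Γ →* GL (Fin m) ℚ), ∀ k : ℕ, 0 < k → ρ x ^ k ≠ 1 := by
  have := fin_quot hS c
  have : Module.Free ℚ (MonoidAlgebra ℚ Γ ⧸ PP Γ c) := Module.Free.of_divisionRing ℚ _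
  let b := Module.finBasis ℚ (MonoidAlgebra ℚ Γ ⧸ PP Γ c)
  let e := LinearMap.toMatrixAlgEquiv b
  let ρ : Γ →* GL (Fin (Module.finrank ℚ (MonoidAlgebra ℚ Γ ⧸ PP Γ c))) ℚ :=
    (Units.map (e : Module.End ℚ (MonoidAlgebra ℚ Γ ⧸ PP Γ c) →* _)).comp (ll Γ c).toHomUnits
  refine ⟨_, ρ, fun n hn h1 => hx ?_⟩
  rw [← map_pow] at h1
  have h2 : e (ll Γ c (x ^ n)) = 1 := congrArg Units.val h1
  have h3 : ll Γ c (x ^ n) = 1 := by
    apply e.injective
    rw [h2, map_one]
  have h5 : ∀ a, MonoidAlgebra.of ℚ Γ (x ^ n) * a - a ∈ augI Γ ^ c := by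
    intro a
    have h4 : ll Γ c (x ^ n) ((PP Γ c).mkQ a) = (PP Γ c).mkQ a := by
      rw [h3]
      rfl
    rw [ll_mk, ← sub_eq_zero, ← map_sub, Submodule.mkQ_apply, Submodule.Quotient.mk_eq_zero] at h4
    exact h4
  have h6 := unip' hn h5 c le_rfl 1
  rwa [mul_one] at h6

/-- the inclusion of group algebras -/
noncomputable def inc {G : Type w} [Group G] (H : Subgroup G) : MonoidAlgebra ℚ H →ₐ[ℚ] MonoidAlgebra ℚ G :=
  MonoidAlgebra.lift ℚ (MonoidAlgebra ℚ G) H ((MonoidAlgebra.of ℚ G).comp H.subtype)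

theorem inc_of {G : Type w} [Group G] (H : Subgroup G) (x : H) :
    inc H (MonoidAlgebra.of ℚ H x) = MonoidAlgebra.of ℚ G (x : G) := by
  unfold inc
  rw [MonoidAlgebra.lift_of]
  rfl

theorem eps_inc {G : Type w} [Group G] (H : Subgroup G) (a : MonoidAlgebra ℚ H) :
    eps G (inc H a) = eps H a := by
  have h : (eps G).comp (inc H) = eps H := by
    apply algHom_eq
    intro x
    rw [AlgHom.comp_apply, inc_of, eps_of, eps_of]
  exact congrArg (fun f : MonoidAlgebra ℚ H →ₐ[ℚ] ℚ => f a) h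

theorem inc_pow {G : Type w} [Group G] (H : Subgroup G) (c : ℕ) :
    ∀ a ∈ augI H ^ c, inc H a ∈ augI G ^ c := by
  induction c with
  | zero => exact fun a _ => mem_pow_zero _
  | succ c ih =>
    intro a ha
    rw [Submodule.pow_succ] at ha ⊢
    induction ha using Submodule.mul_induction_on' with
    | mem_mul_mem b hb d hd =>
      rw [map_mul]
      refine Submodule.mul_mem_mul (ih b hb) ?_
      rw [mem_augI] at hd ⊢
      rw [eps_inc, hd]
    | add x _ y _ hx hy =>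
      rw [map_add]
      exact Submodule.add_mem _ hx hy

theorem LG17_holds : S_LG17.{w} := by
  intro G _ g ⟨c, hc⟩ H hH hg
  have hx : MonoidAlgebra.of ℚ H ⟨g, hg⟩ - 1 ∉ augI H ^ c := by
    intro h
    apply hc
    have h1 := inc_pow H c _ h
    rwa [map_sub, inc_of, map_one] at h1
  have hFG : Group.FG H := (Group.fg_iff_subgroup_fg H).2 hH
  obtain ⟨S, hS⟩ := hFG.out
  obtain ⟨m, ρ, hρ⟩ := exists_rep hS hx
  exact ⟨ℚ, inferInstance, m, ρ, hρ⟩

end Pool.Agent.H286.LG17
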