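import Pool.Agent.H416.LG.Tasks3

set_option autoImplicit false

/-! # LG20: the bordered Pfaffian is alternating -/

namespace Pool.Agent.H548.LG20

open Pool.Agent.H416.LG

universe u v

/-- the extension of a permutation by the fixed point `0` -/
def ext0 {m : ℕ} (τ : Equiv.Perm (Fin m)) : Equiv.Perm (Fin (m + 1)) :=
  Equiv.Perm.decomposeFin.symm (0, τ)

lemma ext0_zero {m : ℕ} (τ : Equiv.Perm (Fin m)) : ext0 τ 0 = 0 := by
  rw [ext0, Equiv.Perm.decomposeFin_symm_apply_zero]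

lemma ext0_succ {m : ℕ} (τ : Equiv.Perm (Fin m)) (i : Fin m) : ext0 τ i.succ = (τ i).succ := by
  rw [ext0, Equiv.Perm.decomposeFin_symm_apply_succ, Equiv.swap_self]
  rfl

lemma sign_ext0 {m : ℕ} (τ : Equiv.Perm (Fin m)) : Equiv.Perm.sign (ext0 τ) = Equiv.Perm.sign τ := by
  rw [ext0, Equiv.Perm.decomposeFin.symm_sign]
  simp

lemma bord_ext {X : Type v} {F : Type u} [Field F] (b : X → X → F) {m : ℕ} (y : Fin m → X)
    (τ : Equiv.Perm (Fin m)) (i j : Fin (m + 1)) :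
    bord b (fun i => y (τ i)) i j = bord b y (ext0 τ i) (ext0 τ j) := by
  refine Fin.cases ?_ (fun i' => ?_) i
  · refine Fin.cases ?_ (fun j' => ?_) j
    · rw [ext0_zero]; rfl
    · rw [ext0_zero, ext0_succ]; rfl
  · refine Fin.cases ?_ (fun j' => ?_) j
    · rw [ext0_zero, ext0_succ]; rfl
    · rw [ext0_succ, ext0_succ]; rfl

theorem LG20_holds : S_LG20.{u, v} := by
  intro X F _ b k m s y τ
  show ∑ σ : Equiv.Perm (Fin (m + 1)), (Equiv.Perm.sign σ : ℤ) •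
    ∏ l : Fin k, bord b (fun i => y (τ i)) (σ (s (l, 0))) (σ (s (l, 1))) =
    (Equiv.Perm.sign τ : ℤ) • ∑ σ : Equiv.Perm (Fin (m + 1)), (Equiv.Perm.sign σ : ℤ) •
    ∏ l : Fin k, bord b y (σ (s (l, 0))) (σ (s (l, 1)))
  rw [Finset.smul_sum]
  refine Fintype.sum_equiv (Equiv.mulLeft (ext0 τ)) _ _ fun σ => ?_
  rw [Equiv.coe_mulLeft, smul_smul]
  have h1 : (Equiv.Perm.sign τ : ℤ) * (Equiv.Perm.sign (ext0 τ * σ) : ℤ) = (Equiv.Perm.sign σ : ℤ) := by
    rw [map_mul, sign_ext0, Units.val_mul, ← mul_assoc, ← Units.val_mul, Int.units_mul_self,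
      Units.val_one, one_mul]
  rw [h1]
  congr 1
  refine Finset.prod_congr rfl fun l _ => ?_
  rw [bord_ext]
  rfl

end Pool.Agent.H548.LG20
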