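import Pool.Agent.H416.LG.Tasks3

/-!
# LG22: the bordered Pfaffian is a cocycle
-/

set_option autoImplicit false

namespace Pool.Agent.H183.LG22

open Pool.Agent.H416.LG

universe u v

section

variable {F : Type u} {E : Type v} [Field F] [AddCommGroup E] [Module F E]

theorem upd0 (B : E →ₗ[F] E →ₗ[F] F) {k N : ℕ} (s : Fin k × Fin 2 ≃ Fin N) [DecidableEq (Fin N)]
    (w : Fin N → E) (l₀ : Fin k) (z : E) :
    ∏ l : Fin k, B (Function.update w (s (l₀, 0)) z (s (l, 0)))
      (Function.update w (s (l₀, 0)) z (s (l, 1))) =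
    B z (w (s (l₀, 1))) * ∏ l ∈ Finset.univ.erase l₀, B (w (s (l, 0))) (w (s (l, 1))) := by
  rw [← Finset.mul_prod_erase _ _ (Finset.mem_univ l₀)]
  have h1 : (s (l₀, (1 : Fin 2)) : Fin N) ≠ s (l₀, (0 : Fin 2)) := fun h => by
    have := s.injective h
    simp at this
  rw [Function.update_self, Function.update_of_ne h1]
  congr 1
  refine Finset.prod_congr rfl fun l hl => ?_
  have hl' := Finset.ne_of_mem_erase hl
  have h2 : ∀ b : Fin 2, (s (l, b) : Fin N) ≠ s (l₀, (0 : Fin 2)) := fun b h => by
    have := s.injective h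
    exact hl' (congrArg Prod.fst this)
  rw [Function.update_of_ne (h2 0), Function.update_of_ne (h2 1)]

theorem upd1 (B : E →ₗ[F] E →ₗ[F] F) {k N : ℕ} (s : Fin k × Fin 2 ≃ Fin N) [DecidableEq (Fin N)]
    (w : Fin N → E) (l₀ : Fin k) (z : E) :
    ∏ l : Fin k, B (Function.update w (s (l₀, 1)) z (s (l, 0)))
      (Function.update w (s (l₀, 1)) z (s (l, 1))) =
    B (w (s (l₀, 0))) z * ∏ l ∈ Finset.univ.erase l₀, B (w (s (l, 0))) (w (s (l, 1))) := by
  rw [← Finset.mul_prod_erase _ _ (Finset.mem_univ l₀)]
  have h1 : (s (l₀, (0 : Fin 2)) : Fin N) ≠ s (l₀, (1 : Fin 2)) := fun h => by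
    have := s.injective h
    simp at this
  rw [Function.update_self, Function.update_of_ne h1]
  congr 1
  refine Finset.prod_congr rfl fun l hl => ?_
  have hl' := Finset.ne_of_mem_erase hl
  have h2 : ∀ b : Fin 2, (s (l, b) : Fin N) ≠ s (l₀, (1 : Fin 2)) := fun b h => by
    have := s.injective h
    exact hl' (congrArg Prod.fst this)
  rw [Function.update_of_ne (h2 0), Function.update_of_ne (h2 1)]

/-- the product of the values of the form as a multilinear map -/
noncomputable def mm (B : E →ₗ[F] E →ₗ[F] F) {k N : ℕ} (s : Fin k × Fin 2 ≃ Fin N) :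
    MultilinearMap F (fun _ : Fin N => E) F where
  toFun w := ∏ l : Fin k, B (w (s (l, 0))) (w (s (l, 1)))
  map_update_add' := by
    intro _ w i x y
    obtain ⟨⟨l₀, b⟩, rfl⟩ := s.surjective i
    have hb : b = 0 ∨ b = 1 := by
      revert b
      decide
    rcases hb with rfl | rfl
    · rw [upd0, upd0, upd0, map_add, LinearMap.add_apply, add_mul]
    · rw [upd1, upd1, upd1, map_add, add_mul]
  map_update_smul' := by
    intro _ w i c x
    obtain ⟨⟨l₀, b⟩, rfl⟩ := s.surjective i
    have hb : b = 0 ∨ b = 1 := by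
      revert b
      decide
    rcases hb with rfl | rfl
    · rw [upd0, upd0, map_smul, LinearMap.smul_apply, smul_mul_assoc]
    · rw [upd1, upd1, map_smul, smul_mul_assoc]

/-- the alternatization -/
noncomputable def Lam (B : E →ₗ[F] E →ₗ[F] F) {k N : ℕ} (s : Fin k × Fin 2 ≃ Fin N) :
    E [⋀^Fin N]→ₗ[F] F := MultilinearMap.alternatization (mm B s)

theorem Lam_apply (B : E →ₗ[F] E →ₗ[F] F) {k N : ℕ} (s : Fin k × Fin 2 ≃ Fin N) (w : Fin N → E) :
    Lam B s w = ∑ σ : Equiv.Perm (Fin N), (Equiv.Perm.sign σ : ℤ) •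
      ∏ l : Fin k, B (w (σ (s (l, 0)))) (w (σ (s (l, 1)))) := by
  unfold Lam
  rw [MultilinearMap.alternatization_apply]
  rfl

/-- an alternating map does not change if one of the vectors is subtracted from the others -/
theorem theta_inv {N : ℕ} (Θ : E [⋀^Fin (N + 1)]→ₗ[F] F) (v : Fin (N + 1) → E)
    (S : Finset (Fin (N + 1))) (h0 : 0 ∉ S) :
    Θ (fun i => if i ∈ S then v i - v 0 else v i) = Θ v := by
  induction S using Finset.induction_on with
  | empty => simp
  | insert a S ha ih =>
    have h0' : (0 : Fin (N + 1)) ∉ S := fun h => h0 (Finset.mem_insert_of_mem h)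
    have ha0 : a ≠ 0 := fun h => h0 (by rw [h]; exact Finset.mem_insert_self _ _)
    have e1 : (fun i => if i ∈ insert a S then v i - v 0 else v i) =
        Function.update (fun i => if i ∈ S then v i - v 0 else v i) a (v a - v 0) := by
      funext i
      by_cases hi : i = a
      · subst hi
        rw [Function.update_self, if_pos (Finset.mem_insert_self _ _)]
      · rw [Function.update_of_ne hi]
        by_cases hS : i ∈ S
        · rw [if_pos (Finset.mem_insert_of_mem hS), if_pos hS]
        · rw [if_neg hS, if_neg]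
          intro h
          rcases Finset.mem_insert.1 h with h | h
          · exact hi h
          · exact hS h
    have e2 : Function.update (fun i => if i ∈ S then v i - v 0 else v i) a (v a) =
        fun i => if i ∈ S then v i - v 0 else v i := by
      funext i
      by_cases hi : i = a
      · subst hi
        rw [Function.update_self, if_neg ha]
      · rw [Function.update_of_ne hi]
    have e3 : Θ (Function.update (fun i => if i ∈ S then v i - v 0 else v i) a (v 0)) = 0 := by
      refine Θ.map_eq_zero_of_eq _ (i := a) (j := 0) ?_ ha0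
      rw [Function.update_self, Function.update_of_ne ha0.symm, if_neg h0']
    rw [e1, AlternatingMap.map_update_sub, e2, e3, sub_zero, ih h0']

end

theorem bord_comp {X : Type v} {F : Type u} [Field F] (b : X → X → F) {m : ℕ}
    (y : Fin (m + 1) → X) (j : Fin (m + 1)) (p q : Fin (m + 1)) :
    bord b (fun i => y (j.succAbove i)) p q =
      bord b y (Matrix.vecCons 0 (fun i : Fin m => (j.succAbove i).succ) p)
        (Matrix.vecCons 0 (fun i : Fin m => (j.succAbove i).succ) q) := by
  refine Fin.cases ?_ (fun p' => ?_) p <;> refine Fin.cases ?_ (fun q' => ?_) q <;> rfl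

theorem LG22_holds : S_LG22.{u, v} := by
  intro X F _ _ b _ k m s y
  obtain ⟨B, hBdef⟩ : ∃ B : (Fin (m + 2) → F) →ₗ[F] (Fin (m + 2) → F) →ₗ[F] F,
    B = Matrix.toLinearMap₂' F (Matrix.of fun i j => bord b y i j) := ⟨_, rfl⟩
  obtain ⟨e, he⟩ : ∃ e : Fin (m + 2) → (Fin (m + 2) → F), e = fun i => Pi.single i (1 : F) :=
    ⟨_, rfl⟩
  have hB : ∀ i j, B (e i) (e j) = bord b y i j := by
    intro i j
    rw [hBdef, Matrix.toLinearMap₂'_apply', he]
    simp
  have h00 : B (e 0) (e 0) = 0 := hB 0 0
  have h0s : ∀ i : Fin (m + 1), B (e 0) (e i.succ) = 1 := fun i => hB 0 i.succ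
  have hs0 : ∀ i : Fin (m + 1), B (e i.succ) (e 0) = -1 := fun i => hB i.succ 0
  have hpsi : ∀ j : Fin (m + 1), psi b s (fun i => y (j.succAbove i)) =
      (Lam B s).curryLeft (e 0) (fun i => e (j.succAbove i).succ) := by
    intro j
    rw [AlternatingMap.curryLeft_apply_apply, Lam_apply]
    unfold psi
    refine Finset.sum_congr rfl fun σ _ => ?_
    congr 1
    refine Finset.prod_congr rfl fun l _ => ?_
    have h1 : ∀ p : Fin (m + 1), Matrix.vecCons (e 0) (fun i => e (j.succAbove i).succ) p =
        e (Matrix.vecCons 0 (fun i : Fin m => (j.succAbove i).succ) p) := by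
      intro p
      refine Fin.cases ?_ (fun p' => ?_) p <;> rfl
    rw [h1, h1, hB, bord_comp]
  have hsum : ∑ j : Fin (m + 1), (-1) ^ (j : ℕ) * psi b s (fun i => y (j.succAbove i)) =
      AlternatingMap.alternatizeUncurryFin (LinearMap.smulRight (B (e 0))
        ((Lam B s).curryLeft (e 0))) (fun j => e j.succ) := by
    rw [AlternatingMap.alternatizeUncurryFin_apply]
    refine Finset.sum_congr rfl fun j _ => ?_
    rw [hpsi, LinearMap.smulRight_apply, h0s, one_smul, zsmul_eq_mul]
    push_cast
    rfl
  rw [hsum, ← theta_inv _ _ (Finset.univ.erase 0) (Finset.notMem_erase _ _),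
    AlternatingMap.alternatizeUncurryFin_apply]
  refine Finset.sum_eq_zero fun j _ => ?_
  rw [LinearMap.smulRight_apply]
  by_cases hj : j = 0
  · subst hj
    have h2 : (Lam B s).curryLeft (e 0) (Fin.removeNth 0 (fun i : Fin (m + 1) =>
        if i ∈ Finset.univ.erase (0 : Fin (m + 1)) then e i.succ - e (Fin.succ 0) else
          e i.succ)) = 0 := by
      rw [AlternatingMap.curryLeft_apply_apply, Lam_apply]
      refine Finset.sum_eq_zero fun σ _ => ?_
      have h3 : ∀ p : Fin (m + 1), B (e 0) (Matrix.vecCons (e 0) (Fin.removeNth 0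
          (fun i : Fin (m + 1) => if i ∈ Finset.univ.erase (0 : Fin (m + 1)) then
            e i.succ - e (Fin.succ 0) else e i.succ)) p) = 0 ∧
          B (Matrix.vecCons (e 0) (Fin.removeNth 0
          (fun i : Fin (m + 1) => if i ∈ Finset.univ.erase (0 : Fin (m + 1)) then
            e i.succ - e (Fin.succ 0) else e i.succ)) p) (e 0) = 0 := by
        intro p
        refine Fin.cases ?_ (fun p' => ?_) p
        · exact ⟨h00, h00⟩
        · have h4 : Matrix.vecCons (e 0) (Fin.removeNth 0
              (fun i : Fin (m + 1) => if i ∈ Finset.univ.erase (0 : Fin (m + 1)) then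
                e i.succ - e (Fin.succ 0) else e i.succ)) p'.succ =
              e p'.succ.succ - e (Fin.succ 0) := by
            rw [Matrix.cons_val_succ, Fin.removeNth_apply, Fin.zero_succAbove, if_pos]
            exact Finset.mem_erase.2 ⟨Fin.succ_ne_zero _, Finset.mem_univ _⟩
          rw [h4, map_sub, h0s, h0s, sub_self, map_sub, LinearMap.sub_apply, hs0, hs0, sub_self]
          exact ⟨rfl, rfl⟩
      obtain ⟨⟨l, c⟩, hl⟩ := (s.trans σ).surjective 0
      have hl' : σ (s (l, c)) = 0 := hl
      have h5 : ∏ l : Fin k, B (Matrix.vecCons (e 0) (Fin.removeNth 0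
          (fun i : Fin (m + 1) => if i ∈ Finset.univ.erase (0 : Fin (m + 1)) then
            e i.succ - e (Fin.succ 0) else e i.succ)) (σ (s (l, 0))))
          (Matrix.vecCons (e 0) (Fin.removeNth 0
          (fun i : Fin (m + 1) => if i ∈ Finset.univ.erase (0 : Fin (m + 1)) then
            e i.succ - e (Fin.succ 0) else e i.succ)) (σ (s (l, 1)))) = 0 := by
        refine Finset.prod_eq_zero (Finset.mem_univ l) ?_
        have hc : ∀ c : Fin 2, c = 0 ∨ c = 1 := by decide
        rcases hc c with rfl | rfl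
        · rw [hl']
          exact (h3 _).1
        · rw [hl']
          exact (h3 _).2
      rw [h5, smul_zero]
    have h6 : ((B (e 0)) (if (0 : Fin (m + 1)) ∈ Finset.univ.erase (0 : Fin (m + 1)) then
        e (Fin.succ 0) - e (Fin.succ 0) else e (Fin.succ 0)) •
        (Lam B s).curryLeft (e 0)) (Fin.removeNth 0 (fun i : Fin (m + 1) =>
        if i ∈ Finset.univ.erase (0 : Fin (m + 1)) then e i.succ - e (Fin.succ 0) else
          e i.succ)) = 0 := by
      rw [AlternatingMap.smul_apply, h2, smul_zero]
    rw [h6, smul_zero]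
  · rw [if_pos (Finset.mem_erase.2 ⟨hj, Finset.mem_univ _⟩), map_sub, h0s, h0s, sub_self,
      zero_smul, AlternatingMap.zero_apply, smul_zero]

end Pool.Agent.H183.LG22
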