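import Pool.Agent.H416.LG.Tasks3

set_option autoImplicit false

namespace Pool.Agent.H195.LG

open Pool.Agent.H416.LG

universe u v

section

variable {m : ℕ}

theorem cyc_succ (j : Fin (m + 1)) (i : Fin m) : (j.cycleRange)⁻¹ i.succ = j.succAbove i :=
  Fin.cycleRange_symm_succ j i

theorem cyc_zero (j : Fin (m + 1)) : (j.cycleRange)⁻¹ 0 = j :=
  Fin.cycleRange_symm_zero j

/-- extension of a permutation -/
def ext (τ : Equiv.Perm (Fin m)) : Equiv.Perm (Fin (m + 1)) :=
  Equiv.Perm.decomposeFin.symm (0, τ)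

theorem ext_zero (τ : Equiv.Perm (Fin m)) : ext τ 0 = 0 := by
  simp [ext]

theorem ext_succ (τ : Equiv.Perm (Fin m)) (i : Fin m) : ext τ i.succ = (τ i).succ := by
  simp [ext]

theorem ext_inj {τ τ' : Equiv.Perm (Fin m)} (h : ext τ = ext τ') : τ = τ' := by
  have := Equiv.Perm.decomposeFin.symm.injective h
  exact (Prod.ext_iff.1 this).2

theorem ext_sign (τ : Equiv.Perm (Fin m)) : Equiv.Perm.sign (ext τ) = Equiv.Perm.sign τ := by
  simp [ext]

/-- the parametrisation -/
def par (p : Fin (m + 1) × Equiv.Perm (Fin m)) : Equiv.Perm (Fin (m + 1)) :=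
  (p.1.cycleRange)⁻¹ * ext p.2

theorem par_zero (p : Fin (m + 1) × Equiv.Perm (Fin m)) : par p 0 = p.1 := by
  rw [par, Equiv.Perm.mul_apply, ext_zero, cyc_zero]

theorem par_succ (p : Fin (m + 1) × Equiv.Perm (Fin m)) (i : Fin m) :
    par p i.succ = p.1.succAbove (p.2 i) := by
  rw [par, Equiv.Perm.mul_apply, ext_succ, cyc_succ]

theorem par_sign (p : Fin (m + 1) × Equiv.Perm (Fin m)) :
    Equiv.Perm.sign (par p) = (-1) ^ (p.1 : ℕ) * Equiv.Perm.sign p.2 := by
  rw [par, Equiv.Perm.sign_mul, Equiv.Perm.sign_inv, Fin.sign_cycleRange, ext_sign]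

theorem par_bij : Function.Bijective (par (m := m)) := by
  rw [Fintype.bijective_iff_injective_and_card]
  refine ⟨?_, (Fintype.card_congr Equiv.Perm.decomposeFin).symm⟩
  intro p q h
  have h1 : p.1 = q.1 := by rw [← par_zero p, ← par_zero q, h]
  have h2 : ext p.2 = ext q.2 := by
    unfold par at h
    rw [h1] at h
    exact mul_left_cancel h
  exact Prod.ext h1 (ext_inj h2)

end

theorem LG23_holds : S_LG23.{u, v} := by
  intro X F _ m h y
  have s1 : ∀ j : Fin (m + 1), ∑ σ : Equiv.Perm (Fin (m + 1)), (Equiv.Perm.sign σ : ℤ) •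
      ((-1) ^ (j : ℕ) * h (fun i => y (σ (j.succAbove i)))) =
      ∑ σ : Equiv.Perm (Fin (m + 1)), (Equiv.Perm.sign σ : ℤ) • h (fun i => y (σ i.succ)) := by
    intro j
    rw [← Equiv.sum_comp (Equiv.mulRight (j.cycleRange)⁻¹)
      (fun σ : Equiv.Perm (Fin (m + 1)) => (Equiv.Perm.sign σ : ℤ) • h (fun i => y (σ i.succ)))]
    refine Finset.sum_congr rfl fun σ _ => ?_
    have e1 : (fun i : Fin m => y ((Equiv.mulRight (j.cycleRange)⁻¹) σ i.succ)) =
        fun i => y (σ (j.succAbove i)) := by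
      funext i
      rw [Equiv.coe_mulRight, Equiv.Perm.mul_apply, cyc_succ]
    have e2 : ((Equiv.Perm.sign ((Equiv.mulRight (j.cycleRange)⁻¹) σ) : ℤˣ) : ℤ) =
        (Equiv.Perm.sign σ : ℤ) * (-1) ^ (j : ℕ) := by
      rw [Equiv.coe_mulRight, Equiv.Perm.sign_mul, Equiv.Perm.sign_inv, Fin.sign_cycleRange]
      push_cast
      rfl
    rw [e1, e2]
    simp only [zsmul_eq_mul]
    push_cast
    ring
  have s2 : ∑ σ : Equiv.Perm (Fin (m + 1)), (Equiv.Perm.sign σ : ℤ) • h (fun i => y (σ i.succ)) =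
      ∑ j : Fin (m + 1), (-1) ^ (j : ℕ) *
      ∑ τ : Equiv.Perm (Fin m), (Equiv.Perm.sign τ : ℤ) • h (fun i => y (j.succAbove (τ i))) := by
    rw [← Function.Bijective.sum_comp par_bij (fun σ : Equiv.Perm (Fin (m + 1)) =>
      (Equiv.Perm.sign σ : ℤ) • h (fun i => y (σ i.succ))), Fintype.sum_prod_type]
    refine Finset.sum_congr rfl fun j _ => ?_
    rw [Finset.mul_sum]
    refine Finset.sum_congr rfl fun τ _ => ?_
    have e1 : (fun i : Fin m => y (par (j, τ) i.succ)) = fun i => y (j.succAbove (τ i)) := by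
      funext i
      rw [par_succ]
    have e2 : ((Equiv.Perm.sign (par (j, τ)) : ℤˣ) : ℤ) =
        (-1) ^ (j : ℕ) * (Equiv.Perm.sign τ : ℤ) := by
      rw [par_sign]
      push_cast
      rfl
    rw [e1, e2]
    simp only [zsmul_eq_mul]
    push_cast
    ring
  rw [← s2]
  simp only [Finset.smul_sum]
  rw [Finset.sum_comm]
  rw [Finset.sum_congr rfl fun j _ => s1 j, Finset.sum_const, Finset.card_univ, Fintype.card_fin,
    nsmul_eq_mul]
  push_cast
  rfl

end Pool.Agent.H195.LG
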