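import Pool.Agent.H416.LG.Coh
import Pool.Agent.H416.LG.P7
import Pool.Agent.H416.LG.P14
import Pool.Agent.H416.LG.P15
import Pool.Agent.H416.LG.P17
import Pool.Agent.H416.LG.P18
import Pool.Agent.H416.LG.P20
import Pool.Agent.H416.LG.P21
import Pool.Agent.H416.LG.P22
import Pool.Agent.H416.LG.P23
import Pool.Agent.H416.Cls

set_option autoImplicit false

/-!
# The class of good elements
-/

namespace Pool.Agent.H416.LG

open Finset
open Pool.Agent.H416 (RC LocRC OnCircle OnCAT0 OnNegType OnWalls)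

universe u v w x y z

variable {G : Type w} [Group G]

/-- The traces vanish at the good elements. -/
theorem Good.van {g : G} (hg : Good.{w, z} G g) : Van.{v, w} G g := by
  obtain ⟨hinf, hg⟩ := hg
  refine van_of_fg fun H hH hgH => ?_
  rcases hg H hH hgH with h | h
  · intro A _ T hT e he
    rcases h.datum with hD | ⟨F, _, _, hD⟩
    · exact cT_zero T hT hD e he
    · have h1 := cT_zero ((algebraMap ℚ F : ℚ →+* F).toAddMonoidHom.comp T)
        (fun a b => by rw [AddMonoidHom.comp_apply, AddMonoidHom.comp_apply, hT]) hD e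
        (fun W c => by rw [AddMonoidHom.comp_apply, AddMonoidHom.comp_apply, he W c])
      apply (algebraMap ℚ F).injective
      rw [map_zero, ← h1]
      unfold cT
      rw [map_sum]
      refine Finset.sum_congr rfl fun c _ => ?_
      split_ifs
      · rfl
      · exact map_zero _
  · intro A _ T hT e he
    exact cT_zero_N Pool.Agent.H548.LG20.LG20_holds Pool.Agent.H195.LG.LG23_holds T hT
      (h.ndatum Pool.Agent.H122.LG21.LG21_holds Pool.Agent.H183.LG22.LG22_holds) e he

/-- The homomorphism of the centralisers. -/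
def centHom {G G' : Type w} [Group G] [Group G'] (f : G →* G') (g : G) (g' : G') (h : f g = g') :
    Subgroup.centralizer ({g} : Set G) →* Subgroup.centralizer ({g'} : Set G') where
  toFun c := ⟨f c, by
    rw [Subgroup.mem_centralizer_singleton_iff, ← h, ← map_mul, ← map_mul,
      Subgroup.mem_centralizer_singleton_iff.1 c.2]⟩
  map_one' := Subtype.ext (map_one _)
  map_mul' a b := Subtype.ext (map_mul _ _ _)

theorem LinC.comap {G G' : Type w} [Group G] [Group G'] (f : G →* G') {g : G} {g' : G'}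
    (hf : f g = g') (h : LinC.{w, z} G' g') : LinC.{w, z} G g := by
  obtain ⟨F, _, n, ρ, hρ⟩ := h
  refine ⟨F, _, n, ρ.comp (centHom f g g' hf), fun k hk => ?_⟩
  have h1 : centHom f g g' hf ⟨g, mem_cent g⟩ = ⟨g', mem_cent g'⟩ := Subtype.ext hf
  rw [MonoidHom.comp_apply, h1]
  exact hρ k hk

theorem CohC.comap {G G' : Type w} [Group G] [Group G'] (f : G →* G') {g : G} {g' : G'}
    (hf : f g = g') (h : CohC G' g') : CohC G g := by
  obtain ⟨C', N, _, _, φ, π, j, hcen, hinf, hπ, hker, hN⟩ := h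
  have h1 : centHom f g g' hf ⟨g, mem_cent g⟩ = ⟨g', mem_cent g'⟩ := Subtype.ext hf
  refine ⟨C', N, _, _, φ.comp (centHom f g g' hf), π, j, ?_, ?_, hπ, ?_, hN⟩
  · rw [MonoidHom.comp_apply, h1]
    exact hcen
  · rw [MonoidHom.comp_apply, h1]
    exact hinf
  · rw [MonoidHom.comp_apply, h1]
    exact hker

/-- Pullbacks. -/
theorem Good.comap {G' : Type w} [Group G'] (f : G →* G') {g : G} (hg : Good.{w, z} G' (f g)) :
    Good.{w, z} G g := by
  refine ⟨fun h => hg.1 (MonoidHom.isOfFinOrder f h), fun H hH hgH => ?_⟩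
  have hFG : (H.map f).FG := by
    obtain ⟨S, hS⟩ := hH
    classical
    refine ⟨S.image f, ?_⟩
    rw [Finset.coe_image, ← hS, MonoidHom.map_closure]
  have hgm : f g ∈ H.map f := ⟨g, hgH, rfl⟩
  let e : H →* H.map f := f.subgroupMap H
  have he : e ⟨g, hgH⟩ = ⟨f g, hgm⟩ := rfl
  exact (hg.2 _ hFG hgm).imp (fun h => h.comap e he) fun h => h.comap e he

theorem Good.sub {g : G} (hg : Good.{w, z} G g) (K : Subgroup G) (hgK : g ∈ K) :
    Good.{w, z} K ⟨g, hgK⟩ := Good.comap K.subtype hg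

theorem Good.ne_one {g : G} (hg : Good.{w, z} G g) (n : ℕ) (hn : 0 < n) : g ^ n ≠ 1 := fun h =>
  hg.1 (isOfFinOrder_iff_pow_eq_one.2 ⟨n, hn, h⟩)

/-- Groups which are linear over fields, locally. -/
theorem Good.of_linear {g : G} (h : OnLinear.{w, z} G g) : Good.{w, z} G g := by
  refine ⟨fun h1 => ?_, fun H hH hgH => ?_⟩
  · obtain ⟨n, hn, h2⟩ := isOfFinOrder_iff_pow_eq_one.1 h1
    obtain ⟨F, _, m, ρ, hρ⟩ := h (Subgroup.closure ({g} : Set G)) ⟨{g}, by simp⟩
      (Subgroup.subset_closure rfl)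
    apply hρ n hn
    rw [← map_pow]
    have h3 : (⟨g, Subgroup.subset_closure rfl⟩ : Subgroup.closure ({g} : Set G)) ^ n = 1 :=
      Subtype.ext h2
    rw [h3, map_one]
  · left
    obtain ⟨F, _, m, ρ, hρ⟩ := h H hH hgH
    exact ⟨F, _, m, ρ.comp (Subgroup.subtype _), hρ⟩

/-- Elements of infinite order in the abelianisation of the centraliser. -/
theorem Good.of_rc {g : G} (h : LocRC g) : Good.{w, 0} G g := by
  have hlin : ∀ {H : Type w} [Group H] (g : H), RC g → LinC.{w, 0} H g := by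
    intro H _ g hg
    obtain ⟨l, hl, hlg⟩ := hg
    have hC : ∀ a : Subgroup.centralizer ({g} : Set H), (a : H) * g = g * a := fun a =>
      Subgroup.mem_centralizer_singleton_iff.1 a.2
    have hadd : ∀ a b : Subgroup.centralizer ({g} : Set H), l (a * b : H) = l a + l b :=
      fun a b => hl a b (hC a) (hC b)
    have h1 : l 1 = 0 := by
      have h2 := hl 1 1 (by rw [one_mul, mul_one]) (by rw [one_mul, mul_one])
      rw [mul_one] at h2
      linarith
    let f : Subgroup.centralizer ({g} : Set H) → Matrix (Fin 2) (Fin 2) ℚ := fun a => !![1, l a; 0, 1]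
    have hf : ∀ a b, f (a * b) = f a * f b := by
      intro a b
      simp only [f, Subgroup.coe_mul, hadd]
      ext i j
      fin_cases i <;> fin_cases j <;> simp [Matrix.mul_apply, Fin.sum_univ_two, add_comm]
    have hf1 : f 1 = 1 := by
      simp only [f, Subgroup.coe_one, h1]
      ext i j
      fin_cases i <;> fin_cases j <;> simp
    let ρ : Subgroup.centralizer ({g} : Set H) →* Matrix (Fin 2) (Fin 2) ℚ :=
      ⟨⟨f, hf1⟩, hf⟩
    refine ⟨ℚ, inferInstance, 2, ρ.toHomUnits, fun k hk h2 => ?_⟩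
    have h3 := congrArg (fun x : GL (Fin 2) ℚ => (x : Matrix (Fin 2) (Fin 2) ℚ) 0 1) h2
    rw [← map_pow] at h3
    have h4 : l (g ^ k) = 0 := by
      have h5 : ((ρ.toHomUnits ((⟨g, mem_cent g⟩ : Subgroup.centralizer ({g} : Set H)) ^ k) :
        GL (Fin 2) ℚ) : Matrix (Fin 2) (Fin 2) ℚ) 0 1 = l (g ^ k) := rfl
      rw [← h5]
      exact h3.trans (by simp)
    have h5 := Pool.Agent.H416.RCT.additive_pow hl k
    rw [h4, hlg, mul_one] at h5
    have h6 : (k : ℚ) = 0 := h5.symm
    have h7 : (k : ℚ) ≠ 0 := by exact_mod_cast hk.ne'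
    exact h7 h6
  refine ⟨fun h1 => ?_, fun H hH hgH => Or.inl (hlin _ (h H hH hgH))⟩
  obtain ⟨n, hn, h2⟩ := isOfFinOrder_iff_pow_eq_one.1 h1
  have h3 := Pool.Agent.H416.RC.pow_ne (h (Subgroup.closure ({g} : Set G)) ⟨{g}, by simp⟩
      (Subgroup.subset_closure rfl)) n hn
  exact h3 (Subtype.ext h2)

end Pool.Agent.H416.LG
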