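import Pool.Agent.H416.LG.Nil

set_option autoImplicit false

/-!
# Elements whose centralisers are linear, or have a vanishing even cohomology group modulo the element
-/

namespace Pool.Agent.H416.LG

open Finset

universe u v w x y z

/-- The group cohomology `H^n(N; ℚ)` vanishes (`n > 0`): every homogeneous cocycle is a coboundary. -/
def CohZero (N : Type w) [Group N] (n : ℕ) : Prop :=
  ∀ φ : (Fin (n + 1) → N) → ℚ, (∀ (c : N) (y : Fin (n + 1) → N), φ (fun i => c * y i) = φ y) →
    (∀ y : Fin (n + 2) → N,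
      ∑ j : Fin (n + 2), (-1) ^ (j : ℕ) * φ (fun i => y (j.succAbove i)) = 0) →
    ∃ h : (Fin n → N) → ℚ, (∀ (c : N) (y : Fin n → N), h (fun i => c * y i) = h y) ∧
      ∀ y : Fin (n + 1) → N, φ y = ∑ j : Fin (n + 1), (-1) ^ (j : ℕ) * h (fun i => y (j.succAbove i))

theorem mem_cent {G : Type w} [Group G] (g : G) : g ∈ Subgroup.centralizer ({g} : Set G) :=
  Subgroup.mem_centralizer_singleton_iff.2 rfl

/-- The centraliser of `g` has a representation over a field in which `g` has infinite order. -/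
def LinC (G : Type w) [Group G] (g : G) : Prop :=
  ∃ (F : Type z) (_ : Field F) (n : ℕ) (ρ : Subgroup.centralizer ({g} : Set G) →* GL (Fin n) F),
    ∀ k : ℕ, 0 < k → ρ ⟨g, mem_cent g⟩ ^ k ≠ 1

/-- The centraliser of `g` has a homomorphism `f` to a group `C'` such that `f g` is central of infinite
order and the cohomology group `H^(2 j + 2)(N; ℚ)` of the quotient `N = C' / ⟨f g⟩` vanishes for some
`j ≥ 0`. (For example `C'` is the centraliser of `g`.) -/
def CohC (G : Type w) [Group G] (g : G) : Prop :=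
  ∃ (C' N : Type w) (_ : Group C') (_ : Group N) (f : Subgroup.centralizer ({g} : Set G) →* C')
    (π : C' →* N) (j : ℕ), (∀ c : C', c * f ⟨g, mem_cent g⟩ = f ⟨g, mem_cent g⟩ * c) ∧
    ¬ IsOfFinOrder (f ⟨g, mem_cent g⟩) ∧ Function.Surjective π ∧
    (∀ c : C', π c = 1 ↔ ∃ m : ℤ, c = f ⟨g, mem_cent g⟩ ^ m) ∧ CohZero N (2 * j + 2)

/-- `g` has infinite order, and each finitely generated subgroup containing `g` has `LinC` or `CohC`. -/
def Good (G : Type w) [Group G] (g : G) : Prop :=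
  ¬ IsOfFinOrder g ∧ ∀ H : Subgroup G, H.FG → ∀ hg : g ∈ H,
    LinC.{w, z} H ⟨g, hg⟩ ∨ CohC H ⟨g, hg⟩

section transfer

theorem Datum.of_centralizer {F : Type u} [Field F] {G : Type w} [Group G] {g : G}
    (hD : Datum F (Subgroup.centralizer ({g} : Set G)) ⟨g, mem_cent g⟩) : Datum F G g := by
  obtain ⟨E, i1, i2, i3, B, r, κ, hκ, h1, h2, h3⟩ := hD
  obtain ⟨c, hc, hcz⟩ := Pool.Agent.H183.LG6.exists_retr (Subgroup.centralizer ({g} : Set G))
  refine ⟨E, i1, i2, i3, B, fun u => r ⟨c u, hc u⟩, κ, hκ, fun u v => h1 _ _,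
    fun z u v hz => ?_, fun u v => ?_⟩
  · have hz' : z ∈ Subgroup.centralizer ({g} : Set G) := Subgroup.mem_centralizer_singleton_iff.2 hz
    have e1 : ∀ u, (⟨c (z * u), hc (z * u)⟩ : Subgroup.centralizer ({g} : Set G)) =
        ⟨z, hz'⟩ * ⟨c u, hc u⟩ := fun u => Subtype.ext (hcz z hz' u)
    simp only [e1]
    exact h2 _ _ _ (Subtype.ext hz)
  · have e1 : (⟨c (g * v), hc (g * v)⟩ : Subgroup.centralizer ({g} : Set G)) =
        ⟨g, mem_cent g⟩ * ⟨c v, hc v⟩ := Subtype.ext (hcz g (mem_cent g) v)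
    simp only [e1]
    exact h3 _ _

theorem LinC.datum {G : Type w} [Group G] {g : G} (h : LinC.{w, z} G g) :
    Datum ℚ G g ∨ ∃ (F : Type z) (_ : Field F) (_ : CharZero F), Datum F G g := by
  obtain ⟨F, _, n, ρ, hρ⟩ := h
  rcases datum_of_linear ρ hρ with hD | ⟨F', i1, i2, hD⟩
  · exact Or.inl hD.of_centralizer
  · exact Or.inr ⟨F', i1, i2, hD.of_centralizer⟩

end transfer

section coh

theorem NDatum.comap {F : Type u} [Field F] {G G' : Type w} [Group G] [Group G'] (f : G →* G')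
    {g : G} (hD : NDatum F G' (f g)) : NDatum F G g := by
  obtain ⟨b, k, n, s, h, h2, hskew, hinv, hshift, hh, hbas, hpsi⟩ := hD
  refine ⟨fun u v => b (f u) (f v), k, n, s, fun y => h (fun i => f (y i)), h2,
    fun u v => hskew _ _, fun z u v hz => ?_, fun u v => ?_, fun z hz y => ?_, fun y i => ?_,
    fun y => hpsi _⟩
  · beta_reduce
    rw [map_mul, map_mul]
    exact hinv _ _ _ (by rw [← map_mul, hz, map_mul])
  · beta_reduce
    rw [map_mul]
    exact hshift _ _
  · simp only [map_mul]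
    exact hh (f z) (by rw [← map_mul, hz, map_mul]) _
  · refine Eq.trans ?_ (hbas (fun i => f (y i)) i)
    show h _ = h _
    congr 1
    funext i'
    by_cases hi : i' = i
    · subst hi
      rw [Function.update_self, Function.update_self, map_mul]
    · rw [Function.update_of_ne hi, Function.update_of_ne hi]

theorem NDatum.of_centralizer {F : Type u} [Field F] {G : Type w} [Group G] {g : G}
    (hD : NDatum F (Subgroup.centralizer ({g} : Set G)) ⟨g, mem_cent g⟩) : NDatum F G g := by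
  obtain ⟨b, k, n, s, h, h2, hskew, hinv, hshift, hh, hbas, hpsi⟩ := hD
  obtain ⟨c, hc, hcz⟩ := Pool.Agent.H183.LG6.exists_retr (Subgroup.centralizer ({g} : Set G))
  have ec : ∀ (z : G) (hz : z ∈ Subgroup.centralizer ({g} : Set G)) (u : G),
      (⟨c (z * u), hc (z * u)⟩ : Subgroup.centralizer ({g} : Set G)) = ⟨z, hz⟩ * ⟨c u, hc u⟩ :=
    fun z hz u => Subtype.ext (hcz z hz u)
  refine ⟨fun u v => b ⟨c u, hc u⟩ ⟨c v, hc v⟩, k, n, s, fun y => h (fun i => ⟨c (y i), hc (y i)⟩),
    h2, fun u v => hskew _ _, fun z u v hz => ?_, fun u v => ?_, fun z hz y => ?_, fun y i => ?_,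
    fun y => hpsi _⟩
  · beta_reduce
    rw [ec z (Subgroup.mem_centralizer_singleton_iff.2 hz),
      ec z (Subgroup.mem_centralizer_singleton_iff.2 hz)]
    exact hinv _ _ _ (Subtype.ext hz)
  · beta_reduce
    rw [ec g (mem_cent g)]
    exact hshift _ _
  · simp only [ec z (Subgroup.mem_centralizer_singleton_iff.2 hz)]
    exact hh _ (Subtype.ext hz) _
  · refine Eq.trans ?_ (hbas (fun i => ⟨c (y i), hc (y i)⟩) i)
    show h _ = h _
    congr 1
    funext i'
    by_cases hi : i' = i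
    · subst hi
      simp only [Function.update_self]
      exact ec g (mem_cent g) _
    · simp only [Function.update_of_ne hi]

theorem psi_inv {G : Type w} [Group G] {F : Type u} [Field F] (b : G → G → F) (z : G)
    (hz : ∀ u v, b (z * u) (z * v) = b u v) {k m : ℕ} (s : Fin k × Fin 2 ≃ Fin (m + 1))
    (y : Fin m → G) : psi b s (fun i => z * y i) = psi b s y := by
  have h1 : ∀ i j, bord b (fun i => z * y i) i j = bord b y i j := by
    intro i j
    refine Fin.cases ?_ (fun i' => ?_) i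
    · rfl
    · refine Fin.cases ?_ (fun j' => ?_) j
      · rfl
      · exact hz _ _
  unfold psi
  simp only [h1]

theorem psi_congr (h21 : S_LG21.{0, w}) {C : Type w} [Group C] (β : C → C → ℚ)
    (hβ : ∀ x y, β x y = -β y x) (g : C) (hg : ∀ (m : ℤ) u v, β (g ^ m * u) v = β u v - 2 * m)
    {k m : ℕ} (s : Fin k × Fin 2 ≃ Fin (m + 1)) (y y' : Fin m → C)
    (h : ∀ i, ∃ a : ℤ, y' i = g ^ a * y i) : psi β s y' = psi β s y := by
  classical
  have key : ∀ S : Finset (Fin m), psi β s (fun i => if i ∈ S then y' i else y i) = psi β s y := by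
    intro S
    induction S using Finset.induction_on with
    | empty =>
      congr 1
    | insert i₀ S hi ih =>
      rw [← ih]
      obtain ⟨a, ha⟩ := h i₀
      refine h21 β hβ s _ _ i₀ (2 * a) (fun i hne => ?_) (fun j hj => ?_)
      · have h1 : i ∈ insert i₀ S ↔ i ∈ S := by
          rw [Finset.mem_insert]
          exact ⟨fun h2 => h2.resolve_left hne, Or.inr⟩
        simp only [h1]
      · rw [if_pos (Finset.mem_insert_self _ _), if_neg hi, ha, hg]
  have h1 := key Finset.univ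
  simp only [Finset.mem_univ, if_true] at h1
  exact h1

theorem ndatum_of_coh (h21 : S_LG21.{0, w}) (h22 : S_LG22.{0, w}) {G : Type w} [Group G] {g : G}
    (hg : ¬ IsOfFinOrder g) {N : Type w} [Group N] (C : Subgroup G)
    (hC : ∀ z, z ∈ C ↔ z * g = g * z) (π : C →* N) (hπ : Function.Surjective π)
    (hker : ∀ c : C, π c = 1 ↔ ∃ m : ℤ, (c : G) = g ^ m)
    (k n : ℕ) (hn : k * 2 = n + 3) (hN : CohZero N (n + 1)) : NDatum ℚ G g := by
  classical
  have hgC : g ∈ C := (hC g).2 rfl
  set g' : C := ⟨g, hgC⟩ with hg'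
  have hcen : ∀ w : C, w * g' = g' * w := fun w => Subtype.ext ((hC _).1 w.2)
  have hinj : Function.Injective fun m : ℤ => g ^ m :=
    injective_zpow_iff_not_isOfFinOrder.2 hg
  have hπg : π g' = 1 := (hker g').2 ⟨1, by rw [zpow_one]⟩
  let σ : N → C := Function.surjInv hπ
  have hσ : ∀ a, π (σ a) = a := Function.surjInv_eq hπ
  have hex : ∀ w : C, ∃ m : ℤ, w = g' ^ m * σ (π w) := by
    intro w
    have h1 : π (w * (σ (π w))⁻¹) = 1 := by
      rw [map_mul, map_inv, hσ, mul_inv_cancel]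
    obtain ⟨m, hm⟩ := (hker _).1 h1
    refine ⟨m, ?_⟩
    have h2 : w * (σ (π w))⁻¹ = g' ^ m := Subtype.ext (by
      rw [hm, Subgroup.coe_zpow])
    rw [← h2, inv_mul_cancel_right]
  choose a ha using hex
  have ha1 : ∀ w : C, a (g' * w) = a w + 1 := by
    intro w
    have h1 := ha (g' * w)
    have h2 : π (g' * w) = π w := by rw [map_mul, hπg, one_mul]
    rw [h2] at h1
    have h3 : g' * w = g' ^ (a w + 1) * σ (π w) := by
      conv_lhs => rw [ha w]
      rw [add_comm, zpow_add, zpow_one, mul_assoc]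
    have h4 : g' ^ a (g' * w) = g' ^ (a w + 1) := mul_right_cancel (h1.symm.trans h3)
    have h5 := congrArg (Subtype.val) h4
    rw [Subgroup.coe_zpow, Subgroup.coe_zpow] at h5
    exact hinj h5
  have ham : ∀ (m : ℤ) (w : C), a (g' ^ m * w) = a w + m := by
    intro m
    induction m using Int.induction_on with
    | zero => intro w; rw [zpow_zero, one_mul, add_zero]
    | succ i ih =>
      intro w
      rw [zpow_add, zpow_one, mul_assoc, ih, ha1]
      ring
    | pred i ih =>
      intro w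
      have h1 := ha1 (g'⁻¹ * w)
      rw [mul_inv_cancel_left] at h1
      rw [zpow_sub, zpow_one, mul_assoc, ih]
      rw [h1]
      ring
  let β : C → C → ℚ := fun u v => (a (u⁻¹ * v) : ℚ) - (a (v⁻¹ * u) : ℚ)
  have hβ : ∀ u v, β u v = -β v u := fun u v => by simp only [β]; ring
  have hβz : ∀ z u v, β (z * u) (z * v) = β u v := by
    intro z u v
    have e1 : (z * u)⁻¹ * (z * v) = u⁻¹ * v := by group
    have e2 : (z * v)⁻¹ * (z * u) = v⁻¹ * u := by group
    simp only [β]
    rw [e1, e2]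
  have hcenz : ∀ (m : ℤ) (w : C), w * g' ^ m = g' ^ m * w := fun m w =>
    ((show Commute w g' from hcen w).zpow_right m).eq
  have hβg : ∀ (m : ℤ) u v, β (g' ^ m * u) v = β u v - 2 * m := by
    intro m u v
    have e1 : (g' ^ m * u)⁻¹ * v = g' ^ (-m) * (u⁻¹ * v) := by
      rw [mul_inv_rev, ← zpow_neg, hcenz, mul_assoc]
    have e2 : v⁻¹ * (g' ^ m * u) = g' ^ m * (v⁻¹ * u) := by
      rw [← mul_assoc, hcenz, mul_assoc]
    simp only [β]
    rw [e1, e2, ham, ham]
    push_cast
    ring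
  -- the equivalence of the indices
  let s : Fin k × Fin 2 ≃ Fin (n + 3) := finProdFinEquiv.trans (finCongr hn)
  have hs : ∑ σ : Equiv.Perm (Fin (n + 3)), (Equiv.Perm.sign σ : ℤ) *
      ∏ l : Fin k, J (σ (s (l, 0))) (σ (s (l, 1))) ≠ 0 := by
    have key : ∀ (p : ℕ) (hp : k * 2 = p), ∑ σ : Equiv.Perm (Fin p), (Equiv.Perm.sign σ : ℤ) *
        ∏ l : Fin k, J (σ ((finProdFinEquiv.trans (finCongr hp)) (l, 0)))
          (σ ((finProdFinEquiv.trans (finCongr hp)) (l, 1))) ≠ 0 := by
      intro p hp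
      subst hp
      exact Pool.Agent.H229.LGB.LG2_holds k
    exact key (n + 3) hn
  -- the cocycle on the quotient
  let φ : (Fin (n + 1 + 1) → N) → ℚ := fun y => psi β s (fun i => σ (y i))
  have hφ : ∀ y : Fin (n + 1 + 1) → C, φ (fun i => π (y i)) = psi β s y := by
    intro y
    refine psi_congr h21 β hβ g' hβg s y _ fun i => ⟨-a (y i), ?_⟩
    have h1 := ha (y i)
    rw [zpow_neg, eq_inv_mul_iff_mul_eq]
    exact h1.symm
  have hlift : ∀ {m : ℕ} (y : Fin m → N), ∃ y' : Fin m → C, y = fun i => π (y' i) := by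
    intro m y
    exact ⟨fun i => σ (y i), funext fun i => (hσ _).symm⟩
  obtain ⟨h, hh1, hh2⟩ := hN φ (by
      intro c y
      obtain ⟨y', rfl⟩ := hlift y
      have h1 : (fun i => c * π (y' i)) = fun i => π (σ c * y' i) := by
        funext i
        rw [map_mul, hσ]
      rw [h1, hφ (fun i => σ c * y' i), hφ, psi_inv β (σ c) (hβz (σ c))])
    (by
      intro y
      obtain ⟨y', rfl⟩ := hlift y
      rw [← h22 β hβ s y']
      refine Finset.sum_congr rfl fun j _ => ?_
      rw [← hφ])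
  obtain ⟨c, hc, hcz⟩ := Pool.Agent.H183.LG6.exists_retr C
  have ec : ∀ (z : G) (hz : z ∈ C) (u : G), (⟨c (z * u), hc (z * u)⟩ : C) = ⟨z, hz⟩ * ⟨c u, hc u⟩ :=
    fun z hz u => Subtype.ext (hcz z hz u)
  refine ⟨fun u v => β ⟨c u, hc u⟩ ⟨c v, hc v⟩, k, n, s,
    fun y => h (fun i => π ⟨c (y i), hc (y i)⟩), hs, fun u v => hβ _ _, fun z u v hz => ?_,
    fun u v => ?_, fun z hz y => ?_, fun y i => ?_, fun y => ?_⟩
  · have hz' : z ∈ C := (hC z).2 hz
    beta_reduce
    rw [ec z hz', ec z hz', hβz]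
  · beta_reduce
    rw [ec g hgC, hβ, ← hg']
    have h1 := hβg 1 ⟨c v, hc v⟩ ⟨c u, hc u⟩
    rw [zpow_one] at h1
    rw [h1, hβ ⟨c v, hc v⟩ ⟨c u, hc u⟩]
    push_cast
    ring
  · have hz' : z ∈ C := (hC z).2 hz
    simp only [ec z hz', map_mul]
    exact hh1 _ _
  · show h _ = h _
    congr 1
    funext i'
    by_cases hi : i' = i
    · subst hi
      simp only [Function.update_self, ec g hgC, map_mul]
      rw [← hg', hπg, one_mul]
    · simp only [Function.update_of_ne hi]
  · have h1 := hh2 (fun i => π ⟨c (y i), hc (y i)⟩)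
    rw [hφ (fun i => ⟨c (y i), hc (y i)⟩)] at h1
    exact h1

theorem CohC.ndatum (h21 : S_LG21.{0, w}) (h22 : S_LG22.{0, w}) {G : Type w} [Group G] {g : G}
    (h : CohC G g) : NDatum ℚ G g := by
  obtain ⟨C', N, _, _, f, π, j, hcen, hinf, hπ, hker, hN⟩ := h
  apply NDatum.of_centralizer
  apply NDatum.comap f
  have hπ' : Function.Surjective (π.comp (⊤ : Subgroup C').subtype) := by
    intro n
    obtain ⟨c, hc⟩ := hπ n
    exact ⟨⟨c, Subgroup.mem_top c⟩, hc⟩
  exact ndatum_of_coh h21 h22 hinf (⊤ : Subgroup C')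
    (fun z => ⟨fun _ => hcen z, fun _ => Subgroup.mem_top z⟩) (π.comp (⊤ : Subgroup C').subtype) hπ'
    (fun c => hker c) (j + 2) (2 * j + 1) (by ring) hN

end coh

end Pool.Agent.H416.LG
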