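import Pool.Agent.H416.LG.Ev
import Pool.Agent.H416.LG.Tasks

set_option autoImplicit false

/-!
# Vanishing of the functional `Ev`
-/

namespace Pool.Agent.H416.LG

open Fin Finset

universe u w x

section skew

variable {G : Type w} [Group G] {F : Type u} [Field F]

/-- The skew extension of `α (y i) (y j)`, `i < j`. -/
def AA (α : G → G → F) {m : ℕ} (y : Fin m → G) (i j : Fin m) : F :=
  if i < j then α (y i) (y j) else if j < i then -α (y j) (y i) else 0

omit [Group G] in
theorem AA_comp (α : G → G → F) {m n : ℕ} (y : Fin m → G) (j : Fin n → Fin m) (hj : StrictMono j)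
    (a b : Fin n) : AA α (fun i => y (j i)) a b = AA α y (j a) (j b) := by
  unfold AA
  simp only [hj.lt_iff_lt]

theorem AA_rot (g : G) (α : G → G → F) (hα : ∀ u v : G, α v (g * u) = -α u v) {n : ℕ}
    (y : Fin (n + 1) → G) (i j : Fin (n + 1)) :
    AA α (Rot g y) i j = AA α y (finRotate _ i) (finRotate _ j) := by
  have h0 : ∀ a : Fin n, finRotate (n + 1) a.castSucc = a.succ := fun a => by
    rw [finRotate_apply, Fin.coeSucc_eq_succ]
  have h1 : finRotate (n + 1) (Fin.last n) = 0 := finRotate_last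
  unfold AA
  induction i using Fin.lastCases with
  | last =>
    induction j using Fin.lastCases with
    | last => simp
    | cast b =>
      rw [h1, h0, Rot_last, Rot_castSucc, if_neg (not_lt.2 (Fin.le_last _)),
        if_pos (Fin.castSucc_lt_last b), if_pos (Fin.succ_pos b), hα, neg_neg]
  | cast a =>
    induction j using Fin.lastCases with
    | last =>
      rw [h1, h0, Rot_last, Rot_castSucc, if_pos (Fin.castSucc_lt_last a),
        if_neg (not_lt.2 (Fin.zero_le _)), if_pos (Fin.succ_pos a), hα]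
    | cast b =>
      rw [h0, h0, Rot_castSucc, Rot_castSucc]
      simp only [Fin.castSucc_lt_castSucc_iff, Fin.succ_lt_succ_iff]

theorem AA_inv (g : G) (α : G → G → F) (hi : ∀ z u v : G, z * g = g * z → α (z * u) (z * v) = α u v)
    {m : ℕ} (z : G) (hz : z * g = g * z) (y : Fin m → G) (i j : Fin m) :
    AA α (fun i => z * y i) i j = AA α y i j := by
  unfold AA
  simp only [hi z _ _ hz]

end skew

section cyc

/-- The cyclic permutation of the image of an increasing injection. -/
def cycE {m s : ℕ} (j : Fin (s + 1) ↪o Fin m) : Equiv.Perm (Fin m) :=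
  (finRotate (s + 1)).viaFintypeEmbedding j.toEmbedding

theorem cycE_apply {m s : ℕ} (j : Fin (s + 1) ↪o Fin m) (a : Fin (s + 1)) :
    cycE j (j a) = j (finRotate (s + 1) a) :=
  Equiv.Perm.viaFintypeEmbedding_apply_image (finRotate (s + 1)) j.toEmbedding a

theorem cycE_not {m s : ℕ} (j : Fin (s + 1) ↪o Fin m) {b : Fin m} (hb : b ∉ Set.range j) :
    cycE j b = b :=
  Equiv.Perm.viaFintypeEmbedding_apply_notMem_range (finRotate (s + 1)) j.toEmbedding hb

theorem cycE_sign {m s : ℕ} (j : Fin (s + 1) ↪o Fin m) :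
    Equiv.Perm.sign (cycE j) = (-1) ^ s := by
  unfold cycE
  rw [Equiv.Perm.viaFintypeEmbedding_sign, sign_finRotate, Nat.add_sub_cancel]

open Classical in
/-- The cyclic permutation of a set with `s + 1` elements. -/
noncomputable def cyc {m : ℕ} (s : ℕ) (V : Finset (Fin m)) : Equiv.Perm (Fin m) :=
  if h : V.card = s + 1 then cycE (V.orderEmbOfFin h) else 1

theorem cyc_not {m s : ℕ} {V : Finset (Fin m)} {b : Fin m} (hb : b ∉ V) : cyc s V b = b := by
  unfold cyc
  split_ifs with h
  · apply cycE_not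
    rw [Finset.range_orderEmbOfFin]
    exact fun h1 => hb (Finset.mem_coe.1 h1)
  · rfl

theorem cyc_mem {m s : ℕ} {V : Finset (Fin m)} {b : Fin m} (hb : b ∈ V) : cyc s V b ∈ V := by
  unfold cyc
  split_ifs with h
  · have h1 : b ∈ Set.range (V.orderEmbOfFin h) := by
      rw [Finset.range_orderEmbOfFin]
      exact Finset.mem_coe.2 hb
    obtain ⟨a, rfl⟩ := h1
    rw [cycE_apply]
    exact Finset.orderEmbOfFin_mem V h _
  · exact hb

theorem cyc_sign {m s : ℕ} {V : Finset (Fin m)} (h : V.card = s + 1) :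
    Equiv.Perm.sign (cyc s V) = (-1) ^ s := by
  rw [cyc, dif_pos h, cycE_sign]

/-- The vertices used by the pairs `P` for the permutation `σ`. -/
def VV {k m : ℕ} (s : Fin k × Fin 2 ≃ Fin m) (P : Finset (Fin k)) (σ : Equiv.Perm (Fin m)) :
    Finset (Fin m) := (P ×ˢ Finset.univ).image fun p => σ (s p)

theorem mem_VV {k m : ℕ} (s : Fin k × Fin 2 ≃ Fin m) (P : Finset (Fin k)) (σ : Equiv.Perm (Fin m))
    (l : Fin k) (b : Fin 2) : σ (s (l, b)) ∈ VV s P σ ↔ l ∈ P := by
  unfold VV
  rw [Finset.mem_image]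
  constructor
  · rintro ⟨p, hp, h⟩
    have h1 := s.injective (σ.injective h)
    rw [h1, Finset.mem_product] at hp
    exact hp.1
  · intro hl
    exact ⟨(l, b), Finset.mem_product.2 ⟨hl, Finset.mem_univ _⟩, rfl⟩

theorem card_VV {k m : ℕ} (s : Fin k × Fin 2 ≃ Fin m) (P : Finset (Fin k))
    (σ : Equiv.Perm (Fin m)) : (VV s P σ).card = P.card * 2 := by
  unfold VV
  rw [Finset.card_image_of_injective (f := fun p => σ (s p)) _ (σ.injective.comp s.injective),
    Finset.card_product, Finset.card_univ, Fintype.card_fin]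

theorem VV_cyc {k m : ℕ} (s : Fin k × Fin 2 ≃ Fin m) (P : Finset (Fin k)) (t : ℕ)
    (σ : Equiv.Perm (Fin m)) : VV s P (cyc t (VV s P σ) * σ) = VV s P σ := by
  apply Finset.eq_of_subset_of_card_le
  · intro x hx
    obtain ⟨⟨l, b⟩, hp, rfl⟩ := Finset.mem_image.1 hx
    rw [Equiv.Perm.mul_apply]
    apply cyc_mem
    rw [mem_VV]
    exact (Finset.mem_product.1 hp).1
  · rw [card_VV, card_VV]

/-- The sign reversing bijection of the set of permutations. -/
noncomputable def Psi {k m : ℕ} (s : Fin k × Fin 2 ≃ Fin m) (P : Finset (Fin k)) (t : ℕ) :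
    Equiv.Perm (Fin m) ≃ Equiv.Perm (Fin m) :=
  Equiv.ofBijective (fun σ => cyc t (VV s P σ) * σ) (Finite.injective_iff_bijective.1 (by
    intro σ τ h
    dsimp only at h
    have h1 : VV s P σ = VV s P τ := by
      rw [← VV_cyc s P t σ, ← VV_cyc s P t τ, h]
    rw [h1] at h
    exact mul_left_cancel h))

end cyc

section main

variable {G : Type w} [Group G] [DecidableEq G] {A : Type x} [Ring A] {F : Type u} [Field F]
variable (T : A →+ F) (hT : ∀ a b : A, T (a * b) = T (b * a)) (e : G →₀ A)
  (hee : ∀ (H : G → F) (W : A), ∑ a ∈ e.support, ∑ b ∈ e.support, H (a * b) * T (W * (e a * e b)) =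
    ∑ c ∈ e.support, H c * T (W * e c)) (g : G)

include hT hee in
/-- Forgetting several vertices. -/
theorem Ev_strictMono (n : ℕ) : ∀ (s : ℕ) (j : Fin (s + 1) → Fin (n + 1)), StrictMono j →
    ∀ f : (Fin (s + 1) → G) → F, Inv g f →
    Ev T e g n (fun y => f (fun i => y (j i))) = Ev T e g s f := by
  induction n with
  | zero =>
    intro s j hj f hf
    have hs : s = 0 := by
      have h1 := Fintype.card_le_of_injective j hj.injective
      rw [Fintype.card_fin, Fintype.card_fin] at h1
      omega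
    subst hs
    congr 1
    funext y
    congr 1
    funext i
    have h2 : j i = i := by
      have h3 := (j i).2
      have h4 := i.2
      exact Fin.ext (by omega)
    rw [h2]
  | succ n ih =>
    intro s j hj f hf
    by_cases hsurj : Function.Surjective j
    · have h1 := Fintype.card_of_bijective ⟨hj.injective, hsurj⟩
      rw [Fintype.card_fin, Fintype.card_fin] at h1
      have hs : s = n + 1 := by omega
      subst hs
      have h2 : ∀ i, j i = i := by
        intro i
        have h3 : (RelIso.ofSurjective (OrderEmbedding.ofStrictMono j hj) hsurj :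
          Fin (n + 1 + 1) ≃o Fin (n + 1 + 1)) = OrderIso.refl _ := Subsingleton.elim _ _
        exact DFunLike.congr_fun h3 i
      congr 1
      funext y
      congr 1
      funext i
      rw [h2]
    · have h1 : ∃ i, ∀ a, j a ≠ i := by
        by_contra h
        push Not at h
        exact hsurj h
      obtain ⟨i, hi⟩ := h1
      choose j' hj' using fun a => Fin.exists_succAbove_eq (hi a)
      have hmono : StrictMono j' := by
        intro a b hab
        have h2 := hj hab
        rw [← hj' a, ← hj' b, (Fin.strictMono_succAbove i).lt_iff_lt] at h2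
        exact h2
      have h3 := Ev_forget T hT e hee g n i (fun y => f (fun a => y (j' a))) (hf.comp _)
      rw [ih s j' hmono f hf] at h3
      rw [← h3]
      congr 1
      funext y
      congr 1
      funext a
      show y (j a) = y (i.succAbove (j' a))
      rw [hj']

include hT hee in
/-- The mean value of a product of values of `α` is invariant under rotation of the vertices used. -/
theorem Ev_cyc (α : G → G → F) (hα : ∀ u v : G, α v (g * u) = -α u v)
    (hi : ∀ z u v : G, z * g = g * z → α (z * u) (z * v) = α u v) {ι : Type*} (P : Finset ι)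
    (n s : ℕ) (V : Finset (Fin (n + 1))) (hV : V.card = s + 1) (a b : ι → Fin (n + 1))
    (ha : ∀ l ∈ P, a l ∈ V) (hb : ∀ l ∈ P, b l ∈ V) :
    Ev T e g n (fun y => ∏ l ∈ P, AA α y (cyc s V (a l)) (cyc s V (b l))) =
      Ev T e g n (fun y => ∏ l ∈ P, AA α y (a l) (b l)) := by
  classical
  set j := V.orderEmbOfFin hV with hj
  have hr : ∀ x ∈ V, ∃ x', j x' = x := by
    intro x hx
    have h1 : x ∈ Set.range j := by
      rw [hj, Finset.range_orderEmbOfFin]
      exact Finset.mem_coe.2 hx
    exact h1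
  have hex : ∀ c : ι → Fin (n + 1), (∀ l ∈ P, c l ∈ V) → ∃ c' : ι → Fin (s + 1),
      ∀ l ∈ P, j (c' l) = c l := by
    intro c hc
    refine ⟨fun l => if h : l ∈ P then (hr _ (hc l h)).choose else 0, fun l hl => ?_⟩
    dsimp only
    rw [dif_pos hl]
    exact (hr _ (hc l hl)).choose_spec
  obtain ⟨a', ha'⟩ := hex a ha
  obtain ⟨b', hb'⟩ := hex b hb
  have hcyc : cyc s V = cycE j := by rw [cyc, dif_pos hV]
  have hinv : Inv g (fun z : Fin (s + 1) → G => ∏ l ∈ P, AA α z (a' l) (b' l)) := by
    intro c hc y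
    exact Finset.prod_congr rfl fun l _ => AA_inv g α hi c hc y _ _
  have hinv2 : Inv g (fun z : Fin (s + 1) → G =>
      ∏ l ∈ P, AA α z (finRotate _ (a' l)) (finRotate _ (b' l))) := by
    intro c hc y
    exact Finset.prod_congr rfl fun l _ => AA_inv g α hi c hc y _ _
  have e1 : (fun y : Fin (n + 1) → G => ∏ l ∈ P, AA α y (a l) (b l)) =
      fun y => (fun z : Fin (s + 1) → G => ∏ l ∈ P, AA α z (a' l) (b' l)) (fun i => y (j i)) := by
    funext y
    refine Finset.prod_congr rfl fun l hl => ?_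
    rw [AA_comp α y j j.strictMono, ha' l hl, hb' l hl]
  have e2 : (fun y : Fin (n + 1) → G => ∏ l ∈ P, AA α y (cyc s V (a l)) (cyc s V (b l))) =
      fun y => (fun z : Fin (s + 1) → G => ∏ l ∈ P, AA α z (finRotate _ (a' l))
        (finRotate _ (b' l))) (fun i => y (j i)) := by
    funext y
    refine Finset.prod_congr rfl fun l hl => ?_
    rw [AA_comp α y j j.strictMono, hcyc, ← ha' l hl, ← hb' l hl, cycE_apply, cycE_apply]
  rw [e1, e2, Ev_strictMono T hT e hee g n s j j.strictMono _ hinv,
    Ev_strictMono T hT e hee g n s j j.strictMono _ hinv2, ← Ev_rot T hT e g s _ hinv]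
  congr 1
  funext y
  exact Finset.prod_congr rfl fun l _ => (AA_rot g α hα y _ _).symm

variable [CharZero F]

include hT hee in
theorem Ev_const (k n : ℕ) (s : Fin k × Fin 2 ≃ Fin (n + 1)) (α : G → G → F) (κ : F) (hκ : κ ≠ 0)
    (hα : ∀ u v : G, α v (g * u) = -α u v)
    (hi : ∀ z u v : G, z * g = g * z → α (z * u) (z * v) = α u v)
    (h1 : ∀ y : Fin (n + 1) → G, ∑ σ : Equiv.Perm (Fin (n + 1)), (Equiv.Perm.sign σ : ℤ) •
      ∏ l : Fin k, (AA α y (σ (s (l, 0))) (σ (s (l, 1))) +
        κ * (J (σ (s (l, 0))) (σ (s (l, 1))) : ℤ)) = 0)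
    (h2 : ∑ σ : Equiv.Perm (Fin (n + 1)), (Equiv.Perm.sign σ : ℤ) *
      ∏ l : Fin k, J (σ (s (l, 0))) (σ (s (l, 1))) ≠ 0) :
    Ev T e g n (fun _ => 1) = 0 := by
  classical
  -- the contribution of the set `P` of pairs
  let K : Finset (Fin k) → Equiv.Perm (Fin (n + 1)) → F := fun P σ =>
    ((Equiv.Perm.sign σ : ℤ) : F) * ∏ l ∈ Finset.univ \ P,
      (κ * ((J (σ (s (l, 0))) (σ (s (l, 1))) : ℤ) : F))
  let f : Finset (Fin k) → Equiv.Perm (Fin (n + 1)) → (Fin (n + 1) → G) → F := fun P σ y =>
    ∏ l ∈ P, AA α y (σ (s (l, 0))) (σ (s (l, 1)))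
  have e1 : ∀ y : Fin (n + 1) → G, ∑ p ∈ (Finset.univ : Finset (Fin k)).powerset ×ˢ
      (Finset.univ : Finset (Equiv.Perm (Fin (n + 1)))), K p.1 p.2 * f p.1 p.2 y = 0 := by
    intro y
    rw [Finset.sum_product, Finset.sum_comm, ← h1 y]
    refine Finset.sum_congr rfl fun σ _ => ?_
    rw [Finset.prod_add, zsmul_eq_mul, Finset.mul_sum]
    refine Finset.sum_congr rfl fun P _ => ?_
    simp only [K, f]
    ring
  have e2 : ∑ p ∈ (Finset.univ : Finset (Fin k)).powerset ×ˢ
      (Finset.univ : Finset (Equiv.Perm (Fin (n + 1)))), K p.1 p.2 * Ev T e g n (f p.1 p.2) = 0 := by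
    rw [← Ev_sum]
    have h3 : (fun y => ∑ p ∈ (Finset.univ : Finset (Fin k)).powerset ×ˢ
      (Finset.univ : Finset (Equiv.Perm (Fin (n + 1)))), K p.1 p.2 * f p.1 p.2 y) = fun _ => 0 :=
      funext e1
    rw [h3, Ev_zero]
  rw [Finset.sum_product] at e2
  -- nonempty sets of pairs contribute nothing
  have e3 : ∀ P ∈ (Finset.univ : Finset (Fin k)).powerset, P ≠ ∅ →
      ∑ σ : Equiv.Perm (Fin (n + 1)), K P σ * Ev T e g n (f P σ) = 0 := by
    intro P _ hP
    have hc : 0 < P.card := Finset.card_pos.2 (Finset.nonempty_iff_ne_empty.2 hP)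
    set t := P.card * 2 - 1 with ht
    have ht1 : P.card * 2 = t + 1 := by omega
    have hodd : (-1 : ℤˣ) ^ t = -1 := Odd.neg_one_pow (by
      refine ⟨P.card - 1, ?_⟩
      omega)
    have h3 : ∀ σ : Equiv.Perm (Fin (n + 1)), K P (Psi s P t σ) * Ev T e g n (f P (Psi s P t σ)) =
        -(K P σ * Ev T e g n (f P σ)) := by
      intro σ
      have hps : Psi s P t σ = cyc t (VV s P σ) * σ := rfl
      have hcard : (VV s P σ).card = t + 1 := by rw [card_VV, ht1]
      have h4 : Ev T e g n (f P (Psi s P t σ)) = Ev T e g n (f P σ) := by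
        rw [hps]
        exact Ev_cyc T hT e hee g α hα hi P n t (VV s P σ) hcard (fun l => σ (s (l, 0)))
          (fun l => σ (s (l, 1))) (fun l hl => (mem_VV s P σ l 0).2 hl)
          (fun l hl => (mem_VV s P σ l 1).2 hl)
      have h5 : K P (Psi s P t σ) = -K P σ := by
        simp only [K]
        have h6 : ∀ l ∈ Finset.univ \ P, ∀ b : Fin 2, Psi s P t σ (s (l, b)) = σ (s (l, b)) := by
          intro l hl b
          rw [hps, Equiv.Perm.mul_apply]
          apply cyc_not
          rw [mem_VV]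
          exact (Finset.mem_sdiff.1 hl).2
        rw [Finset.prod_congr rfl fun l hl => by rw [h6 l hl 0, h6 l hl 1], hps, map_mul,
          cyc_sign hcard, hodd]
        push_cast
        ring
      rw [h4, h5]
      ring
    have h7 := (Psi s P t).sum_comp fun σ => K P σ * Ev T e g n (f P σ)
    rw [Finset.sum_congr rfl fun σ _ => h3 σ, Finset.sum_neg_distrib] at h7
    exact self_eq_neg.1 h7.symm
  rw [Finset.sum_eq_single_of_mem ∅ (Finset.empty_mem_powerset _) e3] at e2
  have e4 : ∀ σ : Equiv.Perm (Fin (n + 1)), K ∅ σ * Ev T e g n (f ∅ σ) =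
      ((((Equiv.Perm.sign σ : ℤ) * ∏ l : Fin k, J (σ (s (l, 0))) (σ (s (l, 1))) : ℤ) : F)) *
        (κ ^ k * Ev T e g n (fun _ => 1)) := by
    intro σ
    simp only [K, f, Finset.prod_empty, Finset.sdiff_empty, Finset.prod_mul_distrib,
      Finset.prod_const, Finset.card_univ, Fintype.card_fin]
    push_cast
    ring
  rw [Finset.sum_congr rfl fun σ _ => e4 σ, ← Finset.sum_mul, ← Int.cast_sum] at e2
  rcases mul_eq_zero.1 e2 with h | h
  · exact absurd (Int.cast_eq_zero.1 h) h2
  · rcases mul_eq_zero.1 h with h | h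
    · exact absurd h (pow_ne_zero _ hκ)
    · exact h

end main

end Pool.Agent.H416.LG
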