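import Mathlib

set_option autoImplicit false

/-!
# The functional `Ev` on functions of the vertices of closed polygons

Let `g` be an element of a group `G`, and `e : G →₀ A` idempotent for convolution. A closed polygon is
given by its vertices `y 0, …, y n ∈ G`, the last edge joins `y n` and `g * y 0`. Its weight is
`T (e ((y 0)⁻¹ * y 1) * ⋯ * e ((y n)⁻¹ * g * y 0))`. For a function `f` of `n + 1` vertices which is
invariant under the centraliser of `g`, `Ev n f` is the weighted sum of the values of `f`.
-/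

namespace Pool.Agent.H416.LG

open Fin Finset

universe u w x

/-- Sum over tuples, the last entry split off. -/
theorem sum_snoc {G M : Type*} [DecidableEq G] [AddCommMonoid M] {n : ℕ} (s : Finset G)
    (φ : (Fin (n + 1) → G) → M) :
    ∑ x ∈ Fintype.piFinset (fun _ : Fin (n + 1) => s), φ x =
      ∑ x ∈ Fintype.piFinset (fun _ : Fin n => s), ∑ c ∈ s, φ (Fin.snoc x c) := by
  rw [← Finset.sum_product']
  refine Finset.sum_nbij' (fun x => (Fin.init x, x (Fin.last n))) (fun p => Fin.snoc p.1 p.2)
    ?_ ?_ ?_ ?_ ?_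
  · intro x hx
    rw [Fintype.mem_piFinset] at hx
    rw [Finset.mem_product, Fintype.mem_piFinset]
    exact ⟨fun i => hx _, hx _⟩
  · intro p hp
    rw [Finset.mem_product, Fintype.mem_piFinset] at hp
    rw [Fintype.mem_piFinset]
    intro i
    refine Fin.lastCases ?_ (fun j => ?_) i
    · rw [Fin.snoc_last]
      exact hp.2
    · rw [Fin.snoc_castSucc]
      exact hp.1 j
  · intro x _
    exact Fin.snoc_init_self x
  · intro p _
    rw [Fin.init_snoc, Fin.snoc_last]
  · intro x _
    rw [Fin.snoc_init_self]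

/-- Sum over tuples, the first entry split off. -/
theorem sum_cons {G M : Type*} [DecidableEq G] [AddCommMonoid M] {n : ℕ} (s : Finset G)
    (φ : (Fin (n + 1) → G) → M) :
    ∑ x ∈ Fintype.piFinset (fun _ : Fin (n + 1) => s), φ x =
      ∑ x ∈ Fintype.piFinset (fun _ : Fin n => s), ∑ c ∈ s,
        φ (Fin.cons (α := fun _ => G) c x) := by
  rw [← Finset.sum_product']
  refine Finset.sum_nbij' (fun x => (Fin.tail x, x 0))
    (fun p => Fin.cons (α := fun _ => G) p.2 p.1) ?_ ?_ ?_ ?_ ?_
  · intro x hx
    rw [Fintype.mem_piFinset] at hx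
    rw [Finset.mem_product, Fintype.mem_piFinset]
    exact ⟨fun i => hx _, hx _⟩
  · intro p hp
    rw [Finset.mem_product, Fintype.mem_piFinset] at hp
    rw [Fintype.mem_piFinset]
    intro i
    refine Fin.cases ?_ (fun j => ?_) i
    · rw [Fin.cons_zero]
      exact hp.2
    · rw [Fin.cons_succ]
      exact hp.1 j
  · intro x _
    exact Fin.cons_self_tail x
  · intro p _
    rw [Fin.tail_cons, Fin.cons_zero]
  · intro x _
    rw [Fin.cons_self_tail]

/-- The sum over the rotated tuples. -/
theorem sum_rot {G M : Type*} [DecidableEq G] [AddCommMonoid M] {n : ℕ} (s : Finset G)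
    (ψ : (Fin n → G) → G → M) :
    ∑ x ∈ Fintype.piFinset (fun _ : Fin n => s), ∑ c ∈ s, ψ x c =
      ∑ x ∈ Fintype.piFinset (fun _ : Fin (n + 1) => s), ψ (Fin.tail x) (x 0) := by
  rw [sum_cons]
  refine Finset.sum_congr rfl fun x _ => Finset.sum_congr rfl fun c _ => ?_
  rw [Fin.tail_cons, Fin.cons_zero]

theorem sum_init {G M : Type*} [DecidableEq G] [AddCommMonoid M] {n : ℕ} (s : Finset G)
    (ψ : (Fin n → G) → G → M) :
    ∑ x ∈ Fintype.piFinset (fun _ : Fin n => s), ∑ c ∈ s, ψ x c =
      ∑ x ∈ Fintype.piFinset (fun _ : Fin (n + 1) => s), ψ (Fin.init x) (x (Fin.last n)) := by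
  rw [sum_snoc]
  refine Finset.sum_congr rfl fun x _ => Finset.sum_congr rfl fun c _ => ?_
  rw [Fin.init_snoc, Fin.snoc_last]

section

variable {G : Type w} [Group G] [DecidableEq G]

open Classical in
/-- `(tt g h)⁻¹ * g * tt g h = h` if `h` is conjugate to `g`. -/
noncomputable def tt (g h : G) : G := if H : ∃ c : G, c * h = g * c then H.choose else 1

omit [DecidableEq G] in
theorem tt_spec {g h : G} (H : ∃ c : G, c * h = g * c) : tt g h * h = g * tt g h := by
  rw [tt, dif_pos H]
  exact H.choose_spec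

/-- `f` is invariant under the centraliser of `g`. -/
def Inv (g : G) {F : Type u} {m : ℕ} (f : (Fin m → G) → F) : Prop :=
  ∀ c : G, c * g = g * c → ∀ y : Fin m → G, f (fun i => c * y i) = f y

/-- Rotation of the vertices. -/
def Rot (g : G) {m : ℕ} (y : Fin m → G) (i : Fin m) : G :=
  if (i : ℕ) + 1 < m then y (finRotate m i) else g * y (finRotate m i)

omit [DecidableEq G] in
theorem Rot_castSucc (g : G) {n : ℕ} (y : Fin (n + 1) → G) (i : Fin n) :
    Rot g y i.castSucc = y i.succ := by
  have h1 : (i.castSucc : ℕ) + 1 < n + 1 := by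
    rw [Fin.val_castSucc]
    omega
  rw [Rot, if_pos h1, finRotate_apply, Fin.coeSucc_eq_succ]

omit [DecidableEq G] in
theorem Rot_last (g : G) {n : ℕ} (y : Fin (n + 1) → G) :
    Rot g y (Fin.last n) = g * y 0 := by
  have h1 : ¬ ((Fin.last n : ℕ) + 1 < n + 1) := by
    rw [Fin.val_last]
    omega
  rw [Rot, if_neg h1, finRotate_last]

omit [DecidableEq G] in
theorem Inv.rot {g : G} {F : Type u} {m : ℕ} {f : (Fin m → G) → F} (hf : Inv g f) :
    Inv g (fun y => f (Rot g y)) := by
  intro c hc y
  have h1 : (Rot g fun i => c * y i) = fun i => c * Rot g y i := by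
    funext i
    unfold Rot
    split_ifs
    · rfl
    · rw [← mul_assoc, ← mul_assoc, hc]
  dsimp only
  rw [h1]
  exact hf c hc _

end

section

variable {G : Type w} [Group G] [DecidableEq G] {A : Type x} [Ring A] {F : Type u} [Field F]

/-- The product of the elements `e (x i)`. -/
def wd {n : ℕ} (e : G → A) (x : Fin n → G) : A := Fin.partialProd (fun i => e (x i)) (Fin.last n)

omit [Group G] [DecidableEq G] in
theorem wd_init {n : ℕ} (e : G → A) (x : Fin (n + 1) → G) :
    wd e x = wd e (Fin.init x) * e (x (Fin.last n)) := by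
  unfold wd
  rw [← Fin.succ_last, Fin.partialProd_succ]
  congr 1
  exact (Fin.partialProd_init (f := fun i => e (x i)) (Fin.last n)).symm

omit [Group G] [DecidableEq G] in
theorem wd_tail {n : ℕ} (e : G → A) (x : Fin (n + 1) → G) :
    wd e x = e (x 0) * wd e (Fin.tail x) := by
  unfold wd
  rw [← Fin.succ_last, Fin.partialProd_succ']
  rfl

/-- The vertices of the closed polygon with the edges `x 0, …, x (n - 1), c`. -/
noncomputable def vert (g : G) {n : ℕ} (x : Fin n → G) (c : G) (i : Fin (n + 1)) : G :=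
  tt g (Fin.partialProd x (Fin.last n) * c) * Fin.partialProd x i

/-- The weighted sum of the values of `f` on the closed polygons with `n + 1` vertices. -/
noncomputable def Ev (T : A →+ F) (e : G →₀ A) (g : G) (n : ℕ) (f : (Fin (n + 1) → G) → F) : F :=
  ∑ x ∈ Fintype.piFinset (fun _ : Fin n => e.support), ∑ c ∈ e.support,
    open Classical in
    (if ∃ u : G, u * (Fin.partialProd x (Fin.last n) * c) = g * u then
      f (vert g x c) * T (wd e x * e c) else 0)

variable (T : A →+ F) (hT : ∀ a b : A, T (a * b) = T (b * a)) (e : G →₀ A)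
  (hee : ∀ (H : G → F) (W : A), ∑ a ∈ e.support, ∑ b ∈ e.support, H (a * b) * T (W * (e a * e b)) =
    ∑ c ∈ e.support, H c * T (W * e c)) (g : G)

theorem Ev_sum {ι : Type*} (n : ℕ) (s : Finset ι) (c : ι → F) (f : ι → (Fin (n + 1) → G) → F) :
    Ev T e g n (fun y => ∑ i ∈ s, c i * f i y) = ∑ i ∈ s, c i * Ev T e g n (f i) := by
  classical
  have h1 : ∀ i ∈ s, c i * Ev T e g n (f i) =
      ∑ x ∈ Fintype.piFinset (fun _ : Fin n => e.support), ∑ b ∈ e.support,
        (if ∃ u : G, u * (Fin.partialProd x (Fin.last n) * b) = g * u then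
          c i * f i (vert g x b) * T (wd e x * e b) else 0) := by
    intro i _
    unfold Ev
    rw [Finset.mul_sum]
    refine Finset.sum_congr rfl fun x _ => ?_
    rw [Finset.mul_sum]
    refine Finset.sum_congr rfl fun b _ => ?_
    split_ifs
    · ring
    · rw [mul_zero]
  rw [Finset.sum_congr rfl h1, Finset.sum_comm]
  unfold Ev
  refine Finset.sum_congr rfl fun x _ => ?_
  rw [Finset.sum_comm]
  refine Finset.sum_congr rfl fun b _ => ?_
  split_ifs
  · rw [Finset.sum_mul]
  · rw [Finset.sum_const_zero]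

theorem Ev_zero (n : ℕ) : Ev T e g n (fun _ => 0) = 0 := by
  simp [Ev]

include hT in
/-- Rotation invariance. -/
theorem Ev_rot (n : ℕ) (f : (Fin (n + 1) → G) → F) (hf : Inv g f) :
    Ev T e g n (fun y => f (Rot g y)) = Ev T e g n f := by
  classical
  unfold Ev
  rw [sum_init e.support (fun x c => if ∃ u : G, u * (Fin.partialProd x (Fin.last n) * c) = g * u then
      f (Rot g (vert g x c)) * T (wd e x * e c) else 0),
    sum_rot e.support (fun x c => if ∃ u : G, u * (Fin.partialProd x (Fin.last n) * c) = g * u then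
      f (vert g x c) * T (wd e x * e c) else 0)]
  refine Finset.sum_congr rfl fun x _ => ?_
  have hp1 : Fin.partialProd (Fin.init x) (Fin.last n) * x (Fin.last n) =
      Fin.partialProd x (Fin.last (n + 1)) := by
    rw [Fin.partialProd_init, ← Fin.succ_last, Fin.partialProd_succ]
  have hp2 : x 0 * Fin.partialProd (Fin.tail x) (Fin.last n) =
      Fin.partialProd x (Fin.last (n + 1)) := by
    rw [← Fin.succ_last, Fin.partialProd_succ']
  have hp3 : x 0 * (Fin.partialProd (Fin.tail x) (Fin.last n) * x 0) =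
      Fin.partialProd x (Fin.last (n + 1)) * x 0 := by
    rw [← mul_assoc, hp2]
  have hw : T (wd e (Fin.init x) * e (x (Fin.last n))) = T (wd e (Fin.tail x) * e (x 0)) := by
    rw [← wd_init, wd_tail, hT]
  rw [hp1, hw]
  set h := Fin.partialProd x (Fin.last (n + 1)) with hh
  set h' := Fin.partialProd (Fin.tail x) (Fin.last n) * x 0 with hh'
  have hiff : (∃ u : G, u * h = g * u) ↔ ∃ u : G, u * h' = g * u := by
    constructor
    · rintro ⟨u, hu⟩
      refine ⟨u * x 0, ?_⟩
      rw [mul_assoc, hp3, ← mul_assoc, hu, mul_assoc]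
    · rintro ⟨u, hu⟩
      refine ⟨u * (x 0)⁻¹, ?_⟩
      have h1 : (x 0)⁻¹ * h = h' * (x 0)⁻¹ := by
        rw [inv_mul_eq_iff_eq_mul, ← mul_assoc, hp3, mul_inv_cancel_right]
      rw [mul_assoc, h1, ← mul_assoc, hu, mul_assoc]
  by_cases hc : ∃ u : G, u * h = g * u
  · rw [if_pos hc, if_pos (hiff.1 hc)]
    congr 1
    have e1 := tt_spec hc
    have e2 := tt_spec (hiff.1 hc)
    -- the element of the centraliser
    set c := tt g h' * (x 0)⁻¹ * (tt g h)⁻¹ with hcdef
    have e3 : c * g = g * c := by
      have e4 : (tt g h)⁻¹ * g = h * (tt g h)⁻¹ := by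
        rw [inv_mul_eq_iff_eq_mul, ← mul_assoc, e1, mul_inv_cancel_right]
      have e5 : (x 0)⁻¹ * h = h' * (x 0)⁻¹ := by
        rw [inv_mul_eq_iff_eq_mul, ← mul_assoc, hp3, mul_inv_cancel_right]
      calc c * g = tt g h' * ((x 0)⁻¹ * ((tt g h)⁻¹ * g)) := by rw [hcdef]; group
        _ = tt g h' * (((x 0)⁻¹ * h) * (tt g h)⁻¹) := by rw [e4]; group
        _ = (tt g h' * h') * (x 0)⁻¹ * (tt g h)⁻¹ := by rw [e5]; group
        _ = g * c := by rw [e2, hcdef]; group
    have e6 : vert g (Fin.tail x) (x 0) =
        fun i => c * Rot g (vert g (Fin.init x) (x (Fin.last n))) i := by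
      funext i
      refine Fin.lastCases ?_ (fun j => ?_) i
      · rw [Rot_last]
        unfold vert
        rw [hp1, ← hh', Fin.partialProd_zero, mul_one, ← e1, hcdef]
        have : Fin.partialProd (Fin.tail x) (Fin.last n) = (x 0)⁻¹ * h := by
          rw [← hp2, inv_mul_cancel_left]
        rw [this]
        group
      · rw [Rot_castSucc]
        unfold vert
        rw [hp1, ← hh', hcdef, Fin.partialProd_init]
        have : Fin.partialProd x j.succ.castSucc =
            x 0 * Fin.partialProd (Fin.tail x) j.castSucc := by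
          rw [← Fin.succ_castSucc, Fin.partialProd_succ']
        rw [this]
        group
    rw [e6, hf c e3]
  · rw [if_neg hc, if_neg (fun h3 => hc (hiff.2 h3))]

include hee in
/-- Forgetting the last vertex. -/
theorem Ev_forget_last (n : ℕ) (f : (Fin (n + 1) → G) → F) :
    Ev T e g (n + 1) (fun y => f (fun i => y i.castSucc)) = Ev T e g n f := by
  classical
  unfold Ev
  rw [sum_snoc]
  refine Finset.sum_congr rfl fun x _ => ?_
  have h1 := hee (fun c => if ∃ u : G, u * (Fin.partialProd x (Fin.last n) * c) = g * u then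
      f (vert g x c) else 0) (wd e x)
  have h2 : ∀ c : G, (if ∃ u : G, u * (Fin.partialProd x (Fin.last n) * c) = g * u then
      f (vert g x c) * T (wd e x * e c) else 0) =
      (if ∃ u : G, u * (Fin.partialProd x (Fin.last n) * c) = g * u then
      f (vert g x c) else 0) * T (wd e x * e c) := by
    intro c
    split_ifs
    · rfl
    · rw [zero_mul]
  simp only [h2]
  rw [← h1]
  refine Finset.sum_congr rfl fun a _ => Finset.sum_congr rfl fun b _ => ?_
  have h3 : Fin.partialProd (Fin.snoc x a : Fin (n + 1) → G) (Fin.last (n + 1)) =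
      Fin.partialProd x (Fin.last n) * a := by
    rw [← Fin.succ_last, Fin.partialProd_succ, Fin.snoc_last, ← Fin.partialProd_init,
      Fin.init_snoc]
  have h4 : ∀ i : Fin (n + 1), Fin.partialProd (Fin.snoc x a : Fin (n + 1) → G) i.castSucc =
      Fin.partialProd x i := by
    intro i
    rw [← Fin.partialProd_init, Fin.init_snoc]
  have h5 : wd e (Fin.snoc x a : Fin (n + 1) → G) = wd e x * e a := by
    rw [wd_init, Fin.init_snoc, Fin.snoc_last]
  have h6 : (fun i : Fin (n + 1) => vert g (Fin.snoc x a : Fin (n + 1) → G) b i.castSucc) =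
      vert g x (a * b) := by
    funext i
    unfold vert
    rw [h3, h4, mul_assoc]
  rw [h3, h5, h6, mul_assoc (wd e x)]
  simp only [mul_assoc]
  split_ifs
  · rfl
  · rw [zero_mul]

omit [DecidableEq G] in
theorem Inv.comp {g : G} {m n : ℕ} {f : (Fin m → G) → F} (hf : Inv g f) (j : Fin m → Fin n) :
    Inv g (fun y : Fin n → G => f (fun i => y (j i))) := fun c hc _ => hf c hc _

include hT hee in
/-- Forgetting one vertex. -/
theorem Ev_forget (n : ℕ) (i : Fin (n + 2)) : ∀ (f : (Fin (n + 1) → G) → F), Inv g f →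
    Ev T e g (n + 1) (fun y => f (fun j => y (i.succAbove j))) = Ev T e g n f := by
  refine Fin.reverseInduction ?_ (fun i ih => ?_) i
  · intro f _
    simp only [Fin.succAbove_last]
    exact Ev_forget_last T e hee g n f
  · intro f hf
    rw [← Ev_rot T hT e g n f hf, ← ih _ hf.rot,
      ← Ev_rot T hT e g (n + 1) (fun y => f (fun j => y (i.castSucc.succAbove j))) (hf.comp _)]
    congr 1
    funext y
    congr 1
    funext j
    refine Fin.lastCases ?_ (fun j' => ?_) j
    · have h1 : i.castSucc.succAbove (Fin.last n) = Fin.last (n + 1) := by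
        rw [Fin.succAbove_of_le_castSucc _ _ (Fin.castSucc_le_castSucc_iff.2 (Fin.le_last i)),
          Fin.succ_last]
      rw [h1, Rot_last, Rot_last, Fin.succAbove_ne_zero_zero (Fin.succ_ne_zero i)]
    · rw [Rot_castSucc, Fin.castSucc_succAbove_castSucc, Rot_castSucc,
        Fin.succ_succAbove_succ]

end

end Pool.Agent.H416.LG
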