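import Pool.Agent.H416.LG.Par

set_option autoImplicit false

/-!
# The Fedosov product, and even cycles
-/

namespace Pool.Agent.H416.LG

open Finset MonoidAlgebra
open Pool.Agent.V11187.DG (eT dg Cyc)

universe u v w x z

/-- Data for the Fedosov product `a b - c δa δb` of the even elements. -/
structure FD {Ω : Type v} [Ring Ω] (ε : Ω →+* Ω) (δ : Ω →+ Ω) (c : Ω) : Prop where
  leib : ∀ a b, δ (a * b) = δ a * b + ε a * δ b
  dd : ∀ a, δ (δ a) = 0
  de : ∀ a, δ (ε a) = -ε (δ a)
  cc : ∀ a, c * a = a * c
  ec : ε c = c
  dc : δ c = 0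

/-- The even elements. -/
def evenS {Ω : Type v} [Ring Ω] (ε : Ω →+* Ω) : AddSubgroup Ω where
  carrier := {a | ε a = a}
  zero_mem' := map_zero ε
  add_mem' {a b} ha hb := by
    rw [Set.mem_ofPred_eq] at ha hb ⊢
    rw [map_add, ha, hb]
  neg_mem' {a} ha := by
    rw [Set.mem_ofPred_eq] at ha ⊢
    rw [map_neg, ha]

section ring

variable {Ω : Type v} [Ring Ω] {ε : Ω →+* Ω} {δ : Ω →+ Ω} {c : Ω}

theorem FD.done (h : FD ε δ c) : δ 1 = 0 := by
  have h1 := h.leib 1 1
  rw [mul_one, map_one ε, mul_one, one_mul] at h1
  exact left_eq_add.1 h1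

/-- The ring of the even elements with the Fedosov product. -/
def Fed (_ : FD ε δ c) : Type v := evenS ε

variable (h : FD ε δ c)

instance : AddCommGroup (Fed h) := inferInstanceAs (AddCommGroup (evenS ε))

theorem Fed.even (a : Fed h) : ε a.1 = a.1 := a.2

instance : Mul (Fed h) where
  mul a b := ⟨a.1 * b.1 - c * (δ a.1 * δ b.1), by
    have h1 : ∀ a : Fed h, ε (δ a.1) = -δ a.1 := fun a => by
      rw [← neg_neg (ε (δ a.1)), ← h.de, Fed.even]
    show ε _ = _
    rw [map_sub, map_mul, map_mul, map_mul, h1, h1, Fed.even, Fed.even, h.ec, neg_mul_neg]⟩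

instance : One (Fed h) where
  one := ⟨1, map_one ε⟩

theorem Fed.mul_val (a b : Fed h) : (a * b).1 = a.1 * b.1 - c * (δ a.1 * δ b.1) := rfl

theorem Fed.one_val : (1 : Fed h).1 = 1 := rfl

theorem Fed.add_val (a b : Fed h) : (a + b).1 = a.1 + b.1 := rfl

theorem Fed.zero_val : (0 : Fed h).1 = 0 := rfl

noncomputable instance : Ring (Fed h) where
  __ := (inferInstance : AddCommGroup (Fed h))
  left_distrib a b d := by
    apply Subtype.ext
    rw [Fed.mul_val, Fed.add_val, Fed.add_val, Fed.mul_val, Fed.mul_val, map_add, mul_add, mul_add,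
      mul_add]
    abel
  right_distrib a b d := by
    apply Subtype.ext
    rw [Fed.mul_val, Fed.add_val, Fed.add_val, Fed.mul_val, Fed.mul_val, map_add, add_mul, add_mul,
      mul_add]
    abel
  zero_mul a := by
    apply Subtype.ext
    rw [Fed.mul_val, Fed.zero_val, map_zero, zero_mul, zero_mul, mul_zero, sub_zero]
  mul_zero a := by
    apply Subtype.ext
    rw [Fed.mul_val, Fed.zero_val, map_zero, mul_zero, mul_zero, mul_zero, sub_zero]
  mul_assoc a b d := by
    apply Subtype.ext
    have h1 : ∀ a : Fed h, ε (δ a.1) = -δ a.1 := fun a => by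
      rw [← neg_neg (ε (δ a.1)), ← h.de, Fed.even]
    have h2 : δ (c * (δ a.1 * δ b.1)) = 0 := by
      rw [h.leib, h.dc, zero_mul, zero_add, h.leib, h.dd, h.dd, zero_mul, mul_zero, add_zero,
        mul_zero]
    have h3 : δ (c * (δ b.1 * δ d.1)) = 0 := by
      rw [h.leib, h.dc, zero_mul, zero_add, h.leib, h.dd, h.dd, zero_mul, mul_zero, add_zero,
        mul_zero]
    have h4 : a.1 * (c * (δ b.1 * δ d.1)) = c * (a.1 * (δ b.1 * δ d.1)) := by
      rw [← mul_assoc, ← h.cc a.1, mul_assoc]
    rw [Fed.mul_val, Fed.mul_val, Fed.mul_val, Fed.mul_val, map_sub, map_sub, h2, h3, sub_zero,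
      sub_zero, h.leib, h.leib, Fed.even, Fed.even, sub_mul, mul_sub, h4]
    simp only [mul_add, add_mul, mul_assoc]
    abel
  one_mul a := by
    apply Subtype.ext
    rw [Fed.mul_val, Fed.one_val, h.done, zero_mul, mul_zero, sub_zero, one_mul]
  mul_one a := by
    apply Subtype.ext
    rw [Fed.mul_val, Fed.one_val, h.done, mul_zero, mul_zero, sub_zero, mul_one]

end ring

section idem

/-- Evaluation of an integral polynomial. -/
noncomputable def aev {R : Type v} [Ring R] (q : R) : Polynomial ℤ →+* R :=
  (@Polynomial.aeval ℤ R _ _ (Ring.toIntAlgebra R) q).toRingHom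

theorem aev_monomial {R : Type v} [Ring R] (q : R) (k : ℕ) (a : ℤ) :
    aev q (Polynomial.monomial k a) = a • q ^ k := by
  show (@Polynomial.aeval ℤ R _ _ (Ring.toIntAlgebra R) q) (Polynomial.monomial k a) = _
  rw [Polynomial.aeval_monomial, zsmul_eq_mul]
  rfl

theorem aev_X {R : Type v} [Ring R] (q : R) : aev q Polynomial.X = q := by
  rw [← Polynomial.monomial_one_one_eq_X, aev_monomial, pow_one, one_smul]

/-- The computation of the idempotent. -/
theorem fed_idem {R : Type v} [Ring R] {ε : R →+* R} {D : R →+ R} {s : R} (h : FD ε D s) {e : R}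
    (he : e * e = e) (hev : ε e = e) {n : ℕ} {α β r : Polynomial ℤ} (h1 : 2 * α + β = 1)
    (h2 : α ^ 2 - α - β ^ 2 * Polynomial.X = Polynomial.X ^ (n + 1) * r) :
    let q := s * (D e * D e)
    let x := aev q α + aev q β * e
    ε x = x ∧ x * x - s * (D x * D x) = x + s ^ (n + 1) * ((D e * D e) ^ (n + 1) *
      aev q r) := by
  intro q x
  have hed : e * D e = D e - D e * e := by
    have h3 := h.leib e e
    rw [he, hev] at h3
    rw [eq_sub_iff_add_eq, add_comm]
    exact h3.symm
  have hedd : Commute e (D e * D e) := by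
    show e * (D e * D e) = D e * D e * e
    rw [← mul_assoc, hed, sub_mul, mul_assoc (D e) e, hed, mul_sub, sub_sub_cancel, mul_assoc]
  have hs : ∀ a, Commute s a := fun a => h.cc a
  have heq : Commute e q := ((hs e).symm).mul_right hedd
  have hdq : Commute (D e) q :=
    ((hs (D e)).symm).mul_right ((Commute.refl (D e)).mul_right (Commute.refl (D e)))
  have hεd : ε (D e) = -D e := by rw [← neg_neg (ε (D e)), ← h.de, hev]
  have hεq : ε q = q := by
    simp only [q]
    rw [map_mul, map_mul, hεd, h.ec, neg_mul_neg]
  have hDq : D q = 0 := by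
    simp only [q]
    rw [h.leib, h.dc, zero_mul, zero_add, h.leib, h.dd, zero_mul, mul_zero, add_zero, mul_zero]
  have hpow : ∀ k : ℕ, D (q ^ k) = 0 := by
    intro k
    induction k with
    | zero => rw [pow_zero, h.done]
    | succ k ih => rw [pow_succ, h.leib, ih, hDq, zero_mul, mul_zero, add_zero]
  have hεp : ∀ p : Polynomial ℤ, ε (aev q p) = aev q p := by
    intro p
    induction p using Polynomial.induction_on' with
    | add p p' hp hp' => rw [map_add, map_add, hp, hp']
    | monomial k a =>
      rw [aev_monomial, map_zsmul, map_pow, hεq]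
  have hDp : ∀ p : Polynomial ℤ, D (aev q p) = 0 := by
    intro p
    induction p using Polynomial.induction_on' with
    | add p p' hp hp' => rw [map_add, map_add, hp, hp', add_zero]
    | monomial k a =>
      rw [aev_monomial, map_zsmul, hpow, smul_zero]
  have hcomm : ∀ (y : R), Commute y q → ∀ p : Polynomial ℤ, Commute y (aev q p) := by
    intro y hy p
    induction p using Polynomial.induction_on' with
    | add p p' hp hp' =>
      rw [map_add]
      exact hp.add_right hp'
    | monomial k a =>
      rw [aev_monomial]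
      exact (hy.pow_right k).smul_right a
  set a := aev q α with ha
  set b := aev q β with hb
  have hDx : D x = b * D e := by
    simp only [x]
    rw [map_add, hDp, zero_add, h.leib, hDp, zero_mul, zero_add, hεp]
  refine ⟨?_, ?_⟩
  · simp only [x]
    rw [map_add, map_mul, hεp, hεp, hev]
  · have hab : Commute a b := by
      rw [ha, hb]
      show aev q α * aev q β = aev q β * aev q α
      rw [← map_mul, ← map_mul, mul_comm]
    have hae : Commute e a := hcomm e heq α
    have hbe : Commute e b := hcomm e heq β
    have hdb : Commute (D e) b := hcomm (D e) hdq β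
    have e1 : s * (D x * D x) = b ^ 2 * q := by
      rw [hDx]
      calc s * (b * D e * (b * D e)) = s * (b * (D e * b) * D e) := by simp only [mul_assoc]
        _ = s * (b * (b * D e) * D e) := by rw [hdb.eq]
        _ = s * (b * b) * (D e * D e) := by simp only [mul_assoc]
        _ = (b * b) * s * (D e * D e) := by rw [h.cc]
        _ = b ^ 2 * q := by
            simp only [q]
            rw [pow_two]
            simp only [mul_assoc]
    have e2 : x * x = a ^ 2 + (2 * a + b) * b * e := by
      simp only [x]
      have e3 : b * e * (b * e) = b * b * e := by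
        calc b * e * (b * e) = b * (e * b) * e := by simp only [mul_assoc]
          _ = b * (b * e) * e := by rw [hbe.eq]
          _ = b * b * (e * e) := by simp only [mul_assoc]
          _ = b * b * e := by rw [he]
      have e4 : b * e * a = a * b * e := by
        calc b * e * a = b * (e * a) := by rw [mul_assoc]
          _ = b * (a * e) := by rw [hae.eq]
          _ = (b * a) * e := by rw [mul_assoc]
          _ = a * b * e := by rw [hab.eq]
      calc (a + b * e) * (a + b * e) = a * a + a * (b * e) + b * e * a + b * e * (b * e) := by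
            noncomm_ring
        _ = a * a + a * b * e + a * b * e + b * b * e := by rw [e3, e4, mul_assoc a b e]
        _ = a ^ 2 + (2 * a + b) * b * e := by noncomm_ring
    have e5 : 2 * a + b = 1 := by
      have h3 := congrArg (aev q) h1
      rw [map_add, map_mul, map_one] at h3
      rw [← ha, ← hb] at h3
      have h4 : (aev q) (2 : Polynomial ℤ) = 2 := map_ofNat _ 2
      rw [h4] at h3
      exact h3
    have e6 : a ^ 2 - a - b ^ 2 * q = q ^ (n + 1) * aev q r := by
      have h3 := congrArg (aev q) h2
      rw [map_sub, map_sub, map_pow, map_mul, map_pow, aev_X, map_mul, map_pow, aev_X] at h3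
      exact h3
    have e7 : q ^ (n + 1) = s ^ (n + 1) * (D e * D e) ^ (n + 1) := (hs (D e * D e)).mul_pow (n + 1)
    have e8 : s ^ (n + 1) * ((D e * D e) ^ (n + 1) * aev q r) =
        a ^ 2 - a - b ^ 2 * q := by
      rw [e6, e7, mul_assoc]
    rw [e1, e2, e5, one_mul, e8]
    simp only [x]
    abel

end idem

end Pool.Agent.H416.LG
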