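import Pool.Agent.H416.LG.Loc

set_option autoImplicit false

/-!
# Elements at which the traces of the idempotents vanish
-/

namespace Pool.Agent.H416.LG

universe u v w x y z

/-- The traces with rational values, over all coefficient rings, of the idempotents of the group ring
vanish at `g`. -/
def Van (G : Type w) [Group G] (g : G) : Prop :=
  ∀ {A : Type v} [Ring A] (T : A →+ ℚ), (∀ a b : A, T (a * b) = T (b * a)) →
    ∀ e : MonoidAlgebra A G, Idm T e → cT T g e = 0

theorem LocDatum.van {G : Type w} [Group G] {g : G} (hg : LocDatum.{w, z} G g) :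
    Van.{v, w} G g := fun T hT e he => cT_loc hg T hT e he

/-- The property passes from the finitely generated subgroups to the group. -/
theorem van_of_fg {G : Type w} [Group G] {g : G}
    (h : ∀ H : Subgroup G, H.FG → ∀ hg : g ∈ H, Van.{v, w} H ⟨g, hg⟩) : Van.{v, w} G g := by
  intro A _ T hT e he
  obtain ⟨H, hH, hg', e', he1, h1⟩ := exists_restrict.{w, v, 0} e g
  rw [h1 T]
  exact h H hH hg' T hT e' (he1 T he)

end Pool.Agent.H416.LG
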