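import Pool.Agent.H416.LG.Fed
import Pool.Agent.H416.LG.Van

set_option autoImplicit false

/-!
# Even cycles vanish on idempotents at the elements with local data
-/

namespace Pool.Agent.H416.LG

open Finset MonoidAlgebra
open Pool.Agent.V11187.DG (eT dg Cyc eT_zero eT_add eT_single)

universe u v w x z

section ps

variable {Ω : Type v} [Ring Ω]

/-- The coefficientwise map of power series. -/
noncomputable def dP (δ : Ω →+ Ω) : PowerSeries Ω →+ PowerSeries Ω where
  toFun f := PowerSeries.mk fun n => δ (PowerSeries.coeff n f)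
  map_zero' := by
    ext n
    rw [PowerSeries.coeff_mk, map_zero, map_zero]
  map_add' f g := by
    ext n
    rw [PowerSeries.coeff_mk, map_add, map_add, map_add, PowerSeries.coeff_mk,
      PowerSeries.coeff_mk]

theorem dP_coeff (δ : Ω →+ Ω) (f : PowerSeries Ω) (n : ℕ) :
    PowerSeries.coeff n (dP δ f) = δ (PowerSeries.coeff n f) := by
  show PowerSeries.coeff n (PowerSeries.mk fun n => δ (PowerSeries.coeff n f)) = _
  rw [PowerSeries.coeff_mk]

theorem FD_ps {ε : Ω →+* Ω} {δ : Ω →+ Ω} {c : Ω} (h : FD ε δ c) :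
    FD (PowerSeries.map ε) (dP δ) PowerSeries.X where
  leib a b := by
    ext n
    rw [dP_coeff, map_add, PowerSeries.coeff_mul, PowerSeries.coeff_mul, PowerSeries.coeff_mul,
      map_sum, ← Finset.sum_add_distrib]
    refine Finset.sum_congr rfl fun p _ => ?_
    rw [h.leib, dP_coeff, dP_coeff, PowerSeries.coeff_map]
  dd a := by
    ext n
    rw [dP_coeff, dP_coeff, h.dd, map_zero]
  de a := by
    ext n
    rw [dP_coeff, PowerSeries.coeff_map, h.de, map_neg, PowerSeries.coeff_map, dP_coeff]
  cc a := PowerSeries.X_mul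
  ec := PowerSeries.map_X ε
  dc := by
    ext n
    rw [dP_coeff, PowerSeries.coeff_X, map_zero]
    split_ifs
    · exact h.done
    · exact map_zero δ

end ps

section ma

variable {Ω : Type v} [Ring Ω] {G : Type w} [Group G]

theorem FD_ma {ε : Ω →+* Ω} {δ : Ω →+ Ω} {c : Ω} (h : FD ε δ c) :
    FD (mapRingHom G ε) (dG G δ) (single 1 c) where
  leib a b := by
    induction a using MonoidAlgebra.induction_linear with
    | zero => simp only [zero_mul, map_zero, add_zero]
    | add a a' ha ha' =>
      rw [add_mul, map_add, ha, ha', map_add, map_add, add_mul, add_mul]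
      abel
    | single g r =>
      induction b using MonoidAlgebra.induction_linear with
      | zero => simp only [mul_zero, map_zero, add_zero]
      | add b b' hb hb' =>
        rw [mul_add, map_add, hb, hb', map_add, mul_add, mul_add]
        abel
      | single g' r' =>
        rw [single_mul_single, dG_single, dG_single, dG_single, h.leib, mapRingHom_single,
          single_mul_single, single_mul_single, single_add]
  dd a := by
    apply coeff_injective
    ext k
    rw [dG_coeff, dG_coeff, h.dd]
    rfl
  de a := by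
    apply coeff_injective
    ext k
    rw [dG_coeff, coeff_mapRingHom, h.de, coeff_neg, Finsupp.neg_apply, coeff_mapRingHom, dG_coeff]
  cc a := by
    induction a using MonoidAlgebra.induction_linear with
    | zero => rw [mul_zero, zero_mul]
    | add a a' ha ha' => rw [mul_add, ha, ha', add_mul]
    | single g r => rw [single_mul_single, single_mul_single, one_mul, mul_one, h.cc]
  ec := by rw [mapRingHom_single, h.ec]
  dc := by rw [dG_single, h.dc, single_zero]

/-- The inclusion of the Fedosov group ring. -/
noncomputable def io {ε : Ω →+* Ω} {δ : Ω →+ Ω} {c : Ω} (h : FD ε δ c) (G : Type w) [Group G] :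
    MonoidAlgebra (Fed h) G →+ MonoidAlgebra Ω G where
  toFun α := .ofCoeff (Finsupp.mapRange (fun a : Fed h => a.1) rfl α.coeff)
  map_zero' := by
    apply coeff_injective
    ext k
    simp <;> rfl
  map_add' α β := by
    apply coeff_injective
    ext k
    simp <;> rfl

theorem io_coeff {ε : Ω →+* Ω} {δ : Ω →+ Ω} {c : Ω} (h : FD ε δ c) (α : MonoidAlgebra (Fed h) G)
    (k : G) : (io h G α).coeff k = (α.coeff k).1 := rfl

theorem io_single {ε : Ω →+* Ω} {δ : Ω →+ Ω} {c : Ω} (h : FD ε δ c) (k : G) (r : Fed h) :
    io h G (single k r) = single k r.1 := by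
  classical
  apply coeff_injective
  ext j
  rw [io_coeff, coeff_single, coeff_single, Finsupp.single_apply, Finsupp.single_apply]
  split_ifs
  · rfl
  · rfl

theorem io_mul {ε : Ω →+* Ω} {δ : Ω →+ Ω} {c : Ω} (h : FD ε δ c) (α β : MonoidAlgebra (Fed h) G) :
    io h G (α * β) = io h G α * io h G β -
      single 1 c * (dG G δ (io h G α) * dG G δ (io h G β)) := by
  induction α using MonoidAlgebra.induction_linear with
  | zero => simp only [zero_mul, map_zero, mul_zero, sub_zero]
  | add a a' ha ha' =>
    rw [add_mul, map_add, ha, ha', map_add, map_add, add_mul, add_mul, mul_add]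
    abel
  | single g r =>
    induction β using MonoidAlgebra.induction_linear with
    | zero => simp only [mul_zero, map_zero, sub_zero]
    | add b b' hb hb' =>
      rw [mul_add, map_add, hb, hb', map_add, map_add, mul_add, mul_add, mul_add]
      abel
    | single g' r' =>
      rw [single_mul_single, io_single, io_single, io_single, dG_single, dG_single,
        single_mul_single, single_mul_single, single_mul_single, one_mul, ← single_sub]
      rfl

end ma

section main

variable {Ω : Type v} [Ring Ω] {G : Type w} [Group G] {ε : Ω →+* Ω} {δ : Ω →+ Ω} {T : Ω →+ ℚ}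

theorem PC.fd (h : PC ε δ T) : FD ε δ (0 : Ω) where
  leib := h.leib
  dd := h.dd
  de := h.de
  cc a := by rw [zero_mul, mul_zero]
  ec := map_zero ε
  dc := map_zero δ

/-- The trace of the Fedosov ring. -/
noncomputable def TF (T : Ω →+ ℚ) {ε' : PowerSeries Ω →+* PowerSeries Ω}
    {δ' : PowerSeries Ω →+ PowerSeries Ω} {c : PowerSeries Ω} (h : FD ε' δ' c) (n : ℕ) :
    Fed h →+ ℚ where
  toFun a := T (PowerSeries.coeff n a.1)
  map_zero' := by
    rw [Fed.zero_val, map_zero, map_zero]
  map_add' a b := by
    rw [Fed.add_val, map_add, map_add]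

theorem TF_mul (h : PC ε δ T) (n : ℕ) (a b : Fed (FD_ps h.fd)) :
    TF T (FD_ps h.fd) n (a * b) = T (PowerSeries.coeff n (a.1 * b.1)) := by
  show T (PowerSeries.coeff n (a * b).1) = _
  rw [Fed.mul_val, map_sub, map_sub]
  have h1 : T (PowerSeries.coeff n (PowerSeries.X * (dP δ a.1 * dP δ b.1))) = 0 := by
    have h2 := PowerSeries.coeff_X_pow_mul' (dP δ a.1 * dP δ b.1) 1 n
    rw [pow_one] at h2
    rw [h2]
    split_ifs
    · rw [PowerSeries.coeff_mul, map_sum]
      refine Finset.sum_eq_zero fun p _ => ?_
      rw [dP_coeff, dP_coeff]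
      have h3 := h.leib (PowerSeries.coeff p.1 a.1) (δ (PowerSeries.coeff p.2 b.1))
      rw [h.dd, mul_zero, add_zero] at h3
      rw [← h3, h.cl]
    · exact map_zero T
  rw [h1, sub_zero]

theorem TF_comm (h : PC ε δ T) (n : ℕ) (a b : Fed (FD_ps h.fd)) :
    TF T (FD_ps h.fd) n (a * b) = TF T (FD_ps h.fd) n (b * a) := by
  rw [TF_mul h, TF_mul h, PowerSeries.coeff_mul, PowerSeries.coeff_mul, map_sum, map_sum]
  have h2 := Finset.Nat.sum_antidiagonal_swap (n := n)
    (f := fun p => T (PowerSeries.coeff p.1 b.1 * PowerSeries.coeff p.2 a.1))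
  rw [← h2]
  refine Finset.sum_congr rfl fun p _ => ?_
  show T (PowerSeries.coeff p.1 a.1 * PowerSeries.coeff p.2 b.1) =
    T (PowerSeries.coeff p.2 b.1 * PowerSeries.coeff p.1 a.1)
  apply h.tr
  have h1 := congrArg (PowerSeries.coeff p.1) (Fed.even (FD_ps h.fd) a)
  rw [PowerSeries.coeff_map] at h1
  exact h1

/-- `eT T (dg g)` as a homomorphism. -/
noncomputable def eTh (T : Ω →+ ℚ) (g : G) : MonoidAlgebra Ω G →+ ℚ where
  toFun := eT T (dg g)
  map_zero' := eT_zero T _
  map_add' := eT_add T _

theorem eTh_apply (T : Ω →+ ℚ) (g : G) (a : MonoidAlgebra Ω G) : eTh T g a = eT T (dg g) a := rfl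

theorem eT_d (h : PC ε δ T) (g : G) (a : MonoidAlgebra Ω G) : eT T (dg g) (dG G δ a) = 0 := by
  induction a using MonoidAlgebra.induction_linear with
  | zero => rw [map_zero, eT_zero]
  | add a a' ha ha' => rw [map_add, eT_add, ha, ha', add_zero]
  | single k r => rw [dG_single, eT_single, h.cl, smul_zero]

theorem cT_eT {A : Type v} [Ring A] (T : A →+ ℚ) (g : G) (a : MonoidAlgebra A G) :
    cT T g a = eT T (dg g) a := by
  classical
  unfold cT eT
  rw [Finsupp.sum]
  refine Finset.sum_congr rfl fun c _ => ?_
  unfold dg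
  have h1 : (∃ u : G, u * c = g * u) ↔ IsConj g c := by
    rw [isConj_iff]
    constructor
    · rintro ⟨u, hu⟩
      refine ⟨u⁻¹, ?_⟩
      rw [inv_inv, mul_assoc, ← hu, inv_mul_cancel_left]
    · rintro ⟨u, hu⟩
      refine ⟨u⁻¹, ?_⟩
      rw [← hu]
      group
  simp only [h1]
  split_ifs
  · rw [one_smul]
  · rw [zero_smul]

/-- Coefficient extraction. -/
noncomputable def pc (G : Type w) [Group G] (n : ℕ) :
    MonoidAlgebra (PowerSeries Ω) G →+ MonoidAlgebra Ω G where
  toFun α := .ofCoeff (Finsupp.mapRange (PowerSeries.coeff n) (map_zero _) α.coeff)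
  map_zero' := by
    apply coeff_injective
    ext h
    simp
  map_add' α β := by
    apply coeff_injective
    ext h
    simp

theorem pc_coeff (n : ℕ) (α : MonoidAlgebra (PowerSeries Ω) G) (k : G) :
    (pc G n α).coeff k = PowerSeries.coeff n (α.coeff k) := rfl

/-- Constants. -/
noncomputable def cst (Ω : Type v) [Ring Ω] (G : Type w) [Group G] :
    MonoidAlgebra Ω G →+* MonoidAlgebra (PowerSeries Ω) G := mapRingHom G PowerSeries.C

theorem cst_dG (a : MonoidAlgebra Ω G) : dG G (dP δ) (cst Ω G a) = cst Ω G (dG G δ a) := by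
  apply coeff_injective
  ext k : 1
  rw [dG_coeff]
  unfold cst
  rw [coeff_mapRingHom, coeff_mapRingHom, dG_coeff]
  ext n
  rw [dP_coeff, PowerSeries.coeff_C, PowerSeries.coeff_C]
  split_ifs
  · rfl
  · exact map_zero δ

theorem pc_mul (n k : ℕ) (a : MonoidAlgebra Ω G) :
    pc G n (single 1 PowerSeries.X ^ k * cst Ω G a) = if n = k then a else 0 := by
  have h1 : (single (1 : G) (PowerSeries.X : PowerSeries Ω)) ^ k =
      single 1 (PowerSeries.X ^ k) := by
    rw [single_pow, one_pow]
  rw [h1]
  induction a using MonoidAlgebra.induction_linear with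
  | zero => simp
  | add a a' ha ha' =>
    rw [map_add, mul_add, map_add, ha, ha']
    split_ifs
    · rfl
    · rw [add_zero]
  | single j r =>
    unfold cst
    rw [mapRingHom_single, single_mul_single, one_mul]
    apply coeff_injective
    ext i
    classical
    rw [pc_coeff, coeff_single, Finsupp.single_apply]
    by_cases hnk : n = k
    · subst hnk
      rw [if_pos rfl, coeff_single, Finsupp.single_apply]
      split_ifs
      · have h2 := PowerSeries.coeff_X_pow_mul (PowerSeries.C r) n 0
        rw [zero_add] at h2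
        rw [h2, PowerSeries.coeff_zero_C]
      · rw [map_zero]
    · rw [if_neg hnk]
      split_ifs
      · rw [PowerSeries.coeff_X_pow_mul']
        split_ifs with h3
        · rw [PowerSeries.coeff_C, if_neg (by omega)]
          rfl
        · rfl
      · rw [map_zero]
        rfl

open Classical in
/-- The element of the Fedosov ring given by an even element. -/
noncomputable def mkFed {ε' : Ω →+* Ω} {δ' : Ω →+ Ω} {c : Ω} (h : FD ε' δ' c) (a : Ω) : Fed h :=
  (if ha : a ∈ evenS ε' then (⟨a, ha⟩ : evenS ε') else 0 : evenS ε')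

theorem mkFed_val {ε' : Ω →+* Ω} {δ' : Ω →+ Ω} {c : Ω} (h : FD ε' δ' c) (a : Ω) (ha : ε' a = a) :
    (mkFed h a).1 = a := by
  classical
  have h1 : a ∈ evenS ε' := ha
  show ((if ha : a ∈ evenS ε' then (⟨a, ha⟩ : evenS ε') else 0 : evenS ε') : Ω) = a
  rw [dif_pos h1]

theorem mkFed_zero {ε' : Ω →+* Ω} {δ' : Ω →+ Ω} {c : Ω} (h : FD ε' δ' c) : mkFed h 0 = 0 :=
  Subtype.ext (mkFed_val h 0 (map_zero _))

/-- **Even cycles**. -/
theorem even_of_van (h10 : S_LG10) {g : G} (hg : Van.{v, w} G g) : S_Even.{v, w} G g := by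
  classical
  intro Ω _ ε δ T h e he hev n
  obtain ⟨α, r, h1, h2⟩ := h10 n
  set β : Polynomial ℤ := ∑ k ∈ Finset.range (n + 1),
      Polynomial.C (Nat.centralBinom k : ℤ) * Polynomial.X ^ k with hβ
  have hF := FD_ps h.fd
  have hR := FD_ma (G := G) hF
  set e1 := cst Ω G e with he1
  have hidem : e1 * e1 = e1 := by rw [he1, ← map_mul, he]
  have hev1 : mapRingHom G (PowerSeries.map ε) e1 = e1 := by
    apply coeff_injective
    ext k : 1
    rw [coeff_mapRingHom, he1]
    unfold cst
    rw [coeff_mapRingHom, PowerSeries.map_C, hev]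
  obtain ⟨hx1, hx2⟩ := fed_idem hR hidem hev1 h1 h2
  set D := dG G (dP δ) e1 with hD
  set s : MonoidAlgebra (PowerSeries Ω) G := single 1 PowerSeries.X with hs
  set q := s * (D * D) with hq
  set x := aev q α + aev q β * e1 with hx
  -- the element of the Fedosov ring
  have hxe : ∀ k, PowerSeries.map ε (x.coeff k) = x.coeff k := by
    intro k
    rw [← coeff_mapRingHom, hx1]
  let y : MonoidAlgebra (Fed hF) G :=
    .ofCoeff (Finsupp.mapRange (mkFed hF) (mkFed_zero hF) x.coeff)
  have hy : ∀ k, (y.coeff k).1 = x.coeff k := fun k => mkFed_val hF _ (hxe k)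
  have hiy : io hF G y = x := by
    apply coeff_injective
    ext k : 1
    rw [io_coeff, hy]
  have hidm : Idm (TF T hF n) y := by
    intro W k
    have e3 : ((y * y).coeff k).1 = x.coeff k + PowerSeries.X ^ (n + 1) *
        (((D * D) ^ (n + 1) * aev q r : MonoidAlgebra (PowerSeries Ω) G).coeff k) := by
      rw [← io_coeff, io_mul, hiy]
      have h4 : x * x - single 1 PowerSeries.X * (dG G (dP δ) x * dG G (dP δ) x) =
        x + s ^ (n + 1) * ((D * D) ^ (n + 1) * aev q r) := hx2
      rw [h4, coeff_add, Finsupp.add_apply]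
      congr 1
      have h5 : s ^ (n + 1) = single (1 : G) ((PowerSeries.X : PowerSeries Ω) ^ (n + 1)) := by
        rw [hs, single_pow, one_pow]
      rw [h5, coeff_single_mul_apply, inv_one, one_mul]
    rw [TF_mul h n, TF_mul h n, e3, hy, mul_add, map_add, map_add]
    have h6 : ∀ z : PowerSeries Ω, PowerSeries.coeff n (W.1 * (PowerSeries.X ^ (n + 1) * z)) = 0 := by
      intro z
      rw [← mul_assoc, ← PowerSeries.X_pow_mul, mul_assoc, PowerSeries.coeff_X_pow_mul',
        if_neg (by omega)]
    rw [h6, map_zero, add_zero]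
  have hz := hg (TF T hF n) (TF_comm h n) y hidm
  -- extraction of the coefficient
  have hz2 : eT T (dg g) (pc G n x) = 0 := by
    rw [← hz]
    unfold cT eT
    rw [Finsupp.sum]
    have hsub : (pc G n x).coeff.support ⊆ y.coeff.support := by
      intro k hk
      rw [Finsupp.mem_support_iff, pc_coeff] at hk
      rw [Finsupp.mem_support_iff]
      intro h0
      apply hk
      rw [← hy, h0]
      exact map_zero _
    rw [Finset.sum_subset hsub fun k _ hk => by
      rw [Finsupp.notMem_support_iff.1 hk, map_zero, smul_zero]]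
    refine Finset.sum_congr rfl fun c _ => ?_
    unfold dg
    have h7 : (∃ u : G, u * c = g * u) ↔ IsConj g c := by
      rw [isConj_iff]
      constructor
      · rintro ⟨u, hu⟩
        refine ⟨u⁻¹, ?_⟩
        rw [inv_inv, mul_assoc, ← hu, inv_mul_cancel_left]
      · rintro ⟨u, hu⟩
        refine ⟨u⁻¹, ?_⟩
        rw [← hu]
        group
    have h8 : TF T hF n (y.coeff c) = T ((pc G n x).coeff c) := by
      rw [pc_coeff, ← hy]
      rfl
    simp only [h7, h8]
    split_ifs
    · rw [one_smul]
    · rw [zero_smul]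
  have hDc : D = cst Ω G (dG G δ e) := by rw [hD, he1, cst_dG]
  set d := dG G δ e with hd
  have hqk : ∀ k : ℕ, q ^ k = s ^ k * cst Ω G ((d * d) ^ k) := by
    intro k
    have h3 : Commute s (D * D) := hR.cc (D * D)
    rw [hq, h3.mul_pow, hDc, map_pow, map_mul]
  have haev : ∀ (p : Polynomial ℤ) (y : MonoidAlgebra Ω G),
      pc G n (aev q p * cst Ω G y) = p.coeff n • ((d * d) ^ n * y) := by
    intro p y
    induction p using Polynomial.induction_on' with
    | add p p' hp hp' => rw [map_add, add_mul, map_add, hp, hp', Polynomial.coeff_add, add_smul]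
    | monomial k a =>
      rw [aev_monomial, Polynomial.coeff_monomial]
      have h3 : (a • q ^ k) * cst Ω G y = a • (s ^ k * cst Ω G ((d * d) ^ k * y)) := by
        rw [hqk, map_mul, smul_mul_assoc, mul_assoc]
      rw [h3, map_zsmul, pc_mul]
      by_cases hnk : n = k
      · subst hnk
        rw [if_pos rfl, if_pos rfl]
      · rw [if_neg hnk, if_neg (Ne.symm hnk), smul_zero, zero_smul]
  have hpx : pc G n x = α.coeff n • (d * d) ^ n + β.coeff n • ((d * d) ^ n * e) := by
    rw [hx, map_add, he1, haev β e]
    congr 1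
    have h3 := haev α 1
    rw [map_one, mul_one, mul_one] at h3
    exact h3
  have hde : FD (mapRingHom G ε) (dG G δ) (single 1 (0 : Ω)) := FD_ma h.fd
  have hevG : mapRingHom G ε e = e := by
    apply coeff_injective
    ext k
    rw [coeff_mapRingHom, hev]
  have hed : e * d = d - d * e := by
    have h3 := hde.leib e e
    rw [he, hevG] at h3
    rw [eq_sub_iff_add_eq, add_comm]
    exact h3.symm
  have hedd : Commute e (d * d) := by
    show e * (d * d) = d * d * e
    rw [← mul_assoc, hed, sub_mul, mul_assoc d e, hed, mul_sub, sub_sub_cancel, mul_assoc]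
  have hβn : β.coeff n = Nat.centralBinom n := by
    rw [hβ, Polynomial.finsetSum_coeff]
    simp only [Polynomial.coeff_C_mul, Polynomial.coeff_X_pow]
    rw [Finset.sum_eq_single n]
    · simp
    · intro b _ hb
      rw [if_neg (Ne.symm hb), mul_zero]
    · intro h3
      exact absurd (Finset.mem_range.2 (Nat.lt_succ_self n)) h3
  have hfin : eT T (dg g) (e * d ^ (2 * n)) = eTh T g ((d * d) ^ n * e) := by
    rw [eTh_apply, (hedd.pow_right n).eq.symm, pow_mul, pow_two]
  have hal : eTh T g (α.coeff n • (d * d) ^ n) = 0 := by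
    rcases Nat.eq_zero_or_pos n with hn | hn
    · subst hn
      have h3 := congrArg (fun p => Polynomial.coeff p 0) h1
      simp only [Polynomial.coeff_add, Polynomial.coeff_one_zero] at h3
      rw [hβn] at h3
      have h4 : (2 * α : Polynomial ℤ).coeff 0 = 2 * α.coeff 0 := by
        simp
      rw [h4] at h3
      have h5 : α.coeff 0 = 0 := by
        simp at h3
        omega
      rw [h5, zero_smul, map_zero]
    · obtain ⟨m, rfl⟩ : ∃ m, n = m + 1 := ⟨n - 1, by omega⟩
      rw [map_zsmul]
      have h3 : (d * d) ^ (m + 1) = dG G δ (e * (d * (d * d) ^ m)) := by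
        have h4 : dG G δ (d * (d * d) ^ m) = 0 := by
          have h5 : ∀ m : ℕ, dG G δ ((d * d) ^ m) = 0 := by
            intro m
            induction m with
            | zero => rw [pow_zero, hde.done]
            | succ m ih =>
              rw [pow_succ, hde.leib, ih, hde.leib, hde.dd, zero_mul, zero_mul, mul_zero, add_zero,
                mul_zero, add_zero]
          rw [hde.leib, hde.dd, h5, zero_mul, mul_zero, add_zero]
        rw [hde.leib, h4, mul_zero, add_zero, pow_succ', mul_assoc]
      rw [h3, eTh_apply, eT_d h, smul_zero]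
  have h9 : (Nat.centralBinom n : ℤ) • eTh T g ((d * d) ^ n * e) = 0 := by
    rw [← hβn, ← map_zsmul]
    have h10 : eTh T g (pc G n x) = 0 := hz2
    rw [hpx, map_add, hal, zero_add] at h10
    exact h10
  rw [hfin]
  rcases smul_eq_zero.1 h9 with h11 | h11
  · exact absurd h11 (by exact_mod_cast (Nat.centralBinom_pos n).ne')
  · exact h11

end main

end Pool.Agent.H416.LG
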