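import Pool.Agent.H416.LG.Par

set_option autoImplicit false

namespace Pool.Agent.H878.LG10

open Polynomial Finset

/-! ## The convolution of the central binomial coefficients (proof of helper183, task LG8) -/

/-- the sum over the antidiagonal -/
def SS (n : ℕ) : ℕ := ∑ p ∈ antidiagonal n, Nat.centralBinom p.1 * Nat.centralBinom p.2

theorem two_mul_sum (n : ℕ) :
    2 * ∑ p ∈ antidiagonal n, p.1 * (Nat.centralBinom p.1 * Nat.centralBinom p.2) = n * SS n := by
  have h1 : ∑ p ∈ antidiagonal n, p.1 * (Nat.centralBinom p.1 * Nat.centralBinom p.2) =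
      ∑ p ∈ antidiagonal n, p.2 * (Nat.centralBinom p.1 * Nat.centralBinom p.2) := by
    rw [← Finset.Nat.sum_antidiagonal_swap]
    refine sum_congr rfl fun p _ => ?_
    rw [Prod.fst_swap, Prod.snd_swap]
    ring
  rw [two_mul]
  nth_rewrite 2 [h1]
  rw [← sum_add_distrib, SS, mul_sum]
  refine sum_congr rfl fun p hp => ?_
  rw [Finset.HasAntidiagonal.mem_antidiagonal] at hp
  rw [← add_mul, hp]

theorem rec_sum (n : ℕ) : (n + 1) * SS (n + 1) = (n + 1) * (4 * SS n) := by
  have h1 := two_mul_sum (n + 1)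
  have h2 : ∑ p ∈ antidiagonal (n + 1), p.1 * (Nat.centralBinom p.1 * Nat.centralBinom p.2) =
      4 * ∑ p ∈ antidiagonal n, p.1 * (Nat.centralBinom p.1 * Nat.centralBinom p.2) +
        2 * SS n := by
    rw [Finset.Nat.sum_antidiagonal_succ, zero_mul, zero_add, SS, mul_sum, mul_sum,
      ← sum_add_distrib]
    refine sum_congr rfl fun p _ => ?_
    have h3 := Nat.succ_mul_centralBinom_succ p.1
    simp only
    rw [← mul_assoc, h3]
    ring
  have h3 := two_mul_sum n
  rw [h2] at h1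
  rw [← h1]
  have h4 : 2 * (4 * ∑ p ∈ antidiagonal n, p.1 * (Nat.centralBinom p.1 * Nat.centralBinom p.2) +
      2 * SS n) = 4 * (2 * ∑ p ∈ antidiagonal n,
        p.1 * (Nat.centralBinom p.1 * Nat.centralBinom p.2)) + 4 * SS n := by ring
  rw [h4, h3]
  ring

theorem SS_eq (n : ℕ) : SS n = 4 ^ n := by
  induction n with
  | zero => rfl
  | succ n ih =>
    have h := Nat.eq_of_mul_eq_mul_left (Nat.succ_pos n) (rec_sum n)
    rw [h, ih]
    ring


def LG8 : Prop :=
  ∀ n : ℕ, ∑ i ∈ Finset.range (n + 1), Nat.centralBinom i * Nat.centralBinom (n - i) = 4 ^ n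

theorem lg8 : LG8 := by
  intro n
  rw [← SS_eq n, SS]
  exact (Finset.Nat.sum_antidiagonal_eq_sum_range_succ
    (fun i j => Nat.centralBinom i * Nat.centralBinom j) n).symm

/-- the truncation of `β` -/
noncomputable def be (n : ℕ) : ℤ[X] :=
  ∑ k ∈ range (n + 1), C (Nat.centralBinom k : ℤ) * X ^ k

theorem be_coeff (n k : ℕ) (hk : k ≤ n) : (be n).coeff k = Nat.centralBinom k := by
  unfold be
  simp only [finsetSum_coeff, coeff_C_mul, coeff_X_pow]
  rw [Finset.sum_eq_single k]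
  · simp
  · intro b _ hb
    rw [if_neg (Ne.symm hb), mul_zero]
  · intro h
    exact absurd (Finset.mem_range.2 (by omega)) h

theorem be_sq_coeff (h8 : LG8) (n j : ℕ) (hj : j ≤ n) : ((be n) ^ 2).coeff j = 4 ^ j := by
  rw [sq, coeff_mul, Finset.Nat.sum_antidiagonal_eq_sum_range_succ_mk]
  have := h8 j
  have h2 : ((∑ i ∈ Finset.range (j + 1), Nat.centralBinom i * Nat.centralBinom (j - i) : ℕ) : ℤ)
    = ((4 ^ j : ℕ) : ℤ) := by rw [this]
  push_cast at h2
  rw [← h2]
  apply Finset.sum_congr rfl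
  intro i hi
  rw [Finset.mem_range] at hi
  rw [be_coeff n i (by omega), be_coeff n (j - i) (by omega)]

theorem lg10 (h8 : LG8) (n : ℕ) : ∃ α r : ℤ[X],
    2 * α + (∑ k ∈ Finset.range (n + 1), C (Nat.centralBinom k : ℤ) * X ^ k) = 1 ∧
    α ^ 2 - α - (∑ k ∈ Finset.range (n + 1), C (Nat.centralBinom k : ℤ) * X ^ k) ^ 2 * X =
      X ^ (n + 1) * r := by
  have h1 : ∃ α : ℤ[X], 2 * α + be n = 1 := by
    have hdvd : (2 : ℤ[X]) ∣ 1 - be n := by
      unfold be
      rw [Finset.sum_range_succ']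
      simp only [Nat.centralBinom_zero, Nat.cast_one, map_one, pow_zero, mul_one]
      rw [sub_add_cancel_right, dvd_neg]
      apply Finset.dvd_sum
      intro k _
      obtain ⟨c, hc⟩ := Nat.two_dvd_centralBinom_succ k
      rw [hc]
      refine Dvd.intro (C (c : ℤ) * X ^ (k + 1)) ?_
      push_cast
      rw [map_mul]
      simp only [map_ofNat]
      ring
    obtain ⟨α, hα⟩ := hdvd
    exact ⟨α, by rw [← hα]; ring⟩
  obtain ⟨α, hα⟩ := h1
  have h2 : X ^ (n + 1) ∣ (4 : ℤ[X]) * (α ^ 2 - α - be n ^ 2 * X) := by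
    have e : (4 : ℤ[X]) * (α ^ 2 - α - be n ^ 2 * X) = be n ^ 2 - 1 - 4 * (be n ^ 2 * X) := by
      have : 2 * α = 1 - be n := by rw [← hα]; ring
      have e2 : (4 : ℤ[X]) * (α ^ 2 - α - be n ^ 2 * X) =
        (2 * α) ^ 2 - 2 * (2 * α) - 4 * (be n ^ 2 * X) := by ring
      rw [e2, this]; ring
    rw [e, X_pow_dvd_iff]
    intro d hd
    have e4 : (4 : ℤ[X]) = C 4 := by simp
    rw [coeff_sub, coeff_sub, be_sq_coeff h8 n d (by omega), e4, coeff_C_mul]
    cases d with
    | zero => simp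
    | succ d =>
      rw [coeff_mul_X, be_sq_coeff h8 n d (by omega), coeff_one]
      simp only [Nat.add_eq_zero_iff, one_ne_zero, and_false, if_false]
      ring
  have h3 : X ^ (n + 1) ∣ (α ^ 2 - α - be n ^ 2 * X : ℤ[X]) := by
    rw [X_pow_dvd_iff] at h2 ⊢
    intro d hd
    have := h2 d hd
    have e4 : (4 : ℤ[X]) = C 4 := by simp
    rw [e4, coeff_C_mul] at this
    rcases mul_eq_zero.1 this with h | h
    · norm_num at h
    · exact h
  obtain ⟨r, hr⟩ := h3
  exact ⟨α, r, hα, hr⟩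

/-- **LG10** -/
theorem LG10_holds : Pool.Agent.H416.LG.S_LG10 := fun n => lg10 lg8 n

end Pool.Agent.H878.LG10
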