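import Pool.Agent.H416.LG.Par

set_option autoImplicit false

/-!
# Matrices over a Connes cycle (`LG11` of helper416)
-/

namespace Pool.Agent.H881.LG11

open Finset MonoidAlgebra
open Pool.Agent.V11187.DG (eT dg Cyc)
open Pool.Agent.H416.LG

universe u v w x z

section

variable {K : Type u} [CommRing K] {Ω : Type v} [Ring Ω] [Algebra K Ω] (𝒜 : ℕ → Submodule K Ω)
  [GradedAlgebra 𝒜]

/-- the grading automorphism as an additive map -/
noncomputable def eps : Ω →+ Ω :=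
  (DirectSum.toAddMonoid (fun i => ((-1 : ℤ) ^ i) • (𝒜 i).subtype.toAddMonoidHom)).comp
    (DirectSum.decomposeAddEquiv 𝒜).toAddMonoidHom

theorem eps_mem {i : ℕ} {a : Ω} (ha : a ∈ 𝒜 i) : eps 𝒜 a = ((-1 : ℤ) ^ i) • a := by
  have h1 : DirectSum.decompose 𝒜 a = DirectSum.of (fun i => 𝒜 i) i ⟨a, ha⟩ :=
    DirectSum.decompose_of_mem 𝒜 ha
  show (DirectSum.toAddMonoid (fun i => ((-1 : ℤ) ^ i) • (𝒜 i).subtype.toAddMonoidHom))
    (DirectSum.decompose 𝒜 a) = _
  rw [h1, DirectSum.toAddMonoid_of]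
  rfl

/-- induction on the homogeneous components -/
theorem ind {p : Ω → Prop} (h0 : p 0) (hadd : ∀ a b, p a → p b → p (a + b))
    (h : ∀ i, ∀ a ∈ 𝒜 i, p a) (a : Ω) : p a :=
  DirectSum.Decomposition.inductionOn 𝒜 h0 (fun {i} m => h i m m.2) hadd a

theorem eps_mul (a b : Ω) : eps 𝒜 (a * b) = eps 𝒜 a * eps 𝒜 b := by
  revert b
  refine ind 𝒜 (p := fun a => ∀ b, eps 𝒜 (a * b) = eps 𝒜 a * eps 𝒜 b) ?_ ?_ ?_ a
  · intro b
    rw [zero_mul, map_zero, zero_mul]
  · intro a a' h h' b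
    rw [add_mul, map_add, h, h', map_add, add_mul]
  · intro i a ha b
    refine ind 𝒜 (p := fun b => eps 𝒜 (a * b) = eps 𝒜 a * eps 𝒜 b) ?_ ?_ ?_ b
    · rw [mul_zero, map_zero, mul_zero]
    · intro b b' h h'
      rw [mul_add, map_add, h, h', map_add, mul_add]
    · intro j b hb
      rw [eps_mem 𝒜 ha, eps_mem 𝒜 hb, eps_mem 𝒜 (SetLike.mul_mem_graded ha hb), smul_mul_smul_comm,
        pow_add]

/-- the grading automorphism -/
noncomputable def epsR : Ω →+* Ω where
  toFun := eps 𝒜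
  map_one' := by
    rw [eps_mem 𝒜 (SetLike.one_mem_graded 𝒜), pow_zero, one_smul]
  map_mul' := eps_mul 𝒜
  map_zero' := map_zero _
  map_add' := map_add _

theorem epsR_apply (a : Ω) : epsR 𝒜 a = eps 𝒜 a := rfl

theorem sign_sq (i : ℕ) : ((-1 : ℤ) ^ i) * ((-1 : ℤ) ^ i) = 1 := by
  rw [← pow_add, ← two_mul, pow_mul]
  norm_num

theorem eps_eps (a : Ω) : eps 𝒜 (eps 𝒜 a) = a := by
  refine ind 𝒜 (p := fun a => eps 𝒜 (eps 𝒜 a) = a) ?_ ?_ ?_ a
  · rw [map_zero, map_zero]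
  · intro a b h h'
    rw [map_add, map_add, h, h']
  · intro i a ha
    rw [eps_mem 𝒜 ha, map_zsmul, eps_mem 𝒜 ha, smul_smul, sign_sq, one_smul]

variable {M : Type x} [AddCommGroup M] [Module K M] {N : ℕ} {δ : Ω →ₗ[K] Ω} {T : Ω →ₗ[K] M}

theorem leib (hc : Cyc N 𝒜 δ T) (a b : Ω) : δ (a * b) = δ a * b + eps 𝒜 a * δ b := by
  refine ind 𝒜 (p := fun a => δ (a * b) = δ a * b + eps 𝒜 a * δ b) ?_ ?_ ?_ a
  · simp only [zero_mul, map_zero, add_zero]
  · intro a a' h h'
    rw [add_mul, map_add, h, h', map_add, map_add, add_mul, add_mul]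
    abel
  · intro i a ha
    rw [hc.leibniz i a ha b, eps_mem 𝒜 ha, Pool.Agent.V11187.DG.neg_pow_mul, smul_mul_assoc]

theorem del_eps (hc : Cyc N 𝒜 δ T) (a : Ω) : δ (eps 𝒜 a) = -eps 𝒜 (δ a) := by
  refine ind 𝒜 (p := fun a => δ (eps 𝒜 a) = -eps 𝒜 (δ a)) ?_ ?_ ?_ a
  · simp only [map_zero, neg_zero]
  · intro a b h h'
    rw [map_add, map_add, h, h', map_add, map_add, neg_add]
  · intro i a ha
    rw [eps_mem 𝒜 ha, map_zsmul, eps_mem 𝒜 (hc.deg i a ha), pow_succ, mul_neg_one, neg_smul,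
      neg_neg]

/-- the trace property for pairs of homogeneous elements -/
theorem tr_hom (hc : Cyc N 𝒜 δ T) {i j : ℕ} {a b : Ω} (ha : a ∈ 𝒜 i) (hb : b ∈ 𝒜 j) :
    T (a * b) = if i + j = N then ((-1 : ℤ) ^ (i * j)) • T (b * a) else 0 := by
  split_ifs with h
  · rw [hc.trace i j a ha b hb, Pool.Agent.V11187.DG.neg_pow_mul, map_zsmul]
  · exact hc.dim (i + j) h _ (SetLike.mul_mem_graded ha hb)

/-- even cycles: `T (a b) = T (b ε(a))` -/
theorem tr_even (hc : Cyc N 𝒜 δ T) (hN : Even N) (a b : Ω) : T (a * b) = T (b * eps 𝒜 a) := by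
  revert b
  refine ind 𝒜 (p := fun a => ∀ b, T (a * b) = T (b * eps 𝒜 a)) ?_ ?_ ?_ a
  · intro b
    rw [zero_mul, map_zero, map_zero, mul_zero, map_zero]
  · intro a a' h h' b
    rw [add_mul, map_add, h, h', map_add, mul_add, map_add]
  · intro i a ha b
    refine ind 𝒜 (p := fun b => T (a * b) = T (b * eps 𝒜 a)) ?_ ?_ ?_ b
    · rw [mul_zero, map_zero, zero_mul, map_zero]
    · intro b b' h h'
      rw [mul_add, map_add, h, h', add_mul, map_add]
    · intro j b hb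
      rw [tr_hom 𝒜 hc ha hb, eps_mem 𝒜 ha, mul_smul_comm, map_zsmul]
      split_ifs with h
      · congr 1
        have h1 : Even (i + j) := by rw [h]; exact hN
        rcases Nat.even_or_odd i with hi | hi
        · rw [hi.neg_one_pow, (hi.mul_right j).neg_one_pow]
        · have hj : Odd j := by
            rcases Nat.even_or_odd j with hj | hj
            · exact absurd (hi.add_even hj) (Nat.not_odd_iff_even.2 h1)
            · exact hj
          rw [hi.neg_one_pow, (hi.mul hj).neg_one_pow]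
      · rw [hc.dim (j + i) (by omega) _ (SetLike.mul_mem_graded hb ha), smul_zero]

/-- odd cycles: `T (a b) = T (b a)` -/
theorem tr_odd (hc : Cyc N 𝒜 δ T) (hN : Odd N) (a b : Ω) : T (a * b) = T (b * a) := by
  revert b
  refine ind 𝒜 (p := fun a => ∀ b, T (a * b) = T (b * a)) ?_ ?_ ?_ a
  · intro b
    rw [zero_mul, mul_zero]
  · intro a a' h h' b
    rw [add_mul, map_add, h, h', mul_add, map_add]
  · intro i a ha b
    refine ind 𝒜 (p := fun b => T (a * b) = T (b * a)) ?_ ?_ ?_ b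
    · rw [mul_zero, zero_mul]
    · intro b b' h h'
      rw [mul_add, map_add, h, h', add_mul, map_add]
    · intro j b hb
      rw [tr_hom 𝒜 hc ha hb]
      split_ifs with h
      · have h1 : Odd (i + j) := by rw [h]; exact hN
        have h2 : Even (i * j) := by
          rw [Nat.even_mul]
          by_contra hcon
          rw [not_or, Nat.not_even_iff_odd, Nat.not_even_iff_odd] at hcon
          exact absurd (hcon.1.add_odd hcon.2) (Nat.not_even_iff_odd.2 h1)
        rw [h2.neg_one_pow, one_smul]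
      · rw [hc.dim (j + i) (by omega) _ (SetLike.mul_mem_graded hb ha)]

/-- odd cycles: the trace is odd -/
theorem eps_odd (hc : Cyc N 𝒜 δ T) (hN : Odd N) (a : Ω) : T (eps 𝒜 a) = -T a := by
  refine ind 𝒜 (p := fun a => T (eps 𝒜 a) = -T a) ?_ ?_ ?_ a
  · simp only [map_zero, neg_zero]
  · intro a b h h'
    rw [map_add, map_add, h, h', map_add, neg_add]
  · intro i a ha
    rw [eps_mem 𝒜 ha, map_zsmul]
    by_cases hi : i = N
    · rw [hi, hN.neg_one_pow, neg_one_smul]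
    · rw [hc.dim i hi a ha, smul_zero, neg_zero]

end

theorem LG11_holds : S_LG11.{u, v, x} := by
  intro K _ Ω _ _ M _ _ N 𝒜 _ δ T hc f d
  have hmap : ∀ (X : Matrix (Fin d) (Fin d) Ω) (i j : Fin d),
      (epsR 𝒜).mapMatrix X i j = eps 𝒜 (X i j) := fun X i j => rfl
  have hδ : ∀ (X : Matrix (Fin d) (Fin d) Ω) (i j : Fin d),
      δ.toAddMonoidHom.mapMatrix X i j = δ (X i j) := fun X i j => rfl
  have hT : ∀ X : Matrix (Fin d) (Fin d) Ω,
      (f.comp (T.toAddMonoidHom.comp (Matrix.traceAddMonoidHom (Fin d) Ω))) X =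
        ∑ i, f (T (X i i)) := by
    intro X
    show f (T (Matrix.trace X)) = _
    rw [Matrix.trace, map_sum, map_sum]
    rfl
  have hleib : ∀ X Y : Matrix (Fin d) (Fin d) Ω, δ.toAddMonoidHom.mapMatrix (X * Y) =
      δ.toAddMonoidHom.mapMatrix X * Y +
        (epsR 𝒜).mapMatrix X * δ.toAddMonoidHom.mapMatrix Y := by
    intro X Y
    ext i j
    rw [hδ, Matrix.add_apply, Matrix.mul_apply, Matrix.mul_apply, Matrix.mul_apply, map_sum,
      ← Finset.sum_add_distrib]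
    refine Finset.sum_congr rfl fun k _ => ?_
    rw [hδ, hmap, hδ, leib 𝒜 hc]
  have hee : ∀ X : Matrix (Fin d) (Fin d) Ω, (epsR 𝒜).mapMatrix ((epsR 𝒜).mapMatrix X) = X := by
    intro X
    ext i j
    rw [hmap, hmap, eps_eps]
  have hdd : ∀ X : Matrix (Fin d) (Fin d) Ω,
      δ.toAddMonoidHom.mapMatrix (δ.toAddMonoidHom.mapMatrix X) = 0 := by
    intro X
    ext i j
    rw [hδ, hδ, hc.sq]
    rfl
  have hde : ∀ X : Matrix (Fin d) (Fin d) Ω,
      δ.toAddMonoidHom.mapMatrix ((epsR 𝒜).mapMatrix X) =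
        -(epsR 𝒜).mapMatrix (δ.toAddMonoidHom.mapMatrix X) := by
    intro X
    ext i j
    rw [hδ, hmap, Matrix.neg_apply, hmap, hδ, del_eps 𝒜 hc]
  have hcl : ∀ X : Matrix (Fin d) (Fin d) Ω,
      (f.comp (T.toAddMonoidHom.comp (Matrix.traceAddMonoidHom (Fin d) Ω)))
        (δ.toAddMonoidHom.mapMatrix X) = 0 := by
    intro X
    rw [hT]
    refine Finset.sum_eq_zero fun i _ => ?_
    rw [hδ, hc.closed, map_zero]
  have hTm : ∀ X Y : Matrix (Fin d) (Fin d) Ω,
      (f.comp (T.toAddMonoidHom.comp (Matrix.traceAddMonoidHom (Fin d) Ω))) (X * Y) =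
        ∑ i, ∑ j, f (T (X i j * Y j i)) := by
    intro X Y
    rw [hT]
    refine Finset.sum_congr rfl fun i _ => ?_
    rw [Matrix.mul_apply, map_sum, map_sum]
  refine ⟨(epsR 𝒜).mapMatrix, ?_, ?_, ?_⟩
  · intro X hX
    ext i j
    rw [hmap, eps_mem 𝒜 (hX i j), pow_zero, one_smul]
  · intro hN
    have hEv : ∀ X Y : Matrix (Fin d) (Fin d) Ω,
        (f.comp (T.toAddMonoidHom.comp (Matrix.traceAddMonoidHom (Fin d) Ω))) (X * Y) =
        (f.comp (T.toAddMonoidHom.comp (Matrix.traceAddMonoidHom (Fin d) Ω)))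
          (Y * (epsR 𝒜).mapMatrix X) := by
      intro X Y
      rw [hTm, hTm, Finset.sum_comm]
      refine Finset.sum_congr rfl fun j _ => Finset.sum_congr rfl fun i _ => ?_
      rw [tr_even 𝒜 hc hN, hmap]
    refine ⟨hee, hleib, hdd, hde, ?_, ?_, hcl⟩
    · intro a b ha
      rw [hEv, ha]
    · intro a b ha _
      rw [hEv, ha, mul_neg, map_neg]
  · intro hN
    refine ⟨hee, hleib, hdd, hde, ?_, ?_, hcl⟩
    · intro a b
      rw [hTm, hTm, Finset.sum_comm]
      refine Finset.sum_congr rfl fun j _ => Finset.sum_congr rfl fun i _ => ?_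
      rw [tr_odd 𝒜 hc hN]
    · intro a
      rw [hT, hT, ← Finset.sum_neg_distrib]
      refine Finset.sum_congr rfl fun i _ => ?_
      rw [hmap, eps_odd 𝒜 hc hN, map_neg]

end Pool.Agent.H881.LG11
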