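import Pool.Agent.H416.LG.FedT
import Pool.Agent.H416.LG.P10
import Pool.Agent.H416.LG.P11
import Pool.Agent.H416.HCh

set_option autoImplicit false

/-!
# The components of cycles at elements with local data
-/

namespace Pool.Agent.H416.LG

open Finset MonoidAlgebra
open Pool.Agent.V11187.DG (eT dg Cyc eT_zero eT_add eT_single eT_sum compT compT_eT dh dh_coeff Sg
  au au_dh T_auE)
open Pool.Agent.H416.QE (eT_comp torsion_of)
open Pool.Agent.H416.HC (wordI finT sum_rest)

universe u v w x y z

section mg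

/-- from the group ring of matrices to matrices over the group ring -/
noncomputable def rho (Ω : Type v) [Ring Ω] (G : Type w) [Group G] (d : ℕ) :
    MonoidAlgebra (Matrix (Fin d) (Fin d) Ω) G →+
      Matrix (Fin d) (Fin d) (MonoidAlgebra Ω G) where
  toFun X := Matrix.of fun i j =>
    .ofCoeff (Finsupp.mapRange (fun B : Matrix (Fin d) (Fin d) Ω => B i j) rfl X.coeff)
  map_zero' := by
    refine Matrix.ext fun i j => ?_
    apply coeff_injective
    ext h
    simp
  map_add' X Y := by
    refine Matrix.ext fun i j => ?_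
    apply coeff_injective
    ext h
    simp

variable {Ω : Type v} [Ring Ω] {G : Type w} [Group G] {d : ℕ}

theorem rho_coeff (X : MonoidAlgebra (Matrix (Fin d) (Fin d) Ω) G) (i j : Fin d) (h : G) :
    (rho Ω G d X i j).coeff h = X.coeff h i j := rfl

theorem rho_single (h : G) (B : Matrix (Fin d) (Fin d) Ω) (i j : Fin d) :
    rho Ω G d (single h B) i j = single h (B i j) := by
  classical
  apply coeff_injective
  ext k
  rw [rho_coeff, coeff_single, coeff_single, Finsupp.single_apply, Finsupp.single_apply]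
  split_ifs
  · rfl
  · rfl

theorem rho_inj : Function.Injective (rho Ω G d) := by
  intro X Y h
  apply coeff_injective
  ext s i j
  rw [← rho_coeff, ← rho_coeff, h]

theorem rho_mul (X Y : MonoidAlgebra (Matrix (Fin d) (Fin d) Ω) G) :
    rho Ω G d (X * Y) = rho Ω G d X * rho Ω G d Y := by
  induction X using MonoidAlgebra.induction_linear with
  | zero => rw [zero_mul, map_zero, zero_mul]
  | add X X' h h' => rw [add_mul, map_add, map_add, add_mul, h, h']
  | single s a =>
    induction Y using MonoidAlgebra.induction_linear with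
    | zero => rw [mul_zero, map_zero, mul_zero]
    | add Y Y' h h' => rw [mul_add, map_add, map_add, mul_add, h, h']
    | single t b =>
      refine Matrix.ext fun i j => ?_
      rw [MonoidAlgebra.single_mul_single, rho_single, Matrix.mul_apply, Matrix.mul_apply]
      simp only [rho_single, MonoidAlgebra.single_mul_single]
      exact map_sum (MonoidAlgebra.singleAddHom (s * t) : Ω →+ MonoidAlgebra Ω G) _ _

/-- from matrices over the group ring to the group ring of matrices -/
noncomputable def mg (X : Matrix (Fin d) (Fin d) (MonoidAlgebra Ω G)) :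
    MonoidAlgebra (Matrix (Fin d) (Fin d) Ω) G :=
  ∑ i, ∑ j, .ofCoeff (Finsupp.mapRange (fun r : Ω => Matrix.single i j r)
    (Matrix.single_zero i j) (X i j).coeff)

theorem mg_coeff (X : Matrix (Fin d) (Fin d) (MonoidAlgebra Ω G)) (h : G) :
    (mg X).coeff h = X.map fun a => a.coeff h := by
  unfold mg
  rw [MonoidAlgebra.coeff_sum, Finset.sum_apply']
  conv_rhs => rw [Matrix.matrix_eq_sum_single (X.map fun a => a.coeff h)]
  refine Finset.sum_congr rfl fun i _ => ?_
  rw [MonoidAlgebra.coeff_sum, Finset.sum_apply']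
  rfl

theorem rho_mg (X : Matrix (Fin d) (Fin d) (MonoidAlgebra Ω G)) : rho Ω G d (mg X) = X := by
  refine Matrix.ext fun i j => ?_
  apply coeff_injective
  ext h
  rw [rho_coeff, mg_coeff]
  rfl

theorem mg_mul (X Y : Matrix (Fin d) (Fin d) (MonoidAlgebra Ω G)) : mg (X * Y) = mg X * mg Y := by
  apply rho_inj
  rw [rho_mul, rho_mg, rho_mg, rho_mg]

theorem rho_one : rho Ω G d 1 = 1 := by
  classical
  refine Matrix.ext fun i j => ?_
  rw [MonoidAlgebra.one_def, rho_single, Matrix.one_apply, Matrix.one_apply]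
  split_ifs
  · rfl
  · exact MonoidAlgebra.single_zero _

theorem mg_one : mg (1 : Matrix (Fin d) (Fin d) (MonoidAlgebra Ω G)) = 1 := by
  apply rho_inj
  rw [rho_mg, rho_one]

theorem mg_pow (X : Matrix (Fin d) (Fin d) (MonoidAlgebra Ω G)) (n : ℕ) :
    mg (X ^ n) = mg X ^ n := by
  induction n with
  | zero => rw [pow_zero, pow_zero, mg_one]
  | succ n ih => rw [pow_succ, pow_succ, mg_mul, ih]

variable {K : Type u} [CommRing K] [Algebra K Ω]

theorem mg_dh (δ : Ω →ₗ[K] Ω) (X : Matrix (Fin d) (Fin d) (MonoidAlgebra Ω G)) :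
    mg (X.map (dh G δ)) = dG G δ.toAddMonoidHom.mapMatrix (mg X) := by
  apply coeff_injective
  ext h i j
  rw [mg_coeff, dG_coeff, mg_coeff]
  exact dh_coeff δ _ _

theorem eT_mg {M : Type x} [AddCommGroup M] [Module K M] (T : Ω →ₗ[K] M) (f : M →+ ℚ) (g : G)
    (X : Matrix (Fin d) (Fin d) (MonoidAlgebra Ω G)) :
    eT (f.comp (T.toAddMonoidHom.comp (Matrix.traceAddMonoidHom (Fin d) Ω))) (dg g) (mg X) =
      f (compT T X g) := by
  rw [compT_eT, map_sum]
  have h1 : ∀ Z : MonoidAlgebra (Matrix (Fin d) (Fin d) Ω) G,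
      eT (f.comp (T.toAddMonoidHom.comp (Matrix.traceAddMonoidHom (Fin d) Ω))) (dg g) Z =
        ∑ i, f (eT T.toAddMonoidHom (dg g) (rho Ω G d Z i i)) := by
    intro Z
    induction Z using MonoidAlgebra.induction_linear with
    | zero =>
      rw [eT_zero, map_zero]
      symm
      refine Finset.sum_eq_zero fun i _ => ?_
      rw [Matrix.zero_apply, eT_zero, map_zero]
    | add Z Z' h h' =>
      rw [eT_add, h, h', map_add, ← Finset.sum_add_distrib]
      refine Finset.sum_congr rfl fun i _ => ?_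
      rw [Matrix.add_apply, eT_add, map_add]
    | single s B =>
      rw [eT_single]
      have h2 : ∀ i, f (eT T.toAddMonoidHom (dg g) (rho Ω G d (single s B) i i)) =
          dg g s • f (T (B i i)) := by
        intro i
        rw [rho_single, eT_single, map_zsmul]
        rfl
      rw [Finset.sum_congr rfl fun i _ => h2 i, ← Finset.smul_sum]
      congr 1
      show f (T (Matrix.trace B)) = _
      rw [Matrix.trace, map_sum, map_sum]
      rfl
  rw [h1, rho_mg]

end mg

variable {K : Type u} [CommRing K] {Ω : Type v} [Ring Ω] [Algebra K Ω] {G : Type w} [Group G]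
  {M : Type x} [AddCommGroup M] [Module K M] {𝒜 : ℕ → Submodule K Ω} [GradedAlgebra 𝒜]
  {N : ℕ} {δ : Ω →ₗ[K] Ω} {T : Ω →ₗ[K] M} {A : Type y} [Ring A]

/-- The components of even cycles on idempotent matrices are torsion elements. -/
theorem even_tor {g : G} (hg : Van.{v, w} G g) (hc : Cyc N 𝒜 δ T) (hN : Even N)
    {σ : A →+* MonoidAlgebra Ω G} (hσ : ∀ a, σ a ∈ Sg 𝒜 G 0) {d : ℕ}
    (e : Matrix (Fin d) (Fin d) A) (he : e * e = e) (m : ℕ) :
    ∃ k : ℤ, k ≠ 0 ∧ k • compT T (wordI δ σ m e) g = 0 := by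
  refine torsion_of _ fun f => ?_
  obtain ⟨ε, hε, hev, -⟩ := Pool.Agent.H881.LG11.LG11_holds N 𝒜 δ T hc f d
  have h := even_of_van Pool.Agent.H878.LG10.LG10_holds hg ε _ _ (hev hN) (mg (e.map σ))
    (by
      rw [← mg_mul]
      congr 1
      exact ((σ.mapMatrix : Matrix (Fin d) (Fin d) A →+* _).map_mul e e).symm.trans
        (congrArg (σ.mapMatrix : Matrix (Fin d) (Fin d) A →+* _) he))
    (by
      intro h
      apply hε
      intro i j
      rw [mg_coeff]
      exact hσ _ h) m
  rw [← mg_dh, ← mg_pow, ← mg_mul, eT_mg] at h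
  exact h

/-- The values of even cycles of torsion free groups on idempotent matrices. -/
theorem even_val (hG : ∀ g : G, ¬ IsOfFinOrder g → Van.{v, w} G g)
    (hM : ∀ (k : ℤ) (m : M), k ≠ 0 → k • m = 0 → m = 0) (hc : Cyc N 𝒜 δ T) (hN : Even N)
    {σ : A →+* MonoidAlgebra Ω G} (hσ : ∀ a, σ a ∈ Sg 𝒜 G 0) {d : ℕ}
    (e : Matrix (Fin d) (Fin d) A) (he : e * e = e) (m : ℕ) :
    T (e.map ((au Ω G).comp σ) * ((e.map ((au Ω G).comp σ)).map δ) ^ (2 * m)).trace =
      finT T (wordI δ σ m e) := by
  have h := sum_rest (T := T) (G := G) {()} (fun _ => 1) (fun _ : Unit => wordI δ σ m e) (by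
    intro g hg
    rw [Finset.sum_singleton, one_smul]
    obtain ⟨k, hk, hk1⟩ := even_tor (hG g hg) hc hN hσ e he m
    exact hM k _ hk hk1)
  rw [Finset.sum_singleton, Finset.sum_singleton, one_smul, one_smul] at h
  rw [← h]
  have h2 : ∀ X : Matrix (Fin d) (Fin d) (MonoidAlgebra Ω G),
      (X.map (dh G δ)).map (au Ω G) = (X.map (au Ω G)).map δ := by
    intro X
    ext1 i j
    exact au_dh δ (X i j)
  have h3 : (wordI δ σ m e).map (au Ω G) =
      e.map ((au Ω G).comp σ) * ((e.map ((au Ω G).comp σ)).map δ) ^ (2 * m) := by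
    unfold wordI
    rw [Matrix.map_mul]
    have h4 : ∀ (X : Matrix (Fin d) (Fin d) (MonoidAlgebra Ω G)) (k : ℕ),
        (X ^ k).map (au Ω G) = (X.map (au Ω G)) ^ k := fun X k =>
      map_pow ((au Ω G).mapMatrix) X k
    rw [h4, h2]
    rfl
  rw [← h3, Matrix.trace, map_sum]
  refine Finset.sum_congr rfl fun i _ => ?_
  exact T_auE _

end Pool.Agent.H416.LG
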