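import Pool.Agent.H416.LG.Cl
import Pool.Agent.H416.LG.Fin2
import Pool.Agent.H416.OS

/-!
# Cycles over group rings, groups with good elements
-/

set_option autoImplicit false
set_option linter.unusedSectionVars false

namespace Pool.Agent.H416.LG.GE

open MonoidAlgebra Pool.Agent.H416.QG Pool.Agent.H416
open Pool.Agent.V11187.DG (Cyc neg_pow_mul trace_odd Sg
  compT wordE word mem_Hm rh rh_mem T1 T1_apply cyc_T1 rhA value value_T1 onI onM onI_T1
  onM_T1 onI_loc onM_loc wordE_mapDomain word_mapDomain dh_mapDomain rh_mapDomain compT_one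
  restrict_pair onElt onElt_T1 suppE suppE_fg supp dh)
open Pool.Agent.Y84.PK (lamk fo bl_fo pairing_bl)

universe u v w x y z

section Gen

variable {K : Type u} [CommRing K] {Ω : Type v} [Ring Ω] [Algebra K Ω] {G : Type w} [Group G]
  {M : Type x} [AddCommGroup M] [Module K M] {𝒜 : ℕ → Submodule K Ω} [GradedAlgebra 𝒜]
  {N : ℕ} {δ : Ω →ₗ[K] Ω} {T : Ω →ₗ[K] M} {B : Type y} [Ring B]

theorem torE {g : G} (hg : Van.{v, w} G g) {n : ℕ} (hc : Cyc (2 * n) 𝒜 δ T)
    {ρ : MonoidAlgebra B G →+* Ω} (hρ : ∀ a, ρ a ∈ 𝒜 0) {d : ℕ}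
    (e : Matrix (Fin d) (Fin d) (MonoidAlgebra B G)) (he : e * e = e) :
    ∃ k : ℤ, k ≠ 0 ∧ k • compT T (wordE δ ρ n e) g = 0 :=
  even_tor hg hc ⟨n, two_mul n⟩ (fun a => rh_mem hρ a) e he n

theorem torM {g : G} (hg : Van.{v, w} G g) {n : ℕ} (hc : Cyc (2 * n + 1) 𝒜 δ T)
    {ρ : MonoidAlgebra B G →+* Ω} (hρ : ∀ a, ρ a ∈ 𝒜 0) {d : ℕ}
    (u v : Matrix (Fin d) (Fin d) (MonoidAlgebra B G)) (huv : u * v = 1) (hvu : v * u = 1) :
    ∃ k : ℤ, k ≠ 0 ∧ k • compT T (word δ ρ n u v) g = 0 :=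
  odd_tor hg hc ⟨n, rfl⟩ (fun a => rh_mem hρ a) u v huv hvu n

/-- Only the identity contributes (even dimension). -/
theorem onI_one (hG : ∀ g : G, g ≠ 1 → Van.{v, w} G g)
    (hM : ∀ (k : ℤ) (z : M), k ≠ 0 → k • z = 0 → z = 0) {n : ℕ} (hc : Cyc (2 * n) 𝒜 δ T)
    {ρ : MonoidAlgebra B G →+* Ω} (hρ : ∀ a, ρ a ∈ 𝒜 0) {d : ℕ}
    (e : Matrix (Fin d) (Fin d) (MonoidAlgebra B G)) (he : e * e = e) :
    onI δ T ρ n e = compT T (wordE δ ρ n e) 1 := by
  rw [onI_loc ρ e, onI_T1, compT_one]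
  intro g hg
  obtain ⟨k, hk, hk1⟩ := torE (hG g hg) hc hρ e he
  exact hM _ _ hk hk1

/-- Only the identity contributes (odd dimension). -/
theorem onM_one (hG : ∀ g : G, g ≠ 1 → Van.{v, w} G g)
    (hM : ∀ (k : ℤ) (z : M), k ≠ 0 → k • z = 0 → z = 0) {n : ℕ} (hc : Cyc (2 * n + 1) 𝒜 δ T)
    {ρ : MonoidAlgebra B G →+* Ω} (hρ : ∀ a, ρ a ∈ 𝒜 0) {d : ℕ}
    (u v : Matrix (Fin d) (Fin d) (MonoidAlgebra B G)) (huv : u * v = 1) (hvu : v * u = 1) :
    onM δ T ρ n u v = compT T (word δ ρ n u v) 1 := by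
  rw [onM_loc (trace_odd hc) ρ u v, onM_T1, compT_one]
  intro g hg
  obtain ⟨k, hk, hk1⟩ := torM (hG g hg) hc hρ u v huv hvu
  exact hM _ _ hk hk1

end Gen

section Gam

open Pool.Agent.H416.OD Pool.Agent.H416.Dual
open H219.WhC (fh pj mu mu_pj pairing exists_gamma)

variable {K : Type u} [Field K] {G : Type w} [Group G]

/-- **The group element.** -/
theorem exists_gamma2 [CharZero K] (hG : ∀ g : G, g ≠ 1 → Good.{w, z} G g) {n : ℕ}
    (u v : Matrix (Fin n) (Fin n) (MonoidAlgebra K G)) (huv : u * v = 1) (hvu : v * u = 1) :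
    ∃ γ : G, ∀ φ : G →* Multiplicative K, pairing (fk φ) v u = (φ γ).toAdd := by
  obtain ⟨γ, hγ⟩ := exists_gamma (K := K) (⟨u, v, huv, hvu⟩ : (Matrix (Fin n) (Fin n) _)ˣ)
  refine ⟨γ, fun φ => ?_⟩
  rw [← hγ φ, ← comp_dd]
  change _ = pairing (fh φ) v u
  rw [← onM_dd]
  exact (onM_one (fun g hg => (hG g hg).van) (fun k z hk hz => no_torsion (K := K) k z hk hz)
    (n := 0) (cyc_dd φ) rr_mem u v huv hvu).symm

end Gam

section Zero

variable {K : Type u} [Field K] {G : Type w} [Group G] {Ω : Type v} [Ring Ω] [Algebra K Ω]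
  {M : Type x} [AddCommGroup M] [Module K M]

theorem onI_zero_all [CharZero K] (hG : ∀ g : G, g ≠ 1 → Good.{w, z} G g) {d : ℕ}
    (e : Matrix (Fin d) (Fin d) (MonoidAlgebra K G)) (he : e * e = e)
    (𝒜 : ℕ → Submodule K Ω) [GradedAlgebra 𝒜] (δ : Ω →ₗ[K] Ω) (T : Ω →ₗ[K] M) (n : ℕ)
    (hn : 1 ≤ n) (hc : Cyc (2 * n) 𝒜 δ T) (ρ : MonoidAlgebra K G →ₐ[K] Ω) (hρ : ∀ a, ρ a ∈ 𝒜 0)
    (s : Finset K) (F : Finset M) (hF : ∀ (a : G) (l : List G), l.length = 2 * n →
      a * l.prod = 1 → value δ T ρ a l ∈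
        Submodule.span (Algebra.adjoin ℤ (s : Set K)) (F : Set M)) :
    onI δ T (ρ : MonoidAlgebra K G →+* Ω) n e = 0 := by
  classical
  have hc1 := cyc_T1 (G := G) hc
  have h0 := (Pool.Agent.Results.MP_1a2884_al.EvenCyclesFiniteQuotients.result K G (Fin d) e he
    (MonoidAlgebra Ω G) (Sg 𝒜 G) M (dh G δ) (T1 G T) n hn
    ⟨hc1.deg, hc1.sq, hc1.leibniz, hc1.closed, hc1.trace, hc1.dim⟩ (rhA ρ)
    (fun a => rh_mem hρ a)).1 ⊤ (fun _ _ _ _ => trivial) s F
  have hv : ∀ (a : (⊤ : Subgroup G)) (l : List (⊤ : Subgroup G)),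
      Pool.Agent.Results.MP_1a2884_al.EvenCyclesFiniteQuotients.value (dh G δ) (T1 G T) (rhA ρ)
        (a : G) (l.map Subtype.val) =
        if (a : G) * (l.map Subtype.val).prod = 1 then value δ T ρ (a : G) (l.map Subtype.val)
          else 0 := fun a l => value_T1 δ T ρ (a : G) (l.map Subtype.val)
  have h1 := h0 (fun a l hl => by
    rw [hv]
    split_ifs with h3
    · exact hF _ _ (by rw [List.length_map]; exact hl) h3
    · exact Submodule.zero_mem _) (fun g hg _ => Or.inl fun a l _ hal => by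
    rw [hv, if_neg]
    intro h3
    apply hg
    have h4 : a * l.prod = 1 := by
      apply Subtype.ext
      rw [Subgroup.coe_mul]
      have h5 : ((l.prod : (⊤ : Subgroup G)) : G) = (l.map Subtype.val).prod :=
        map_list_prod (Subgroup.subtype ⊤) l
      rw [h5, h3]
      rfl
    rw [h4] at hal
    exact isConj_one_left.1 hal) (Or.inl (by
    have h2 : {p : ℕ | p.Prime ∧ ∀ x : (⊤ : Subgroup G), x ^ p = 1 → x = 1} =
        {p : ℕ | p.Prime} := by
      ext p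
      refine ⟨fun h => h.1, fun h => ⟨h, fun z hz => ?_⟩⟩
      by_contra hne
      have h3 := (hG z.1 (fun h4 => hne (Subtype.ext h4))).ne_one p h.pos
      exact h3 (congrArg Subtype.val hz)
    rw [h2]
    exact Nat.infinite_setOfPred_prime))
  rw [onI_loc (ρ : MonoidAlgebra K G →+* Ω) e]
  · exact h1
  · intro g hg
    obtain ⟨k, hk, hk1⟩ := torE (hG g hg).van hc (ρ := (ρ : MonoidAlgebra K G →+* Ω)) hρ e he
    exact no_torsion (K := K) k _ hk hk1

/-- Even dimensional cycles vanish in positive dimension. -/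
theorem onI_zero [CharZero K] (hG : ∀ g : G, g ≠ 1 → Good.{w, z} G g) {d : ℕ}
    (e : Matrix (Fin d) (Fin d) (MonoidAlgebra K G)) (he : e * e = e)
    (𝒜 : ℕ → Submodule K Ω) [GradedAlgebra 𝒜] (δ : Ω →ₗ[K] Ω) (T : Ω →ₗ[K] M) (n : ℕ)
    (hn : 1 ≤ n) (hc : Cyc (2 * n) 𝒜 δ T) (ρ : MonoidAlgebra K G →ₐ[K] Ω) (hρ : ∀ a, ρ a ∈ 𝒜 0)
    (s : Finset K) (F : Finset M) (hF : ∀ (a : suppE e) (l : List (suppE e)),
      l.length = 2 * n → a * l.prod = 1 → value δ T ρ a (l.map Subtype.val) ∈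
        Submodule.span (Algebra.adjoin ℤ (s : Set K)) (F : Set M)) :
    onI δ T (ρ : MonoidAlgebra K G →+* Ω) n e = 0 := by
  classical
  have hG' : ∀ g : suppE e, g ≠ 1 → Good.{w, z} (suppE e) g := fun g hg =>
    (hG g.1 (fun h => hg (Subtype.ext h))).sub _ g.2
  have hHe : ∀ i j g, (e i j).coeff g ≠ 0 → g ∈ suppE e := fun i j g hg =>
    Subgroup.subset_closure ⟨i, j, hg⟩
  generalize suppE e = H at *
  let j : MonoidAlgebra K H →ₐ[K] MonoidAlgebra K G :=
    MonoidAlgebra.mapDomainAlgHom K K H.subtype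
  have hj : Function.Injective j := MonoidAlgebra.mapDomain_injective H.subtype_injective
  let e' : Matrix (Fin d) (Fin d) (MonoidAlgebra K H) :=
    Matrix.of fun a b => MonoidAlgebra.comapDomain H.subtype H.subtype_injective (e a b)
  have hres : e'.map j = e := by
    ext1 a b
    exact Pool.Agent.H290R4.ChernZ.restrict_eq H _ (fun g hg => hHe a b g hg)
  have he' : e' * e' = e' := by
    have h4 : (e' * e').map j = e'.map j := by
      rw [Matrix.map_mul, hres, he]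
    ext1 i i'
    apply hj
    exact congrFun (congrFun h4 i) i'
  have hs : ∀ (b : H) (k : K), j (single b k) = single (b : G) k := fun b k =>
    MonoidAlgebra.mapDomain_single
  have h1 := onI_zero_all hG' e' he' 𝒜 δ T n hn hc (ρ.comp j) (fun a => hρ _) s F
    (fun a l hl hal => by
      have h2 := hF a l hl hal
      unfold value at h2 ⊢
      rw [List.map_map] at h2
      simp only [AlgHom.comp_apply, hs]
      exact h2)
  have h2 : onI δ T ((ρ.comp j : MonoidAlgebra K H →ₐ[K] Ω) : MonoidAlgebra K H →+* Ω) n e' =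
      onI δ T (ρ : MonoidAlgebra K G →+* Ω) n e := by
    have h3 : e'.map ((ρ.comp j : MonoidAlgebra K H →ₐ[K] Ω) : MonoidAlgebra K H →+* Ω) =
        e.map (ρ : MonoidAlgebra K G →+* Ω) := by
      conv_rhs => rw [← hres, Matrix.map_map]
      rfl
    unfold onI
    rw [h3]
  rw [← h2, h1]

end Zero

section Mat

variable {K : Type u} [Field K] [CharZero K] {G : Type w} [Group G]

theorem gamma_int (hG : ∀ g : G, g ≠ 1 → Good.{w, z} G g) {n : ℕ}
    (u v : Matrix (Fin n) (Fin n) (MonoidAlgebra K G)) (huv : u * v = 1) (hvu : v * u = 1) :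
    ∃ γ : G, ∀ φ : G → ℤ, (∀ a b, φ (a * b) = φ a + φ b) →
      lamk (fun g => (φ g : K)) v u = (φ γ⁻¹ : K) := by
  classical
  obtain ⟨γ, hγ⟩ := exists_gamma2 hG u v huv hvu
  refine ⟨γ, fun φ hφ => ?_⟩
  have hφ1 : φ 1 = 0 := by
    have h2 := hφ 1 1
    rw [mul_one] at h2
    omega
  have hinv : φ γ⁻¹ = - φ γ := by
    have h1 := hφ γ γ⁻¹
    rw [mul_inv_cancel] at h1
    omega
  let ψ : G →* Multiplicative K :=
    { toFun := fun x => Multiplicative.ofAdd (φ x : K)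
      map_one' := by
        rw [hφ1, Int.cast_zero]
        rfl
      map_mul' := fun a b => by
        rw [hφ, Int.cast_add]
        rfl }
  have h1 : H219.WhC.pairing (fo (K := K) φ) v u = - lamk (fun g => (φ g : K)) v u := by
    rw [pairing_bl]
    unfold lamk
    rw [← Finset.sum_neg_distrib]
    refine Finset.sum_congr rfl fun i _ => ?_
    rw [← Finset.sum_neg_distrib]
    refine Finset.sum_congr rfl fun j _ => ?_
    rw [← bl_fo φ hφ]
  have h2 : H219.WhC.pairing (OD.fk ψ) v u = (φ γ : K) := hγ ψ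
  have h3 : (OD.fk ψ : G → G → K) = fo (K := K) φ := by
    funext x y
    rfl
  rw [h3, h1] at h2
  rw [hinv, Int.cast_neg, ← h2, neg_neg]

/-- Odd dimensional cycles take the same value on an invertible matrix and a group element. -/
theorem onM_all [hfg : Group.FG G] (hG : ∀ g : G, g ≠ 1 → Good.{w, z} G g) {d : ℕ}
    (u v : Matrix (Fin d) (Fin d) (MonoidAlgebra K G)) (huv : u * v = 1) (hvu : v * u = 1) :
    ∃ γ : G, ∀ (Ω : Type v) [Ring Ω] [Algebra K Ω] (𝒜 : ℕ → Submodule K Ω) [GradedAlgebra 𝒜]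
      (M : Type x) [AddCommGroup M] [Module K M] (δ : Ω →ₗ[K] Ω) (T : Ω →ₗ[K] M) (n : ℕ),
      Cyc (2 * n + 1) 𝒜 δ T → ∀ ρ : MonoidAlgebra K G →ₐ[K] Ω, (∀ a, ρ a ∈ 𝒜 0) →
      (∃ (s : Finset K) (F : Finset M), ∀ (a : G) (l : List G), l.length = 2 * n + 1 →
        a * l.prod = 1 → value δ T ρ a l ∈
          Submodule.span (Algebra.adjoin ℤ (s : Set K)) (F : Set M)) →
      onM δ T (ρ : MonoidAlgebra K G →+* Ω) n u v = onElt δ T ρ n γ := by
  classical
  obtain ⟨γ, hγ⟩ := gamma_int hG u v huv hvu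
  refine ⟨γ, fun Ω _ _ 𝒜 _ M _ _ δ T n hc ρ hρ hF => ?_⟩
  obtain ⟨s, F, hF⟩ := hF
  have hc1 := cyc_T1 (G := G) hc
  have h1 := Pool.Agent.H416.OS.all_module (Ω := MonoidAlgebra Ω G) (𝒜 := Sg 𝒜 G) (δ := dh G δ) (ρ := rhA ρ)
    (T := T1 G T) γ u v huv hvu hγ (n := n)
    ⟨hc1.deg, hc1.sq, hc1.leibniz, hc1.closed, hc1.trace, hc1.dim⟩ (fun a => rh_mem hρ a) s F
    (fun a l hl => by
      have h2 : T1 G T (rhA ρ (MonoidAlgebra.single a 1) *
          (l.map fun b => dh G δ (rhA ρ (MonoidAlgebra.single b 1))).prod) =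
          value (dh G δ) (T1 G T) (rhA ρ) a l := rfl
      rw [h2, value_T1]
      split_ifs with h3
      · exact hF _ _ hl h3
      · exact Submodule.zero_mem _)
    (fun a l hl hal => by
      have h2 : T1 G T (rhA ρ (MonoidAlgebra.single a 1) *
          (l.map fun b => dh G δ (rhA ρ (MonoidAlgebra.single b 1))).prod) =
          value (dh G δ) (T1 G T) (rhA ρ) a l := rfl
      rw [h2, value_T1, if_neg hal])
    (fun p hp g hg => by
      by_contra hne
      exact (hG g hne).ne_one p hp.pos hg)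
  rw [onM_loc (trace_odd hc) (ρ : MonoidAlgebra K G →+* Ω) u v]
  · exact h1.trans (onElt_T1 δ T ρ n γ)
  · intro g hg
    obtain ⟨k, hk, hk1⟩ := torM (hG g hg).van hc (ρ := (ρ : MonoidAlgebra K G →+* Ω)) hρ
      u v huv hvu
    exact no_torsion (K := K) k _ hk hk1

theorem onM_supp (hG : ∀ g : G, g ≠ 1 → Good.{w, z} G g) {d : ℕ}
    (u v : Matrix (Fin d) (Fin d) (MonoidAlgebra K G)) (huv : u * v = 1) (hvu : v * u = 1) :
    ∃ γ : G, γ ∈ supp u v ∧
      ∀ (Ω : Type v) [Ring Ω] [Algebra K Ω] (𝒜 : ℕ → Submodule K Ω) [GradedAlgebra 𝒜]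
      (M : Type x) [AddCommGroup M] [Module K M] (δ : Ω →ₗ[K] Ω) (T : Ω →ₗ[K] M) (n : ℕ),
      Cyc (2 * n + 1) 𝒜 δ T → ∀ ρ : MonoidAlgebra K G →ₐ[K] Ω, (∀ a, ρ a ∈ 𝒜 0) →
      (∃ (s : Finset K) (F : Finset M), ∀ (a : supp u v) (l : List (supp u v)),
        l.length = 2 * n + 1 → a * l.prod = 1 → value δ T ρ a (l.map Subtype.val) ∈
          Submodule.span (Algebra.adjoin ℤ (s : Set K)) (F : Set M)) →
      onM δ T (ρ : MonoidAlgebra K G →+* Ω) n u v = onElt δ T ρ n γ := by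
  classical
  have hG' : ∀ g : supp u v, g ≠ 1 → Good.{w, z} (supp u v) g := fun g hg =>
    (hG g.1 (fun h => hg (Subtype.ext h))).sub _ g.2
  have hfg : (supp u v).FG := supp_fg u v
  generalize hH : supp u v = H at *
  have hfg' : Group.FG H := (Group.fg_iff_subgroup_fg H).2 hfg
  let j : MonoidAlgebra K H →ₐ[K] MonoidAlgebra K G :=
    MonoidAlgebra.mapDomainAlgHom K K H.subtype
  have hj : Function.Injective j := MonoidAlgebra.mapDomain_injective H.subtype_injective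
  let res : Matrix (Fin d) (Fin d) (MonoidAlgebra K G) → Matrix (Fin d) (Fin d) (MonoidAlgebra K H) :=
    fun e => Matrix.of fun a b => MonoidAlgebra.comapDomain H.subtype H.subtype_injective (e a b)
  have hres : ∀ e : Matrix (Fin d) (Fin d) (MonoidAlgebra K G),
      (∀ i j g, (e i j).coeff g ≠ 0 → g ∈ H) → (res e).map j = e := by
    intro e hH
    ext1 a b
    exact Pool.Agent.H290R4.ChernZ.restrict_eq H _ (fun g hg => hH a b g hg)
  have hHu : ∀ i j g, (u i j).coeff g ≠ 0 → g ∈ H := fun i j g hg => by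
    rw [← hH]
    exact Subgroup.subset_closure ⟨i, j, Or.inl hg⟩
  have hHv : ∀ i j g, (v i j).coeff g ≠ 0 → g ∈ H := fun i j g hg => by
    rw [← hH]
    exact Subgroup.subset_closure ⟨i, j, Or.inr hg⟩
  have hinv : ∀ a b : Matrix (Fin d) (Fin d) (MonoidAlgebra K H), a.map j * b.map j = 1 →
      a * b = 1 := by
    intro a b hab
    have h4 : (a * b).map j = (1 : Matrix (Fin d) (Fin d) (MonoidAlgebra K H)).map j := by
      rw [Matrix.map_mul, hab, Matrix.map_one _ (map_zero j) (map_one j)]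
    ext1 i i'
    apply hj
    exact congrFun (congrFun h4 i) i'
  have huv' : res u * res v = 1 := hinv _ _ (by rw [hres u hHu, hres v hHv, huv])
  have hvu' : res v * res u = 1 := hinv _ _ (by rw [hres u hHu, hres v hHv, hvu])
  obtain ⟨γ, hγ⟩ := onM_all.{u, v, w, x, z} hG' (res u) (res v) huv' hvu'
  refine ⟨γ, γ.2, fun Ω _ _ 𝒜 _ M _ _ δ T n hc ρ hρ hF => ?_⟩
  obtain ⟨s, F, hF⟩ := hF
  have hs : ∀ (b : H) (k : K), j (single b k) = single (b : G) k := fun b k =>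
    MonoidAlgebra.mapDomain_single
  have h1 := hγ Ω 𝒜 M δ T n hc (ρ.comp j) (fun a => hρ _) ⟨s, F, fun a l hl hal => by
    have h2 := hF a l hl hal
    unfold value at h2 ⊢
    rw [List.map_map] at h2
    simp only [AlgHom.comp_apply, hs]
    exact h2⟩
  have h2 : onM δ T ((ρ.comp j : MonoidAlgebra K H →ₐ[K] Ω) : MonoidAlgebra K H →+* Ω) n (res u)
      (res v) = onM δ T (ρ : MonoidAlgebra K G →+* Ω) n u v := by
    have h3 : ∀ e : Matrix (Fin d) (Fin d) (MonoidAlgebra K G),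
        (∀ i j g, (e i j).coeff g ≠ 0 → g ∈ H) →
        (res e).map ((ρ.comp j : MonoidAlgebra K H →ₐ[K] Ω) : MonoidAlgebra K H →+* Ω) =
          e.map (ρ : MonoidAlgebra K G →+* Ω) := by
      intro e he
      conv_rhs => rw [← hres e he, Matrix.map_map]
      rfl
    unfold onM
    rw [h3 u hHu, h3 v hHv]
  have h3 : onElt δ T (ρ.comp j) n γ = onElt δ T ρ n (γ : G) := by
    unfold onElt
    simp only [AlgHom.comp_apply, hs]
    rfl
  rw [← h2, h1, h3]

end Mat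

end Pool.Agent.H416.LG.GE
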