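import Pool.Agent.H416.LG.Tr

set_option autoImplicit false

/-!
# Elements with a datum in all finitely generated subgroups
-/

namespace Pool.Agent.H416.LG

open Finset

universe u v w x y z

/-- Each finitely generated subgroup `H` which contains `g` has a representation by matrices over a
field in which `g` has infinite order. -/
def OnLinear (G : Type w) [Group G] (g : G) : Prop :=
  ∀ H : Subgroup G, H.FG → ∀ hg : g ∈ H, ∃ (F : Type z) (_ : Field F) (n : ℕ)
    (ρ : H →* GL (Fin n) F), ∀ k : ℕ, 0 < k → ρ ⟨g, hg⟩ ^ k ≠ 1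

/-- Each finitely generated subgroup which contains `g` has a datum for `g`. -/
def LocDatum (G : Type w) [Group G] (g : G) : Prop :=
  ∀ H : Subgroup G, H.FG → ∀ hg : g ∈ H,
    Datum ℚ H ⟨g, hg⟩ ∨ ∃ (F : Type z) (_ : Field F) (_ : CharZero F), Datum F H ⟨g, hg⟩

section lin

theorem datum_of_linear {G : Type w} [Group G] {g : G} {F : Type z} [Field F] {n : ℕ}
    (ρ : G →* GL (Fin n) F) (hρ : ∀ k : ℕ, 0 < k → ρ g ^ k ≠ 1) :
    Datum ℚ G g ∨ ∃ (F : Type z) (_ : Field F) (_ : CharZero F), Datum F G g := by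
  -- pass to the algebraic closure and to linear maps
  let K := AlgebraicClosure F
  let τ : GL (Fin n) F →* ((Fin n → K) →ₗ[K] (Fin n → K)) :=
    ((Matrix.toLinAlgEquiv' (R := K) (n := Fin n)).toAlgHom.toRingHom.toMonoidHom.comp
      (algebraMap F K).mapMatrix.toMonoidHom).comp (Units.coeHom (Matrix (Fin n) (Fin n) F))
  have hτ : Function.Injective τ := by
    intro a b hab
    have h1 : (a : Matrix (Fin n) (Fin n) F).map (algebraMap F K) =
        (b : Matrix (Fin n) (Fin n) F).map (algebraMap F K) :=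
      (Matrix.toLinAlgEquiv' (R := K) (n := Fin n)).injective hab
    apply Units.ext
    ext i j
    have h2 := congrFun (congrFun h1 i) j
    exact (algebraMap F K).injective h2
  let ρ' : G →* ((Fin n → K) →ₗ[K] (Fin n → K)) := τ.comp ρ
  have hinj : Function.Injective (ρ' g) := by
    intro v w hvw
    have h1 : ρ' g⁻¹ * ρ' g = 1 := by rw [← map_mul, inv_mul_cancel, map_one]
    have h2 := congrArg (ρ' g⁻¹) hvw
    rw [← Module.End.mul_apply, ← Module.End.mul_apply, h1] at h2
    exact h2
  have hord : ∀ k : ℕ, 0 < k → ρ' g ^ k ≠ 1 := by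
    intro k hk h1
    apply hρ k hk
    apply hτ
    rw [map_pow, map_one]
    exact h1
  rcases Pool.Agent.H550.LG3.LG3_holds (ρ' g) hinj hord with ⟨l, hl, v, hv, hv1⟩ | ⟨h0, l, hl, v, hv, hv1⟩
  · left
    obtain ⟨f, hf, hfg⟩ := Pool.Agent.H183.LG4.LG4_holds ρ' g l hl ⟨v, hv, hv1⟩
    exact Pool.Agent.H183.LG6.LG6_holds g f hf hfg
  · right
    haveI := h0
    exact ⟨K, inferInstance, h0, Pool.Agent.H399.LG5.LG5_holds ρ' g l hl ⟨v, hv, hv1⟩⟩

theorem OnLinear.locDatum {G : Type w} [Group G] {g : G} (h : OnLinear.{w, z} G g) :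
    LocDatum.{w, z} G g := by
  intro H hH hg
  obtain ⟨F, _, n, ρ, hρ⟩ := h H hH hg
  exact datum_of_linear ρ hρ

end lin

section restrict

variable {G : Type w} [Group G] {A : Type x} [Ring A]

theorem exists_restrict (e : MonoidAlgebra A G) (g : G) :
    ∃ (H : Subgroup G) (_ : H.FG) (hg : g ∈ H) (e' : MonoidAlgebra A H),
      (∀ {M : Type y} [AddCommGroup M] (T : A →+ M), Idm T e → Idm T e') ∧
      ∀ {M : Type y} [AddCommGroup M] (T : A →+ M), cT T g e = cT T (⟨g, hg⟩ : H) e' := by
  classical
  let cj : G → G := fun c => if h : ∃ u : G, u * c = g * u then h.choose else 1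
  have hcj : ∀ c, (∃ u : G, u * c = g * u) → cj c * c = g * cj c := by
    intro c hc
    simp only [cj]
    rw [dif_pos hc]
    exact hc.choose_spec
  let s : Finset G := insert g (e.coeff.support ∪ e.coeff.support.image cj)
  let H : Subgroup G := Subgroup.closure (s : Set G)
  have hH : H.FG := ⟨s, rfl⟩
  have hg : g ∈ H := Subgroup.subset_closure (by simp [s])
  have hsupp : ∀ c ∈ e.coeff.support, c ∈ H := fun c hc => Subgroup.subset_closure (by simp [s, Finsupp.mem_support_iff.1 hc])
  have hcjm : ∀ c ∈ e.coeff.support, cj c ∈ H := fun c hc =>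
    Subgroup.subset_closure (Finset.mem_coe.2 (Finset.mem_insert_of_mem
      (Finset.mem_union_right _ (Finset.mem_image_of_mem cj hc))))
  let φ : MonoidAlgebra A H →+* MonoidAlgebra A G := MonoidAlgebra.mapDomainRingHom A H.subtype
  have hφs : ∀ (c : H) (r : A), φ (MonoidAlgebra.single c r) = MonoidAlgebra.single (c : G) r := by
    intro c r
    exact MonoidAlgebra.mapDomain_single
  have hφ : Function.Injective φ :=
    MonoidAlgebra.mapDomain_injective H.subtype_injective
  have hcoef : ∀ (y : MonoidAlgebra A H) (c : H), (φ y).coeff (c : G) = y.coeff c := by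
    intro y c
    exact Finsupp.mapDomain_apply H.subtype_injective y.coeff c
  have hrange : ∃ e', φ e' = e := by
    have h1 : e = ∑ a ∈ e.coeff.support, MonoidAlgebra.single a (e.coeff a) := by
      apply MonoidAlgebra.coeff_injective
      ext s
      rw [MonoidAlgebra.coeff_sum, Finset.sum_apply']
      simp only [MonoidAlgebra.coeff_single, Finsupp.single_apply]
      rw [Finset.sum_ite_eq']
      split_ifs with h
      · rfl
      · exact Finsupp.notMem_support_iff.1 h
    have h2 : e ∈ φ.range := by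
      rw [h1]
      refine Subring.sum_mem _ fun a ha => ?_
      exact ⟨MonoidAlgebra.single ⟨a, hsupp a ha⟩ (e.coeff a), hφs _ _⟩
    exact h2
  obtain ⟨e', he'⟩ := hrange
  refine ⟨H, hH, hg, e', ?_, ?_⟩
  · intro M _ T he W c
    have h1 := he W (c : G)
    rw [← he', ← map_mul, hcoef, hcoef] at h1
    exact h1
  · intro M _ T
    have hs : e.coeff.support = e'.coeff.support.map ⟨H.subtype, H.subtype_injective⟩ := by
      ext c
      rw [Finset.mem_map]
      constructor
      · intro hc
        refine ⟨⟨c, hsupp c hc⟩, ?_, rfl⟩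
        rw [Finsupp.mem_support_iff, ← hcoef, he']
        exact Finsupp.mem_support_iff.1 hc
      · rintro ⟨c', hc', rfl⟩
        rw [Finsupp.mem_support_iff] at hc' ⊢
        rw [← he']
        show (φ e').coeff (c' : G) ≠ 0
        rw [hcoef]
        exact hc'
    unfold cT
    rw [hs, Finset.sum_map]
    refine Finset.sum_congr rfl fun c hc => ?_
    have h3 : e.coeff (c : G) = e'.coeff c := by rw [← he', hcoef]
    have h4 : (∃ u : G, u * (c : G) = g * u) ↔ ∃ u : H, u * c = (⟨g, hg⟩ : H) * u := by
      constructor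
      · intro h
        have hc2 : (c : G) ∈ e.coeff.support := by
          rw [hs, Finset.mem_map]
          exact ⟨c, hc, rfl⟩
        exact ⟨⟨cj c, hcjm _ hc2⟩, Subtype.ext (hcj _ h)⟩
      · rintro ⟨u, hu⟩
        exact ⟨u, congrArg Subtype.val hu⟩
    show (if ∃ u : G, u * (c : G) = g * u then T (e.coeff (c : G)) else 0) = _
    rw [h3]
    simp only [h4]

theorem cT_loc {g : G} (hg : LocDatum.{w, z} G g) (T : A →+ ℚ) (hT : ∀ a b : A, T (a * b) = T (b * a))
    (e : MonoidAlgebra A G) (he : Idm T e) : cT T g e = 0 := by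
  classical
  obtain ⟨H, hH, hg', e', he1, h⟩ := exists_restrict.{w, x, 0} e g
  have he' := he1 T he
  rw [h T]
  rcases hg H hH hg' with hD | ⟨F, _, _, hD⟩
  · exact cT_zero T hT hD e' he'
  · have h1 := cT_zero ((algebraMap ℚ F : ℚ →+* F).toAddMonoidHom.comp T)
      (fun a b => by rw [AddMonoidHom.comp_apply, AddMonoidHom.comp_apply, hT]) hD e'
      (fun W c => by rw [AddMonoidHom.comp_apply, AddMonoidHom.comp_apply, he' W c])
    apply (algebraMap ℚ F).injective
    rw [map_zero, ← h1]
    unfold cT
    rw [map_sum]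
    refine Finset.sum_congr rfl fun c _ => ?_
    split_ifs
    · rfl
    · exact map_zero _

end restrict

end Pool.Agent.H416.LG
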