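import Pool.Agent.H416.LG.Cl2
import Pool.Agent.H416.LG.GE

/-!
# Products with free abelian groups
-/

set_option autoImplicit false

namespace Pool.Agent.H416.LG

universe u v w x y z

variable {G : Type w} [Group G]

/-- Elements of `G × ℤ ^ n` with nonzero component in `ℤ ^ n`. -/
theorem Good.of_snd {n : ℕ} {p : G × Multiplicative (Fin n → ℤ)} (hp : p.2 ≠ 1) :
    Good.{w, z} (G × Multiplicative (Fin n → ℤ)) p := by
  apply Good.of_rc'
  obtain ⟨i, hi⟩ : ∃ i, (Multiplicative.toAdd p.2) i ≠ 0 := by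
    by_contra hne
    push Not at hne
    apply hp
    apply Multiplicative.toAdd.injective
    funext i
    exact hne i
  have hi' : ((Multiplicative.toAdd p.2) i : ℚ) ≠ 0 := Int.cast_ne_zero.2 hi
  intro H _ hpH
  refine ⟨fun a => ((Multiplicative.toAdd (a : G × Multiplicative (Fin n → ℤ)).2) i : ℚ) /
    ((Multiplicative.toAdd p.2) i : ℚ), fun a b _ _ => ?_, ?_⟩
  · rw [← add_div, ← Int.cast_add]
    rfl
  · exact div_self hi'

/-- The elements of `G × ℤ ^ n` are good if one component is. -/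
theorem Good.prod {n : ℕ} {p : G × Multiplicative (Fin n → ℤ)} (hp : Good.{w, z} G p.1 ∨ p.2 ≠ 1) :
    Good.{w, z} (G × Multiplicative (Fin n → ℤ)) p := by
  rcases hp with hp | hp
  · exact Good.comap (MonoidHom.fst G (Multiplicative (Fin n → ℤ))) hp
  · exact Good.of_snd hp

theorem Good.prod_all {n : ℕ} (hG : ∀ g : G, g ≠ 1 → Good.{w, z} G g)
    (p : G × Multiplicative (Fin n → ℤ)) (hp : p ≠ 1) :
    Good.{w, z} (G × Multiplicative (Fin n → ℤ)) p := by
  apply Good.prod
  by_cases h1 : p.1 = 1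
  · right
    intro h2
    exact hp (Prod.ext h1 h2)
  · exact Or.inl (hG _ h1)

end Pool.Agent.H416.LG
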