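import Pool.Agent.H416.LG.Tasks3
import Pool.Agent.H416.LG.Van

set_option autoImplicit false

/-!
# Elements with a nilpotent Euler class
-/

namespace Pool.Agent.H416.LG

open Fin Finset

universe u w x

section skew

variable {G : Type w} [Group G] {F : Type u} [Field F]

/-- The skew extension of `α (y i) (y j)`, `i < j`, with a border of zeros. -/
def AB (α : G → G → F) {m : ℕ} (y : Fin m → G) (i j : Fin (m + 1)) : F :=
  Fin.cases (motive := fun _ => F) 0
    (fun i' => Fin.cases (motive := fun _ => F) 0 (fun j' => AA α y i' j') j) i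

omit [Group G] in
theorem AB_zero_left (α : G → G → F) {m : ℕ} (y : Fin m → G) (j : Fin (m + 1)) :
    AB α y 0 j = 0 := rfl

omit [Group G] in
theorem AB_zero_right (α : G → G → F) {m : ℕ} (y : Fin m → G) (i : Fin (m + 1)) :
    AB α y i 0 = 0 := by
  refine Fin.cases rfl (fun i' => rfl) i

omit [Group G] in
theorem AB_succ (α : G → G → F) {m : ℕ} (y : Fin m → G) (i j : Fin m) :
    AB α y i.succ j.succ = AA α y i j := rfl

theorem AB_inv (g : G) (α : G → G → F) (hi : ∀ z u v : G, z * g = g * z → α (z * u) (z * v) = α u v)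
    {m : ℕ} (z : G) (hz : z * g = g * z) (y : Fin m → G) (i j : Fin (m + 1)) :
    AB α (fun i => z * y i) i j = AB α y i j := by
  refine Fin.cases rfl (fun i' => ?_) i
  refine Fin.cases rfl (fun j' => ?_) j
  exact AA_inv g α hi z hz y i' j'

theorem J_succ {m : ℕ} (i j : Fin m) : J i.succ j.succ = J i j := by
  unfold J
  simp only [Fin.succ_lt_succ_iff]

omit [Group G] in
theorem bord_eq [CharZero F] (b : G → G → F) (hb : ∀ x y, b x y = -b y x) {m : ℕ} (y : Fin m → G)
    (i j : Fin (m + 1)) : bord b y i j = AB (fun u v => b u v - 1) y i j + ((J i j : ℤ) : F) := by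
  refine Fin.cases ?_ (fun i' => ?_) i
  · refine Fin.cases ?_ (fun j' => ?_) j
    · show (0 : F) = 0 + ((J 0 0 : ℤ) : F)
      simp [J]
    · show (1 : F) = 0 + ((J 0 j'.succ : ℤ) : F)
      simp [J, Fin.succ_pos]
  · refine Fin.cases ?_ (fun j' => ?_) j
    · show (-1 : F) = 0 + ((J i'.succ 0 : ℤ) : F)
      simp [J, Fin.succ_pos]
    · rw [J_succ]
      show b (y i') (y j') = AA (fun u v => b u v - 1) y i' j' + ((J i' j' : ℤ) : F)
      unfold AA J
      rcases lt_trichotomy i' j' with h | h | h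
      · rw [if_pos h, if_pos h]
        push_cast
        ring
      · subst h
        rw [if_neg (lt_irrefl i'), if_neg (lt_irrefl i'), if_neg (lt_irrefl i'),
          if_neg (lt_irrefl i')]
        have h0 : b (y i') (y i') = 0 := self_eq_neg.1 (hb _ _)
        rw [h0]
        simp
      · rw [if_neg (not_lt.2 h.le), if_neg (not_lt.2 h.le), if_pos h, if_pos h, hb (y i') (y j')]
        push_cast
        ring

end skew

section main

variable {G : Type w} [Group G] [DecidableEq G] {A : Type x} [Ring A] {F : Type u} [Field F]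
variable (T : A →+ F) (hT : ∀ a b : A, T (a * b) = T (b * a)) (e : G →₀ A)
  (hee : ∀ (H : G → F) (W : A), ∑ a ∈ e.support, ∑ b ∈ e.support, H (a * b) * T (W * (e a * e b)) =
    ∑ c ∈ e.support, H c * T (W * e c)) (g : G)

include hT hee in
theorem Ev_cyc1 (α : G → G → F) (hα : ∀ u v : G, α v (g * u) = -α u v)
    (hi : ∀ z u v : G, z * g = g * z → α (z * u) (z * v) = α u v) {ι : Type*} (P : Finset ι)
    (n s : ℕ) (V : Finset (Fin (n + 2))) (h0 : (0 : Fin (n + 2)) ∉ V) (hV : V.card = s + 1)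
    (a b : ι → Fin (n + 2)) (ha : ∀ l ∈ P, a l ∈ V) (hb : ∀ l ∈ P, b l ∈ V) :
    Ev T e g n (fun y => ∏ l ∈ P, AB α y (cyc s V (a l)) (cyc s V (b l))) =
      Ev T e g n (fun y => ∏ l ∈ P, AB α y (a l) (b l)) := by
  classical
  set j := V.orderEmbOfFin hV with hj
  have hr : ∀ x ∈ V, ∃ x', j x' = x := by
    intro x hx
    have h1 : x ∈ Set.range j := by
      rw [hj, Finset.range_orderEmbOfFin]
      exact Finset.mem_coe.2 hx
    exact h1
  have hj0 : ∀ x, ∃ x' : Fin (n + 1), x'.succ = j x := by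
    intro x
    apply Fin.exists_succ_eq.2
    intro h1
    apply h0
    rw [← h1]
    exact Finset.orderEmbOfFin_mem V hV x
  choose j' hj' using hj0
  have hmono : StrictMono j' := by
    intro x y hxy
    have h1 : j x < j y := j.strictMono hxy
    rw [← hj' x, ← hj' y] at h1
    exact Fin.succ_lt_succ_iff.1 h1
  have hex : ∀ c : ι → Fin (n + 2), (∀ l ∈ P, c l ∈ V) → ∃ c' : ι → Fin (s + 1),
      ∀ l ∈ P, j (c' l) = c l := by
    intro c hc
    refine ⟨fun l => if h : l ∈ P then (hr _ (hc l h)).choose else 0, fun l hl => ?_⟩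
    dsimp only
    rw [dif_pos hl]
    exact (hr _ (hc l hl)).choose_spec
  obtain ⟨a', ha'⟩ := hex a ha
  obtain ⟨b', hb'⟩ := hex b hb
  have hcyc : cyc s V = cycE j := by rw [cyc, dif_pos hV]
  have hinv : Inv g (fun z : Fin (s + 1) → G => ∏ l ∈ P, AA α z (a' l) (b' l)) := by
    intro c hc y
    exact Finset.prod_congr rfl fun l _ => AA_inv g α hi c hc y _ _
  have hinv2 : Inv g (fun z : Fin (s + 1) → G =>
      ∏ l ∈ P, AA α z (finRotate _ (a' l)) (finRotate _ (b' l))) := by
    intro c hc y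
    exact Finset.prod_congr rfl fun l _ => AA_inv g α hi c hc y _ _
  have hAB : ∀ (y : Fin (n + 1) → G) (p q : Fin (s + 1)),
      AB α y (j p) (j q) = AA α (fun i => y (j' i)) p q := by
    intro y p q
    rw [AA_comp α y j' hmono, ← hj' p, ← hj' q, AB_succ]
  have e1 : (fun y : Fin (n + 1) → G => ∏ l ∈ P, AB α y (a l) (b l)) =
      fun y => (fun z : Fin (s + 1) → G => ∏ l ∈ P, AA α z (a' l) (b' l)) (fun i => y (j' i)) := by
    funext y
    refine Finset.prod_congr rfl fun l hl => ?_
    rw [← hAB, ha' l hl, hb' l hl]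
  have e2 : (fun y : Fin (n + 1) → G => ∏ l ∈ P, AB α y (cyc s V (a l)) (cyc s V (b l))) =
      fun y => (fun z : Fin (s + 1) → G => ∏ l ∈ P, AA α z (finRotate _ (a' l))
        (finRotate _ (b' l))) (fun i => y (j' i)) := by
    funext y
    refine Finset.prod_congr rfl fun l hl => ?_
    rw [← hAB, hcyc, ← ha' l hl, ← hb' l hl, cycE_apply, cycE_apply]
  rw [e1, e2, Ev_strictMono T hT e hee g n s j' hmono _ hinv,
    Ev_strictMono T hT e hee g n s j' hmono _ hinv2, ← Ev_rot T hT e g s _ hinv]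
  congr 1
  funext y
  exact Finset.prod_congr rfl fun l _ => (AA_rot g α hα y _ _).symm

variable [CharZero F]

include hT hee in
theorem Ev_const1 (k n : ℕ) (s : Fin k × Fin 2 ≃ Fin (n + 2)) (α : G → G → F)
    (hα : ∀ u v : G, α v (g * u) = -α u v)
    (hi : ∀ z u v : G, z * g = g * z → α (z * u) (z * v) = α u v)
    (h1 : Ev T e g n (fun y : Fin (n + 1) → G =>
      ∑ σ : Equiv.Perm (Fin (n + 2)), (Equiv.Perm.sign σ : ℤ) •
      ∏ l : Fin k, (AB α y (σ (s (l, 0))) (σ (s (l, 1))) +
        ((J (σ (s (l, 0))) (σ (s (l, 1))) : ℤ) : F))) = 0)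
    (h2 : ∑ σ : Equiv.Perm (Fin (n + 2)), (Equiv.Perm.sign σ : ℤ) *
      ∏ l : Fin k, J (σ (s (l, 0))) (σ (s (l, 1))) ≠ 0) :
    Ev T e g n (fun _ => 1) = 0 := by
  classical
  -- the contribution of the set `P` of pairs
  let K : Finset (Fin k) → Equiv.Perm (Fin (n + 2)) → F := fun P σ =>
    ((Equiv.Perm.sign σ : ℤ) : F) * ∏ l ∈ Finset.univ \ P,
      ((J (σ (s (l, 0))) (σ (s (l, 1))) : ℤ) : F)
  let f : Finset (Fin k) → Equiv.Perm (Fin (n + 2)) → (Fin (n + 1) → G) → F := fun P σ y =>
    ∏ l ∈ P, AB α y (σ (s (l, 0))) (σ (s (l, 1)))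
  have e2 : ∑ p ∈ (Finset.univ : Finset (Fin k)).powerset ×ˢ
      (Finset.univ : Finset (Equiv.Perm (Fin (n + 2)))), K p.1 p.2 * Ev T e g n (f p.1 p.2) = 0 := by
    rw [← Ev_sum, ← h1]
    congr 1
    funext y
    rw [Finset.sum_product, Finset.sum_comm]
    refine Finset.sum_congr rfl fun σ _ => ?_
    rw [Finset.prod_add, zsmul_eq_mul, Finset.mul_sum]
    refine Finset.sum_congr rfl fun P _ => ?_
    simp only [K, f]
    ring
  rw [Finset.sum_product] at e2
  -- nonempty sets of pairs contribute nothing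
  have e3 : ∀ P ∈ (Finset.univ : Finset (Fin k)).powerset, P ≠ ∅ →
      ∑ σ : Equiv.Perm (Fin (n + 2)), K P σ * Ev T e g n (f P σ) = 0 := by
    intro P _ hP
    have hc : 0 < P.card := Finset.card_pos.2 (Finset.nonempty_iff_ne_empty.2 hP)
    set t := P.card * 2 - 1 with ht
    have ht1 : P.card * 2 = t + 1 := by omega
    have hodd : (-1 : ℤˣ) ^ t = -1 := Odd.neg_one_pow (by
      refine ⟨P.card - 1, ?_⟩
      omega)
    have hfz : ∀ τ : Equiv.Perm (Fin (n + 2)), (0 : Fin (n + 2)) ∈ VV s P τ → f P τ = fun _ => 0 := by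
      intro τ h0
      obtain ⟨⟨l, b⟩, hp, hl0⟩ := Finset.mem_image.1 h0
      have hlP : l ∈ P := (Finset.mem_product.1 hp).1
      funext y
      simp only [f]
      refine Finset.prod_eq_zero hlP ?_
      have hb : ∀ b : Fin 2, b = 0 ∨ b = 1 := by decide
      rcases hb b with rfl | rfl
      · have h3 : τ (s (l, 0)) = 0 := hl0
        rw [h3, AB_zero_left]
      · have h3 : τ (s (l, 1)) = 0 := hl0
        rw [h3, AB_zero_right]
    have h3 : ∀ σ : Equiv.Perm (Fin (n + 2)), K P (Psi s P t σ) * Ev T e g n (f P (Psi s P t σ)) =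
        -(K P σ * Ev T e g n (f P σ)) := by
      intro σ
      have hps : Psi s P t σ = cyc t (VV s P σ) * σ := rfl
      have hcard : (VV s P σ).card = t + 1 := by rw [card_VV, ht1]
      by_cases h0 : (0 : Fin (n + 2)) ∈ VV s P σ
      · have h0' : (0 : Fin (n + 2)) ∈ VV s P (Psi s P t σ) := by
          rw [hps, VV_cyc]
          exact h0
        rw [hfz _ h0, hfz _ h0', Ev_zero, mul_zero, mul_zero, neg_zero]
      have h4 : Ev T e g n (f P (Psi s P t σ)) = Ev T e g n (f P σ) := by
        rw [hps]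
        exact Ev_cyc1 T hT e hee g α hα hi P n t (VV s P σ) h0 hcard (fun l => σ (s (l, 0)))
          (fun l => σ (s (l, 1))) (fun l hl => (mem_VV s P σ l 0).2 hl)
          (fun l hl => (mem_VV s P σ l 1).2 hl)
      have h5 : K P (Psi s P t σ) = -K P σ := by
        simp only [K]
        have h6 : ∀ l ∈ Finset.univ \ P, ∀ b : Fin 2, Psi s P t σ (s (l, b)) = σ (s (l, b)) := by
          intro l hl b
          rw [hps, Equiv.Perm.mul_apply]
          apply cyc_not
          rw [mem_VV]
          exact (Finset.mem_sdiff.1 hl).2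
        rw [Finset.prod_congr rfl fun l hl => by rw [h6 l hl 0, h6 l hl 1], hps, map_mul,
          cyc_sign hcard, hodd]
        push_cast
        ring
      rw [h4, h5]
      ring
    have h7 := (Psi s P t).sum_comp fun σ => K P σ * Ev T e g n (f P σ)
    rw [Finset.sum_congr rfl fun σ _ => h3 σ, Finset.sum_neg_distrib] at h7
    exact self_eq_neg.1 h7.symm
  rw [Finset.sum_eq_single_of_mem ∅ (Finset.empty_mem_powerset _) e3] at e2
  have e4 : ∀ σ : Equiv.Perm (Fin (n + 2)), K ∅ σ * Ev T e g n (f ∅ σ) =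
      ((((Equiv.Perm.sign σ : ℤ) * ∏ l : Fin k, J (σ (s (l, 0))) (σ (s (l, 1))) : ℤ) : F)) *
        (Ev T e g n (fun _ => 1)) := by
    intro σ
    simp only [K, f, Finset.prod_empty, Finset.sdiff_empty]
    push_cast
    ring
  rw [Finset.sum_congr rfl fun σ _ => e4 σ, ← Finset.sum_mul, ← Int.cast_sum] at e2
  rcases mul_eq_zero.1 e2 with h | h
  · exact absurd (Int.cast_eq_zero.1 h) h2
  · exact h

/-- A power of the Euler class is the coboundary of `h`. -/
def NDatum (F : Type u) [Field F] (G : Type w) [Group G] (g : G) : Prop :=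
  ∃ (b : G → G → F) (k n : ℕ) (s : Fin k × Fin 2 ≃ Fin (n + 3)) (h : (Fin (n + 1) → G) → F),
    ∑ σ : Equiv.Perm (Fin (n + 3)), (Equiv.Perm.sign σ : ℤ) *
      ∏ l : Fin k, J (σ (s (l, 0))) (σ (s (l, 1))) ≠ 0 ∧
    (∀ u v, b u v = -b v u) ∧ (∀ z u v, z * g = g * z → b (z * u) (z * v) = b u v) ∧
    (∀ u v, b u (g * v) = b u v + 2) ∧ Inv g h ∧
    (∀ (y : Fin (n + 1) → G) (i : Fin (n + 1)), h (Function.update y i (g * y i)) = h y) ∧
    (∀ y : Fin (n + 2) → G, psi b s y =
      ∑ j : Fin (n + 2), (-1) ^ (j : ℕ) * h (fun i => y (j.succAbove i)))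

end main

section final

variable {G : Type w} [Group G] {A : Type x} [Ring A] {F : Type u} [Field F] [CharZero F]

/-- **The trace vanishes at the elements with a nilpotent Euler class.** -/
theorem cT_zero_N (h20 : S_LG20.{u, w}) (h23 : S_LG23.{u, w}) (T : A →+ F)
    (hT : ∀ a b : A, T (a * b) = T (b * a)) {g : G}
    (hD : NDatum F G g) (e : MonoidAlgebra A G) (he : Idm T e) : cT T g e = 0 := by
  classical
  obtain ⟨b, k, n, s, h, h2, hskew, hinv, hshift, hh, hbas, hpsi⟩ := hD
  have hee := hee_of T e he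
  rw [← Ev_zero_eq, ← Ev_one_eq T e.coeff hee g (n + 1)]
  have hev : Even (n + 3) := by
    have h3 := Fintype.card_congr s
    rw [Fintype.card_prod, Fintype.card_fin, Fintype.card_fin, Fintype.card_fin] at h3
    exact ⟨k, by omega⟩
  have hnodd : Odd n := by
    obtain ⟨r, hr⟩ := hev
    exact ⟨r - 2, by omega⟩
  refine Ev_const1 T hT e.coeff hee g k (n + 1) s (fun u v => b u v - 1) (fun u v => ?_)
    (fun z u v hz => ?_) ?_ h2
  · rw [hshift, hskew v u]
    ring
  · rw [hinv z u v hz]
  · have e1 : (fun y : Fin (n + 1 + 1) → G =>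
        ∑ σ : Equiv.Perm (Fin (n + 1 + 2)), (Equiv.Perm.sign σ : ℤ) •
        ∏ l : Fin k, (AB (fun u v => b u v - 1) y (σ (s (l, 0))) (σ (s (l, 1))) +
        ((J (σ (s (l, 0))) (σ (s (l, 1))) : ℤ) : F))) = fun y => psi b s y := by
      funext y
      unfold psi
      refine Finset.sum_congr rfl fun σ _ => ?_
      congr 1
      exact Finset.prod_congr rfl fun l _ => (bord_eq b hskew y _ _).symm
    rw [e1]
    -- the alternation of `h`
    set h' : (Fin (n + 1) → G) → F := fun y =>
      ∑ τ : Equiv.Perm (Fin (n + 1)), (Equiv.Perm.sign τ : ℤ) • h (fun i => y (τ i)) with hh'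
    have hinv' : Inv g h' := by
      intro c hc y
      simp only [hh']
      refine Finset.sum_congr rfl fun τ _ => ?_
      congr 1
      exact hh c hc fun i => y (τ i)
    -- rotation
    have hrot : ∀ y : Fin (n + 1) → G, h' (Rot g y) = -h' y := by
      intro y
      simp only [hh']
      have e2 : ∀ τ : Equiv.Perm (Fin (n + 1)), h (fun i => Rot g y (τ i)) =
          h (fun i => y ((finRotate (n + 1) * τ) i)) := by
        intro τ
        have e3 := hbas (fun i => y ((finRotate (n + 1) * τ) i)) (τ.symm (Fin.last n))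
        rw [← e3]
        congr 1
        funext i
        by_cases hi : i = τ.symm (Fin.last n)
        · subst hi
          rw [Function.update_self, Equiv.Perm.mul_apply, Equiv.apply_symm_apply, Rot_last,
            finRotate_last]
        · rw [Function.update_of_ne hi, Equiv.Perm.mul_apply]
          have h5 : τ i ≠ Fin.last n := by
            intro h6
            apply hi
            rw [← h6, Equiv.symm_apply_apply]
          obtain ⟨i', hi'⟩ := Fin.exists_castSucc_eq.2 h5
          rw [← hi', Rot_castSucc, finRotate_apply, Fin.coeSucc_eq_succ]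
      rw [Finset.sum_congr rfl fun τ _ => by rw [e2 τ]]
      have e4 := Equiv.sum_comp (Equiv.mulLeft (finRotate (n + 1)))
        (fun τ : Equiv.Perm (Fin (n + 1)) => (Equiv.Perm.sign τ : ℤ) • h (fun i => y (τ i)))
      rw [← e4, ← Finset.sum_neg_distrib]
      refine Finset.sum_congr rfl fun τ _ => ?_
      rw [Equiv.coe_mulLeft, map_mul, sign_finRotate, Nat.add_sub_cancel, hnodd.neg_one_pow]
      push_cast
      rw [neg_one_mul, neg_smul, neg_neg]
    have hEv' : Ev T e.coeff g n h' = 0 := by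
      have e5 := Ev_rot T hT e.coeff g n h' hinv'
      have e6 : (fun y => h' (Rot g y)) = fun y => ∑ _i ∈ ({()} : Finset Unit), (-1 : F) * h' y := by
        funext y
        rw [hrot, Finset.sum_singleton, neg_one_mul]
      rw [e6, Ev_sum, Finset.sum_singleton, neg_one_mul] at e5
      exact self_eq_neg.1 e5.symm
    -- `psi` is a multiple of the coboundary of `h'`
    have hfac : ((Nat.factorial (n + 2) : ℕ) : F) ≠ 0 := Nat.cast_ne_zero.2 (Nat.factorial_ne_zero _)
    have e7 : ∀ y : Fin (n + 2) → G, psi b s y = ∑ j : Fin (n + 2),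
        (((Nat.factorial (n + 2) : ℕ) : F)⁻¹ * (((n + 1 : ℕ) : F) + 1) * (-1) ^ (j : ℕ)) *
          h' (fun i => y (j.succAbove i)) := by
      intro y
      have e8 := h23 (n + 1) h y
      have e9 : ∑ σ : Equiv.Perm (Fin (n + 1 + 1)), (Equiv.Perm.sign σ : ℤ) •
          ∑ j : Fin (n + 1 + 1), (-1) ^ (j : ℕ) * h (fun i => y (σ (j.succAbove i))) =
          ((Nat.factorial (n + 2) : ℕ) : F) * psi b s y := by
        have e10 : ∀ σ : Equiv.Perm (Fin (n + 1 + 1)), (Equiv.Perm.sign σ : ℤ) •
          ∑ j : Fin (n + 1 + 1), (-1) ^ (j : ℕ) * h (fun i => y (σ (j.succAbove i))) =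
            psi b s y := by
          intro σ
          rw [← hpsi (fun i => y (σ i)), h20 b s y σ, smul_smul]
          have e11 : ((Equiv.Perm.sign σ : ℤˣ) : ℤ) * ((Equiv.Perm.sign σ : ℤˣ) : ℤ) = 1 := by
            rw [← Units.val_mul, Int.units_mul_self, Units.val_one]
          rw [e11, one_smul]
        rw [Finset.sum_congr rfl fun σ _ => e10 σ, Finset.sum_const, Finset.card_univ,
          Fintype.card_perm, Fintype.card_fin, nsmul_eq_mul]
      rw [e9] at e8
      have e12 : psi b s y = ((Nat.factorial (n + 2) : ℕ) : F)⁻¹ *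
          ((((n + 1 : ℕ) : F) + 1) * ∑ j : Fin (n + 1 + 1), (-1) ^ (j : ℕ) *
            h' (fun i => y (j.succAbove i))) := by
        rw [← e8, inv_mul_cancel_left₀ hfac]
      rw [e12, ← mul_assoc, Finset.mul_sum]
      refine Finset.sum_congr rfl fun j _ => ?_
      ring
    have e13 : (fun y => psi b s y) = fun y => ∑ j ∈ (Finset.univ : Finset (Fin (n + 2))),
        (((Nat.factorial (n + 2) : ℕ) : F)⁻¹ * (((n + 1 : ℕ) : F) + 1) * (-1) ^ (j : ℕ)) *
          h' (fun i => y (j.succAbove i)) := funext e7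
    rw [e13, Ev_sum]
    refine Finset.sum_eq_zero fun j _ => ?_
    have e14 := Ev_forget T hT e.coeff hee g n j h' hinv'
    rw [e14, hEv', mul_zero]

end final

end Pool.Agent.H416.LG
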