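import Pool.Agent.H416.LG.Tasks

set_option autoImplicit false

namespace Pool.Agent.H229.LGA

open Pool.Agent.H416.LG

universe u v

variable {F : Type u} {E : Type v} [Field F] [AddCommGroup E] [Module F E]

theorem upd0 (B : E →ₗ[F] E →ₗ[F] F) (k : ℕ) [DecidableEq (Fin (k * 2))] (w : Fin (k * 2) → E)
    (l₀ : Fin k) (z : E) :
    ∏ l : Fin k, B (Function.update w (finProdFinEquiv (l₀, 0)) z (finProdFinEquiv (l, 0)))
      (Function.update w (finProdFinEquiv (l₀, 0)) z (finProdFinEquiv (l, 1))) =
    B z (w (finProdFinEquiv (l₀, 1))) * ∏ l ∈ Finset.univ.erase l₀,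
      B (w (finProdFinEquiv (l, 0))) (w (finProdFinEquiv (l, 1))) := by
  rw [← Finset.mul_prod_erase _ _ (Finset.mem_univ l₀)]
  have h1 : (finProdFinEquiv (l₀, (1 : Fin 2)) : Fin (k * 2)) ≠ finProdFinEquiv (l₀, (0 : Fin 2)) :=
    fun h => by
      have := finProdFinEquiv.injective h
      simp at this
  rw [Function.update_self, Function.update_of_ne h1]
  congr 1
  refine Finset.prod_congr rfl fun l hl => ?_
  have hl' := Finset.ne_of_mem_erase hl
  have h2 : ∀ b : Fin 2, (finProdFinEquiv (l, b) : Fin (k * 2)) ≠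
      finProdFinEquiv (l₀, (0 : Fin 2)) := fun b h => by
    have := finProdFinEquiv.injective h
    exact hl' (congrArg Prod.fst this)
  rw [Function.update_of_ne (h2 0), Function.update_of_ne (h2 1)]

theorem upd1 (B : E →ₗ[F] E →ₗ[F] F) (k : ℕ) [DecidableEq (Fin (k * 2))] (w : Fin (k * 2) → E)
    (l₀ : Fin k) (z : E) :
    ∏ l : Fin k, B (Function.update w (finProdFinEquiv (l₀, 1)) z (finProdFinEquiv (l, 0)))
      (Function.update w (finProdFinEquiv (l₀, 1)) z (finProdFinEquiv (l, 1))) =
    B (w (finProdFinEquiv (l₀, 0))) z * ∏ l ∈ Finset.univ.erase l₀,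
      B (w (finProdFinEquiv (l, 0))) (w (finProdFinEquiv (l, 1))) := by
  rw [← Finset.mul_prod_erase _ _ (Finset.mem_univ l₀)]
  have h1 : (finProdFinEquiv (l₀, (0 : Fin 2)) : Fin (k * 2)) ≠ finProdFinEquiv (l₀, (1 : Fin 2)) :=
    fun h => by
      have := finProdFinEquiv.injective h
      simp at this
  rw [Function.update_self, Function.update_of_ne h1]
  congr 1
  refine Finset.prod_congr rfl fun l hl => ?_
  have hl' := Finset.ne_of_mem_erase hl
  have h2 : ∀ b : Fin 2, (finProdFinEquiv (l, b) : Fin (k * 2)) ≠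
      finProdFinEquiv (l₀, (1 : Fin 2)) := fun b h => by
    have := finProdFinEquiv.injective h
    exact hl' (congrArg Prod.fst this)
  rw [Function.update_of_ne (h2 0), Function.update_of_ne (h2 1)]

/-- the product of the values of the form as a multilinear map -/
noncomputable def mm (B : E →ₗ[F] E →ₗ[F] F) (k : ℕ) :
    MultilinearMap F (fun _ : Fin (k * 2) => E) F where
  toFun w := ∏ l : Fin k, B (w (finProdFinEquiv (l, 0))) (w (finProdFinEquiv (l, 1)))
  map_update_add' := by
    intro _ w i x y
    obtain ⟨⟨l₀, b⟩, rfl⟩ := finProdFinEquiv.surjective i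
    have hb : b = 0 ∨ b = 1 := by
      revert b
      decide
    rcases hb with rfl | rfl
    · rw [upd0, upd0, upd0, map_add, LinearMap.add_apply, add_mul]
    · rw [upd1, upd1, upd1, map_add, add_mul]
  map_update_smul' := by
    intro _ w i c x
    obtain ⟨⟨l₀, b⟩, rfl⟩ := finProdFinEquiv.surjective i
    have hb : b = 0 ∨ b = 1 := by
      revert b
      decide
    rcases hb with rfl | rfl
    · rw [upd0, upd0, map_smul, LinearMap.smul_apply, smul_mul_assoc]
    · rw [upd1, upd1, map_smul, smul_mul_assoc]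

theorem LG1_holds : S_LG1.{u, v} := by
  intro F E _ _ _ _ B k hk v
  have h1 : MultilinearMap.alternatization (mm B k) v = 0 := by
    apply AlternatingMap.map_linearDependent
    intro hli
    have h2 := hli.fintype_card_le_finrank
    rw [Fintype.card_fin] at h2
    omega
  rw [MultilinearMap.alternatization_apply] at h1
  refine Eq.trans (Finset.sum_congr rfl fun σ _ => ?_) h1
  rfl

end Pool.Agent.H229.LGA
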