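import Pool.Agent.H416.LG.Tasks

set_option autoImplicit false

namespace Pool.Agent.H229.LGB

open Pool.Agent.H416.LG Finset

/-- the block of an element -/
def bl {k : ℕ} (i : Fin (k * 2)) : Fin k := (finProdFinEquiv.symm i).1

theorem bl_e {k : ℕ} (l : Fin k) (b : Fin 2) : bl (finProdFinEquiv (l, b)) = l := by
  unfold bl
  rw [Equiv.symm_apply_apply]

theorem e_val {k : ℕ} (l : Fin k) (b : Fin 2) :
    ((finProdFinEquiv (l, b) : Fin (k * 2)) : ℕ) = (b : ℕ) + 2 * (l : ℕ) := rfl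

/-- the summand -/
def term (k : ℕ) (σ : Equiv.Perm (Fin (k * 2))) : ℤ :=
  (Equiv.Perm.sign σ : ℤ) *
    ∏ l : Fin k, J (σ (finProdFinEquiv (l, 0))) (σ (finProdFinEquiv (l, 1)))

/-- the pairs which are not preserved -/
def Bad {k : ℕ} (σ : Equiv.Perm (Fin (k * 2))) : Set (Fin k) :=
  {a | bl (σ.symm (finProdFinEquiv (a, 0))) ≠ bl (σ.symm (finProdFinEquiv (a, 1)))}

/-- exchange the two elements of the block `a` -/
def sw {k : ℕ} (a : Fin k) : Equiv.Perm (Fin (k * 2)) :=
  Equiv.swap (finProdFinEquiv (a, 0)) (finProdFinEquiv (a, 1))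

theorem e_ne {k : ℕ} (a : Fin k) :
    (finProdFinEquiv (a, (0 : Fin 2)) : Fin (k * 2)) ≠ finProdFinEquiv (a, (1 : Fin 2)) := by
  intro h
  have := finProdFinEquiv.injective h
  simp at this

theorem Bad_sw {k : ℕ} (a : Fin k) (σ : Equiv.Perm (Fin (k * 2))) : Bad (sw a * σ) = Bad σ := by
  have h0 : ∀ x, (sw a * σ).symm x = σ.symm (sw a x) := by
    intro x
    change (sw a * σ)⁻¹ x = σ⁻¹ (sw a x)
    rw [mul_inv_rev]
    unfold sw
    rw [Equiv.swap_inv]
    rfl
  ext c
  unfold Bad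
  rw [Set.mem_ofPred_eq, Set.mem_ofPred_eq, h0, h0]
  by_cases hc : c = a
  · subst hc
    unfold sw
    rw [Equiv.swap_apply_left, Equiv.swap_apply_right]
    exact ne_comm
  · have h1 : ∀ b b' : Fin 2, (finProdFinEquiv (c, b) : Fin (k * 2)) ≠ finProdFinEquiv (a, b') := by
      intro b b' h
      exact hc (congrArg Prod.fst (finProdFinEquiv.injective h))
    unfold sw
    rw [Equiv.swap_apply_of_ne_of_ne (h1 _ _) (h1 _ _),
      Equiv.swap_apply_of_ne_of_ne (h1 _ _) (h1 _ _)]

theorem J_sw {k : ℕ} (a : Fin k) (x y : Fin (k * 2)) (hxy : x ≠ y)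
    (h : ¬ ((x = finProdFinEquiv (a, 0) ∧ y = finProdFinEquiv (a, 1)) ∨
      (x = finProdFinEquiv (a, 1) ∧ y = finProdFinEquiv (a, 0)))) :
    J (sw a x) (sw a y) = J x y := by
  have v0 : ((finProdFinEquiv (a, (0 : Fin 2)) : Fin (k * 2)) : ℕ) = 2 * (a : ℕ) := by
    rw [e_val]; simp
  have v1 : ((finProdFinEquiv (a, (1 : Fin 2)) : Fin (k * 2)) : ℕ) = 1 + 2 * (a : ℕ) := by
    rw [e_val]; simp
  have hne : (x : ℕ) ≠ y := fun h' => hxy (Fin.ext h')
  have hsw : ∀ z : Fin (k * 2), ((sw a z : Fin (k * 2)) : ℕ) =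
      if (z : ℕ) = 2 * (a : ℕ) then 1 + 2 * (a : ℕ) else
        if (z : ℕ) = 1 + 2 * (a : ℕ) then 2 * (a : ℕ) else (z : ℕ) := by
    intro z
    unfold sw
    rw [Equiv.swap_apply_def]
    have e0 : z = finProdFinEquiv (a, 0) ↔ (z : ℕ) = 2 * (a : ℕ) := by rw [Fin.ext_iff, v0]
    have e1 : z = finProdFinEquiv (a, 1) ↔ (z : ℕ) = 1 + 2 * (a : ℕ) := by rw [Fin.ext_iff, v1]
    by_cases h0 : z = finProdFinEquiv (a, 0)
    · rw [if_pos h0, if_pos (e0.1 h0), v1]
    · rw [if_neg h0, if_neg (fun h' => h0 (e0.2 h'))]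
      by_cases h1 : z = finProdFinEquiv (a, 1)
      · rw [if_pos h1, if_pos (e1.1 h1), v0]
      · rw [if_neg h1, if_neg (fun h' => h1 (e1.2 h'))]
  have h' : ¬ (((x : ℕ) = 2 * (a : ℕ) ∧ (y : ℕ) = 1 + 2 * (a : ℕ)) ∨
      ((x : ℕ) = 1 + 2 * (a : ℕ) ∧ (y : ℕ) = 2 * (a : ℕ))) := by
    simpa only [Fin.ext_iff, v0, v1] using h
  unfold J
  simp only [Fin.lt_def, hsw]
  split_ifs <;> first | rfl | (exfalso; omega)

theorem term_sw {k : ℕ} (a : Fin k) (σ : Equiv.Perm (Fin (k * 2))) (ha : a ∈ Bad σ) :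
    term k (sw a * σ) = - term k σ := by
  unfold term
  rw [map_mul]
  have h1 : Equiv.Perm.sign (sw a) = -1 := Equiv.Perm.sign_swap (e_ne a)
  rw [h1]
  have h2 : ∏ l : Fin k, J ((sw a * σ) (finProdFinEquiv (l, 0)))
      ((sw a * σ) (finProdFinEquiv (l, 1))) =
      ∏ l : Fin k, J (σ (finProdFinEquiv (l, 0))) (σ (finProdFinEquiv (l, 1))) := by
    refine Finset.prod_congr rfl fun l _ => ?_
    rw [Equiv.Perm.mul_apply, Equiv.Perm.mul_apply]
    apply J_sw
    · intro h
      exact e_ne l (σ.injective h)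
    · rintro (⟨h3, h4⟩ | ⟨h3, h4⟩)
      · apply ha
        rw [← h3, ← h4, Equiv.symm_apply_apply, Equiv.symm_apply_apply, bl_e, bl_e]
      · apply ha
        rw [← h3, ← h4, Equiv.symm_apply_apply, Equiv.symm_apply_apply, bl_e, bl_e]
  rw [h2]
  push_cast
  ring

theorem fin2_cases (ε : Equiv.Perm (Fin 2)) : ε = 1 ∨ ε = Equiv.swap 0 1 := by
  revert ε
  decide

theorem J_eps {k : ℕ} (a : Fin k) (ε : Equiv.Perm (Fin 2)) :
    (J (finProdFinEquiv (a, ε 0) : Fin (k * 2)) (finProdFinEquiv (a, ε 1))) =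
      (Equiv.Perm.sign ε : ℤ) := by
  rcases fin2_cases ε with rfl | rfl
  · unfold J
    rw [Equiv.Perm.one_apply, Equiv.Perm.one_apply, if_pos]
    · simp
    · rw [Fin.lt_def, e_val, e_val]
      simp
  · rw [Equiv.swap_apply_left, Equiv.swap_apply_right, Equiv.Perm.sign_swap (by decide)]
    unfold J
    rw [if_neg, if_pos]
    · simp
    · rw [Fin.lt_def, e_val, e_val]
      simp
    · rw [Fin.lt_def, e_val, e_val]
      simp

theorem two_cases (b : Fin 2) : b = 0 ∨ b = 1 := by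
  revert b
  decide

theorem ex_ne (b : Fin 2) : ∃ b' : Fin 2, b' ≠ b := by
  revert b
  decide

theorem term_good {k : ℕ} (σ : Equiv.Perm (Fin (k * 2))) (h : Bad σ = ∅) : term k σ = 1 := by
  -- the two elements of a block are mapped to the two elements of a block
  have hg : ∀ l : Fin k, bl (σ (finProdFinEquiv (l, 1))) = bl (σ (finProdFinEquiv (l, 0))) := by
    intro l
    obtain ⟨⟨a, b⟩, hab⟩ := finProdFinEquiv.surjective (σ (finProdFinEquiv (l, 0)))
    rw [← hab, bl_e]
    have ha : bl (σ.symm (finProdFinEquiv (a, 0))) = bl (σ.symm (finProdFinEquiv (a, 1))) := by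
      by_contra hne
      have : a ∈ Bad σ := hne
      rw [h] at this
      exact this
    have hb : ∀ c : Fin 2, bl (σ.symm (finProdFinEquiv (a, c))) = l := by
      have h1 : σ.symm (finProdFinEquiv (a, b)) = finProdFinEquiv (l, 0) := by
        rw [hab, Equiv.symm_apply_apply]
      have h2 : bl (σ.symm (finProdFinEquiv (a, b))) = l := by rw [h1, bl_e]
      have h3 : ∀ c c' : Fin 2, bl (σ.symm (finProdFinEquiv (a, c))) =
          bl (σ.symm (finProdFinEquiv (a, c'))) := by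
        intro c c'
        rcases two_cases c with rfl | rfl <;> rcases two_cases c' with rfl | rfl
        · rfl
        · exact ha
        · exact ha.symm
        · rfl
      intro c
      rw [h3 c b, h2]
    -- the other element of the block `a`
    obtain ⟨b', hb'⟩ : ∃ b' : Fin 2, b' ≠ b := ex_ne b
    obtain ⟨⟨l', c⟩, hlc⟩ := finProdFinEquiv.surjective (σ.symm (finProdFinEquiv (a, b')))
    have h4 : l' = l := by
      have := hb b'
      rw [← hlc, bl_e] at this
      exact this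
    subst h4
    have h5 : c ≠ 0 := by
      rintro rfl
      have h6 : σ (finProdFinEquiv (l', 0)) = finProdFinEquiv (a, b') := by
        rw [hlc, Equiv.apply_symm_apply]
      rw [← hab] at h6
      exact hb' (congrArg Prod.snd (finProdFinEquiv.injective h6)).symm
    have h6 : c = 1 := (two_cases c).resolve_left h5
    subst h6
    rw [hlc, Equiv.apply_symm_apply, bl_e]
  set τ' : Equiv.Perm (Fin k × Fin 2) := finProdFinEquiv.symm.permCongr σ with hτ'
  have hτ'a : ∀ p, τ' p = finProdFinEquiv.symm (σ (finProdFinEquiv p)) := by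
    intro p
    rw [hτ', Equiv.permCongr_apply, Equiv.symm_symm]
  have hfst : ∀ (l : Fin k) (b : Fin 2), (τ' (l, b)).1 = (τ' (l, 0)).1 := by
    intro l b
    rcases two_cases b with rfl | rfl
    · rfl
    · rw [hτ'a, hτ'a]
      exact hg l
  have hεinj : ∀ l : Fin k, Function.Injective (fun b : Fin 2 => (τ' (l, b)).2) := by
    intro l b b' hbb
    have h1 : τ' (l, b) = τ' (l, b') := Prod.ext ((hfst l b).trans (hfst l b').symm) hbb
    exact congrArg Prod.snd (τ'.injective h1)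
  let ε : Fin k → Equiv.Perm (Fin 2) := fun l =>
    Equiv.ofBijective _ (Finite.injective_iff_bijective.1 (hεinj l))
  have hε : ∀ l b, ε l b = (τ' (l, b)).2 := fun l b => rfl
  have hτinj : Function.Injective (fun l : Fin k => (τ' (l, 0)).1) := by
    intro l l' hll
    obtain ⟨b, hb⟩ := (ε l).surjective (ε l' 0)
    have h1 : τ' (l, b) = τ' (l', 0) := by
      refine Prod.ext ?_ ?_
      · rw [hfst l b]
        exact hll
      · rw [← hε, ← hε, hb]
    exact congrArg Prod.fst (τ'.injective h1)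
  let τ : Equiv.Perm (Fin k) := Equiv.ofBijective _ (Finite.injective_iff_bijective.1 hτinj)
  have hτ : ∀ l, τ l = (τ' (l, 0)).1 := fun l => rfl
  have hfac : τ' = (Equiv.prodCongrLeft fun _ : Fin 2 => τ : Equiv.Perm (Fin k × Fin 2)) *
      (Equiv.prodCongrRight ε : Equiv.Perm (Fin k × Fin 2)) := by
    ext1 ⟨l, b⟩
    rw [Equiv.Perm.mul_apply, Equiv.prodCongrRight_apply, Equiv.prodCongrLeft_apply]
    exact Prod.ext (hfst l b) rfl
  have hsign : (Equiv.Perm.sign σ : ℤ) = ∏ l, (Equiv.Perm.sign (ε l) : ℤ) := by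
    have h1 : Equiv.Perm.sign τ' = Equiv.Perm.sign σ := Equiv.Perm.sign_permCongr _ _
    rw [← h1, hfac, Equiv.Perm.sign_mul, Equiv.Perm.sign_prodCongrLeft,
      Equiv.Perm.sign_prodCongrRight, Finset.prod_const, Finset.card_univ, Fintype.card_fin,
      Int.units_sq, one_mul]
    push_cast
    rfl
  unfold term
  rw [hsign, ← Finset.prod_mul_distrib]
  refine Finset.prod_eq_one fun l _ => ?_
  have h0 : ∀ b : Fin 2, σ (finProdFinEquiv (l, b)) = finProdFinEquiv (τ l, ε l b) := by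
    intro b
    have h1 := hτ'a (l, b)
    have h2 : σ (finProdFinEquiv (l, b)) = finProdFinEquiv (τ' (l, b)) := by
      rw [h1, Equiv.apply_symm_apply]
    rw [h2]
    congr 1
    exact Prod.ext (hfst l b) rfl
  rw [h0 0, h0 1, J_eps]
  rcases Int.units_eq_one_or (Equiv.Perm.sign (ε l)) with h3 | h3 <;> rw [h3] <;> norm_num

theorem LG2_holds : S_LG2 := by
  classical
  intro k
  change ∑ σ : Equiv.Perm (Fin (k * 2)), term k σ ≠ 0
  have hsplit := Finset.sum_filter_add_sum_filter_not (Finset.univ : Finset (Equiv.Perm (Fin (k * 2))))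
    (fun σ => (Bad σ).Nonempty) (term k)
  have h1 : ∑ σ ∈ Finset.univ.filter (fun σ : Equiv.Perm (Fin (k * 2)) => (Bad σ).Nonempty),
      term k σ = 0 := by
    refine Finset.sum_involution (fun σ hσ => sw (Finset.mem_filter.1 hσ).2.choose * σ) ?_ ?_ ?_ ?_
    · intro σ hσ
      rw [term_sw _ _ (Finset.mem_filter.1 hσ).2.choose_spec]
      ring
    · intro σ hσ _ heq
      have h2 : sw (Finset.mem_filter.1 hσ).2.choose = 1 := by
        exact mul_eq_right.1 heq
      have h3 := congrArg Equiv.Perm.sign h2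
      unfold sw at h3
      rw [Equiv.Perm.sign_swap (e_ne _), Equiv.Perm.sign_one] at h3
      exact absurd h3 (by decide)
    · intro σ hσ
      rw [Finset.mem_filter]
      refine ⟨Finset.mem_univ _, ?_⟩
      rw [Bad_sw]
      exact (Finset.mem_filter.1 hσ).2
    · intro σ hσ
      have key : ∀ (S S' : Set (Fin k)) (hS : S.Nonempty) (hS' : S'.Nonempty), S = S' →
          hS.choose = hS'.choose := by
        intro S S' hS hS' h
        subst h
        rfl
      rw [key _ _ _ (Finset.mem_filter.1 hσ).2 (Bad_sw _ σ), ← mul_assoc]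
      have : ∀ a : Fin k, sw a * sw a = 1 := fun a => Equiv.swap_mul_self _ _
      rw [this, one_mul]
  have h2 : ∑ σ ∈ Finset.univ.filter (fun σ : Equiv.Perm (Fin (k * 2)) => ¬ (Bad σ).Nonempty),
      term k σ = ((Finset.univ.filter
        (fun σ : Equiv.Perm (Fin (k * 2)) => ¬ (Bad σ).Nonempty)).card : ℤ) := by
    rw [Finset.card_eq_sum_ones, Nat.cast_sum]
    refine Finset.sum_congr rfl fun σ hσ => ?_
    rw [term_good σ (Set.not_nonempty_iff_eq_empty.1 (Finset.mem_filter.1 hσ).2)]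
    rfl
  rw [h1, zero_add, h2] at hsplit
  rw [← hsplit]
  have h3 : (1 : Equiv.Perm (Fin (k * 2))) ∈ Finset.univ.filter
      (fun σ : Equiv.Perm (Fin (k * 2)) => ¬ (Bad σ).Nonempty) := by
    rw [Finset.mem_filter]
    refine ⟨Finset.mem_univ _, ?_⟩
    rintro ⟨a, ha⟩
    apply ha
    change bl (finProdFinEquiv (a, 0)) = bl (finProdFinEquiv (a, 1))
    rw [bl_e, bl_e]
  have h4 := Finset.card_pos.2 ⟨_, h3⟩
  exact_mod_cast h4.ne'

end Pool.Agent.H229.LGB
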