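import Mathlib
import Pool.Agent.H416.LG.Tasks

/-!
# LG3: eigenvalues or Jordan blocks of an operator of infinite order
-/

set_option autoImplicit false

namespace Pool.Agent.H550.LG3

open Pool.Agent.H416.LG

universe u v

section

variable {F : Type u} {V : Type v} [Field F] [AddCommGroup V] [Module F V]

theorem fix_mul (a : V →ₗ[F] V) (n m : ℕ) (v : V) (h : (a ^ n) v = v) :
    (a ^ (n * m)) v = v := by
  induction m with
  | zero => simp
  | succ m ih => rw [Nat.mul_succ, pow_add, Module.End.mul_apply, h, ih]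

/-- the vectors with a finite orbit -/
def per (a : V →ₗ[F] V) : Submodule F V where
  carrier := {v | ∃ n : ℕ, 0 < n ∧ (a ^ n) v = v}
  add_mem' := by
    rintro v w ⟨n, hn, hv⟩ ⟨m, hm, hw⟩
    refine ⟨n * m, Nat.mul_pos hn hm, ?_⟩
    rw [map_add, fix_mul a n m v hv, Nat.mul_comm, fix_mul a m n w hw]
  zero_mem' := ⟨1, Nat.one_pos, map_zero _⟩
  smul_mem' := by
    rintro c v ⟨n, hn, hv⟩
    exact ⟨n, hn, by rw [map_smul, hv]⟩

theorem exists_pow_eq_one [FiniteDimensional F V] (a : V →ₗ[F] V) (h : per a = ⊤) :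
    ∃ n : ℕ, 0 < n ∧ a ^ n = 1 := by
  obtain ⟨s, hs⟩ := (Module.Finite.fg_top : (⊤ : Submodule F V).FG)
  have hmem : ∀ v : V, ∃ n : ℕ, 0 < n ∧ (a ^ n) v = v := by
    intro v
    have : v ∈ per a := by rw [h]; exact Submodule.mem_top
    exact this
  choose n hn hnv using hmem
  refine ⟨∏ v ∈ s, n v, Finset.prod_pos fun v _ => hn v, ?_⟩
  have hle : (⊤ : Submodule F V) ≤ LinearMap.eqLocus (a ^ (∏ v ∈ s, n v)) 1 := by
    rw [← hs, Submodule.span_le]
    intro v hv
    rw [SetLike.mem_coe, LinearMap.mem_eqLocus, Module.End.one_apply]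
    obtain ⟨m, hm⟩ : n v ∣ ∏ v ∈ s, n v := Finset.dvd_prod_of_mem n hv
    rw [hm]
    exact fix_mul a (n v) m v (hnv v)
  ext v
  exact hle (Submodule.mem_top (x := v))

theorem exists_eig (a : V →ₗ[F] V) (l : F) (v : V) (hv : v ≠ 0) (k : ℕ)
    (hk : ((a - l • (1 : V →ₗ[F] V)) ^ k) v = 0) : ∃ w : V, w ≠ 0 ∧ a w = l • w := by
  induction k with
  | zero => exact absurd (by simpa using hk) hv
  | succ k ih =>
    by_cases h0 : ((a - l • (1 : V →ₗ[F] V)) ^ k) v = 0
    · exact ih h0
    · refine ⟨_, h0, ?_⟩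
      rw [pow_succ', Module.End.mul_apply, LinearMap.sub_apply, LinearMap.smul_apply,
        Module.End.one_apply, sub_eq_zero] at hk
      exact hk

theorem eig_pow (a : V →ₗ[F] V) (l : F) (v : V) (h : a v = l • v) (n : ℕ) :
    (a ^ n) v = l ^ n • v := by
  induction n with
  | zero => simp
  | succ n ih => rw [pow_succ', Module.End.mul_apply, ih, map_smul, h, smul_smul, pow_succ]

end

theorem LG3_holds : S_LG3.{u, v} := by
  intro F V _ _ _ _ _ a hinj hinf
  by_contra hcon
  rw [not_or] at hcon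
  obtain ⟨h1, h2⟩ := hcon
  have hfin : ∀ (l : F) (v : V), v ≠ 0 → a v = l • v → l ≠ 0 ∧ ∃ n : ℕ, 0 < n ∧ l ^ n = 1 := by
    intro l v hv hav
    refine ⟨?_, ?_⟩
    · rintro rfl
      rw [zero_smul] at hav
      exact hv (hinj (by rw [hav, map_zero]))
    · by_contra hno
      push Not at hno
      exact h1 ⟨l, hno, v, hv, hav⟩
  have htop : per a = ⊤ := by
    rw [eq_top_iff, ← Module.End.iSup_maxGenEigenspace_eq_top a, iSup_le_iff]
    intro l v hv
    by_cases hv0 : v = 0
    · rw [hv0]; exact (per a).zero_mem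
    rw [Module.End.mem_maxGenEigenspace] at hv
    obtain ⟨k, hk⟩ := hv
    obtain ⟨w, hw, haw⟩ := exists_eig a l v hv0 k hk
    obtain ⟨hl0, n, hn, hln⟩ := hfin l w hw haw
    by_cases hc : CharZero F
    · have hstep : ∀ v : V, (a - l • (1 : V →ₗ[F] V)) ((a - l • (1 : V →ₗ[F] V)) v) = 0 →
          (a - l • (1 : V →ₗ[F] V)) v = 0 := by
        intro v hvv
        by_contra hne
        exact h2 ⟨hc, l, hl0, v, hne, hvv⟩
      have hred : ∀ k : ℕ, ∀ v : V, ((a - l • (1 : V →ₗ[F] V)) ^ k) v = 0 →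
          (a - l • (1 : V →ₗ[F] V)) v = 0 := by
        intro k
        induction k with
        | zero =>
          intro v hv
          rw [pow_zero, Module.End.one_apply] at hv
          rw [hv, map_zero]
        | succ k ih =>
          intro v hv
          rw [pow_succ, Module.End.mul_apply] at hv
          exact hstep v (ih _ hv)
      have h3 := hred k v hk
      rw [LinearMap.sub_apply, LinearMap.smul_apply, Module.End.one_apply, sub_eq_zero] at h3
      refine ⟨n, hn, ?_⟩
      rw [eig_pow a l v h3 n, hln, one_smul]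
    · obtain ⟨p, hp⟩ := CharP.exists F
      have hp0 : p ≠ 0 := by
        rintro rfl
        exact hc (CharP.charP_to_charZero F)
      have hpp : Fact p.Prime := ⟨(CharP.char_is_prime_or_zero F p).resolve_right hp0⟩
      have hVn : Nontrivial V := ⟨v, 0, hv0⟩
      have hcp : CharP (V →ₗ[F] V) p :=
        charP_of_injective_algebraMap (algebraMap F (Module.End F V)).injective p
      have hkp : k ≤ p ^ k := (Nat.lt_pow_self hpp.out.one_lt).le
      have hkz : ((a - l • (1 : V →ₗ[F] V)) ^ (p ^ k)) v = 0 := by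
        obtain ⟨j, hj⟩ := Nat.exists_eq_add_of_le hkp
        rw [hj, Nat.add_comm, pow_add, Module.End.mul_apply, hk, map_zero]
      have hcomm : Commute a (l • (1 : V →ₗ[F] V)) := (Commute.one_right a).smul_right l
      rw [sub_pow_char_pow_of_commute p k hcomm, LinearMap.sub_apply, smul_pow, one_pow,
        LinearMap.smul_apply, Module.End.one_apply, sub_eq_zero] at hkz
      refine ⟨p ^ k * n, Nat.mul_pos (pow_pos hpp.out.pos k) hn, ?_⟩
      rw [pow_mul, eig_pow (a ^ (p ^ k)) (l ^ (p ^ k)) v hkz n, ← pow_mul, Nat.mul_comm, pow_mul,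
        hln, one_pow, one_smul]
  obtain ⟨n, hn, han⟩ := exists_pow_eq_one a htop
  exact hinf n hn han

end Pool.Agent.H550.LG3

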