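import Pool.Agent.H416.LG.Tasks

set_option autoImplicit false

/-!
# Project LG (helper416), LG4: the determinant on an eigenspace gives a rational character of the
# centraliser
-/

namespace Pool.Agent.H183.LG4

universe u v w

/-- An element of infinite order of an abelian group is mapped to `1` by a homomorphism to the
rational numbers (the same as `Pool.Agent.H416.RCT.exists_rat`). -/
theorem exists_rat {A : Type*} [AddCommGroup A] (a : A) (ha : ∀ n : ℤ, n • a = 0 → n = 0) :
    ∃ f : A →+ ℚ, f a = 1 := by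
  have hinj : Function.Injective (zmultiplesHom A a) := by
    rw [injective_iff_map_eq_zero]
    intro n hn
    rw [zmultiplesHom_apply] at hn
    exact ha n hn
  obtain ⟨h, hh⟩ := (Module.Baer.of_divisible ℚ).extension_property_addMonoidHom
    (zmultiplesHom A a) hinj (Int.castAddHom ℚ)
  refine ⟨h, ?_⟩
  have h1 := DFunLike.congr_fun hh 1
  simpa using h1

section main

variable {F : Type u} {V : Type v} {G : Type w} [Field F] [AddCommGroup V] [Module F V] [Group G]

/-- the centraliser preserves the eigenspace -/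
theorem maps_W (ρ : G →* (V →ₗ[F] V)) (g : G) (l : F) (a : G) (ha : a * g = g * a) :
    ∀ x ∈ LinearMap.ker (ρ g - l • (1 : V →ₗ[F] V)), ρ a x ∈ LinearMap.ker (ρ g - l • (1 : V →ₗ[F] V)) := by
  intro x hx
  rw [LinearMap.mem_ker, LinearMap.sub_apply, LinearMap.smul_apply, Module.End.one_apply,
    sub_eq_zero] at hx ⊢
  have h1 : ρ g (ρ a x) = ρ a (ρ g x) := by
    have h2 : ρ (g * a) = ρ (a * g) := by rw [ha]
    rw [map_mul, map_mul] at h2
    exact LinearMap.congr_fun h2 x
  rw [h1, hx, map_smul]

/-- the determinant on the eigenspace -/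
noncomputable def chi (ρ : G →* (V →ₗ[F] V)) (g : G) (l : F) :
    Subgroup.centralizer {g} →* F where
  toFun a := LinearMap.det ((ρ a.1).restrict
    (maps_W ρ g l a.1 (Subgroup.mem_centralizer_singleton_iff.1 a.2)))
  map_one' := by
    have h : (ρ (1 : Subgroup.centralizer {g}).1).restrict (maps_W ρ g l _
        (Subgroup.mem_centralizer_singleton_iff.1 (1 : Subgroup.centralizer {g}).2)) = 1 := by
      ext x
      change ρ (1 : Subgroup.centralizer {g}).1 x.1 = x.1
      rw [OneMemClass.coe_one, map_one, Module.End.one_apply]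
    rw [h, map_one]
  map_mul' a b := by
    rw [← map_mul]
    congr 1
    ext x
    change ρ (a * b : Subgroup.centralizer {g}).1 x.1 = ρ a.1 (ρ b.1 x.1)
    rw [Subgroup.coe_mul, map_mul, Module.End.mul_apply]

end main

/-- **LG4** -/
theorem LG4_holds : Pool.Agent.H416.LG.S_LG4.{u, v, w} := by
  classical
  intro F V G _ _ _ _ _ ρ g l hl hex
  have hg : g ∈ Subgroup.centralizer {g} := Subgroup.mem_centralizer_singleton_iff.2 rfl
  set W := LinearMap.ker (ρ g - l • (1 : V →ₗ[F] V)) with hW
  obtain ⟨x, hx0, hx⟩ := hex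
  have hxW : x ∈ W := by
    rw [hW, LinearMap.mem_ker, LinearMap.sub_apply, LinearMap.smul_apply, Module.End.one_apply,
      sub_eq_zero]
    exact hx
  have hnt : Nontrivial W := ⟨⟨⟨x, hxW⟩, 0, fun h => hx0 (congrArg Subtype.val h)⟩⟩
  have hd : 0 < Module.finrank F W := Module.finrank_pos
  have hchi : chi ρ g l ⟨g, hg⟩ = l ^ Module.finrank F W := by
    have h1 : (ρ g).restrict (maps_W ρ g l g rfl) = l • (1 : W →ₗ[F] W) := by
      ext y
      have hy := y.2
      rw [LinearMap.mem_ker, LinearMap.sub_apply, LinearMap.smul_apply,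
        Module.End.one_apply, sub_eq_zero] at hy
      rw [LinearMap.restrict_apply]
      exact hy
    change LinearMap.det ((ρ g).restrict (maps_W ρ g l g rfl)) = _
    rw [h1, LinearMap.det_smul, map_one, mul_one]
  set χ : Subgroup.centralizer {g} →* Fˣ := (chi ρ g l).toHomUnits with hχ
  have hχg : ((χ ⟨g, hg⟩ : Fˣ) : F) = l ^ Module.finrank F W := by
    rw [← hchi]
    rfl
  obtain ⟨f, hf⟩ := exists_rat (Additive.ofMul (χ ⟨g, hg⟩)) (by
    intro n hn
    by_contra hne
    have h1 : (χ ⟨g, hg⟩) ^ n = 1 := by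
      rw [← ofMul_zpow] at hn
      exact ofMul_eq_zero.1 hn
    have h2 : (χ ⟨g, hg⟩) ^ n.natAbs = 1 := by
      rcases Int.natAbs_eq n with h | h
      · rw [h, zpow_natCast] at h1
        exact h1
      · rw [h, zpow_neg, zpow_natCast, inv_eq_one] at h1
        exact h1
    have h3 : (l ^ Module.finrank F W) ^ n.natAbs = 1 := by
      rw [← hχg, ← Units.val_pow_eq_pow_val, h2, Units.val_one]
    rw [← pow_mul] at h3
    exact hl _ (Nat.mul_pos hd (Int.natAbs_pos.2 hne)) h3)
  refine ⟨fun a => if h : a ∈ Subgroup.centralizer {g} then f (Additive.ofMul (χ ⟨a, h⟩)) else 0,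
    ?_, ?_⟩
  · intro a b ha hb
    have ha' : a ∈ Subgroup.centralizer {g} := Subgroup.mem_centralizer_singleton_iff.2 ha
    have hb' : b ∈ Subgroup.centralizer {g} := Subgroup.mem_centralizer_singleton_iff.2 hb
    dsimp only
    rw [dif_pos ha', dif_pos hb', dif_pos (mul_mem ha' hb'), ← map_add, ← ofMul_mul, ← map_mul]
    rfl
  · dsimp only
    rw [dif_pos hg]
    exact hf

end Pool.Agent.H183.LG4
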