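import Pool.Agent.H416.LG.Tasks

set_option autoImplicit false

/-!
# Project LG (helper416): LG5, the data of a Jordan block
-/

namespace Pool.Agent.H399.LG5

open Pool.Agent.H416.LG

universe u w

section linear

variable {F : Type u} {V : Type u} [Field F] [AddCommGroup V] [Module F V]
  [FiniteDimensional F V]

/-- the operator `R` -/
theorem exists_R (N : V →ₗ[F] V) : ∃ R : V →ₗ[F] V, N * N * R = 0 ∧
    (∀ Y : V →ₗ[F] V, N * N * Y = 0 → N * R * N * Y = N * Y) ∧
    LinearMap.trace F V (N * R) =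
      (Module.finrank F ((LinearMap.ker (N * N)).map N) : F) := by
  obtain ⟨K, hK⟩ : ∃ K : Submodule F V, K = LinearMap.ker (N * N) := ⟨_, rfl⟩
  rw [← hK]
  have hKm : ∀ x, x ∈ K ↔ N (N x) = 0 := by
    intro x
    rw [hK, LinearMap.mem_ker]
    rfl
  obtain ⟨N', hN'⟩ : ∃ N' : K →ₗ[F] K.map N, ∀ x : K, (N' x : V) = N x :=
    ⟨(N.comp K.subtype).codRestrict (K.map N) (fun x => Submodule.mem_map_of_mem x.2),
      fun x => rfl⟩
  have hsurj : LinearMap.range N' = ⊤ := by
    rw [LinearMap.range_eq_top]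
    rintro ⟨y, hy⟩
    obtain ⟨x, hx, hxy⟩ := Submodule.mem_map.1 hy
    exact ⟨⟨x, hx⟩, Subtype.ext ((hN' _).trans hxy)⟩
  obtain ⟨s, hs⟩ := N'.exists_rightInverse_of_surjective hsurj
  obtain ⟨π, hπ⟩ := (K.map N).subtype.exists_leftInverse_of_injective
    (Submodule.ker_subtype _)
  have hs' : ∀ y : K.map N, N (s y : V) = y := by
    intro y
    rw [← hN' (s y)]
    have h := LinearMap.congr_fun hs y
    rw [LinearMap.comp_apply, LinearMap.id_apply] at h
    rw [h]
  have hπ' : ∀ y : K.map N, π (y : V) = y := by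
    intro y
    have h := LinearMap.congr_fun hπ y
    rw [LinearMap.comp_apply, LinearMap.id_apply] at h
    exact h
  refine ⟨K.subtype.comp (s.comp π), ?_, ?_, ?_⟩
  · ext x
    change N (N (s (π x) : V)) = 0
    exact (hKm _).1 (s (π x)).2
  · intro Y hY
    ext x
    change N (s (π (N (Y x))) : V) = N (Y x)
    have h1 : Y x ∈ K := by
      rw [hKm]
      have := LinearMap.congr_fun hY x
      exact this
    have h2 : N (Y x) ∈ K.map N := Submodule.mem_map_of_mem h1
    have h3 : π (N (Y x)) = ⟨N (Y x), h2⟩ := hπ' ⟨N (Y x), h2⟩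
    rw [h3, hs']
  · have h1 : N * (K.subtype.comp (s.comp π)) = (K.map N).subtype.comp π := by
      ext x
      change N (s (π x) : V) = (π x : V)
      exact hs' _
    rw [h1, LinearMap.trace_comp_comm', hπ, LinearMap.trace_id]

/-- the bilinear form -/
noncomputable def BB (N : V →ₗ[F] V) : (V →ₗ[F] V) →ₗ[F] (V →ₗ[F] V) →ₗ[F] F :=
  LinearMap.mk₂ F (fun X Y => LinearMap.trace F V (N * (X * Y - Y * X)))
    (fun X X' Y => by
      rw [← map_add]
      congr 1
      simp only [add_mul, mul_add, mul_sub]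
      abel)
    (fun c X Y => by
      rw [← map_smul]
      congr 1
      simp only [smul_mul_assoc, mul_smul_comm, mul_sub, smul_sub])
    (fun X Y Y' => by
      rw [← map_add]
      congr 1
      simp only [add_mul, mul_add, mul_sub]
      abel)
    (fun c X Y => by
      rw [← map_smul]
      congr 1
      simp only [smul_mul_assoc, mul_smul_comm, mul_sub, smul_sub])

omit [FiniteDimensional F V] in
theorem BB_apply (N X Y : V →ₗ[F] V) :
    BB N X Y = LinearMap.trace F V (N * (X * Y - Y * X)) := rfl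

omit [FiniteDimensional F V] in
/-- the main computation -/
theorem comp_BB (N h hi X Y : V →ₗ[F] V) (l : F) (hl : l ≠ 0) (hN : h = N + l • (1 : V →ₗ[F] V))
    (hh : hi * h = 1) (hX : N * N * X = 0) (hY : N * N * Y = 0)
    (hXY : N * X * N * Y = N * Y) (hYX : N * Y * N * X = N * X) :
    BB N X (h * Y * hi) = BB N X Y + l⁻¹ * (LinearMap.trace F V (N * X) +
      LinearMap.trace F V (N * Y)) := by
  obtain ⟨t, ht⟩ : ∃ t : (V →ₗ[F] V) →ₗ[F] F, t = LinearMap.trace F V := ⟨_, rfl⟩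
  have tc : ∀ a b : V →ₗ[F] V, t (a * b) = t (b * a) := fun a b => by
    rw [ht]
    exact LinearMap.trace_mul_comm F a b
  rw [BB_apply, BB_apply, ← ht]
  -- first term
  have a1 : hi * (N * X) = l⁻¹ • (N * X) := by
    have h1 : h * (N * X) = l • (N * X) := by
      rw [hN, add_mul, ← mul_assoc, hX, zero_add, smul_mul_assoc, one_mul]
    have h2 : hi * (h * (N * X)) = N * X := by rw [← mul_assoc, hh, one_mul]
    rw [h1, mul_smul_comm] at h2
    rw [← h2, smul_smul, inv_mul_cancel₀ hl, one_smul, h2]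
  have a2 : t (N * (X * (h * Y * hi))) = l⁻¹ * t (N * Y) + t (N * (X * Y)) := by
    have h1 : N * (X * (h * Y * hi)) = (N * X * h * Y) * hi := by simp only [mul_assoc]
    have h2 : hi * (N * X * h * Y) = l⁻¹ • (N * X * N * Y) + N * (X * Y) := by
      have h3 : hi * (N * X * h * Y) = (hi * (N * X)) * (h * Y) := by simp only [mul_assoc]
      rw [h3, a1, hN, smul_mul_assoc, add_mul, smul_mul_assoc, one_mul, mul_add, smul_add,
        mul_smul_comm, smul_smul, inv_mul_cancel₀ hl, one_smul]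
      simp only [mul_assoc]
    rw [h1, tc, h2, hXY, map_add, map_smul, smul_eq_mul]
  -- second term
  have b1 : hi * X = l⁻¹ • X - (l⁻¹ * l⁻¹) • (N * X) := by
    have h1 : h * (l⁻¹ • X - (l⁻¹ * l⁻¹) • (N * X)) = X := by
      rw [hN, add_mul, mul_sub, mul_smul_comm, mul_smul_comm, ← mul_assoc, hX, smul_zero,
        sub_zero, smul_mul_assoc, one_mul, smul_sub, smul_smul, smul_smul, ← mul_assoc,
        mul_inv_cancel₀ hl, one_mul, one_smul]
      abel
    calc hi * X = hi * (h * (l⁻¹ • X - (l⁻¹ * l⁻¹) • (N * X))) := by rw [h1]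
      _ = l⁻¹ • X - (l⁻¹ * l⁻¹) • (N * X) := by rw [← mul_assoc, hh, one_mul]
  have b2 : N * (h * Y * hi * X) = l • (N * Y * (hi * X)) := by
    have h1 : N * h * Y = l • (N * Y) := by
      rw [hN, mul_add, add_mul, hY, zero_add, mul_smul_comm, smul_mul_assoc, mul_one]
    have h2 : N * (h * Y * hi * X) = (N * h * Y) * (hi * X) := by simp only [mul_assoc]
    rw [h2, h1, smul_mul_assoc]
  have b3 : t (N * (h * Y * hi * X)) = t (N * (Y * X)) - l⁻¹ * t (N * X) := by
    rw [b2, b1, mul_sub, mul_smul_comm, mul_smul_comm, ← mul_assoc, hYX, smul_sub, smul_smul,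
      smul_smul, ← mul_assoc l, mul_inv_cancel₀ hl, one_smul, one_mul, map_sub, map_smul,
      smul_eq_mul, mul_assoc]
  have e1 : N * (X * (h * Y * hi) - h * Y * hi * X) =
      N * (X * (h * Y * hi)) - N * (h * Y * hi * X) := mul_sub _ _ _
  have e2 : N * (X * Y - Y * X) = N * (X * Y) - N * (Y * X) := mul_sub _ _ _
  rw [e1, e2, map_sub, map_sub, a2, b3]
  ring

end linear

/-- coset representatives -/
theorem exists_c {G : Type w} [Group G] (g : G) : ∃ c : G → G, (∀ u, c u * g = g * c u) ∧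
    ∀ z u, z * g = g * z → c (z * u) = z * c u := by
  obtain ⟨C, hC⟩ : ∃ C : Subgroup G, C = Subgroup.centralizer {g} := ⟨_, rfl⟩
  have hmem : ∀ x, x ∈ C ↔ x * g = g * x := by
    intro x
    rw [hC, Subgroup.mem_centralizer_singleton_iff]
  obtain ⟨t, ht⟩ : ∃ t : G → G, t = fun u => (Quotient.mk (QuotientGroup.rightRel C) u).out :=
    ⟨_, rfl⟩
  refine ⟨fun u => u * (t u)⁻¹, fun u => ?_, fun z u hz => ?_⟩
  · rw [← hmem]
    have h1 : (QuotientGroup.rightRel C) (t u) u := by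
      rw [ht]
      exact Quotient.mk_out u
    rw [QuotientGroup.rightRel_apply] at h1
    exact h1
  · have h1 : t (z * u) = t u := by
      rw [ht]
      simp only
      congr 1
      apply Quotient.sound
      change (QuotientGroup.rightRel C) (z * u) u
      rw [QuotientGroup.rightRel_apply, mul_inv_rev, ← mul_assoc, mul_inv_cancel, one_mul]
      exact C.inv_mem ((hmem z).2 hz)
    simp only
    rw [h1, mul_assoc]

theorem LG5_holds : S_LG5.{u, w} := by
  intro F V G _ _ _ _ _ _ ρ g l hl hv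
  obtain ⟨N, hN⟩ : ∃ N : V →ₗ[F] V, N = ρ g - l • (1 : V →ₗ[F] V) := ⟨_, rfl⟩
  rw [← hN] at hv
  have hgN : ρ g = N + l • (1 : V →ₗ[F] V) := by rw [hN, sub_add_cancel]
  obtain ⟨R, hR1, hR2, hR3⟩ := exists_R N
  obtain ⟨c, hc1, hc2⟩ := exists_c g
  have hinv : ∀ z : G, ρ z * ρ z⁻¹ = 1 := fun z => by rw [← map_mul, mul_inv_cancel, map_one]
  have hinv' : ∀ z : G, ρ z⁻¹ * ρ z = 1 := fun z => by rw [← map_mul, inv_mul_cancel, map_one]
  have hcomm : ∀ z : G, z * g = g * z → ρ z * N = N * ρ z := by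
    intro z hz
    have h1 : ρ z * ρ g = ρ g * ρ z := by rw [← map_mul, ← map_mul, hz]
    rw [hN, mul_sub, sub_mul, h1, mul_smul_comm, smul_mul_assoc, mul_one, one_mul]
  have hinvc : ∀ z : G, z * g = g * z → z⁻¹ * g = g * z⁻¹ := by
    intro z hz
    have h1 : z⁻¹ * (z * g) * z⁻¹ = z⁻¹ * (g * z) * z⁻¹ := by rw [hz]
    have h2 : z⁻¹ * (z * g) * z⁻¹ = g * z⁻¹ := by group
    have h3 : z⁻¹ * (g * z) * z⁻¹ = z⁻¹ * g := by group
    rw [h2, h3] at h1
    exact h1.symm
  obtain ⟨r, hr⟩ : ∃ r : G → (V →ₗ[F] V), ∀ u, r u = ρ (c u) * R * ρ (c u)⁻¹ :=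
    ⟨fun u => ρ (c u) * R * ρ (c u)⁻¹, fun _ => rfl⟩
  have hrz : ∀ z u : G, z * g = g * z → r (z * u) = ρ z * r u * ρ z⁻¹ := by
    intro z u hz
    rw [hr, hr, hc2 z u hz, mul_inv_rev, map_mul, map_mul]
    simp only [mul_assoc]
  have hrN : ∀ u, N * N * r u = 0 := by
    intro u
    have h1 := hcomm (c u) (hc1 u)
    calc N * N * r u = N * (N * ρ (c u)) * R * ρ (c u)⁻¹ := by
          rw [hr]
          simp only [mul_assoc]
      _ = N * (ρ (c u) * N) * R * ρ (c u)⁻¹ := by rw [h1]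
      _ = (N * ρ (c u)) * N * R * ρ (c u)⁻¹ := by simp only [mul_assoc]
      _ = (ρ (c u) * N) * N * R * ρ (c u)⁻¹ := by rw [h1]
      _ = ρ (c u) * (N * N * R) * ρ (c u)⁻¹ := by simp only [mul_assoc]
      _ = 0 := by rw [hR1, mul_zero, zero_mul]
  have hrY : ∀ (u : G) (Y : V →ₗ[F] V), N * N * Y = 0 → N * r u * N * Y = N * Y := by
    intro u Y hY
    have h1 := hcomm (c u) (hc1 u)
    have h1' := hcomm (c u)⁻¹ (hinvc _ (hc1 u))
    have h2 : N * N * (ρ (c u)⁻¹ * Y) = 0 := by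
      calc N * N * (ρ (c u)⁻¹ * Y) = N * (N * ρ (c u)⁻¹) * Y := by simp only [mul_assoc]
        _ = N * (ρ (c u)⁻¹ * N) * Y := by rw [h1']
        _ = (N * ρ (c u)⁻¹) * N * Y := by simp only [mul_assoc]
        _ = (ρ (c u)⁻¹ * N) * N * Y := by rw [h1']
        _ = ρ (c u)⁻¹ * (N * N * Y) := by simp only [mul_assoc]
        _ = 0 := by rw [hY, mul_zero]
    calc N * r u * N * Y = (N * ρ (c u)) * R * (ρ (c u)⁻¹ * N) * Y := by
          rw [hr]
          simp only [mul_assoc]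
      _ = (ρ (c u) * N) * R * (N * ρ (c u)⁻¹) * Y := by rw [h1, h1']
      _ = ρ (c u) * (N * R * N * (ρ (c u)⁻¹ * Y)) := by simp only [mul_assoc]
      _ = ρ (c u) * (N * (ρ (c u)⁻¹ * Y)) := by rw [hR2 _ h2]
      _ = (ρ (c u) * N) * ρ (c u)⁻¹ * Y := by simp only [mul_assoc]
      _ = (N * ρ (c u)) * ρ (c u)⁻¹ * Y := by rw [h1]
      _ = N * (ρ (c u) * ρ (c u)⁻¹) * Y := by simp only [mul_assoc]
      _ = N * Y := by rw [hinv, mul_one]
  have hrt : ∀ u, LinearMap.trace F V (N * r u) = LinearMap.trace F V (N * R) := by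
    intro u
    have h1 := hcomm (c u) (hc1 u)
    have h2 : N * r u = ρ (c u) * (N * R * ρ (c u)⁻¹) := by
      calc N * r u = (N * ρ (c u)) * R * ρ (c u)⁻¹ := by
            rw [hr]
            simp only [mul_assoc]
        _ = (ρ (c u) * N) * R * ρ (c u)⁻¹ := by rw [h1]
        _ = ρ (c u) * (N * R * ρ (c u)⁻¹) := by simp only [mul_assoc]
    rw [h2, LinearMap.trace_mul_comm, mul_assoc, hinv', mul_one]
  refine ⟨V →ₗ[F] V, inferInstance, inferInstance, inferInstance, BB N, r,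
    l⁻¹ * (LinearMap.trace F V (N * R) + LinearMap.trace F V (N * R)), ?_, ?_, ?_, ?_⟩
  · -- the constant is not zero
    rw [hR3, ← two_mul]
    refine mul_ne_zero (inv_ne_zero hl) (mul_ne_zero two_ne_zero ?_)
    rw [Nat.cast_ne_zero]
    intro h0
    rw [Submodule.finrank_eq_zero] at h0
    obtain ⟨v, hv1, hv2⟩ := hv
    have h1 : N v ∈ (LinearMap.ker (N * N)).map N := by
      refine Submodule.mem_map_of_mem ?_
      rw [LinearMap.mem_ker]
      exact hv2
    rw [h0, Submodule.mem_bot] at h1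
    exact hv1 h1
  · intro u v
    rw [BB_apply, BB_apply, ← map_neg]
    congr 1
    rw [← mul_neg, neg_sub]
  · intro z u v hz
    rw [hrz z u hz, hrz z v hz, BB_apply, BB_apply]
    have h1 := hcomm z hz
    have h2 : ∀ X Y : V →ₗ[F] V, ρ z * X * ρ z⁻¹ * (ρ z * Y * ρ z⁻¹) =
        ρ z * (X * Y) * ρ z⁻¹ := by
      intro X Y
      calc ρ z * X * ρ z⁻¹ * (ρ z * Y * ρ z⁻¹) = ρ z * X * (ρ z⁻¹ * ρ z) * Y * ρ z⁻¹ := by
            simp only [mul_assoc]
        _ = ρ z * (X * Y) * ρ z⁻¹ := by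
            rw [hinv', mul_one]
            simp only [mul_assoc]
    rw [h2, h2, ← sub_mul, ← mul_sub]
    have h3 : N * (ρ z * (r u * r v - r v * r u) * ρ z⁻¹) =
        ρ z * (N * (r u * r v - r v * r u) * ρ z⁻¹) := by
      calc N * (ρ z * (r u * r v - r v * r u) * ρ z⁻¹) =
            (N * ρ z) * (r u * r v - r v * r u) * ρ z⁻¹ := by simp only [mul_assoc]
        _ = (ρ z * N) * (r u * r v - r v * r u) * ρ z⁻¹ := by rw [h1]
        _ = ρ z * (N * (r u * r v - r v * r u) * ρ z⁻¹) := by simp only [mul_assoc]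
    rw [h3, LinearMap.trace_mul_comm, mul_assoc, hinv', mul_one]
  · intro u v
    rw [hrz g v rfl, comp_BB N (ρ g) (ρ g⁻¹) (r u) (r v) l hl hgN (hinv' g) (hrN u) (hrN v)
      (hrY u _ (hrN v)) (hrY v _ (hrN u)), hrt, hrt]

end Pool.Agent.H399.LG5
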