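import Pool.Agent.H416.LG.Tasks

set_option autoImplicit false

/-!
# Project LG (helper416), LG6: bilinear data of a character of the centraliser
-/

namespace Pool.Agent.H183.LG6

universe w

/-- the determinant form on the rational plane -/
def BB : (ℚ × ℚ) →ₗ[ℚ] (ℚ × ℚ) →ₗ[ℚ] ℚ :=
  LinearMap.mk₂ ℚ (fun x y => x.1 * y.2 - x.2 * y.1)
    (fun x x' y => by simp only [Prod.fst_add, Prod.snd_add]; ring)
    (fun c x y => by simp only [Prod.smul_fst, Prod.smul_snd, smul_eq_mul]; ring)
    (fun x y y' => by simp only [Prod.fst_add, Prod.snd_add]; ring)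
    (fun c x y => by simp only [Prod.smul_fst, Prod.smul_snd, smul_eq_mul]; ring)

theorem BB_apply (x y : ℚ × ℚ) : BB x y = x.1 * y.2 - x.2 * y.1 := rfl

/-- A retraction of a group onto a subgroup which commutes with the left multiplications. -/
theorem exists_retr {G : Type w} [Group G] (C : Subgroup G) :
    ∃ c : G → G, (∀ u, c u ∈ C) ∧ ∀ z ∈ C, ∀ u, c (z * u) = z * c u := by
  let t : G → G := fun u => (Quotient.mk (QuotientGroup.rightRel C) u).out
  refine ⟨fun u => u * (t u)⁻¹, fun u => ?_, fun z hz u => ?_⟩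
  · have h : (QuotientGroup.rightRel C) (t u) u := Quotient.mk_out u
    rw [QuotientGroup.rightRel_apply] at h
    exact h
  · have h : t (z * u) = t u := by
      have h1 : Quotient.mk (QuotientGroup.rightRel C) (z * u) =
          Quotient.mk (QuotientGroup.rightRel C) u := by
        apply Quotient.sound
        change (QuotientGroup.rightRel C) (z * u) u
        rw [QuotientGroup.rightRel_apply, mul_inv_rev, mul_inv_cancel_left]
        exact C.inv_mem hz
      simp only [t]
      rw [h1]
    simp only
    rw [h, mul_assoc]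

/-- **LG6** -/
theorem LG6_holds : Pool.Agent.H416.LG.S_LG6.{w} := by
  intro G _ g f hf hg
  obtain ⟨c, hc1, hc2⟩ := exists_retr (Subgroup.centralizer {g})
  have hmem : ∀ z : G, z ∈ Subgroup.centralizer {g} ↔ z * g = g * z :=
    fun z => Subgroup.mem_centralizer_singleton_iff
  have hcc : ∀ u, c u * g = g * c u := fun u => (hmem _).1 (hc1 u)
  refine ⟨ℚ × ℚ, inferInstance, inferInstance, inferInstance, BB, fun u => (1, f (c u)), 1,
    one_ne_zero, ?_, ?_, ?_⟩
  · intro u v
    rw [BB_apply, BB_apply]
    ring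
  · intro z u v hz
    rw [BB_apply, BB_apply]
    simp only
    rw [hc2 z ((hmem z).2 hz) u, hc2 z ((hmem z).2 hz) v, hf z (c u) hz (hcc u),
      hf z (c v) hz (hcc v)]
    ring
  · intro u v
    rw [BB_apply, BB_apply]
    simp only
    rw [hc2 g ((hmem g).2 rfl) v, hf g (c v) rfl (hcc v), hg]
    ring

end Pool.Agent.H183.LG6
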