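import Pool.Agent.H416.LG.Loc
import Pool.Graph.R_pool_sql_team_seeded_843ab51a.V11187.DG.Ev

set_option autoImplicit false

/-!
# Cycles graded by the parity, and the statements for even and odd cycles
-/

namespace Pool.Agent.H416.LG

open Finset MonoidAlgebra
open Pool.Agent.V11187.DG (eT dg Cyc)

universe u v w x z

/-- The coefficientwise map. -/
noncomputable def dG {Ω : Type v} [Ring Ω] (G : Type w) [Group G] (δ : Ω →+ Ω) :
    MonoidAlgebra Ω G →+ MonoidAlgebra Ω G where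
  toFun α := .ofCoeff (Finsupp.mapRange δ (map_zero δ) α.coeff)
  map_zero' := by
    apply coeff_injective
    ext h
    simp
  map_add' α β := by
    apply coeff_injective
    ext h
    simp

theorem dG_coeff {Ω : Type v} [Ring Ω] {G : Type w} [Group G] (δ : Ω →+ Ω)
    (α : MonoidAlgebra Ω G) (h : G) : (dG G δ α).coeff h = δ (α.coeff h) := rfl

theorem dG_single {Ω : Type v} [Ring Ω] {G : Type w} [Group G] (δ : Ω →+ Ω) (h : G) (r : Ω) :
    dG G δ (single h r) = single h (δ r) := by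
  classical
  apply coeff_injective
  ext k
  rw [dG_coeff, coeff_single, coeff_single, Finsupp.single_apply, Finsupp.single_apply]
  split_ifs
  · rfl
  · exact map_zero δ

/-- `T` is a closed graded trace on the differential ring `(Ω, ε, δ)`, graded by the parity `ε`. -/
structure PC {Ω : Type v} [Ring Ω] (ε : Ω →+* Ω) (δ : Ω →+ Ω) (T : Ω →+ ℚ) : Prop where
  ee : ∀ a, ε (ε a) = a
  leib : ∀ a b, δ (a * b) = δ a * b + ε a * δ b
  dd : ∀ a, δ (δ a) = 0
  de : ∀ a, δ (ε a) = -ε (δ a)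
  tr : ∀ a b, ε a = a → T (a * b) = T (b * a)
  tro : ∀ a b, ε a = -a → ε b = -b → T (a * b) = -T (b * a)
  cl : ∀ a, T (δ a) = 0

/-- The same for a trace of odd dimension. -/
structure PO {Ω : Type v} [Ring Ω] (ε : Ω →+* Ω) (δ : Ω →+ Ω) (T : Ω →+ ℚ) : Prop where
  ee : ∀ a, ε (ε a) = a
  leib : ∀ a b, δ (a * b) = δ a * b + ε a * δ b
  dd : ∀ a, δ (δ a) = 0
  de : ∀ a, δ (ε a) = -ε (δ a)
  tr : ∀ a b, T (a * b) = T (b * a)
  odd : ∀ a, T (ε a) = -T a
  cl : ∀ a, T (δ a) = 0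

/-- **Even cycles** vanish on idempotent elements, at the element `g`. -/
def S_Even (G : Type w) [Group G] (g : G) : Prop :=
  ∀ {Ω : Type v} [Ring Ω] (ε : Ω →+* Ω) (δ : Ω →+ Ω) (T : Ω →+ ℚ), PC ε δ T →
    ∀ e : MonoidAlgebra Ω G, e * e = e → (∀ x, ε (e.coeff x) = e.coeff x) →
    ∀ n : ℕ, eT T (dg g) (e * (dG G δ e) ^ (2 * n)) = 0

/-- **Odd cycles** vanish on invertible elements, at the element `g`. -/
def S_Odd (G : Type w) [Group G] (g : G) : Prop :=
  ∀ {Ω : Type v} [Ring Ω] (ε : Ω →+* Ω) (δ : Ω →+ Ω) (T : Ω →+ ℚ), PO ε δ T →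
    ∀ u v : MonoidAlgebra Ω G, u * v = 1 → v * u = 1 → (∀ x, ε (u.coeff x) = u.coeff x) →
    (∀ x, ε (v.coeff x) = v.coeff x) →
    ∀ n : ℕ, eT T (dg g) ((u * dG G δ v) ^ (2 * n + 1)) = 0

/-- **LG13.** The statement for odd cycles follows from the one for even cycles (for rings in
the same universe).

Proof. Notation: `Ω₂ = Matrix (Fin 2) (Fin 2) Ω` with `ε`, `δ` entrywise and `T ∘ trace`; it satisfies
`PO` again. `P = Polynomial Ω₂` (variable `t`, central, even), `ε`, `δ` coefficientwise, `∂` = formal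
derivative. `P[θ]` = pairs `a + b θ` (`a, b ∈ P`), `θ θ = 0`, `θ a = ε(a) θ`, i.e.
`(a + b θ)(a' + b' θ) = a a' + (a b' + b ε(a')) θ`; this is a ring; `ε(a + b θ) = ε a - ε b θ`,
`δ(a + b θ) = δ a + (ε(∂ a) + δ b) θ` (`θ = dt`). `I : P →+ ℚ`, `I (∑ a_k t^k) = ∑ T(trace a_k) / (k + 1)`
(integral from `0` to `1`), `T'(a + b θ) = I(b)`. Then `ee, leib, dd, de` hold; `tr`, `tro` hold because
`I(a b) = I(b a)` and `I(ε a) = -I(a)` (e.g. `a` even, `b` odd: `I(b ε(a')) = -I(ε(b ε(a'))) = I(b a') =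
I(a' b)`). `T'(δ(a + b θ)) = I(ε ∂ a) = -I(∂ a) = -(T(trace a(1)) - T(trace a(0)))`.
Let `B` be the subring of the `a + b θ` such that `a(0)` is lower triangular and `a(1)` upper triangular,
both with diagonal entries integer constants (in the image of `ℤ → Ω`). It is stable under `ε`, `δ`
(`δ` of an integer is `0`), and `T` of an integer is `0` (`odd` with `ε 1 = 1`), so `PC` holds for `B`.

Let `v = u⁻¹` and `p = !![1 - t, t u; (1 - t) v, t]`. It is idempotent, its coefficients (at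
`x ∈ G`) are `!![1 - t, t u_1; (1 - t) v_1, t]` for `x = 1` and `!![0, t u_x; (1 - t) v_x, 0]` for
`x ≠ 1`: even elements of `B`. By the even statement the class sum of `T'` of `p (δp) ^ (2 k)` is zero.
Now `p = C R`, `C = !![1, 0; v, 0]`, `R = !![1 - t, t u; 0, 0]`, `R C = E = !![1, 0; 0, 0]`, `C E = C`,
`E R = R`, `δE = 0`, so `δR C = - R δC`, and with `p δp δp = δp δp p`:
`R (δp) ^ 2 = Φ R`, `Φ = R (δp)² C = δR δC + (R δC)²`, `p (δp) ^ (2 k) = C Φ ^ k R`, and the class sum of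
`T'` is the one of `Φ ^ k`. With `a = u δv` we have `R δC = t a E`, `δR δC = (t δu δv + θ a) E`,
`δu δv = - a²` (since `δu = - u δv u`), so `Φ = (θ a - (t - t²) a²) E` and
`Φ ^ k = ((-(t - t²)) ^ k a ^ (2 k) + k (-(t - t²)) ^ (k - 1) θ a ^ (2 k - 1)) E`. As
`θ a ^ (2 k - 1) = - a ^ (2 k - 1) θ`, the value is `-k (-1) ^ (k - 1) (∫ (t - t²) ^ (k - 1)) * eT T (dg g)
(a ^ (2 k - 1))`, and the integral is positive. Take `k = n + 1`. (All this can be done in `P[θ][G]`, or in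
`(Ω[G])₂[t][θ]`.) -/
def S_LG13 : Prop :=
  ∀ (G : Type w) [Group G] (g : G), S_Even.{v, w} G g → S_Odd.{v, w} G g

/-- **LG10.** Truncation of the power series `β = (1 - 4 X) ^ (-1/2)` and `α = (1 - β) / 2`.

Proof. `α = - ∑ (C(2 k, k) / 2) X ^ k`, `1 ≤ k ≤ n` (the central binomial coefficients are even for
`k ≥ 1`: `Nat.two_dvd_centralBinom_of_one_le`). `4 (α² - α - β² X) = β² (1 - 4 X) - 1`, whose coefficients
of degree `≤ n` vanish by `Pool.Agent.H183.LG8.LG8_holds` (statement `S_LG8` in Tasks.lean; file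
helper183_LG_LG8.lean on the store): the coefficient of `β²` at `j ≤ n` is `4 ^ j`. -/
def S_LG10 : Prop :=
  ∀ n : ℕ, ∃ α r : Polynomial ℤ,
    2 * α + (∑ k ∈ Finset.range (n + 1),
      Polynomial.C (Nat.centralBinom k : ℤ) * Polynomial.X ^ k) = 1 ∧
    α ^ 2 - α - (∑ k ∈ Finset.range (n + 1),
      Polynomial.C (Nat.centralBinom k : ℤ) * Polynomial.X ^ k) ^ 2 * Polynomial.X =
      Polynomial.X ^ (n + 1) * r

/-- **LG11.** Matrices over a cycle in the sense of Connes. `Cyc` is in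
`Pool/Graph/R_pool_sql_team_seeded_843ab51a/V11187/DG/Gr.lean` (fetch it with `team-store fetch`).

Proof. `ε` = the grading automorphism, `(-1) ^ i` on `𝒜 i`, entrywise on the matrices (ring endomorphism
built with `DirectSum.decompose`, or `GradedRing.proj`). Decompose into homogeneous components. `T` is
composed with `f : M →+ ℚ`, so elements `b` with `2 b = 0` do not matter (`ε a = a` says
`2 a_i = 0` for odd `i`). -/
def S_LG11 : Prop :=
  ∀ {K : Type u} [CommRing K] {Ω : Type v} [Ring Ω] [Algebra K Ω] {M : Type x} [AddCommGroup M]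
    [Module K M] (N : ℕ) (𝒜 : ℕ → Submodule K Ω) [GradedAlgebra 𝒜] (δ : Ω →ₗ[K] Ω) (T : Ω →ₗ[K] M),
    Cyc N 𝒜 δ T → ∀ (f : M →+ ℚ) (d : ℕ),
    ∃ ε : Matrix (Fin d) (Fin d) Ω →+* Matrix (Fin d) (Fin d) Ω,
      (∀ X : Matrix (Fin d) (Fin d) Ω, (∀ i j, X i j ∈ 𝒜 0) → ε X = X) ∧
      (Even N → PC ε (δ.toAddMonoidHom.mapMatrix)
        (f.comp (T.toAddMonoidHom.comp (Matrix.traceAddMonoidHom (Fin d) Ω)))) ∧
      (Odd N → PO ε (δ.toAddMonoidHom.mapMatrix)
        (f.comp (T.toAddMonoidHom.comp (Matrix.traceAddMonoidHom (Fin d) Ω))))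

end Pool.Agent.H416.LG
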