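import Pool.Agent.H416.LG.Loc
import Pool.Agent.H416.LG.Tasks2

set_option autoImplicit false

/-!
# Further subtasks of project LG (helper416): nilpotent Euler classes
-/

namespace Pool.Agent.H416.LG

universe u v w x z

section psi

variable {X : Type v} {F : Type u} [Field F]

/-- The skew matrix with the entries `b (y i) (y j)`, bordered by `1`; the index `0` is the border. -/
def bord (b : X → X → F) {m : ℕ} (y : Fin m → X) (i j : Fin (m + 1)) : F :=
  Fin.cases (motive := fun _ => F) (Fin.cases (motive := fun _ => F) 0 (fun _ => 1) j)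
    (fun i' => Fin.cases (motive := fun _ => F) (-1) (fun j' => b (y i') (y j')) j) i

/-- The Pfaffian of the bordered matrix, up to a factor. -/
def psi (b : X → X → F) {k m : ℕ} (s : Fin k × Fin 2 ≃ Fin (m + 1)) (y : Fin m → X) : F :=
  ∑ σ : Equiv.Perm (Fin (m + 1)), (Equiv.Perm.sign σ : ℤ) •
    ∏ l : Fin k, bord b y (σ (s (l, 0))) (σ (s (l, 1)))

end psi

/-- **LG20.** `psi` is alternating.

Proof. Extend `τ` to `τ'` on `Fin (m + 1)`, `τ' 0 = 0`, `τ' i.succ = (τ i).succ`
(`Equiv.Perm.decomposeFin.symm (0, τ)`, `Equiv.Perm.decomposeFin.symm_sign`,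
`Equiv.Perm.decomposeFin_symm_of_one`/`decomposeFin_symm_apply_succ`); `bord b (y ∘ τ) i j =
bord b y (τ' i) (τ' j)`, and replace `σ` by `τ'⁻¹ * σ` in the sum. -/
def S_LG20 : Prop :=
  ∀ {X : Type v} {F : Type u} [Field F] (b : X → X → F) {k m : ℕ}
    (s : Fin k × Fin 2 ≃ Fin (m + 1)) (y : Fin m → X) (τ : Equiv.Perm (Fin m)),
    psi b s (fun i => y (τ i)) = (Equiv.Perm.sign τ : ℤ) • psi b s y

/-- **LG21.** `psi` does not change if one of the points is changed such that the values of `b` change by a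
constant.

Proof. `E = Fin (m + 1) → F`, `B (x, x') = ∑ i j, x i * bord b y i j * x' j` (bilinear). As in the proof of LG1
(`Pool.Agent.H229.LGA.mm`, `LG1_holds` in Pool/Agent/H416/LG/P1.lean, there for `s = finProdFinEquiv`;
generalise it to `s`, or reindex) the alternatization `Λ` of
`w ↦ ∏ l, B (w (s (l, 0))) (w (s (l, 1)))` is an alternating map and `psi b s y = Λ (e)`, `e` the standard
basis. If `p = i₀.succ` then `bord b y' i j = B (w i) (w j)` with `w = update e p (e p - κ e 0)`: for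
`i = p`, `j ∉ {0, p}`: `b (y i₀) (y j) - κ`; `j = 0`: `-1`; `i = j = p`: `b (y i₀) (y i₀) - κ (1 - 1) = 0`
(`b x x = 0` by skewness in characteristic zero). So `psi b s y' = Λ (w) = Λ (e)` since `Λ` is alternating
(`AlternatingMap.map_update_sub`, `map_update_smul`, `AlternatingMap.map_update_self`). -/
def S_LG21 : Prop :=
  ∀ {X : Type v} {F : Type u} [Field F] [CharZero F] (b : X → X → F),
    (∀ x y, b x y = -b y x) → ∀ {k m : ℕ} (s : Fin k × Fin 2 ≃ Fin (m + 1)) (y y' : Fin m → X)
    (i₀ : Fin m) (κ : F), (∀ i, i ≠ i₀ → y' i = y i) →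
    (∀ j, j ≠ i₀ → b (y' i₀) (y j) = b (y i₀) (y j) - κ) → psi b s y' = psi b s y

/-- **LG22.** `psi` is a cocycle.

Proof. `E = Option X →₀ F` (or `Option (Fin (m + 1)) → F`, or `F × (X →₀ F)`) with the vectors `w_∞`, `w_x`, and
the bilinear form `B (w_x, w_y) = b x y`, `B (w_∞, w_x) = 1 = - B (w_x, w_∞)`, `B (w_∞, w_∞) = 0`. `Λ` = the alternatization
of `w ↦ ∏ l, B (w (s (l, 0))) (w (s (l, 1)))` (see LG1, `Pool.Agent.H229.LGA.mm` in
Pool/Agent/H416/LG/P1.lean), so `psi b s y = Λ (w_∞, w_(y 0), …)`. Let `Ω = Λ (w_∞, ·)` (`AlternatingMap.curryLeft`),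
`ε = B (w_∞, ·)`, and `Θ (v) = ∑ j, (-1) ^ j * ε (v j) * Ω (v without j)`, which is alternating in `m + 1` vectors
(`AlternatingMap.alternatizeUncurryFin`). Then the sum in question is `Θ (w_(y 0), …, w_(y m)) =
Θ (w_(y 0), w_(y 1) - w_(y 0), …, w_(y m) - w_(y 0))`. For these vectors `ε (v j) = 0` for
`j > 0`, so only `Ω (v 1, …, v m)` remains, and each product in
`Λ (w_∞, v 1, …, v m)` contains a factor `B (w_∞, v j) = 0`, `B (v j, w_∞) = 0` or `B (w_∞, w_∞) = 0` (every index
belongs to one pair). -/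
def S_LG22 : Prop :=
  ∀ {X : Type v} {F : Type u} [Field F] [CharZero F] (b : X → X → F),
    (∀ x y, b x y = -b y x) → ∀ {k m : ℕ} (s : Fin k × Fin 2 ≃ Fin (m + 1))
    (y : Fin (m + 1) → X), ∑ j : Fin (m + 1), (-1) ^ (j : ℕ) * psi b s (fun i => y (j.succAbove i)) = 0

/-- **LG23.** Alternation and coboundary.

Proof. `j.succAbove i = (j.cycleRange)⁻¹ i.succ` (`Fin.cycleRange_symm_succ`), and
`sign j.cycleRange = (-1) ^ j` (`Fin.sign_cycleRange`). Replacing `σ` by `σ * j.cycleRange` the left side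
becomes `(m + 1) * ∑ σ, sign σ * h (y ∘ σ ∘ succ)`. Now write `σ ∘ succ = (σ 0).succAbove ∘ τ`, with
`sign σ = (-1) ^ (σ 0) * sign τ`: use `Equiv.Perm.decomposeFin` (`decomposeFin.symm (a, e) = swap 0 a * …`)
together with `Fin.succAbove_cycleRange`, or the bijection `(a, τ) ↦ (a.cycleRange)⁻¹ * τ'`, `τ' 0 = 0`,
`τ' i.succ = (τ i).succ` (`decomposeFin.symm (0, τ)`) from `Fin (m + 1) × Perm (Fin m)` to
`Perm (Fin (m + 1))`. -/
def S_LG23 : Prop :=
  ∀ {X : Type v} {F : Type u} [Field F] (m : ℕ) (h : (Fin m → X) → F) (y : Fin (m + 1) → X),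
    ∑ σ : Equiv.Perm (Fin (m + 1)), (Equiv.Perm.sign σ : ℤ) •
      ∑ j : Fin (m + 1), (-1) ^ (j : ℕ) * h (fun i => y (σ (j.succAbove i))) =
    ((m : F) + 1) * ∑ j : Fin (m + 1), (-1) ^ (j : ℕ) *
      ∑ τ : Equiv.Perm (Fin m), (Equiv.Perm.sign τ : ℤ) • h (fun i => y (j.succAbove (τ i)))

/-- **LG18.** Groups of automorphisms of Noetherian local algebras (for example groups of germs of
diffeomorphisms, groups of automorphisms of varieties with a common fixed point).

Proof. `R / m ^ c` is finite dimensional over `F` for all `c` (`R` Noetherian, `m ^ i / m ^ (i + 1)` is a finite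
module over the residue field). `H` acts `F`-linearly on `R / m ^ c` (automorphisms preserve the maximal
ideal and its powers). Suppose that `g` has finite order on `R / m ^ c` for all `c`. Then some `a = g ^ k`,
`k > 0`, is the identity on `R / m ^ 2`. So `a x - x ∈ m ^ 2` for all `x`, and by induction
`a x - x ∈ m ^ (i + 1)` for `x ∈ m ^ i`, `i ≥ 1` (products). Hence `a - 1` is nilpotent on `R / m ^ c`; as `a` has
finite order there and the characteristic is zero, `a = 1` on `R / m ^ c` (see LG7, LG17: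
`Pool.Agent.H263.LG7.LG7_holds`, `Pool.Agent.H286.LG17.LG17_holds`, in P7.lean, P17.lean, which contain this
lemma). By Krull's intersection theorem (`Ideal.iInf_pow_eq_bot_of_isLocalRing`) `a = 1` on `R`, a
contradiction. So `g` has infinite order on some `R / m ^ c`; choose a basis. For a finitely generated
subgroup restrict the representation of `G`. -/
def S_LG18 : Prop :=
  ∀ {F : Type z} [Field F] [CharZero F] {R : Type z} [CommRing R] [IsNoetherianRing R] [IsLocalRing R]
    [Algebra F R] [Module.Finite F (IsLocalRing.ResidueField R)] (G : Type w) [Group G]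
    (φ : G →* (R ≃ₐ[F] R)) (g : G), (∀ k : ℕ, 0 < k → φ g ^ k ≠ 1) → OnLinear.{w, z} G g

end Pool.Agent.H416.LG
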