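import Pool.Agent.H416.LG.Core
import Pool.Agent.H416.LG.P1
import Pool.Agent.H416.LG.P2
import Pool.Agent.H416.LG.P3
import Pool.Agent.H416.LG.P4
import Pool.Agent.H416.LG.P5
import Pool.Agent.H416.LG.P6

set_option autoImplicit false

/-!
# The trace of an idempotent of a group ring at an element with `Datum`
-/

namespace Pool.Agent.H416.LG

open Fin Finset

universe u v w x z

section datum

variable {G : Type w} [Group G] {A : Type x} [Ring A] {F : Type u} [Field F] [CharZero F]

open Classical in
/-- The sum of the values of `T` on the coefficients at the conjugates of `g`. -/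
noncomputable def cT {M : Type*} [AddCommGroup M] (T : A →+ M) (g : G) (e : MonoidAlgebra A G) : M :=
  ∑ c ∈ e.coeff.support, if ∃ u : G, u * c = g * u then T (e.coeff c) else 0

/-- `e` is idempotent up to elements which are orthogonal to everything for the trace form of `T`. -/
def Idm {M : Type*} [AddCommGroup M] (T : A →+ M) (e : MonoidAlgebra A G) : Prop :=
  ∀ (W : A) (c : G), T (W * (e * e).coeff c) = T (W * e.coeff c)

theorem Idm.of_idem {M : Type*} [AddCommGroup M] (T : A →+ M) {e : MonoidAlgebra A G}
    (he : e * e = e) : Idm T e := fun W c => by rw [he]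

omit [CharZero F] in
theorem hee_of (T : A →+ F) (e : MonoidAlgebra A G) (he : Idm T e) (H : G → F) (W : A) :
    ∑ a ∈ e.coeff.support, ∑ b ∈ e.coeff.support,
      H (a * b) * T (W * (e.coeff a * e.coeff b)) =
    ∑ c ∈ e.coeff.support, H c * T (W * e.coeff c) := by
  classical
  -- the additive functional `y ↦ ∑ H c * T (W * y c)`
  let L : MonoidAlgebra A G → F := fun y => y.coeff.sum fun c r => H c * T (W * r)
  have hadd : ∀ y z : MonoidAlgebra A G, L (y + z) = L y + L z := by
    intro y z
    simp only [L]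
    rw [MonoidAlgebra.coeff_add]
    refine Finsupp.sum_add_index' (fun c => ?_) (fun c r s => ?_)
    · rw [mul_zero, map_zero, mul_zero]
    · rw [mul_add, map_add, mul_add]
  have hzero : L 0 = 0 := by
    simp only [L]
    rw [MonoidAlgebra.coeff_zero, Finsupp.sum_zero_index]
  have hsingle : ∀ (c : G) (r : A), L (MonoidAlgebra.single c r) = H c * T (W * r) := by
    intro c r
    simp only [L]
    rw [MonoidAlgebra.coeff_single, Finsupp.sum_single_index]
    rw [mul_zero, map_zero, mul_zero]
  let L' : MonoidAlgebra A G →+ F := ⟨⟨L, hzero⟩, hadd⟩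
  have h1 : e = ∑ a ∈ e.coeff.support, MonoidAlgebra.single a (e.coeff a) := by
    apply MonoidAlgebra.coeff_injective
    ext s
    rw [MonoidAlgebra.coeff_sum, Finset.sum_apply']
    simp only [MonoidAlgebra.coeff_single, Finsupp.single_apply]
    rw [Finset.sum_ite_eq']
    split_ifs with h
    · rfl
    · exact Finsupp.notMem_support_iff.1 h
  have h2 : L' e = ∑ c ∈ e.coeff.support, H c * T (W * e.coeff c) := rfl
  have h3 : L' (e * e) = ∑ a ∈ e.coeff.support, ∑ b ∈ e.coeff.support,
      H (a * b) * T (W * (e.coeff a * e.coeff b)) := by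
    conv_lhs => rw [h1]
    rw [Finset.sum_mul, map_sum]
    refine Finset.sum_congr rfl fun a _ => ?_
    rw [Finset.mul_sum, map_sum]
    refine Finset.sum_congr rfl fun b _ => ?_
    rw [MonoidAlgebra.single_mul_single]
    exact hsingle _ _
  rw [← h2, ← h3]
  show L (e * e) = L e
  simp only [L]
  rw [Finsupp.sum_of_support_subset (e * e).coeff Finset.subset_union_left _
      (s := (e * e).coeff.support ∪ e.coeff.support)
      (fun c _ => by rw [mul_zero, map_zero, mul_zero]),
    Finsupp.sum_of_support_subset e.coeff Finset.subset_union_right _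
      (s := (e * e).coeff.support ∪ e.coeff.support)
      (fun c _ => by rw [mul_zero, map_zero, mul_zero])]
  exact Finset.sum_congr rfl fun c _ => by rw [he W c]

omit [CharZero F] in
theorem Ev_one_eq [DecidableEq G] (T : A →+ F) (e : G →₀ A)
    (hee : ∀ (H : G → F) (W : A), ∑ a ∈ e.support, ∑ b ∈ e.support,
      H (a * b) * T (W * (e a * e b)) = ∑ c ∈ e.support, H c * T (W * e c)) (g : G) (n : ℕ) :
    Ev T e g n (fun _ => 1) = Ev T e g 0 (fun _ => 1) := by
  induction n with
  | zero => rfl
  | succ n ih =>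
    rw [← ih]
    exact Ev_forget_last T e hee g n (fun _ => 1)

omit [CharZero F] in
theorem Ev_zero_eq [DecidableEq G] (T : A →+ F) (e : MonoidAlgebra A G) (g : G) :
    Ev T e.coeff g 0 (fun _ => 1) = cT T g e := by
  classical
  unfold Ev cT
  rw [Fintype.piFinset_of_isEmpty, Finset.univ_unique, Finset.sum_singleton]
  refine Finset.sum_congr rfl fun c _ => ?_
  have h1 : Fin.partialProd (default : Fin 0 → G) (Fin.last 0) = 1 := by
    rw [Fin.last_zero, Fin.partialProd_zero]
  have h2 : wd e.coeff (default : Fin 0 → G) = 1 := by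
    unfold wd
    rw [Fin.last_zero, Fin.partialProd_zero]
  rw [h1, h2, one_mul, one_mul, one_mul]

/-- **The trace vanishes at the elements with a datum.** -/
theorem cT_zero (T : A →+ F) (hT : ∀ a b : A, T (a * b) = T (b * a)) {g : G}
    (hD : Datum F G g) (e : MonoidAlgebra A G) (he : Idm T e) : cT T g e = 0 := by
  classical
  obtain ⟨E, _, _, _, B, r, κ, hκ, hskew, hinv, hshift⟩ := hD
  have hee := hee_of T e he
  rw [← Ev_zero_eq]
  set k := Module.finrank F E + 1 with hk
  have hfin : Module.finrank F E < k * 2 := by omega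
  obtain ⟨m, hm⟩ : ∃ m, k * 2 = m + 1 := ⟨k * 2 - 1, by omega⟩
  rw [← Ev_one_eq T e.coeff hee g m]
  let α : G → G → F := fun a b => B (r a) (r b) - κ / 2
  have h2 : (2 : F) ≠ 0 := two_ne_zero
  have hα : ∀ a b : G, α b (g * a) = -α a b := by
    intro a b
    simp only [α]
    rw [hshift b a, hskew b a]
    field_simp
    ring
  have hi : ∀ c a b : G, c * g = g * c → α (c * a) (c * b) = α a b := by
    intro c a b hc
    simp only [α]
    rw [hinv c a b hc]
  have hself : ∀ a : G, B (r a) (r a) = 0 := fun a => self_eq_neg.1 (hskew a a)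
  have hAA : ∀ {m : ℕ} (y : Fin m → G) (i j : Fin m),
      B (r (y i)) (r (y j)) = AA α y i j + κ / 2 * (J i j : ℤ) := by
    intro m y i j
    unfold AA J
    rcases lt_trichotomy i j with h | h | h
    · rw [if_pos h, if_pos h]
      simp only [α]
      push_cast
      ring
    · subst h
      rw [if_neg (lt_irrefl i), if_neg (lt_irrefl i), if_neg (lt_irrefl i), if_neg (lt_irrefl i),
        hself]
      simp
    · rw [if_neg (not_lt.2 h.le), if_neg (not_lt.2 h.le), if_pos h, if_pos h, hskew]
      simp only [α]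
      push_cast
      ring
  -- transport along `k * 2 = m + 1`
  have key : ∀ (p : ℕ) (s : Fin k × Fin 2 ≃ Fin p),
      (∀ y : Fin p → G, ∑ σ : Equiv.Perm (Fin p), (Equiv.Perm.sign σ : ℤ) •
        ∏ l : Fin k, B (r (y (σ (s (l, 0))))) (r (y (σ (s (l, 1))))) = 0) →
      (∑ σ : Equiv.Perm (Fin p), (Equiv.Perm.sign σ : ℤ) *
        ∏ l : Fin k, J (σ (s (l, 0))) (σ (s (l, 1))) ≠ 0) →
      p = m + 1 → Ev T e.coeff g m (fun _ => 1) = 0 := by
    intro p s h3 h4 hp
    subst hp
    refine Ev_const T hT e.coeff hee g k m s α (κ / 2) (div_ne_zero hκ h2) hα hi (fun y => ?_) h4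
    rw [← h3 y]
    refine Finset.sum_congr rfl fun σ _ => ?_
    congr 1
    exact Finset.prod_congr rfl fun l _ => (hAA y _ _).symm
  exact key (k * 2) finProdFinEquiv
    (fun y => Pool.Agent.H229.LGA.LG1_holds B k hfin fun i => r (y i))
    (Pool.Agent.H229.LGB.LG2_holds k) hm

end datum

end Pool.Agent.H416.LG
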